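import Pool.Agent.RLM.Targets3

set_option autoImplicit false

/-!
# RLM: ALG, the algebra of the Hurwitz conditions
-/

open scoped Classical Matroid

namespace Pool.Agent.RLM

namespace ALG_

/-- the determinant -/
theorem det_eq (F1 F2 F3 F4 D E a b : ℤ) (hD : D = F4 - F3 + F2 - F1)
    (hE : E = F3 - 2 * F2 + 2 * F1) (ha : a = F1 - 4) (hb : b = F2 - 3 * F1 + 6) :
    k3 F1 F2 F3 F4 * k2 F1 F2 F3 F4 * k1 F1 F2 F3 F4 -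
      k3 F1 F2 F3 F4 ^ 2 * k0 F1 F2 F3 F4 - k1 F1 F2 F3 F4 ^ 2 * F4 =
    64 * (D * (D * (D + 2 - b)) + E * (a * (D + 1) - (E + a))) := by
  subst hD hE ha hb
  unfold k3 k2 k1 k0
  ring

end ALG_

open ALG_ in
theorem p_ALG : T_ALG := by
  intro F1 F2 F3 F4 h6 hF4 hk3 hk2 hk1 hk0 hca hin
  refine ⟨hF4, hk3, hk2, hk1, hk0, ?_⟩
  obtain ⟨D, hD⟩ : ∃ D : ℤ, D = F4 - F3 + F2 - F1 := ⟨_, rfl⟩
  obtain ⟨E, hE⟩ : ∃ E : ℤ, E = F3 - 2 * F2 + 2 * F1 := ⟨_, rfl⟩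
  obtain ⟨a, ha⟩ : ∃ a : ℤ, a = F1 - 4 := ⟨_, rfl⟩
  obtain ⟨b, hb⟩ : ∃ b : ℤ, b = F2 - 3 * F1 + 6 := ⟨_, rfl⟩
  rw [det_eq F1 F2 F3 F4 D E a b hD hE ha hb]
  have hE0 : 0 ≤ E := by rw [hE]; exact hca
  have hDE : E ≤ 2 * D := by
    unfold k1 at hk1
    rw [hD, hE]
    linarith
  have hD0 : 0 ≤ D := by linarith
  have h1 : D * (b - D - 2) ≤ (a - 2) * E := by
    have e1 : D * (b - D - 2) = (F4 - F3 + F2 - F1) *
        (F2 - 3 * F1 + 6 - (F4 - F3 + F2 - F1 + 1) - 1) := by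
      rw [hD, hb]
      ring
    have e2 : (a - 2) * E = (F1 - 6) * (F3 - 2 * F2 + 2 * F1) := by
      rw [ha, hE]
      ring
    rw [e1, e2]
    exact hin
  have h2 : D * (D * (b - D - 2)) ≤ D * ((a - 2) * E) := mul_le_mul_of_nonneg_left h1 hD0
  have h3 : 0 ≤ E * (2 * D - E) := mul_nonneg hE0 (by linarith)
  nlinarith

end Pool.Agent.RLM
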