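import Pool.Agent.RLM.Targets4

set_option autoImplicit false

/-!
# RLM: the target T_ALL
-/

open scoped Classical Matroid

noncomputable section

namespace Pool.Agent.RLM

theorem ALL_cnt_zero {α : Type} [Fintype α] (M : Matroid α) (r k : ℕ) (h : HasRk M r)
    (hk : r < k) : cnt M k = 0 := by
  unfold cnt
  rw [Finset.card_eq_zero, Finset.filter_eq_empty_iff]
  rintro A _ ⟨h1, h2⟩
  have := h.2 A h1
  omega

theorem ALL_cnt_pos {α : Type} [Fintype α] (M : Matroid α) (r : ℕ) (h : HasRk M r) :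
    0 < cnt M r := by
  obtain ⟨T, h1, h2⟩ := h.1
  unfold cnt
  rw [Finset.card_pos]
  exact ⟨T, Finset.mem_filter.2 ⟨Finset.mem_univ _, h1, h2⟩⟩

theorem p_ALL (h_M3 : T_M3) (h_M4 : T_M4) (h_SEP : T_SEP) (h_PRD : T_PRD) (h_HW3 : T_HW3)
    (h_K0 : T_K0) (h_H2 : T_H2) (h_OUT : T_OUT) : T_ALL := by
  intro α _ _ M r hr hM
  induction r using Nat.strong_induction_on generalizing M with
  | _ r ih =>
  intro t ht1 ht2
  have h0 : cnt M 0 = 1 := (h_OUT α M).1
  rcases Nat.lt_or_ge r 2 with hr2 | hr2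
  · have hc2 : cnt M 2 = 0 := ALL_cnt_zero M r 2 hM (by omega)
    have hc3 : cnt M 3 = 0 := ALL_cnt_zero M r 3 hM (by omega)
    have hc4 : cnt M 4 = 0 := ALL_cnt_zero M r 4 hM (by omega)
    rcases Nat.lt_or_ge r 1 with hr1 | hr1
    · have hc1 : cnt M 1 = 0 := ALL_cnt_zero M r 1 hM (by omega)
      simp [IP, hc1, hc2, hc3, hc4]
    · obtain rfl : r = 1 := by omega
      have hpos := ALL_cnt_pos M 1 hM
      rcases Nat.lt_or_ge (cnt M 1) 2 with hn | hn
      · have hc1 : cnt M 1 = 1 := by omega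
        intro h
        apply ht2
        simp only [IP, hc1, hc2, hc3, hc4, Nat.cast_one, Nat.cast_zero, zero_mul, add_zero,
          one_mul] at h
        exact eq_neg_of_add_eq_zero_right h
      · have := h_HW3.2.2 (cnt M 1 : ℤ) (by exact_mod_cast hn) t ht1
        simpa [IP, hc2, hc3, hc4] using this
  · by_cases hs : DiscA M r ∨ (r = 4 ∧ DiscB M) ∨ ¬ Ext M r 2
    · obtain ⟨A, i, j, hA, hi, hj, hij, hMi, hMj⟩ := h_SEP α M r hr2 hM hs
      rw [h_PRD α M A i j r hA hM hMi hMj hij hr t]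
      exact mul_ne_zero (ih i (by omega) (M ↾ A) (by omega) hMi t ht1 ht2)
        (ih j (by omega) (M ↾ (M.E \ A)) (by omega) hMj t ht1 ht2)
    · push Not at hs
      obtain ⟨hA, hB, hE⟩ := hs
      have hcases : r = 2 ∨ r = 3 ∨ r = 4 := by omega
      rcases hcases with rfl | rfl | rfl
      · have hc3 : cnt M 3 = 0 := ALL_cnt_zero M 2 3 hM (by omega)
        have hc4 : cnt M 4 = 0 := ALL_cnt_zero M 2 4 hM (by omega)
        have hpos := ALL_cnt_pos M 2 hM
        have h12 : cnt M 1 ≤ cnt M 2 := by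
          apply (h_H2 α M).2
          intro f hf
          apply hE {f}
          · rw [Finset.coe_singleton]
            exact Matroid.indep_singleton.2 hf
          · simp
        have hk := h_K0 α M 2 hM hE
        simp only [Finset.sum_range_succ, Finset.sum_range_zero, h0] at hk
        have hk' : (0 : ℝ) ≤ (cnt M 2 : ℝ) - 2 * cnt M 1 + 4 := by
          norm_num at hk
          linarith
        have hk2 : (0 : ℤ) ≤ (cnt M 2 : ℤ) - 2 * cnt M 1 + 4 := by exact_mod_cast hk'
        have := h_HW3.2.1 (cnt M 1 : ℤ) (cnt M 2 : ℤ) (by exact_mod_cast hpos)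
          (by exact_mod_cast h12) hk2 t ht1
        simpa [IP, hc3, hc4] using this
      · exact h_M3 α M hM hE hA t ht1 ht2
      · exact h_M4 α M hM hE hA (hB rfl) t ht1 ht2

end Pool.Agent.RLM
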