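import Pool.Agent.RLM.Targets3

set_option autoImplicit false

/-!
# RLM, target BAD: bad points
-/

open scoped Classical Matroid

noncomputable section

namespace Pool.Agent.RLM

namespace BAD_

theorem indepN {α : Type} [DecidableEq α] (M : Matroid α) (p : α) (hp : M.IsNonloop p) (T : Finset α) :
    (M ／ {p}).Indep (T : Set α) ↔ p ∉ T ∧ M.Indep ((insert p T : Finset α) : Set α) := by
  rw [hp.contractElem_indep_iff, Finset.mem_coe, Finset.coe_insert]

theorem closN {α : Type} (M : Matroid α) (p a x : α) :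
    x ∈ (M ／ {p}).closure {a} ↔ x ∈ M.closure {p, a} ∧ x ≠ p := by
  rw [Matroid.contract_closure_eq, Set.mem_sdiff, Set.mem_singleton_iff, Set.union_comm,
    ← Set.insert_eq]

theorem nlN {α : Type} (M : Matroid α) (p a : α) (hp : M.IsNonloop p) :
    (M ／ {p}).IsNonloop a ↔ p ≠ a ∧ M.Indep {p, a} := by
  rw [← Matroid.indep_singleton, hp.contractElem_indep_iff, Set.mem_singleton_iff]

end BAD_

open BAD_

theorem p_BAD : T_BAD := by
  intro α _ _ M p hp
  constructor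
  · rintro ⟨a, ha, hT⟩
    obtain ⟨h1, h2⟩ := (nlN M p a hp).1 ha
    refine ⟨a, h1, h2, fun T hpT hI hc => ?_⟩
    obtain ⟨x, hx, hxa⟩ := hT T ((indepN M p hp T).2 ⟨hpT, hI⟩) hc
    exact ⟨x, hx, ((closN M p a x).1 hxa).1⟩
  · rintro ⟨a, h1, h2, hT⟩
    refine ⟨a, (nlN M p a hp).2 ⟨h1, h2⟩, fun T hI hc => ?_⟩
    obtain ⟨hpT, hI'⟩ := (indepN M p hp T).1 hI
    obtain ⟨x, hx, hxa⟩ := hT T hpT hI' hc
    refine ⟨x, hx, (closN M p a x).2 ⟨hxa, ?_⟩⟩
    rintro rfl
    exact hpT hx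

end Pool.Agent.RLM
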