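import Pool.Agent.RLM.Targets2

set_option autoImplicit false

/-! # RLM target C3 -/

open scoped Classical Matroid

noncomputable section

namespace Pool.Agent.RLM

/-- An independent pair in rank three. -/
theorem C3_pair {α : Type} [DecidableEq α] (M : Matroid α) (h : HasRk M 3) :
    ∃ x y : α, x ≠ y ∧ M.Indep {x, y} := by
  obtain ⟨⟨T, hT, hc⟩, -⟩ := h
  obtain ⟨x, y, z, hxy, -, -, rfl⟩ := Finset.card_eq_three.1 hc
  refine ⟨x, y, hxy, hT.subset ?_⟩
  intro a ha
  simp only [Set.mem_insert_iff, Set.mem_singleton_iff] at ha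
  simp only [Finset.coe_insert, Finset.coe_singleton, Set.mem_insert_iff, Set.mem_singleton_iff]
  tauto

theorem p_C3 (h_CB : T_CB) (h_H2 : T_H2) (h_NC3 : T_NC3) : T_C3 := by
  intro α _ _ M hrk hext hdisc
  have hpair := C3_pair M hrk
  by_cases h3 : Ext M 3 3
  · have h1 := h_CB α M hpair h3 hdisc
    have h2 := (h_H2 α M).1 hpair (by
      intro x y hxy hi
      have := hext {x, y} (by simpa using hi) (by rw [Finset.card_pair hxy])
      simpa using this)
    omega
  · unfold Ext at h3
    push Not at h3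
    obtain ⟨T, hT, hc, hlt⟩ := h3
    have hge := hext T hT hc
    have hout : out M T = 2 := by omega
    have hc2 : T.card = 2 := by omega
    obtain ⟨x₀, y₀, hne, rfl⟩ := Finset.card_eq_two.1 hc2
    obtain ⟨R, uz, E2, hR, e1, e2, e3, h4⟩ :=
      h_NC3 α M x₀ y₀ hrk hext hdisc hne (by simpa using hT) hout
    have : 2 * uz ≤ uz * R := by nlinarith
    omega

end Pool.Agent.RLM
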