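import Pool.Agent.RLM.Targets2

set_option autoImplicit false

/-!
# RLM: target CB
-/

open scoped Classical Matroid

noncomputable section

namespace Pool.Agent.RLM

namespace CB_

variable {α : Type} {M : Matroid α}

/-- three lines through `f` -/
def Three (M : Matroid α) (f : α) : Prop :=
  ∃ x y z, x ≠ y ∧ y ≠ z ∧ x ≠ z ∧ f ≠ x ∧ f ≠ y ∧ f ≠ z ∧
    M.Indep {f, x, y} ∧ M.Indep {f, y, z} ∧ M.Indep {f, x, z}

theorem pair {a b : α} (ha : M.IsNonloop a) (hb : b ∈ M.E) (h : b ∉ M.closure {a}) :
    M.Indep {a, b} ∧ a ≠ b := by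
  have h1 : M.Indep ({a} : Set α) := ha.indep
  have h2 := (h1.notMem_closure_iff hb).1 h
  refine ⟨?_, ?_⟩
  · rw [Set.pair_comm]
    exact h2.1
  · intro h3
    exact h2.2 (by rw [h3]; exact Set.mem_singleton _)

theorem triple {a b c : α} (h : M.Indep {a, b}) (hc : c ∈ M.E) (h' : c ∉ M.closure {a, b}) :
    M.Indep {a, b, c} ∧ a ≠ c ∧ b ≠ c := by
  have h2 := (h.notMem_closure_iff hc).1 h'
  refine ⟨?_, ?_, ?_⟩
  · have h3 : ({a, b, c} : Set α) = insert c {a, b} := by
      ext x
      simp only [Set.mem_insert_iff, Set.mem_singleton_iff]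
      tauto
    rw [h3]
    exact h2.1
  · intro h3
    exact h2.2 (by rw [h3]; exact Set.mem_insert _ _)
  · intro h3
    exact h2.2 (by rw [h3]; exact Set.mem_insert_of_mem _ (Set.mem_singleton _))

theorem notMem_of {a b c : α} (h : M.Indep {a, b, c}) (hac : a ≠ c) (hbc : b ≠ c) :
    c ∉ M.closure {a, b} := by
  have h1 : M.Indep ({a, b} : Set α) := by
    refine h.subset ?_
    intro x hx
    simp only [Set.mem_insert_iff, Set.mem_singleton_iff] at hx ⊢
    tauto
  have hc : c ∈ M.E := h.subset_ground (by simp)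
  refine (h1.notMem_closure_iff hc).2 ⟨?_, ?_⟩
  · have h3 : insert c ({a, b} : Set α) = {a, b, c} := by
      ext x
      simp only [Set.mem_insert_iff, Set.mem_singleton_iff]
      tauto
    rw [h3]
    exact h
  · intro h3
    simp only [Set.mem_insert_iff, Set.mem_singleton_iff] at h3
    rcases h3 with h3 | h3
    · exact hac h3.symm
    · exact hbc h3.symm

/-- exchange -/
theorem clos_eq {p q f : α} (h1 : f ∈ M.closure {p, q}) (h2 : f ∉ M.closure {p}) :
    M.closure {p, f} = M.closure {p, q} := by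
  have h3 : f ∈ M.closure (insert q {p}) \ M.closure {p} := by
    refine ⟨?_, h2⟩
    rw [Set.pair_comm] at h1
    exact h1
  have h4 := M.closure_insert_congr h3
  rw [Set.pair_comm p f, Set.pair_comm p q]
  exact h4

theorem no_triple {p q : α} {T : Finset α} (hT : M.Indep (T : Set α)) (hc : T.card = 3)
    (h : ∀ x ∈ T, x ∈ M.closure {p, q}) : False := by
  have h1 : (T : Set α) ⊆ M.closure {p, q} := fun x hx => h x (Finset.mem_coe.1 hx)
  have h2 := hT.encard_le_eRk_of_subset h1
  rw [Matroid.eRk_closure_eq] at h2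
  have h3 : M.eRk {p, q} ≤ ({p, q} : Set α).encard := M.eRk_le_encard _
  have h4 : ({p, q} : Set α).encard ≤ 2 := by
    refine (Set.encard_insert_le _ _).trans ?_
    rw [Set.encard_singleton]
    exact le_of_eq (by norm_num)
  have h5 : (T : Set α).encard = 3 := by
    rw [Set.encard_coe_eq_coe_finsetCard, hc]
    rfl
  rw [h5] at h2
  have h6 : (3 : ℕ∞) ≤ 2 := h2.trans (h3.trans h4)
  exact absurd h6 (by decide)

theorem three_of {p q q' f : α} (h : M.Indep {p, q, q'}) (hpq : p ≠ q') (hqq : q ≠ q')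
    (hE : ∀ z ∈ M.E, z ∈ M.closure {p, q} ∨ z ∈ M.closure {p, q'}) (hD : ¬ DiscA M 3)
    (hf : f ∈ M.E) (hf' : f ∉ M.closure {p, q'}) : Three M f := by
  have hq' : q' ∉ M.closure {p, q} := notMem_of h hpq hqq
  have hpE : p ∈ M.E := h.subset_ground (by simp)
  have hqE : q ∈ M.E := h.subset_ground (by simp)
  have hqE' : q' ∈ M.E := h.subset_ground (by simp)
  have hpn : M.IsNonloop p := h.isNonloop_of_mem (by simp)
  have hqn' : M.IsNonloop q' := h.isNonloop_of_mem (by simp)
  have hfpq : f ∈ M.closure {p, q} := by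
    rcases hE f hf with h1 | h1
    · exact h1
    · exact absurd h1 hf'
  have hfp : f ∉ M.closure {p} := fun h1 =>
    hf' (M.closure_subset_closure (by simp) h1)
  have hcf := clos_eq hfpq hfp
  have hex : ∃ y ∈ M.E, y ∉ M.closure {p, q} ∧ y ∉ M.closure {q'} := by
    by_contra hcon
    apply hD
    refine ⟨q', hqn', fun T hT hc => ?_⟩
    by_contra h2
    apply no_triple hT hc (p := p) (q := q)
    intro x hx
    by_contra h3
    have hxE : x ∈ M.E := hT.subset_ground (Finset.mem_coe.2 hx)
    by_cases h4 : x ∈ M.closure {q'}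
    · exact h2 ⟨x, hx, h4⟩
    · exact hcon ⟨x, hxE, h3, h4⟩
  obtain ⟨y, hyE, hy1, hy2⟩ := hex
  have hyp : y ∈ M.closure {p, q'} := by
    rcases hE y hyE with h1 | h1
    · exact absurd h1 hy1
    · exact h1
  have hpf := pair hpn hf hfp
  -- {q', y}
  have hqy := pair hqn' hyE hy2
  have hcy : M.closure {q', y} = M.closure {p, q'} := by
    rw [Set.pair_comm] at hyp
    rw [clos_eq hyp hy2, Set.pair_comm]
  have hfy : f ∉ M.closure {q', y} := by
    rw [hcy]
    exact hf'
  have t1 := triple hqy.1 hf hfy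
  have t2 : M.Indep {p, f, q'} ∧ p ≠ q' ∧ f ≠ q' := triple hpf.1 hqE' (by rw [hcf]; exact hq')
  have t3 : M.Indep {p, f, y} ∧ p ≠ y ∧ f ≠ y := triple hpf.1 hyE (by rw [hcf]; exact hy1)
  refine ⟨p, q', y, hpq, hqy.2, t3.2.1, hpf.2.symm, t2.2.2, t3.2.2, ?_, ?_, ?_⟩
  · have h3 : ({f, p, q'} : Set α) = {p, f, q'} := by
      ext x
      simp only [Set.mem_insert_iff, Set.mem_singleton_iff]
      tauto
    rw [h3]
    exact t2.1
  · have h3 : ({f, q', y} : Set α) = {q', y, f} := by
      ext x
      simp only [Set.mem_insert_iff, Set.mem_singleton_iff]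
      tauto
    rw [h3]
    exact t1.1
  · have h3 : ({f, p, y} : Set α) = {p, f, y} := by
      ext x
      simp only [Set.mem_insert_iff, Set.mem_singleton_iff]
      tauto
    rw [h3]
    exact t3.1

/-- If some nonloop does not have three lines then all elements outside one of two lines do. -/
theorem struct {p : α} (hp : M.IsNonloop p) (hpt : ¬ Three M p) {q q' : α} (hq : q ∈ M.E)
    (hqp : q ∉ M.closure {p}) (hq' : q' ∈ M.E) (hqq : q' ∉ M.closure {p, q}) (hD : ¬ DiscA M 3)
    (f : α) (hf : f ∈ M.E) (h : f ∉ M.closure {p, q} ∨ f ∉ M.closure {p, q'}) : Three M f := by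
  have h1 := pair hp hq hqp
  have h2 := triple h1.1 hq' hqq
  have h3 : M.Indep {p, q', q} := by
    have h3 : ({p, q', q} : Set α) = {p, q, q'} := by
      ext x
      simp only [Set.mem_insert_iff, Set.mem_singleton_iff]
      tauto
    rw [h3]
    exact h2.1
  have hE : ∀ z ∈ M.E, z ∈ M.closure {p, q} ∨ z ∈ M.closure {p, q'} := by
    intro z hz
    by_contra hcon
    rw [not_or] at hcon
    apply hpt
    have h4 := triple h1.1 hz hcon.1
    have h5 : M.Indep {p, q'} := by
      refine h3.subset ?_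
      intro x hx
      simp only [Set.mem_insert_iff, Set.mem_singleton_iff] at hx ⊢
      tauto
    have h6 := triple h5 hz hcon.2
    exact ⟨q, q', z, h2.2.2, h6.2.2, h4.2.2, h1.2, h2.2.1, h4.2.1, h2.1, h6.1, h4.1⟩
  rcases h with h | h
  · exact three_of h3 h1.2 h2.2.2.symm (fun z hz => (hE z hz).symm) hD hf h
  · exact three_of h2.1 h2.2.1 h2.2.2 hE hD hf h

theorem disj {p : α} (hp : M.IsNonloop p) (hpt : ¬ Three M p) {q q' : α} (hq : q ∈ M.E)
    (hqp : q ∉ M.closure {p}) (hq' : q' ∈ M.E) (hqq : q' ∉ M.closure {p, q})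
    (z : α) (hz : z ∈ M.E) (hz1 : z ∉ M.closure {p, q}) (hz2 : z ∉ M.closure {p, q'}) :
    False := by
  have h1 := pair hp hq hqp
  have h2 := triple h1.1 hq' hqq
  have h4 := triple h1.1 hz hz1
  have h5 : M.Indep {p, q'} := by
    refine h2.1.subset ?_
    intro x hx
    simp only [Set.mem_insert_iff, Set.mem_singleton_iff] at hx ⊢
    tauto
  have h6 := triple h5 hz hz2
  exact hpt ⟨q, q', z, h2.2.2, h6.2.2, h4.2.2, h1.2, h2.2.1, h4.2.1, h2.1, h6.1, h4.1⟩

theorem ind_coe2 {α : Type} [DecidableEq α] {M : Matroid α} {a b : α} :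
    M.Indep (({a, b} : Finset α) : Set α) ↔ M.Indep {a, b} := by
  rw [Finset.coe_insert, Finset.coe_singleton]

end CB_

open CB_ in
theorem p_CB (h_OUT : T_OUT) (h_CTR : T_CTR) (h_HS : T_HS) (h_R2 : T_R2) (h_PAR : T_PAR) :
    T_CB := by
  intro α _ _ M hpair hExt hD
  obtain ⟨-, hc1, hc1', hout, hcon1, hindep⟩ := h_OUT α M
  have hout2 : ∀ a b : α, a ≠ b → M.Indep {a, b} → 3 ≤ out M {a, b} := by
    intro a b hab h
    exact hExt {a, b} (ind_coe2.2 h) (by rw [Finset.card_pair hab])
  -- the inequality at one nonloop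
  have hA : ∀ f, M.IsNonloop f → 3 * out M {f} ≤ cnt (M ／ {f}) 2 + 9 ∧
      (Three M f → 3 * out M {f} ≤ cnt (M ／ {f}) 2 + 7) := by
    intro f hf
    have hfE : f ∈ M.E := hf.mem_ground
    obtain ⟨hct, -, -⟩ := h_CTR α M f hf
    have h1 : ∀ g : α, (M ／ {f}).IsNonloop g → 3 ≤ out (M ／ {f}) {g} := by
      intro g hg
      have h2 : (M ／ {f}).Indep (({g} : Finset α) : Set α) := by
        rw [Finset.coe_singleton]
        exact hg.indep
      obtain ⟨h3, h4⟩ := (hct {g}).1 h2
      rw [hout f {g} hfE]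
      rw [Finset.mem_singleton] at h3
      exact hExt _ h4 (by rw [Finset.card_insert_of_notMem (by simpa using h3)]; rfl)
    obtain ⟨h2, h3⟩ := h_R2 α (M ／ {f}) h1
    rw [hcon1 f hf] at h2 h3
    refine ⟨h2, fun h4 => ?_⟩
    obtain ⟨x, y, z, hxy, hyz, hxz, hfx, hfy, hfz, t1, t2, t3⟩ := h4
    have key : ∀ a b : α, f ≠ a → f ≠ b → M.Indep {f, a, b} → (M ／ {f}).Indep {a, b} := by
      intro a b ha hb hab
      have h5 := (hct {a, b}).2 ⟨by simp [ha, hb], by
        rw [Finset.coe_insert, Finset.coe_insert, Finset.coe_singleton]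
        exact hab⟩
      rw [Finset.coe_insert, Finset.coe_singleton] at h5
      exact h5
    exact h3 x y z hxy hyz hxz (key x y hfx hfy t1) (key y z hfy hfz t2) (key x z hfx hfz t3)
  -- sums
  have hs2 := h_HS α M 2
  have hs1 := h_HS α M 1
  have hs1' : 2 * cnt M 2 = ∑ f ∈ nl M, out M {f} := by
    rw [show (2 : ℕ) * cnt M 2 = (1 + 1) * cnt M (1 + 1) from rfl, hs1]
    refine Finset.sum_congr rfl fun f hf => ?_
    have hf' : M.IsNonloop f := by
      have := hf
      unfold nl at this
      exact (Finset.mem_filter.1 this).2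
    exact hcon1 f hf'
  have hs2' : 3 * cnt M 3 = ∑ f ∈ nl M, cnt (M ／ {f}) 2 := hs2
  have hnl : ∀ f, f ∈ nl M ↔ M.IsNonloop f := by
    intro f
    unfold nl
    rw [Finset.mem_filter]
    simp
  let G := (nl M).filter fun f => Three M f
  have hG : 5 ≤ G.card → 2 * cnt M 2 + 4 ≤ cnt M 3 + 3 * cnt M 1 := by
    intro h5
    have h6 : ∑ f ∈ nl M, (3 * out M {f} + (if Three M f then 2 else 0)) ≤
        ∑ f ∈ nl M, (cnt (M ／ {f}) 2 + 9) := by
      refine Finset.sum_le_sum fun f hf => ?_
      obtain ⟨h7, h8⟩ := hA f ((hnl f).1 hf)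
      split_ifs with h9
      · have := h8 h9
        omega
      · omega
    rw [Finset.sum_add_distrib, Finset.sum_add_distrib, ← Finset.mul_sum, ← hs1', ← hs2',
      Finset.sum_const, smul_eq_mul, ← hc1'] at h6
    have h7 : ∑ f ∈ nl M, (if Three M f then 2 else 0) = G.card * 2 := by
      rw [← Finset.sum_filter, Finset.sum_const, smul_eq_mul]
    rw [h7] at h6
    omega
  apply hG
  by_cases hall : ∀ f, M.IsNonloop f → Three M f
  · -- all nonloops
    obtain ⟨x, y, hxy, hI⟩ := hpair
    have h1 : insert x (insert y (Finset.univ.filter fun z => z ∈ M.E ∧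
        z ∉ M.closure (({x, y} : Finset α) : Set α))) ⊆ G := by
      intro z hz
      have hz' : M.IsNonloop z := by
        rw [Finset.mem_insert, Finset.mem_insert, Finset.mem_filter] at hz
        rcases hz with hz | hz | hz
        · rw [hz]
          exact hI.isNonloop_of_mem (by simp)
        · rw [hz]
          exact hI.isNonloop_of_mem (by simp)
        · obtain ⟨-, hzE, hzc⟩ := hz
          rw [Matroid.isNonloop_iff_notMem_loops]
          intro h2
          exact hzc (M.closure_subset_closure (Set.empty_subset _) h2)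
      exact Finset.mem_filter.2 ⟨(hnl z).2 hz', hall z hz'⟩
    have h2 := Finset.card_le_card h1
    have hxc : x ∈ M.closure (({x, y} : Finset α) : Set α) := by
      refine M.subset_closure _ ?_ ?_
      · rw [Finset.coe_insert, Finset.coe_singleton]
        exact hI.subset_ground
      · simp
    have hyc : y ∈ M.closure (({x, y} : Finset α) : Set α) := by
      refine M.subset_closure _ ?_ ?_
      · rw [Finset.coe_insert, Finset.coe_singleton]
        exact hI.subset_ground
      · simp
    rw [Finset.card_insert_of_notMem, Finset.card_insert_of_notMem] at h2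
    · have h3 := hout2 x y hxy hI
      unfold out at h3
      omega
    · rw [Finset.mem_filter]
      exact fun h3 => h3.2.2 hyc
    · rw [Finset.mem_insert, Finset.mem_filter]
      rintro (h3 | h3)
      · exact hxy h3
      · exact h3.2.2 hxc
  · rw [not_forall] at hall
    obtain ⟨p, hp⟩ := hall
    rw [Classical.not_imp] at hp
    obtain ⟨hp, hpt⟩ := hp
    obtain ⟨x, y, hxy, hI⟩ := hpair
    have hxn : M.IsNonloop x := hI.isNonloop_of_mem (by simp)
    have hyn : M.IsNonloop y := hI.isNonloop_of_mem (by simp)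
    obtain ⟨hcl, hprl, -, -⟩ := h_PAR α M
    have hq : ∃ q, q ∈ M.E ∧ q ∉ M.closure {p} := by
      by_contra hcon
      have hx : x ∈ M.closure {p} := by
        by_contra h
        exact hcon ⟨x, hxn.mem_ground, h⟩
      have hy : y ∈ M.closure {p} := by
        by_contra h
        exact hcon ⟨y, hyn.mem_ground, h⟩
      have h1 := hcl p x hp hxn hx
      rw [← h1] at hy
      exact (hprl x y hxn hyn).2 ⟨hxy, hI⟩ hy
    obtain ⟨q, hqE, hqp⟩ := hq
    have h1 := pair hp hqE hqp
    have h3 := hout2 p q h1.2 h1.1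
    have hq' : ∃ q', q' ∈ M.E ∧ q' ∉ M.closure {p, q} := by
      by_contra hcon
      unfold out at h3
      rw [Finset.filter_false_of_mem] at h3
      · simp at h3
      · intro z _ hz
        apply hcon
        refine ⟨z, hz.1, ?_⟩
        have := hz.2
        rw [Finset.coe_insert, Finset.coe_singleton] at this
        exact this
    obtain ⟨q', hqE', hqq⟩ := hq'
    have h2 := triple h1.1 hqE' hqq
    have h5 : M.Indep {p, q'} := by
      refine h2.1.subset ?_
      intro x hx
      simp only [Set.mem_insert_iff, Set.mem_singleton_iff] at hx ⊢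
      tauto
    have h4 := hout2 p q' h2.2.1 h5
    have h6 : (Finset.univ.filter fun z => z ∈ M.E ∧ z ∉ M.closure (({p, q} : Finset α) : Set α))
        ∪ (Finset.univ.filter fun z => z ∈ M.E ∧
          z ∉ M.closure (({p, q'} : Finset α) : Set α)) ⊆ G := by
      intro z hz
      rw [Finset.mem_union, Finset.mem_filter, Finset.mem_filter] at hz
      rw [Finset.coe_insert, Finset.coe_singleton, Finset.coe_insert,
        Finset.coe_singleton] at hz
      have hzE : z ∈ M.E := by
        rcases hz with hz | hz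
        · exact hz.2.1
        · exact hz.2.1
      have hz2 : z ∉ M.closure {p, q} ∨ z ∉ M.closure {p, q'} := by
        rcases hz with hz | hz
        · exact Or.inl hz.2.2
        · exact Or.inr hz.2.2
      have hzn : M.IsNonloop z := by
        rw [Matroid.isNonloop_iff_notMem_loops]
        intro h7
        rcases hz2 with hz2 | hz2
        · exact hz2 (M.closure_subset_closure (Set.empty_subset _) h7)
        · exact hz2 (M.closure_subset_closure (Set.empty_subset _) h7)
      exact Finset.mem_filter.2 ⟨(hnl z).2 hzn, struct hp hpt hqE hqp hqE' hqq hD z hzE hz2⟩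
    have h7 := Finset.card_le_card h6
    rw [Finset.card_union_of_disjoint] at h7
    · unfold out at h3 h4
      omega
    · rw [Finset.disjoint_left]
      intro z hz hz'
      rw [Finset.mem_filter, Finset.coe_insert, Finset.coe_singleton] at hz hz'
      exact disj hp hpt hqE hqp hqE' hqq z hz.2.1 hz.2.2 hz'.2.2

end Pool.Agent.RLM
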