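import Pool.Agent.RLM.P_OUT

set_option autoImplicit false

/-!
# RLM, CTR: contraction of a nonloop
-/

open scoped Classical Matroid

noncomputable section

namespace Pool.Agent.RLM

namespace CTR_

theorem indep_iff {α : Type} [DecidableEq α] (M : Matroid α) (e : α) (he : M.IsNonloop e) (A : Finset α) :
    (M ／ {e}).Indep (A : Set α) ↔ e ∉ A ∧ M.Indep ((insert e A : Finset α) : Set α) := by
  rw [he.contractElem_indep_iff, Finset.coe_insert, Finset.mem_coe]

theorem exists_insert {α : Type} [Fintype α] (M : Matroid α) (e : α) (he : M.IsNonloop e)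
    (r : ℕ) (h : HasRk M (r + 1)) :
    ∃ B : Finset α, e ∈ B ∧ M.Indep (B : Set α) ∧ B.card = r + 1 := by
  obtain ⟨⟨T, hT, hTc⟩, hmax⟩ := h
  obtain ⟨B, hB, heB⟩ := he.indep.exists_isBase_superset
  obtain ⟨C, hC, hTC⟩ := hT.exists_isBase_superset
  refine ⟨B.toFinset, ?_, ?_, ?_⟩
  · rw [Set.mem_toFinset]; exact heB rfl
  · rw [Set.coe_toFinset]; exact hB.indep
  · have h1 : B.toFinset.card ≤ r + 1 := by
      apply hmax
      rw [Set.coe_toFinset]; exact hB.indep
    have h2 : B.encard = C.encard := hB.encard_eq_encard_of_isBase hC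
    have h3 : (T : Set α).encard ≤ C.encard := Set.encard_le_encard hTC
    rw [← h2, Set.encard_coe_eq_coe_finsetCard, Set.encard_eq_coe_toFinset_card, hTc] at h3
    have h4 : r + 1 ≤ B.toFinset.card := by exact_mod_cast h3
    omega

end CTR_

theorem p_CTR : T_CTR := by
  intro α _ _ M e he
  refine ⟨CTR_.indep_iff M e he, ?_, ?_⟩
  · intro r h
    obtain ⟨B, heB, hB, hBc⟩ := CTR_.exists_insert M e he r h
    refine ⟨⟨B.erase e, ?_, ?_⟩, ?_⟩
    · rw [CTR_.indep_iff M e he]
      refine ⟨Finset.notMem_erase e B, ?_⟩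
      rw [Finset.insert_erase heB]; exact hB
    · rw [Finset.card_erase_of_mem heB, hBc]; rfl
    · intro T hT
      rw [CTR_.indep_iff M e he] at hT
      have := h.2 _ hT.2
      rw [Finset.card_insert_of_notMem hT.1] at this
      omega
  · intro r s h T hT hTc
    have h4 := (p_OUT α M).2.2.2.1 e T he.mem_ground
    rw [CTR_.indep_iff M e he] at hT
    rw [h4]
    refine h (insert e T) hT.2 ?_
    rw [Finset.card_insert_of_notMem hT.1]
    omega

end Pool.Agent.RLM
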