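import Pool.Agent.RLM.Targets2

set_option autoImplicit false

/-!
# RLM: D3, disconnected cosimple rank three
-/

open scoped Classical Matroid

noncomputable section

namespace Pool.Agent.RLM

namespace D3_

/-- The independent pairs outside the class of `a`. -/
def PP {α : Type} [Fintype α] (M : Matroid α) (a : α) : Finset (Finset α) :=
  Finset.univ.filter fun A : Finset α => M.Indep (A : Set α) ∧ A.card = 2 ∧
      ∀ y ∈ A, y ∉ M.closure {a}

/-- The hypotheses of D3. -/
structure Dat {α : Type} [Fintype α] (M : Matroid α) (a : α) : Prop where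
  rk : HasRk M 3
  ext : Ext M 3 3
  na : M.IsNonloop a
  meet : ∀ T : Finset α, M.Indep (T : Set α) → T.card = 3 → ∃ x ∈ T, x ∈ M.closure {a}

lemma exi {α : Type} [Fintype α] {M : Matroid α} {T : Finset α} {s : ℕ} (h : s + 1 ≤ out M T) :
    ∃ z ∈ M.E, z ∉ M.closure (T : Set α) := by
  have h1 : 0 < out M T := by omega
  unfold out at h1
  obtain ⟨z, hz⟩ := Finset.card_pos.1 h1
  rw [Finset.mem_filter] at hz
  exact ⟨z, hz.2⟩

variable {α : Type} [Fintype α] [DecidableEq α] {M : Matroid α} {a : α}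

/-- outside the closure of a pair outside the class there are only elements of the class -/
lemma Dat.outcl (h : Dat M a) {A : Finset α} (hA : M.Indep (A : Set α)) (h2 : A.card = 2)
    (h3 : ∀ y ∈ A, y ∉ M.closure {a}) {z : α} (hzE : z ∈ M.E) (hz : z ∉ M.closure (A : Set α)) :
    z ∈ M.closure {a} := by
  have h4 := (hA.notMem_closure_iff hzE).1 hz
  have h5 : M.Indep ((insert z A : Finset α) : Set α) := by
    rw [Finset.coe_insert]
    exact h4.1
  have h6 : z ∉ A := fun h => h4.2 (Finset.mem_coe.2 h)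
  obtain ⟨x, hx, hxa⟩ := h.meet _ h5 (by rw [Finset.card_insert_of_notMem h6, h2])
  rcases Finset.mem_insert.1 hx with rfl | hx
  · exact hxa
  · exact absurd hxa (h3 x hx)

lemma Dat.nota (h : Dat M a) {A : Finset α} (hA : M.Indep (A : Set α)) (h2 : A.card = 2)
    (h3 : ∀ y ∈ A, y ∉ M.closure {a}) : a ∉ M.closure (A : Set α) := by
  intro ha
  obtain ⟨z, hzE, hz⟩ := exi (s := 2) (h.ext A hA (by omega))
  have hxa := h.outcl hA h2 h3 hzE hz
  exact hz (M.closure_subset_closure_of_subset_closure (Set.singleton_subset_iff.2 ha) hxa)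

/-- the pairs outside the class are the pairs of the contraction -/
lemma Dat.ctr (h : Dat M a) (h1 : T_CTR) (h2 : T_PAR) : cnt (M ／ {a}) 2 = (PP M a).card := by
  have hc := (h1 α M a h.na).1
  have hp := (h2 α M).2.1
  unfold cnt PP
  congr 1
  ext A
  simp only [Finset.mem_filter, Finset.mem_univ, true_and]
  rw [hc A]
  constructor
  · rintro ⟨⟨haA, hI⟩, hcard⟩
    rw [Finset.coe_insert] at hI
    refine ⟨hI.subset (Set.subset_insert _ _), hcard, fun y hy => ?_⟩
    have hy' : y ∈ insert a (A : Set α) := Set.mem_insert_of_mem _ (Finset.mem_coe.2 hy)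
    refine (hp a y h.na (hI.isNonloop_of_mem hy')).2 ⟨fun he => haA (he ▸ hy), ?_⟩
    refine hI.subset ?_
    rintro x (rfl | rfl)
    · exact Set.mem_insert _ _
    · exact hy'
  · rintro ⟨hI, hcard, hy⟩
    have h3 := h.nota hI hcard hy
    have h4 := (hI.notMem_closure_iff h.na.mem_ground).1 h3
    refine ⟨⟨fun haA => h4.2 (Finset.mem_coe.2 haA), ?_⟩, hcard⟩
    rw [Finset.coe_insert]
    exact h4.1

omit [DecidableEq α] in
lemma mem_cls {x : α} : x ∈ cls M a ↔ M.IsNonloop x ∧ x ∈ M.closure {a} := by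
  simp [cls]

omit [DecidableEq α] in
lemma mem_PP {A : Finset α} : A ∈ PP M a ↔ M.Indep (A : Set α) ∧ A.card = 2 ∧
      ∀ y ∈ A, y ∉ M.closure {a} := by
  simp [PP]

/-- the rest of an independent triple is a pair outside the class -/
lemma Dat.erase (h : Dat M a) (h2 : T_PAR) {T : Finset α} (hT : M.Indep (T : Set α))
    (h3 : T.card = 3) {x : α} (hx : x ∈ T) (hxa : x ∈ M.closure {a}) : T.erase x ∈ PP M a := by
  rw [mem_PP]
  refine ⟨hT.subset (by
    rw [Finset.coe_erase]
    exact Set.sdiff_subset), by rw [Finset.card_erase_of_mem hx, h3], fun y hy hya => ?_⟩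
  have hyT := Finset.mem_of_mem_erase hy
  have hyx := Finset.ne_of_mem_erase hy
  have nx := hT.isNonloop_of_mem (Finset.mem_coe.2 hx)
  have ny := hT.isNonloop_of_mem (Finset.mem_coe.2 hyT)
  have h4 : y ∉ M.closure {x} := by
    refine ((h2 α M).2.1 x y nx ny).2 ⟨hyx.symm, hT.subset ?_⟩
    rintro z (rfl | rfl)
    · exact Finset.mem_coe.2 hx
    · exact Finset.mem_coe.2 hyT
  rw [(h2 α M).1 a x h.na nx hxa] at h4
  exact h4 hya

/-- number of independent triples -/
lemma Dat.tri (h : Dat M a) (h2 : T_PAR) : cnt M 3 = (cls M a).card * (PP M a).card := by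
  rw [← Finset.card_product]
  symm
  unfold cnt
  refine Finset.card_nbij (fun p : α × Finset α => insert p.1 p.2) ?_ ?_ ?_
  · rintro ⟨x, A⟩ hp
    rw [Finset.mem_coe, Finset.mem_product, mem_cls, mem_PP] at hp
    obtain ⟨⟨nx, hxa⟩, hA, hc, hy⟩ := hp
    dsimp only at nx hxa hA hc hy
    have hcl := (h2 α M).1 a x h.na nx hxa
    have h3 : x ∉ M.closure (A : Set α) := by
      intro hx
      refine h.nota hA hc hy ?_
      have h4 := M.closure_subset_closure_of_subset_closure (Set.singleton_subset_iff.2 hx)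
      rw [hcl] at h4
      exact h4 (M.mem_closure_self a h.na.mem_ground)
    have h4 := (hA.notMem_closure_iff nx.mem_ground).1 h3
    rw [Finset.mem_coe, Finset.mem_filter]
    refine ⟨Finset.mem_univ _, by rw [Finset.coe_insert]; exact h4.1, ?_⟩
    rw [Finset.card_insert_of_notMem (fun hx => h4.2 (Finset.mem_coe.2 hx))]
    exact congrArg (· + 1) hc
  · rintro ⟨x, A⟩ hp ⟨x', A'⟩ hp' he
    rw [Finset.mem_coe, Finset.mem_product, mem_cls, mem_PP] at hp hp'
    obtain ⟨⟨-, hxa⟩, -, -, hy⟩ := hp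
    obtain ⟨⟨-, hxa'⟩, -, -, hy'⟩ := hp'
    dsimp only at hxa hy hxa' hy' he
    have h3 : x = x' := by
      have h4 : x ∈ insert x' A' := he ▸ Finset.mem_insert_self x A
      rcases Finset.mem_insert.1 h4 with h5 | h5
      · exact h5
      · exact absurd hxa (hy' x h5)
    subst h3
    have h5 : A = A' := by
      rw [← Finset.erase_insert (fun hx => hy x hx hxa), he,
        Finset.erase_insert (fun hx => hy' x hx hxa)]
    rw [h5]
  · intro T hT
    rw [Finset.mem_coe, Finset.mem_filter] at hT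
    obtain ⟨-, hI, hc⟩ := hT
    obtain ⟨x, hx, hxa⟩ := h.meet T hI hc
    refine ⟨(x, T.erase x), ?_, Finset.insert_erase hx⟩
    rw [Finset.mem_coe, Finset.mem_product, mem_cls]
    exact ⟨⟨hI.isNonloop_of_mem (Finset.mem_coe.2 hx), hxa⟩, h.erase h2 hI hc hx hxa⟩

/-- the class has at least three elements -/
lemma Dat.three (h : Dat M a) (h2 : T_PAR) : 3 ≤ (cls M a).card := by
  obtain ⟨⟨T, hT, hc⟩, -⟩ := h.rk
  obtain ⟨x, hx, hxa⟩ := h.meet T hT hc
  have hP := h.erase h2 hT hc hx hxa
  rw [mem_PP] at hP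
  obtain ⟨hI, hc2, hy⟩ := hP
  refine (h.ext _ hI (by omega)).trans ?_
  unfold out
  refine Finset.card_le_card fun z hz => ?_
  rw [Finset.mem_filter] at hz
  rw [mem_cls]
  refine ⟨?_, h.outcl hI hc2 hy hz.2.1 hz.2.2⟩
  rw [Matroid.isNonloop_iff_mem_compl_loops]
  exact ⟨hz.2.1, fun hl => hz.2.2 (M.closure_mono (Set.empty_subset _) hl)⟩

/-- the classes of the contraction miss at least three elements -/
lemma Dat.outf (h : Dat M a) (h0 : T_OUT) (h1 : T_CTR) {f : α} (hf : (M ／ {a}).IsNonloop f) :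
    3 ≤ out (M ／ {a}) {f} := by
  rw [(h0 α M).2.2.2.1 a {f} h.na.mem_ground]
  have h2 : (M ／ {a}).Indep (({f} : Finset α) : Set α) := by
    rw [Finset.coe_singleton]
    exact hf.indep
  obtain ⟨h3, h4⟩ := ((h1 α M a h.na).1 {f}).1 h2
  refine h.ext _ h4 ?_
  rw [Finset.card_insert_of_notMem h3, Finset.card_singleton]

end D3_

open D3_ in
theorem p_D3 (h_OUT : T_OUT) (h_CTR : T_CTR) (h_R2 : T_R2) (h_PAR : T_PAR) : T_D3 := by
  intro α _ _ M a hrk hext hna hmeet
  have h : Dat M a := ⟨hrk, hext, hna, hmeet⟩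
  have e1 := h.ctr h_CTR h_PAR
  have e2 := h.tri h_PAR
  have e3 := h.three h_PAR
  have e4 := (h_PAR α M).2.2.2.1 a hna
  have e5 : cnt (M ／ {a}) 1 = out M {a} := (h_OUT α M).2.2.2.2.1 a hna
  have e6 := (h_PAR α (M ／ {a})).2.2.2.2
  have e7 := (h_OUT α (M ／ {a})).2.2.1
  have hf : ∀ f : α, (M ／ {a}).IsNonloop f → 3 ≤ out (M ／ {a}) {f} := fun f hf =>
    h.outf h_OUT h_CTR hf
  have e8 := (h_R2 α (M ／ {a}) hf).1
  -- twice the number of pairs
  have e9 : 3 * out M {a} ≤ 2 * cnt (M ／ {a}) 2 := by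
    rw [e6, ← e5, e7]
    have h1 : ∑ _e ∈ nl (M ／ {a}), 3 ≤ ∑ e ∈ nl (M ／ {a}), out (M ／ {a}) {e} := by
      refine Finset.sum_le_sum fun e he => hf e ?_
      unfold nl at he
      rw [Finset.mem_filter] at he
      exact he.2
    rw [Finset.sum_const, smul_eq_mul] at h1
    omega
  -- at least four elements outside the class
  have e10 : 4 ≤ out M {a} := by
    obtain ⟨⟨T, hT, hc⟩, -⟩ := hrk
    obtain ⟨x, hx, hxa⟩ := hmeet T hT hc
    have hP := h.erase h_PAR hT hc hx hxa
    have hg : 0 < (PP M a).card := Finset.card_pos.2 ⟨_, hP⟩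
    rw [← e1] at hg
    have h3 : 0 < cnt (M ／ {a}) 1 := by
      by_contra h0
      have h4 : cnt (M ／ {a}) 1 = 0 := by omega
      rw [e7, Finset.card_eq_zero] at h4
      rw [h4, Finset.sum_empty] at e6
      omega
    rw [e7] at h3
    obtain ⟨f, hf'⟩ := Finset.card_pos.1 h3
    have hfn : (M ／ {a}).IsNonloop f := by
      unfold nl at hf'
      rw [Finset.mem_filter] at hf'
      exact hf'.2
    have h5 := hf f hfn
    have h6 := (h_PAR α (M ／ {a})).2.2.1 f hfn
    have h7 : 0 < (cls (M ／ {a}) f).card := Finset.card_pos.2 ⟨f, by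
      rw [mem_cls]
      exact ⟨hfn, Matroid.mem_closure_self _ f hfn.mem_ground⟩⟩
    omega
  rw [e5] at e8
  rw [e1] at e8 e9
  have e4' : cnt M 2 = (cls M a).card * out M {a} + (PP M a).card := by
    rw [e4]
    congr 2
    ext A
    rw [mem_PP, Finset.mem_filter]
    simp
  generalize hα : (cls M a).card = w at *
  generalize hℓ : out M {a} = l at *
  generalize hg : (PP M a).card = g at *
  have hV : VV M = (3 * (w : ℤ) - 4) * g - 4 * w * l + 24 := by
    unfold VV
    rw [e2, e4']
    push_cast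
    ring
  have w3 : (3 : ℤ) ≤ w := by exact_mod_cast e3
  rcases Nat.lt_or_ge l 5 with h5 | h5
  · left
    have hl : l = 4 := by omega
    subst hl
    have g6 : (6 : ℤ) ≤ g := by exact_mod_cast (by omega : 6 ≤ g)
    rw [hV]
    push_cast
    nlinarith
  rcases Nat.lt_or_ge l 6 with h6 | h6
  · left
    have hl : l = 5 := by omega
    subst hl
    have g6 : (8 : ℤ) ≤ g := by exact_mod_cast (by omega : 8 ≤ g)
    rw [hV]
    push_cast
    nlinarith
  rcases Nat.lt_or_ge l 7 with h7 | h7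
  · have hl : l = 6 := by omega
    subst hl
    have g9 : 9 ≤ g := by omega
    rcases Nat.lt_or_ge w 4 with hw | hw
    · have hw3 : w = 3 := by omega
      subst hw3
      rcases Nat.lt_or_ge g 10 with hg' | hg'
      · right
        have : g = 9 := by omega
        subst this
        refine ⟨by rw [hV]; norm_num, rfl, rfl, by rw [e4'], by rw [e2]⟩
      · left
        have g10 : (10 : ℤ) ≤ g := by exact_mod_cast hg'
        rw [hV]
        push_cast
        linarith
    · left
      have g9' : (9 : ℤ) ≤ g := by exact_mod_cast g9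
      have w4 : (4 : ℤ) ≤ w := by exact_mod_cast hw
      rw [hV]
      push_cast
      nlinarith
  · left
    have l7 : (7 : ℤ) ≤ l := by exact_mod_cast h7
    have g9 : 3 * (l : ℤ) - 9 ≤ g := by
      have : 3 * l ≤ g + 9 := e8
      have h9 : (3 * l : ℤ) ≤ g + 9 := by exact_mod_cast this
      linarith
    rw [hV]
    nlinarith [mul_le_mul_of_nonneg_left g9 (by linarith : (0 : ℤ) ≤ 3 * w - 4),
      mul_nonneg (by linarith : (0 : ℤ) ≤ w - 3) (by linarith : (0 : ℤ) ≤ 5 * l - 27)]

end Pool.Agent.RLM
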