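import Pool.Agent.RLM.Targets1

set_option autoImplicit false

open scoped Classical Matroid

noncomputable section

namespace Pool.Agent.RLM

namespace DEL_

theorem del_indep {α : Type} (M : Matroid α) (e : α) (A : Finset α) :
    (M ＼ {e}).Indep (A : Set α) ↔ M.Indep (A : Set α) ∧ e ∉ A := by
  rw [Matroid.delete_indep_iff, Set.disjoint_singleton_right, Finset.mem_coe]

theorem ctr_indep {α : Type} [DecidableEq α] (M : Matroid α) (e : α) (he : M.IsNonloop e)
    (A : Finset α) :
    (M ／ {e}).Indep (A : Set α) ↔ e ∉ A ∧ M.Indep ((insert e A : Finset α) : Set α) := by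
  rw [he.contractElem_indep_iff, Finset.mem_coe, Finset.coe_insert]

theorem cnt_split {α : Type} [Fintype α] [DecidableEq α] (M : Matroid α) (e : α)
    (he : M.IsNonloop e) (k : ℕ) :
    cnt M (k + 1) = cnt (M ＼ {e}) (k + 1) + cnt (M ／ {e}) k := by
  unfold cnt
  rw [← Finset.card_filter_add_card_filter_not
    (s := Finset.univ.filter fun A : Finset α => M.Indep (A : Set α) ∧ A.card = k + 1)
    (fun A : Finset α => e ∉ A)]
  congr 1
  · congr 1
    ext A
    simp only [Finset.mem_filter, Finset.mem_univ, true_and, del_indep]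
    tauto
  · refine Finset.card_bij (fun A _ => A.erase e) ?_ ?_ ?_
    · intro A hA
      simp only [Finset.mem_filter, Finset.mem_univ, true_and, not_not] at hA ⊢
      obtain ⟨⟨h1, h2⟩, h3⟩ := hA
      rw [ctr_indep M e he, Finset.insert_erase h3, Finset.card_erase_of_mem h3, h2]
      exact ⟨⟨Finset.notMem_erase e A, h1⟩, rfl⟩
    · intro A hA B hB h
      simp only [Finset.mem_filter, Finset.mem_univ, true_and, not_not] at hA hB
      rw [← Finset.insert_erase hA.2, ← Finset.insert_erase hB.2]
      exact congrArg (insert e) h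
    · intro B hB
      simp only [Finset.mem_filter, Finset.mem_univ, true_and] at hB
      rw [ctr_indep M e he] at hB
      obtain ⟨⟨h1, h2⟩, h3⟩ := hB
      refine ⟨insert e B, ?_, Finset.erase_insert h1⟩
      simp only [Finset.mem_filter, Finset.mem_univ, true_and, not_not]
      refine ⟨⟨h2, ?_⟩, Finset.mem_insert_self e B⟩
      rw [Finset.card_insert_of_notMem h1, h3]

theorem out_del {α : Type} [Fintype α] [DecidableEq α] (M : Matroid α) (e : α) (T : Finset α)
    (heT : e ∉ T) : out M T ≤ out (M ＼ {e}) T + 1 := by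
  have h1 : (Finset.univ.filter fun x => x ∈ (M ＼ {e}).E ∧ x ∉ (M ＼ {e}).closure (T : Set α)) =
      (Finset.univ.filter fun x => x ∈ M.E ∧ x ∉ M.closure (T : Set α)).erase e := by
    ext x
    rw [Matroid.delete_closure_eq_of_disjoint M
      (Set.disjoint_singleton_right.2 (by exact_mod_cast heT))]
    simp only [Finset.mem_filter, Finset.mem_univ, true_and, Finset.mem_erase,
      Matroid.delete_ground, Set.mem_sdiff, Set.mem_singleton_iff]
    tauto
  unfold out
  rw [h1]
  have h2 := Finset.pred_card_le_card_erase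
    (s := Finset.univ.filter fun x => x ∈ M.E ∧ x ∉ M.closure (T : Set α)) (a := e)
  omega

end DEL_

open DEL_ in
/-- Target `DEL`. -/
theorem p_DEL : T_DEL := by
  intro α _ _ M e he
  refine ⟨cnt_split M e he, ?_⟩
  intro r s hr hs hrk hext
  refine ⟨⟨?_, ?_⟩, ?_⟩
  · obtain ⟨⟨T, hT, hTc⟩, -⟩ := hrk
    by_cases heT : e ∈ T
    · have hT' : M.Indep ((T.erase e : Finset α) : Set α) :=
        hT.subset (by exact_mod_cast Finset.erase_subset e T)
      have hc : (T.erase e).card + 1 = r := by
        rw [Finset.card_erase_of_mem heT, hTc]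
        omega
      have h2 : 2 ≤ out M (T.erase e) := by
        have := hext _ hT' hc
        omega
      have h3 : 1 < (Finset.univ.filter fun x =>
          x ∈ M.E ∧ x ∉ M.closure ((T.erase e : Finset α) : Set α)).card := h2
      obtain ⟨x, hx, hxe⟩ := Finset.exists_mem_ne h3 e
      simp only [Finset.mem_filter, Finset.mem_univ, true_and] at hx
      have h4 := (hT'.notMem_closure_iff hx.1).1 hx.2
      have hxT : x ∉ T.erase e := fun hc => h4.2 (by exact_mod_cast hc)
      refine ⟨insert x (T.erase e), ?_, ?_⟩
      · rw [del_indep]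
        refine ⟨?_, ?_⟩
        · rw [Finset.coe_insert]
          exact h4.1
        · rw [Finset.mem_insert]
          rintro (h | h)
          · exact hxe h.symm
          · exact Finset.notMem_erase e T h
      · rw [Finset.card_insert_of_notMem hxT, hc]
    · exact ⟨T, (del_indep M e T).2 ⟨hT, heT⟩, hTc⟩
  · intro T hT
    exact hrk.2 T ((del_indep M e T).1 hT).1
  · intro T hT hTc
    obtain ⟨h1, h2⟩ := (del_indep M e T).1 hT
    have h3 := hext T h1 hTc
    have h4 := out_del M e T h2
    omega

end Pool.Agent.RLM
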