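import Pool.Agent.RLM.Targets4
import Pool.Agent.MatRel.Root
import Pool.Agent.MatRel.Mat

set_option autoImplicit false

/-!
# RLM: the final theorem (FIN)
-/

open scoped Classical Matroid

noncomputable section

namespace Pool.Agent.RLM

namespace FIN_

open Pool.Agent.MatRel

lemma M13_ncard : M13.E.ncard = 13 := by
  rw [M13_E, Set.ncard_univ]; simp

lemma M13_rel (z : ℂ) : rel M13 z = (1 - z) ^ 3 * hp.eval z := by
  obtain ⟨c0, c1, c2, c3, c4, c5, c6, c7, c8, c9, c10, c11, c12, c13⟩ := cc_all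
  rw [rel, M13_ncard]
  simp only [indepCount_eq]
  rw [Finset.sum_range_succ, Finset.sum_range_succ, Finset.sum_range_succ, Finset.sum_range_succ,
    Finset.sum_range_succ, Finset.sum_range_succ, Finset.sum_range_succ, Finset.sum_range_succ,
    Finset.sum_range_succ, Finset.sum_range_succ, Finset.sum_range_succ, Finset.sum_range_succ,
    Finset.sum_range_succ, Finset.sum_range_succ, Finset.sum_range_zero]
  rw [c0, c1, c2, c3, c4, c5, c6, c7, c8, c9, c10, c11, c12, c13, hp_eval]
  push_cast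
  ring

lemma M13_root : HasRootOutside M13 := by
  obtain ⟨z, hz, h⟩ := exists_root_outside
  exact ⟨z, hz, by rw [M13_rel, h, mul_zero]⟩

lemma M13_rank : M13.eRank = 10 := by
  have h1 := (N7.comap f).eRank_add_eRank_dual
  obtain ⟨B, hB⟩ := (N7.comap f).exists_isBase
  have hB' := (comap_isBase B).1 hB
  obtain ⟨⟨m, hm, hmB⟩, hinj⟩ := hB'
  have h3 : ∀ m ∈ bl, (toSet7 m).card = 3 := by decide +kernel
  have h2 : (N7.comap f).eRank = 3 := by
    rw [← hB.encard_eq_eRank, ← hinj.encard_image, ← hmB, Set.encard_coe_eq_coe_finsetCard,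
      h3 m hm]
    rfl
  have h4 : (N7.comap f).E.encard = 13 := by
    rw [Matroid.comap_ground_eq, N7_E, Set.preimage_univ, Set.encard_univ]
    simp
  rw [h2, h4] at h1
  have h5 : (3 : ℕ∞) + M13.eRank = 3 + 10 := by
    rw [show (3 : ℕ∞) + 10 = 13 by norm_num]; exact h1
  exact ENat.add_right_injective_of_ne_top (n := 3) (by decide) h5

lemma indepCount_cnt {α : Type} [Fintype α] (M : Matroid α) (i : ℕ) :
    indepCount M i = cnt M i := by
  unfold indepCount cnt
  have h : {I : Set α | M.Indep I ∧ I.ncard = i} =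
      (fun A : Finset α => (A : Set α)) ''
        ((Finset.univ.filter fun A : Finset α => M.Indep (A : Set α) ∧ A.card = i :
          Finset (Finset α)) : Set (Finset α)) := by
    ext I
    constructor
    · rintro ⟨h1, h2⟩
      refine ⟨I.toFinset, ?_, by simp⟩
      simp only [Finset.coe_filter, Finset.mem_univ, true_and, Set.mem_ofPred_eq, Set.coe_toFinset]
      refine ⟨h1, ?_⟩
      rw [← h2, Set.ncard_eq_toFinset_card']
    · rintro ⟨A, hA, rfl⟩
      simp only [Finset.coe_filter, Finset.mem_univ, true_and, Set.mem_ofPred_eq] at hA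
      refine ⟨hA.1, ?_⟩
      show Set.ncard _ = i
      rw [Set.ncard_coe_finset, hA.2]
  rw [h, Set.InjOn.ncard_image, Set.ncard_coe_finset]
  intro A _ B _ hAB
  exact Finset.coe_injective hAB

lemma cnt_zero {α : Type} [Fintype α] (M : Matroid α) : cnt M 0 = 1 := by
  unfold cnt
  rw [Finset.card_eq_one]
  refine ⟨∅, ?_⟩
  ext A
  simp only [Finset.mem_filter, Finset.mem_univ, true_and, Finset.card_eq_zero,
    Finset.mem_singleton]
  constructor
  · exact fun h => h.2
  · rintro rfl
    refine ⟨?_, rfl⟩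
    simp

lemma cnt_eq_zero {α : Type} [Fintype α] (M : Matroid α) (i : ℕ)
    (h : ∀ A : Finset α, M.Indep (A : Set α) → A.card < i) : cnt M i = 0 := by
  unfold cnt
  rw [Finset.card_eq_zero, Finset.filter_eq_empty_iff]
  intro A _ hA
  have := h A hA.1
  omega

lemma card_le_ncard {α : Type} [Fintype α] (M : Matroid α) (A : Finset α)
    (h : M.Indep (A : Set α)) : A.card ≤ M.E.ncard := by
  rw [← Set.ncard_coe_finset]
  exact Set.ncard_le_ncard h.subset_ground (Set.toFinite _)

lemma rel_eq {α : Type} [Fintype α] (M : Matroid α)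
    (hr : ∀ T : Finset α, M.Indep (T : Set α) → T.card ≤ 4) (z : ℂ) (hz : 1 - z ≠ 0) :
    rel M z = (1 - z) ^ (M.E.ncard) * IP M (z / (1 - z)) := by
  set t : ℂ := z / (1 - z) with ht
  have hzt : z = t * (1 - z) := by rw [ht]; field_simp
  have h1 : rel M z = (1 - z) ^ M.E.ncard *
      ∑ i ∈ Finset.range (M.E.ncard + 1), (cnt M i : ℂ) * t ^ i := by
    rw [rel, Finset.mul_sum]
    refine Finset.sum_congr rfl (fun i hi => ?_)
    have hi' : i ≤ M.E.ncard := by
      have := Finset.mem_range.1 hi; omega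
    rw [indepCount_cnt]
    have e1 : z ^ i = t ^ i * (1 - z) ^ i := by
      rw [← mul_pow, ← hzt]
    have e2 : (1 - z) ^ M.E.ncard = (1 - z) ^ i * (1 - z) ^ (M.E.ncard - i) := by
      rw [← pow_add]; congr 1; omega
    rw [e1, e2]; ring
  have h2 : ∑ i ∈ Finset.range (M.E.ncard + 1), (cnt M i : ℂ) * t ^ i =
      ∑ i ∈ Finset.range (M.E.ncard + 5), (cnt M i : ℂ) * t ^ i := by
    refine Finset.sum_subset ?_ ?_
    · intro x hx
      rw [Finset.mem_range] at hx ⊢
      omega
    · intro x _ hx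
      rw [Finset.mem_range] at hx
      rw [cnt_eq_zero M x]
      · simp
      · intro A hA
        have := card_le_ncard M A hA
        omega
  have h3 : ∑ i ∈ Finset.range 5, (cnt M i : ℂ) * t ^ i =
      ∑ i ∈ Finset.range (M.E.ncard + 5), (cnt M i : ℂ) * t ^ i := by
    refine Finset.sum_subset ?_ ?_
    · intro x hx
      rw [Finset.mem_range] at hx ⊢
      omega
    · intro x _ hx
      rw [Finset.mem_range] at hx
      rw [cnt_eq_zero M x]
      · simp
      · intro A hA
        have := hr A hA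
        omega
  rw [h1, h2, ← h3]
  congr 1
  rw [IP, Finset.sum_range_succ, Finset.sum_range_succ, Finset.sum_range_succ,
    Finset.sum_range_succ, Finset.sum_range_succ, Finset.sum_range_zero, cnt_zero]
  push_cast
  ring

lemma re_lt (z : ℂ) (hz : 1 < ‖z‖) (h1 : 1 - z ≠ 0) :
    (z / (1 - z)).re < -1 / 2 ∧ z / (1 - z) ≠ -1 := by
  set t : ℂ := z / (1 - z) with ht
  have hzt : z = t * (1 - z) := by rw [ht]; field_simp
  have h2 : 1 + t = 1 / (1 - z) := by rw [ht]; field_simp; ring
  have h3 : t = z * (1 + t) := by rw [h2, ht]; ring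
  have h4 : 1 + t ≠ 0 := by
    rw [h2]
    exact one_div_ne_zero h1
  constructor
  · have h5 : ‖1 + t‖ < ‖t‖ := by
      conv_rhs => rw [h3]
      rw [norm_mul]
      have : 0 < ‖1 + t‖ := norm_pos_iff.2 h4
      nlinarith
    have h6 : ‖1 + t‖ ^ 2 < ‖t‖ ^ 2 := by
      have := norm_nonneg (1 + t)
      nlinarith
    rw [Complex.sq_norm, Complex.sq_norm, Complex.normSq_apply, Complex.normSq_apply] at h6
    simp only [Complex.add_re, Complex.add_im, Complex.one_re, Complex.one_im] at h6
    nlinarith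
  · intro h
    apply h4
    rw [h]; ring

lemma exists_rk {α : Type} [Fintype α] (M : Matroid α) (h : M.eRank ≤ 4) :
    ∃ r ≤ 4, HasRk M r := by
  obtain ⟨B, hB⟩ := M.exists_isBase
  have h1 : B.encard = M.eRank := hB.encard_eq_eRank
  have h2 : B.encard = (B.toFinset.card : ℕ∞) := by
    rw [← Set.encard_coe_eq_coe_finsetCard, Set.coe_toFinset]
  refine ⟨B.toFinset.card, ?_, ⟨B.toFinset, ?_, rfl⟩, ?_⟩
  · rw [← h1, h2] at h
    exact_mod_cast h
  · rw [Set.coe_toFinset]; exact hB.indep
  · intro T hT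
    have h3 := hT.encard_le_eRank
    rw [← h1, h2, Set.encard_coe_eq_coe_finsetCard] at h3
    exact_mod_cast h3

theorem part1 (hAll : T_ALL) (α : Type) [Finite α] (M : Matroid α) (h : M.eRank ≤ 4) :
    ¬ HasRootOutside M := by
  haveI : Fintype α := Fintype.ofFinite α
  rintro ⟨z, hz, hrel⟩
  obtain ⟨r, hr, hrk⟩ := exists_rk M h
  have hSt : St M := hAll α M r hr hrk
  have h1 : 1 - z ≠ 0 := by
    intro h0
    have : z = 1 := by
      have := sub_eq_zero.1 h0
      exact this.symm
    rw [this] at hz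
    simp at hz
  have h4 : ∀ T : Finset α, M.Indep (T : Set α) → T.card ≤ 4 := fun T hT =>
    le_trans (hrk.2 T hT) hr
  rw [rel_eq M h4 z h1] at hrel
  obtain ⟨h5, h6⟩ := re_lt z hz h1
  rcases mul_eq_zero.1 hrel with h7 | h7
  · exact pow_ne_zero _ h1 h7
  · exact hSt _ h5 h6 h7

end FIN_

theorem p_FIN (h_ALL : T_ALL) : T_FIN := by
  refine ⟨fun α _ M h => FIN_.part1 h_ALL α M h, ?_⟩
  unfold MatRel.rMin
  have hne : {r : ℕ | ∃ (n : ℕ) (M : Matroid (Fin n)),
      M.E = Set.univ ∧ M.eRank = r ∧ MatRel.HasRootOutside M}.Nonempty :=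
    ⟨10, 13, MatRel.M13, MatRel.M13_E, FIN_.M13_rank, FIN_.M13_root⟩
  obtain ⟨n, M, -, h2, h3⟩ := Nat.sInf_mem hne
  by_contra hlt
  apply FIN_.part1 h_ALL (Fin n) M _ h3
  rw [h2]
  have : sInf {r : ℕ | ∃ (n : ℕ) (M : Matroid (Fin n)),
      M.E = Set.univ ∧ M.eRank = r ∧ MatRel.HasRootOutside M} ≤ 4 := by omega
  exact_mod_cast this

end Pool.Agent.RLM
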