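import Pool.Agent.RLM.Targets1

set_option autoImplicit false
set_option linter.unusedSectionVars false

/-!
# RLM: the target T_H2
-/

open scoped Classical Matroid

noncomputable section

namespace Pool.Agent.RLM

section H2

variable {α : Type} [Fintype α] [DecidableEq α] (M : Matroid α)

/-- The set of the elements outside the closure of `x`. -/
def H2_J (x : α) : Finset α := Finset.univ.filter fun y => y ∈ M.E ∧ y ∉ M.closure {x}

/-- The independent pairs outside the closure of `x`. -/
def H2_E (x : α) : Finset (Finset α) := Finset.univ.filter fun A : Finset α =>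
  M.Indep (A : Set α) ∧ A.card = 2 ∧ ∀ y ∈ A, y ∉ M.closure {x}

lemma H2_nl_mem (x : α) : x ∈ nl M ↔ M.IsNonloop x := by
  unfold nl
  rw [Finset.mem_filter]
  exact ⟨fun h => h.2, fun h => ⟨Finset.mem_univ _, h⟩⟩

lemma H2_nonloop_of_not_mem {x y : α} (hy : y ∈ M.E) (h : y ∉ M.closure {x}) :
    M.IsNonloop y := by
  rw [Matroid.isNonloop_iff]
  exact ⟨fun hl => h (hl.mem_closure _), hy⟩

lemma H2_out_card (x : α) : out M {x} = (H2_J M x).card := by
  unfold out H2_J
  rw [Finset.coe_singleton]

lemma H2_two_mul_E (h_PAR : T_PAR) (x : α) (_hx : M.IsNonloop x)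
    (h2 : ∀ x y : α, x ≠ y → M.Indep {x, y} → 2 ≤ out M {x, y}) :
    (H2_J M x).card ≤ (H2_E M x).card := by
  obtain ⟨_, hpar2, _, _, _⟩ := h_PAR α M
  have key := Finset.sum_card_bipartiteAbove_eq_sum_card_bipartiteBelow
    (s := H2_J M x) (t := H2_E M x) (fun (f : α) (A : Finset α) => f ∈ A)
  have h1 : ∀ f ∈ H2_J M x,
      2 ≤ (Finset.bipartiteAbove (fun (f : α) (A : Finset α) => f ∈ A) (H2_E M x) f).card := by
    intro f hf
    unfold H2_J at hf
    rw [Finset.mem_filter] at hf
    obtain ⟨-, hfE, hfx⟩ := hf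
    have hfn : M.IsNonloop f := H2_nonloop_of_not_mem M hfE hfx
    have hxf := (hpar2 x f _hx hfn).1 hfx
    refine (h2 x f hxf.1 hxf.2).trans ?_
    unfold out
    refine Finset.card_le_card_of_injOn (fun g => ({f, g} : Finset α)) ?_ ?_
    · intro g hg
      rw [Finset.mem_coe, Finset.mem_filter] at hg
      obtain ⟨-, hgE, hgc⟩ := hg
      rw [Finset.coe_insert, Finset.coe_singleton] at hgc
      have hgf : g ∉ M.closure {f} := fun h =>
        hgc (M.closure_subset_closure (by intro z hz; right; exact hz) h)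
      have hgx : g ∉ M.closure {x} := fun h =>
        hgc (M.closure_subset_closure (by intro z hz; left; exact hz) h)
      have hgn : M.IsNonloop g := H2_nonloop_of_not_mem M hgE hgf
      have hfg := (hpar2 f g hfn hgn).1 hgf
      rw [Finset.mem_coe, Finset.mem_bipartiteAbove]
      refine ⟨?_, Finset.mem_insert_self _ _⟩
      unfold H2_E
      rw [Finset.mem_filter]
      refine ⟨Finset.mem_univ _, ?_, Finset.card_pair hfg.1, ?_⟩
      · rw [Finset.coe_insert, Finset.coe_singleton]
        exact hfg.2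
      · intro y hy
        rw [Finset.mem_insert, Finset.mem_singleton] at hy
        rcases hy with rfl | rfl
        · exact hfx
        · exact hgx
    · intro g hg g' hg' hgg
      rw [Finset.mem_coe, Finset.mem_filter] at hg hg'
      have hne : ∀ z : α, z ∉ M.closure (({x, f} : Finset α) : Set α) → z ≠ f := by
        rintro z hz rfl
        apply hz
        rw [Finset.coe_insert, Finset.coe_singleton]
        exact M.mem_closure_of_mem (by right; rfl) (by
          intro w hw
          rcases hw with rfl | rfl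
          · exact _hx.mem_ground
          · exact hfE)
      have h1 := hne g hg.2.2
      have hgg' : ({f, g} : Finset α) = {f, g'} := hgg
      have hmem : g ∈ ({f, g'} : Finset α) := by
        rw [← hgg']
        exact Finset.mem_insert_of_mem (Finset.mem_singleton_self _)
      rw [Finset.mem_insert, Finset.mem_singleton] at hmem
      exact hmem.resolve_left h1
  have h3 : ∀ A ∈ H2_E M x,
      (Finset.bipartiteBelow (fun (f : α) (A : Finset α) => f ∈ A) (H2_J M x) A).card ≤ 2 := by
    intro A hA
    unfold H2_E at hA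
    rw [Finset.mem_filter] at hA
    rw [← hA.2.2.1]
    refine Finset.card_le_card ?_
    intro z hz
    rw [Finset.mem_bipartiteBelow] at hz
    exact hz.2
  have h4 := Finset.sum_le_sum h1
  have h5 := Finset.sum_le_sum h3
  rw [Finset.sum_const, smul_eq_mul] at h4 h5
  omega

lemma H2_part1 (h_PAR : T_PAR) (h_OUT : T_OUT)
    (h0 : ∃ x y : α, x ≠ y ∧ M.Indep {x, y})
    (h2 : ∀ x y : α, x ≠ y → M.Indep {x, y} → 2 ≤ out M {x, y}) :
    3 * cnt M 1 ≤ cnt M 2 + 6 := by
  obtain ⟨hpar1, hpar2, hpar3, hpar4, hpar5⟩ := h_PAR α M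
  obtain ⟨_, _, hn, _, _, _⟩ := h_OUT α M
  obtain ⟨a, b, hab, hI⟩ := h0
  have ha : M.IsNonloop a := hI.isNonloop_of_mem (by left; rfl)
  have hb : M.IsNonloop b := hI.isNonloop_of_mem (by right; rfl)
  have hba : b ∉ M.closure {a} := (hpar2 a b ha hb).2 ⟨hab, hI⟩
  obtain ⟨x, hx, hmax⟩ := Finset.exists_max_image (nl M) (fun x => (cls M x).card)
    ⟨a, (H2_nl_mem M a).2 ha⟩
  rw [H2_nl_mem] at hx
  -- some nonloop outside the closure of x
  obtain ⟨f, hf, hfx⟩ : ∃ f, M.IsNonloop f ∧ f ∉ M.closure {x} := by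
    by_contra hcon
    push Not at hcon
    have e1 := hpar1 x a hx ha (hcon a ha)
    exact hba (e1 ▸ hcon b hb)
  have hxf := (hpar2 x f hx hf).1 hfx
  have hj : 3 ≤ out M {x} := by
    have h3 := h2 x f hxf.1 hxf.2
    have h4 : out M {x, f} + 1 ≤ out M {x} := by
      unfold out
      have hsub : insert f (Finset.univ.filter fun z => z ∈ M.E ∧
          z ∉ M.closure (({x, f} : Finset α) : Set α)) ⊆
          Finset.univ.filter fun z => z ∈ M.E ∧ z ∉ M.closure (({x} : Finset α) : Set α) := by
        intro z hz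
        rw [Finset.mem_insert, Finset.mem_filter] at hz
        rw [Finset.mem_filter, Finset.coe_singleton]
        rcases hz with rfl | hz
        · exact ⟨Finset.mem_univ _, hf.mem_ground, hfx⟩
        · refine ⟨Finset.mem_univ _, hz.2.1, fun h => hz.2.2 ?_⟩
          rw [Finset.coe_insert, Finset.coe_singleton]
          exact M.closure_subset_closure (by intro w hw; left; exact hw) h
      have hnot : f ∉ Finset.univ.filter fun z => z ∈ M.E ∧
          z ∉ M.closure (({x, f} : Finset α) : Set α) := by
        rw [Finset.mem_filter]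
        rintro ⟨-, -, h⟩
        apply h
        rw [Finset.coe_insert, Finset.coe_singleton]
        exact M.mem_closure_of_mem (by right; rfl) (by
          intro w hw
          rcases hw with rfl | rfl
          · exact hx.mem_ground
          · exact hf.mem_ground)
      have hcard := Finset.card_le_card hsub
      rw [Finset.card_insert_of_notMem hnot] at hcard
      exact hcard
    omega
  have hw : 1 ≤ (cls M x).card := by
    refine Finset.card_pos.2 ⟨x, ?_⟩
    unfold cls
    rw [Finset.mem_filter]
    exact ⟨Finset.mem_univ _, hx, M.mem_closure_of_mem (by rfl) (by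
      intro w hw
      rw [Set.mem_singleton_iff] at hw
      rw [hw]
      exact hx.mem_ground)⟩
  have hn1 := hpar3 x hx
  have hF := hpar4 x hx
  have hE := H2_two_mul_E M h_PAR x hx h2
  rw [← H2_out_card] at hE
  change cnt M 2 = (cls M x).card * out M {x} + (H2_E M x).card at hF
  rcases Nat.lt_or_ge (cls M x).card 2 with hw2 | hw2
  · -- all classes have one element
    have hw1 : (cls M x).card = 1 := by omega
    have hall : ∀ e ∈ nl M, cnt M 1 - 1 ≤ out M {e} := by
      intro e he
      have h6 := hmax e he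
      rw [H2_nl_mem] at he
      have h7 := hpar3 e he
      omega
    have h8 := Finset.sum_le_sum hall
    rw [Finset.sum_const, smul_eq_mul, ← hn, ← hpar5] at h8
    obtain ⟨m, hm⟩ : ∃ m, cnt M 1 = m + 4 := ⟨cnt M 1 - 4, by omega⟩
    rw [hm] at h8 ⊢
    have h9 : m + 4 - 1 = m + 3 := by omega
    rw [h9] at h8
    nlinarith [h8, Nat.zero_le m, Nat.zero_le (m * m)]
  · obtain ⟨p, hp⟩ : ∃ p, (cls M x).card = p + 2 := ⟨(cls M x).card - 2, by omega⟩
    obtain ⟨q, hq⟩ : ∃ q, out M {x} = q + 3 := ⟨out M {x} - 3, by omega⟩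
    rw [hp, hq] at hn1 hF
    rw [hq] at hE
    rw [← hn1, hF]
    nlinarith [hE, Nat.zero_le (p * q)]

end H2

theorem p_H2 (h_PAR : T_PAR) (h_OUT : T_OUT) : T_H2 := by
  intro α _ _ M
  refine ⟨H2_part1 M h_PAR h_OUT, ?_⟩
  intro h2
  obtain ⟨_, _, _, _, hpar5⟩ := h_PAR α M
  obtain ⟨_, _, hn, _, _, _⟩ := h_OUT α M
  have h1 : ∀ e ∈ nl M, 2 ≤ out M {e} := fun e he => h2 e ((H2_nl_mem M e).1 he)
  have h3 := Finset.sum_le_sum h1
  rw [Finset.sum_const, smul_eq_mul, ← hn, ← hpar5] at h3
  omega

end Pool.Agent.RLM
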