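import Pool.Agent.RLM.Targets1

set_option autoImplicit false

/-!
# RLM, target HS: handshake for independent sets

Count the pairs `(e, A)` with `e ∈ A` and `A` independent with `k + 1` elements.
-/

open scoped Classical Matroid

noncomputable section

namespace Pool.Agent.RLM

namespace HS_

/-- An independent set consists of nonloops. -/
lemma filter_nl {α : Type} [Fintype α] (M : Matroid α) (A : Finset α)
    (hA : M.Indep (A : Set α)) : ((nl M).filter fun e => e ∈ A) = A := by
  ext e
  simp only [nl, Finset.mem_filter, Finset.mem_univ, true_and]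
  constructor
  · exact fun h => h.2
  · exact fun h => ⟨hA.isNonloop_of_mem (by exact_mod_cast h), h⟩

/-- The independent sets with `k + 1` elements which contain the nonloop `e`. -/
lemma card_fibre {α : Type} [Fintype α] [DecidableEq α] (hC : T_CTR) (M : Matroid α) (k : ℕ)
    (e : α) (he : M.IsNonloop e) :
    ((Finset.univ.filter fun A : Finset α => M.Indep (A : Set α) ∧ A.card = k + 1).filter
      fun A => e ∈ A).card = cnt (M ／ {e}) k := by
  unfold cnt
  refine Finset.card_bij' (fun A _ => A.erase e) (fun A _ => insert e A) ?_ ?_ ?_ ?_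
  · intro A hA
    simp only [Finset.mem_filter, Finset.mem_univ, true_and] at hA ⊢
    obtain ⟨⟨hI, hc⟩, heA⟩ := hA
    refine ⟨((hC α M e he).1 (A.erase e)).2 ⟨by simp, ?_⟩, ?_⟩
    · rw [Finset.insert_erase heA]; exact hI
    · rw [Finset.card_erase_of_mem heA, hc]; rfl
  · intro A hA
    simp only [Finset.mem_filter, Finset.mem_univ, true_and] at hA ⊢
    obtain ⟨hI, hc⟩ := hA
    obtain ⟨h1, h2⟩ := ((hC α M e he).1 A).1 hI
    refine ⟨⟨h2, ?_⟩, Finset.mem_insert_self e A⟩
    rw [Finset.card_insert_of_notMem h1, hc]
  · intro A hA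
    simp only [Finset.mem_filter, Finset.mem_univ, true_and] at hA
    exact Finset.insert_erase hA.2
  · intro A hA
    simp only [Finset.mem_filter, Finset.mem_univ, true_and] at hA
    exact Finset.erase_insert (((hC α M e he).1 A).1 hA.1).1

end HS_

/-- The target `T_HS`, given `T_CTR`. -/
theorem p_HS (hC : T_CTR) : T_HS := by
  intro α _ _ M k
  have h := Finset.sum_card_bipartiteAbove_eq_sum_card_bipartiteBelow
    (s := nl M) (t := Finset.univ.filter fun A : Finset α =>
      M.Indep (A : Set α) ∧ A.card = k + 1) (fun (e : α) (A : Finset α) => e ∈ A)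
  have h1 : ∑ A ∈ (Finset.univ.filter fun A : Finset α =>
      M.Indep (A : Set α) ∧ A.card = k + 1),
      (Finset.bipartiteBelow (fun (e : α) (A : Finset α) => e ∈ A) (nl M) A).card
      = (k + 1) * cnt M (k + 1) := by
    rw [Finset.sum_congr rfl (g := fun _ => k + 1)]
    · rw [Finset.sum_const, smul_eq_mul, mul_comm]; rfl
    · intro A hA
      simp only [Finset.mem_filter, Finset.mem_univ, true_and] at hA
      have h2 := HS_.filter_nl M A hA.1
      unfold Finset.bipartiteBelow
      refine (congrArg Finset.card (?_ : _ = A)).trans hA.2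
      convert h2
  rw [← h1, ← h]
  refine Finset.sum_congr rfl fun e he => ?_
  unfold Finset.bipartiteAbove
  have hn : M.IsNonloop e := by
    simpa only [nl, Finset.mem_filter, Finset.mem_univ, true_and] using he
  convert HS_.card_fibre hC M k e hn using 2

end Pool.Agent.RLM
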