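import Pool.Agent.RLM.Targets4

set_option autoImplicit false

/-!
# RLM, target HW3: Hurwitz criterion in degrees three, two, one
-/

open scoped Classical Matroid

noncomputable section

namespace Pool.Agent.RLM

namespace HW3_

lemma core3 (A B C D x y : ℝ) (hA : 0 < A) (hB : 0 ≤ B) (hC : 0 ≤ C) (hD : 0 ≤ D)
    (h : A * D ≤ B * C) (hx : 0 < x)
    (hre : A * (x ^ 3 - 3 * x * y ^ 2) + B * (x ^ 2 - y ^ 2) + C * x + D = 0)
    (him : A * (3 * x ^ 2 * y - y ^ 3) + 2 * B * x * y + C * y = 0) : False := by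
  rcases eq_or_ne y 0 with hy | hy
  · subst hy
    have h1 : 0 < A * x ^ 3 := by positivity
    have h2 : 0 ≤ B * x ^ 2 := by positivity
    have h3 : 0 ≤ C * x := by positivity
    nlinarith
  · have h0 : y * (A * (3 * x ^ 2 - y ^ 2) + 2 * B * x + C) = 0 := by
      linear_combination him
    have h1 : A * (3 * x ^ 2 - y ^ 2) + 2 * B * x + C = 0 :=
      (mul_eq_zero.mp h0).resolve_left hy
    have h2 : 8 * A ^ 2 * x ^ 3 + 8 * A * B * x ^ 2 + (2 * A * C + 2 * B ^ 2) * x +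
        (B * C - A * D) = 0 := by
      linear_combination (-A) * hre + (3 * A * x + B) * h1
    have h3 : 0 < 8 * A ^ 2 * x ^ 3 := by positivity
    have h4 : 0 ≤ 8 * A * B * x ^ 2 := by positivity
    have h5 : 0 ≤ (2 * A * C + 2 * B ^ 2) * x := by positivity
    linarith

lemma core2 (A B C x y : ℝ) (hA : 0 < A) (hB : 0 ≤ B) (hC : 0 ≤ C) (hx : 0 < x)
    (hre : A * (x ^ 2 - y ^ 2) + B * x + C = 0) (him : 2 * A * x * y + B * y = 0) : False := by
  have h0 : y * (2 * A * x + B) = 0 := by linear_combination him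
  have h1 : 0 < 2 * A * x + B := by positivity
  have hy : y = 0 := (mul_eq_zero.mp h0).resolve_right h1.ne'
  subst hy
  have h2 : 0 < A * x ^ 2 := by positivity
  have h3 : 0 ≤ B * x := by positivity
  nlinarith

end HW3_

open HW3_ in
theorem p_HW3 : T_HW3 := by
  refine ⟨?_, ?_, ?_⟩
  · intro F1 F2 F3 h3 h2 h1 h0 hh t ht heq
    have h3' : (0 : ℝ) < (F3 : ℝ) := by exact_mod_cast h3
    have h2' : (0 : ℝ) < 3 * (F3 : ℝ) - 2 * F2 := by exact_mod_cast h2
    have h1' : (0 : ℝ) ≤ 3 * (F3 : ℝ) - 4 * F2 + 4 * F1 := by exact_mod_cast h1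
    have h0' : (0 : ℝ) ≤ (F3 : ℝ) - 2 * F2 + 4 * F1 - 8 := by exact_mod_cast h0
    have hh' : (F3 : ℝ) * (F3 - 2 * F2 + 4 * F1 - 8) ≤
        (3 * F3 - 2 * F2) * (3 * F3 - 4 * F2 + 4 * F1) := by exact_mod_cast hh
    obtain ⟨a, b⟩ := t
    have hre := congrArg Complex.re heq
    have him := congrArg Complex.im heq
    simp [pow_succ] at hre him ht
    refine core3 (F3 : ℝ) (3 * F3 - 2 * F2) (3 * F3 - 4 * F2 + 4 * F1)
      (F3 - 2 * F2 + 4 * F1 - 8) (-(2 * a + 1)) (-(2 * b)) h3' h2'.le h1' h0' hh'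
      (by linarith) ?_ ?_
    · linear_combination (-8 : ℝ) * hre
    · linear_combination (-8 : ℝ) * him
  · intro F1 F2 h2 h1 h0 t ht heq
    have h2' : (0 : ℝ) < (F2 : ℝ) := by exact_mod_cast h2
    have h1' : (F1 : ℝ) ≤ (F2 : ℝ) := by exact_mod_cast h1
    have h0' : (0 : ℝ) ≤ (F2 : ℝ) - 2 * F1 + 4 := by exact_mod_cast h0
    obtain ⟨a, b⟩ := t
    have hre := congrArg Complex.re heq
    have him := congrArg Complex.im heq
    simp [pow_succ] at hre him ht
    refine core2 (F2 : ℝ) (2 * (F2 - F1)) (F2 - 2 * F1 + 4) (-(2 * a + 1)) (-(2 * b)) h2'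
      (by linarith) h0' (by linarith) ?_ ?_
    · linear_combination (4 : ℝ) * hre
    · linear_combination (4 : ℝ) * him
  · intro F1 h1 t ht heq
    have h1' : (2 : ℝ) ≤ (F1 : ℝ) := by exact_mod_cast h1
    obtain ⟨a, b⟩ := t
    have hre := congrArg Complex.re heq
    simp at hre ht
    nlinarith

end Pool.Agent.RLM
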