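import Pool.Agent.RLM.Targets4

set_option autoImplicit false

/-!
# RLM, HW4: Hurwitz in degree four
-/

open scoped Classical Matroid

noncomputable section

namespace Pool.Agent.RLM

namespace HW4_

/-- real part of `q v + e / v` -/
lemma re_pos {q e : ℝ} (hq : 0 < q) (he : 0 ≤ e) {v : ℂ} (hv : 0 < v.re) :
    0 < ((q : ℂ) * v + e * v⁻¹).re := by
  have h1 : ((q : ℂ) * v).re = q * v.re := by simp
  have h2 : ((e : ℂ) * v⁻¹).re = e * (v.re / Complex.normSq v) := by simp [Complex.inv_re]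
  rw [Complex.add_re, h1, h2]
  have h3 : 0 ≤ v.re / Complex.normSq v := div_nonneg hv.le (Complex.normSq_nonneg v)
  have := mul_pos hq hv
  have := mul_nonneg he h3
  linarith

/-- real part of the inverse -/
lemma inv_re_pos {z : ℂ} (hz : 0 < z.re) : 0 < (z⁻¹).re := by
  rw [Complex.inv_re]
  have : z ≠ 0 := by
    rintro rfl
    simp at hz
  exact div_pos hz (Complex.normSq_pos.2 this)

/-- the real version -/
lemma hurwitz {a b c d e : ℝ} (ha : 0 < a) (hb : 0 < b) (hc : 0 ≤ c) (hd : 0 ≤ d) (he : 0 ≤ e)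
    (hdet : 0 ≤ b * c * d - b ^ 2 * e - d ^ 2 * a) {v : ℂ} (hv : 0 < v.re) :
    (a : ℂ) * v ^ 4 + b * v ^ 3 + c * v ^ 2 + d * v + e ≠ 0 := by
  have hv0 : v ≠ 0 := by
    rintro rfl
    simp at hv
  have hbc : (b : ℂ) ≠ 0 := by exact_mod_cast hb.ne'
  set q : ℝ := c - a * d / b with hq
  have hdq : b * e ≤ d * q := by
    have h1 : d * q - b * e = (b * c * d - b ^ 2 * e - d ^ 2 * a) / b := by
      rw [hq]
      field_simp
      ring
    have h2 := div_nonneg hdet hb.le
    linarith
  -- the first factor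
  have hL : 0 < ((a / b : ℝ) * v + 1 : ℂ).re := by
    have : ((a / b : ℝ) * v + 1 : ℂ).re = (a / b) * v.re + 1 := by
      rw [Complex.add_re, Complex.re_ofReal_mul, Complex.one_re]
    rw [this]
    have := mul_pos (div_pos ha hb) hv
    linarith
  have hLne : ((a / b : ℝ) * v + 1 : ℂ) ≠ 0 := by
    intro h
    rw [h] at hL
    simp at hL
  have hO : (b : ℂ) * v + d * v⁻¹ ≠ 0 := by
    intro h
    have := re_pos hb hd hv
    rw [h] at this
    simp at this
  intro hK
  rcases lt_or_ge 0 q with hq0 | hq0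
  · have hqc : (q : ℂ) ≠ 0 := by exact_mod_cast hq0.ne'
    set w : ℂ := (q : ℂ) * v + e * v⁻¹ with hw
    have hwre : 0 < w.re := re_pos hq0 he hv
    have hw0 : w ≠ 0 := by
      intro h
      rw [h] at hwre
      simp at hwre
    set X : ℂ := ((b / q : ℝ) : ℂ) * v + ((d - b * e / q : ℝ) : ℂ) * w⁻¹ with hX
    have hX0 : 0 < X.re := by
      have h1 : X.re = b / q * v.re + (d - b * e / q) * (w⁻¹).re := by
        rw [hX, Complex.add_re, Complex.re_ofReal_mul, Complex.re_ofReal_mul]
      rw [h1]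
      have h2 : 0 ≤ d - b * e / q := by
        rw [sub_nonneg, div_le_iff₀ hq0]
        exact hdq
      have h3 := mul_pos (div_pos hb hq0) hv
      have h4 := mul_nonneg h2 (inv_re_pos hwre).le
      linarith
    have hXne : X ≠ 0 := by
      intro h
      rw [h] at hX0
      simp at hX0
    have hvw : v * w = q * v ^ 2 + e := by
      rw [hw]
      field_simp
    have hXvw : X * (v * w) = b * v ^ 3 + d * v := by
      have h1 : X * (v * w) = ((b / q : ℝ) : ℂ) * v * (v * w) +
          ((d - b * e / q : ℝ) : ℂ) * v * (w⁻¹ * w) := by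
        rw [hX]
        ring
      rw [h1, inv_mul_cancel₀ hw0, hvw]
      push_cast
      field_simp
      ring
    have hfac : (a : ℂ) * v ^ 4 + b * v ^ 3 + c * v ^ 2 + d * v + e =
        v * w * (X * ((a / b : ℝ) * v + 1) + 1) := by
      have h1 : v * w * (X * ((a / b : ℝ) * v + 1) + 1) =
          X * (v * w) * ((a / b : ℝ) * v + 1) + v * w := by ring
      rw [h1, hXvw, hvw, hq]
      push_cast
      field_simp
      ring
    rw [hfac] at hK
    have h2 : X * ((a / b : ℝ) * v + 1) + 1 = 0 := by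
      rcases mul_eq_zero.1 hK with h | h
      · exact absurd h (mul_ne_zero hv0 hw0)
      · exact h
    have h3 : ((a / b : ℝ) * v + 1 : ℂ) = -X⁻¹ := by
      field_simp
      linear_combination h2
    have h4 := inv_re_pos hX0
    rw [h3, Complex.neg_re] at hL
    linarith
  · have h1 : d * q ≤ 0 := mul_nonpos_of_nonneg_of_nonpos hd hq0
    have h2 : 0 ≤ b * e := mul_nonneg hb.le he
    have h3 : b * e = 0 := le_antisymm (by linarith) h2
    have he0 : e = 0 := by
      rcases mul_eq_zero.1 h3 with h | h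
      · exact absurd h hb.ne'
      · exact h
    have h4 : d * q = 0 := le_antisymm h1 (by linarith)
    have hq1 : q = 0 := by
      rcases mul_eq_zero.1 h4 with h | h
      · rw [h] at hq
        have : q = c := by
          rw [hq]
          simp
        linarith
      · exact h
    have hc' : c = a * d / b := by linarith
    have hfac : (a : ℂ) * v ^ 4 + b * v ^ 3 + c * v ^ 2 + d * v + e =
        v ^ 2 * ((b : ℂ) * v + d * v⁻¹) * ((a / b : ℝ) * v + 1) := by
      rw [he0, hc']
      push_cast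
      field_simp
      ring
    rw [hfac] at hK
    rcases mul_eq_zero.1 hK with h | h
    · rcases mul_eq_zero.1 h with h' | h'
      · exact hv0 (pow_eq_zero_iff (two_ne_zero) |>.1 h')
      · exact hO h'
    · exact hLne h

end HW4_

/-- HW4: Hurwitz in degree four. -/
theorem p_HW4 : T_HW4 := by
  intro F1 F2 F3 F4 hH t ht
  obtain ⟨h4, h3, h2, h1, h0, hdet⟩ := hH
  have hv : 0 < (-(2 * t + 1) : ℂ).re := by
    simp
    linarith
  have hR := HW4_.hurwitz (a := (F4 : ℝ)) (b := (k3 F1 F2 F3 F4 : ℝ)) (c := (k2 F1 F2 F3 F4 : ℝ))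
    (d := (k1 F1 F2 F3 F4 : ℝ)) (e := (k0 F1 F2 F3 F4 : ℝ)) (by exact_mod_cast h4)
    (by exact_mod_cast h3) (by exact_mod_cast h2) (by exact_mod_cast h1) (by exact_mod_cast h0)
    (by exact_mod_cast hdet) hv
  intro hK
  apply hR
  have h16 : (((F4 : ℝ) : ℂ) * (-(2 * t + 1)) ^ 4 + ((k3 F1 F2 F3 F4 : ℝ) : ℂ) *
      (-(2 * t + 1)) ^ 3 + ((k2 F1 F2 F3 F4 : ℝ) : ℂ) * (-(2 * t + 1)) ^ 2 +
      ((k1 F1 F2 F3 F4 : ℝ) : ℂ) * (-(2 * t + 1)) + ((k0 F1 F2 F3 F4 : ℝ) : ℂ)) =
      16 * (1 + (F1 : ℂ) * t + F2 * t ^ 2 + F3 * t ^ 3 + F4 * t ^ 4) := by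
    simp only [k3, k2, k1, k0]
    push_cast
    ring
  rw [h16, hK, mul_zero]

end Pool.Agent.RLM
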