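import Pool.Agent.RLM.Targets1

set_option autoImplicit false

open scoped Classical Matroid

noncomputable section

namespace Pool.Agent.RLM

namespace K0_

/-- The number of independent `k`-sets inside the closure of `T`. -/
def ain {α : Type} [Fintype α] (M : Matroid α) (T : Finset α) (k : ℕ) : ℕ :=
  (Finset.univ.filter fun A : Finset α => M.Indep (A : Set α) ∧ A.card = k ∧
    ∀ x ∈ A, x ∈ M.closure (T : Set α)).card

lemma ain_zero {α : Type} [Fintype α] (M : Matroid α) (T : Finset α) : ain M T 0 = 1 := by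
  unfold ain
  rw [Finset.card_eq_one]
  refine ⟨∅, ?_⟩
  ext A
  simp only [Finset.mem_filter, Finset.mem_univ, true_and, Finset.mem_singleton,
    Finset.card_eq_zero]
  constructor
  · rintro ⟨-, h, -⟩
    exact h
  · rintro rfl
    simp

lemma ain_big {α : Type} [Fintype α] (M : Matroid α) (T : Finset α)
    (hT : M.Indep (T : Set α)) (k : ℕ) (hk : T.card < k) : ain M T k = 0 := by
  unfold ain
  rw [Finset.card_eq_zero, Finset.filter_eq_empty_iff]
  rintro A - ⟨hA, hc, hx⟩
  have h1 : (A : Set α).encard ≤ M.eRk (M.closure (T : Set α)) :=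
    hA.encard_le_eRk_of_subset (fun x hxA => hx x hxA)
  rw [M.eRk_closure_eq, hT.eRk_eq_encard, Set.encard_coe_eq_coe_finsetCard,
    Set.encard_coe_eq_coe_finsetCard] at h1
  have h2 : A.card ≤ T.card := by exact_mod_cast h1
  omega

lemma ins {α : Type} [Fintype α] (M : Matroid α) (T : Finset α) (g : α) (hg : g ∈ M.E)
    (hgT : g ∉ M.closure (T : Set α)) (k : ℕ) :
    (Finset.univ.filter fun A : Finset α => (M.Indep (A : Set α) ∧ A.card = k + 1) ∧
      g ∈ A ∧ ∀ x ∈ A, x ≠ g → x ∈ M.closure (T : Set α)).card = ain M T k := by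
  unfold ain
  refine Finset.card_nbij' (fun A => A.erase g) (fun A => insert g A) ?_ ?_ ?_ ?_
  · intro A hA
    simp only [Finset.coe_filter, Finset.mem_univ, true_and, Set.mem_ofPred_eq] at hA ⊢
    obtain ⟨⟨h1, h2⟩, h3, h4⟩ := hA
    refine ⟨h1.subset (by simp), ?_, ?_⟩
    · rw [Finset.card_erase_of_mem h3, h2]
      rfl
    · intro x hx
      rw [Finset.mem_erase] at hx
      exact h4 x hx.2 hx.1
  · intro A hA
    simp only [Finset.coe_filter, Finset.mem_univ, true_and, Set.mem_ofPred_eq] at hA ⊢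
    obtain ⟨h1, h2, h3⟩ := hA
    have hsub : M.closure (A : Set α) ⊆ M.closure (T : Set α) :=
      M.closure_subset_closure_of_subset_closure (fun x hx => h3 x hx)
    have hgA : g ∉ M.closure (A : Set α) := fun h => hgT (hsub h)
    have hgA' : g ∉ A := fun h => hgT (h3 g h)
    refine ⟨⟨?_, ?_⟩, Finset.mem_insert_self _ _, ?_⟩
    · rw [Finset.coe_insert]
      exact (h1.notMem_closure_iff_of_notMem (by simpa using hgA')).1 hgA
    · rw [Finset.card_insert_of_notMem hgA', h2]
    · intro x hx hxg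
      rcases Finset.mem_insert.1 hx with h | h
      · exact absurd h hxg
      · exact h3 x h
  · intro A hA
    simp only [Finset.coe_filter, Finset.mem_univ, true_and, Set.mem_ofPred_eq] at hA
    exact Finset.insert_erase hA.2.1
  · intro A hA
    simp only [Finset.coe_filter, Finset.mem_univ, true_and, Set.mem_ofPred_eq] at hA
    exact Finset.erase_insert (fun h => hgT (hA.2.2 g h))

lemma par {α : Type} [Fintype α] [DecidableEq α] (M : Matroid α) (T : Finset α) (e f : α)
    (hef : e ≠ f) (hI : ¬ M.Indep {e, f})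
    (hE : (Finset.univ.filter fun x => x ∈ M.E ∧ x ∉ M.closure (T : Set α)) = {e, f}) (k : ℕ) :
    cnt M (k + 1) = ain M T (k + 1) + (ain M T k + ain M T k) := by
  have hmem : ∀ x, x ∈ M.E → x ∉ M.closure (T : Set α) → x = e ∨ x = f := by
    intro x h1 h2
    have : x ∈ (Finset.univ.filter fun x => x ∈ M.E ∧ x ∉ M.closure (T : Set α)) := by
      simp [h1, h2]
    rw [hE] at this
    simpa using this
  have he : e ∈ M.E ∧ e ∉ M.closure (T : Set α) := by
    have : e ∈ (Finset.univ.filter fun x => x ∈ M.E ∧ x ∉ M.closure (T : Set α)) := by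
      rw [hE]; simp
    simpa using this
  have hf : f ∈ M.E ∧ f ∉ M.closure (T : Set α) := by
    have : f ∈ (Finset.univ.filter fun x => x ∈ M.E ∧ x ∉ M.closure (T : Set α)) := by
      rw [hE]; simp
    simpa using this
  have hboth : ∀ A : Finset α, M.Indep (A : Set α) → e ∈ A → f ∈ A → False := by
    intro A hA h1 h2
    apply hI
    apply hA.subset
    intro x hx
    rcases hx with h | h
    · rw [h]; exact h1
    · rw [Set.mem_singleton_iff] at h
      rw [h]; exact h2
  rw [← ins M T e he.1 he.2 k]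
  nth_rewrite 2 [ins M T e he.1 he.2 k]
  rw [← ins M T f hf.1 hf.2 k]
  unfold cnt ain
  rw [← Finset.card_union_of_disjoint, ← Finset.card_union_of_disjoint]
  · congr 1
    ext A
    simp only [Finset.mem_filter, Finset.mem_univ, true_and, Finset.mem_union]
    constructor
    · rintro ⟨h1, h2⟩
      by_cases hA1 : e ∈ A
      · refine Or.inr (Or.inl ⟨⟨h1, h2⟩, hA1, ?_⟩)
        intro x hx hxe
        by_contra hc
        rcases hmem x (h1.subset_ground hx) hc with h | h
        · exact hxe h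
        · subst h
          exact hboth A h1 hA1 hx
      · by_cases hA2 : f ∈ A
        · refine Or.inr (Or.inr ⟨⟨h1, h2⟩, hA2, ?_⟩)
          intro x hx hxf
          by_contra hc
          rcases hmem x (h1.subset_ground hx) hc with h | h
          · subst h
            exact hA1 hx
          · exact hxf h
        · refine Or.inl ⟨h1, h2, ?_⟩
          intro x hx
          by_contra hc
          rcases hmem x (h1.subset_ground hx) hc with h | h
          · subst h
            exact hA1 hx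
          · subst h
            exact hA2 hx
    · rintro (⟨h1, h2, -⟩ | ⟨h, -⟩ | ⟨h, -⟩)
      · exact ⟨h1, h2⟩
      · exact h
      · exact h
  · rw [Finset.disjoint_left]
    intro A hA hA'
    simp only [Finset.mem_filter, Finset.mem_univ, true_and, Finset.mem_union] at hA hA'
    rcases hA' with h | h
    · exact he.2 (hA.2.2 e h.2.1)
    · exact hf.2 (hA.2.2 f h.2.1)
  · rw [Finset.disjoint_left]
    intro A hA hA'
    simp only [Finset.mem_filter, Finset.mem_univ, true_and] at hA hA'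
    exact hboth A hA.1.1 hA.2.1 hA'.2.1

lemma sum_par (a c : ℕ → ℕ) (r : ℕ) (h0 : c 0 = 1) (ha0 : a 0 = 1)
    (h : ∀ k, c (k + 1) = a (k + 1) + (a k + a k)) (hr : a (r + 1) = 0) :
    ∑ k ∈ Finset.range (r + 1 + 1), (c k : ℝ) * (-1 / 2) ^ k = 0 := by
  have key : ∀ n, ∑ k ∈ Finset.range (n + 1), (c k : ℝ) * (-1 / 2) ^ k =
      (a n : ℝ) * (-1 / 2) ^ n := by
    intro n
    induction n with
    | zero => simp [h0, ha0]
    | succ n ih =>
      rw [Finset.sum_range_succ, ih, h n]
      push_cast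
      ring
  rw [key (r + 1), hr]
  simp

lemma sum_ser (a c d : ℕ → ℕ) (r : ℕ) (h0 : c 0 = 1) (_ha0 : a 0 = 1) (h1 : c 1 = a 1 + 2)
    (h : ∀ k, c (k + 2) = a (k + 2) + 2 * a (k + 1) + d k) (hr : a (r + 2) = 0) :
    ∑ k ∈ Finset.range (r + 2 + 1), (c k : ℝ) * (-1 / 2) ^ k =
      1 / 4 * ∑ k ∈ Finset.range (r + 1), (d k : ℝ) * (-1 / 2) ^ k := by
  have key : ∀ n, ∑ k ∈ Finset.range (n + 2 + 1), (c k : ℝ) * (-1 / 2) ^ k =
      (a (n + 2) : ℝ) * (-1 / 2) ^ (n + 2) +
        1 / 4 * ∑ k ∈ Finset.range (n + 1), (d k : ℝ) * (-1 / 2) ^ k := by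
    intro n
    induction n with
    | zero =>
      have h2 := h 0
      simp only [Nat.zero_add] at h2
      simp only [Finset.sum_range_succ, Finset.sum_range_zero, Nat.zero_add]
      rw [h0, h1, h2]
      push_cast
      ring
    | succ n ih =>
      rw [Finset.sum_range_succ, show n + 1 + 2 = n + 2 + 1 from by ring, ih,
        Finset.sum_range_succ _ (n + 1), show n + 2 + 1 = n + 1 + 2 from by ring, h (n + 1)]
      push_cast
      ring
  rw [key r, hr]
  simp

lemma sum_del (c d g : ℕ → ℕ) (r : ℕ) (h0 : c 0 = 1) (hd0 : d 0 = 1)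
    (h : ∀ k, c (k + 1) = d (k + 1) + g k) :
    ∑ k ∈ Finset.range (r + 1 + 1), (c k : ℝ) * (-1 / 2) ^ k =
      ∑ k ∈ Finset.range (r + 1 + 1), (d k : ℝ) * (-1 / 2) ^ k -
      1 / 2 * ∑ k ∈ Finset.range (r + 1), (g k : ℝ) * (-1 / 2) ^ k := by
  induction r with
  | zero =>
    have h2 := h 0
    simp only [Nat.zero_add] at h2
    simp only [Finset.sum_range_succ, Finset.sum_range_zero, Nat.zero_add]
    rw [h0, h2, hd0]
    push_cast
    ring
  | succ r ih =>
    rw [Finset.sum_range_succ, ih, Finset.sum_range_succ (fun k => (d k : ℝ) * (-1 / 2) ^ k)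
      (r + 1 + 1), Finset.sum_range_succ (fun k => (g k : ℝ) * (-1 / 2) ^ k) (r + 1), h (r + 1)]
    push_cast
    ring

theorem mainK (h_OUT : T_OUT) (h_CTR : T_CTR) (h_DEL : T_DEL) (h_SER : T_SER) (α : Type)
    [Fintype α] [DecidableEq α] (n : ℕ) : ∀ (M : Matroid α) (r : ℕ), M.E.ncard = n →
    HasRk M r → Ext M r 2 →
    0 ≤ (-1 : ℝ) ^ r * ∑ k ∈ Finset.range (r + 1), (cnt M k : ℝ) * (-1 / 2) ^ k := by
  induction n using Nat.strong_induction_on with
  | _ n ih =>
  intro M r hn hrk hext
  have hc0 : ∀ N : Matroid α, cnt N 0 = 1 := fun N => by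
    have := (h_OUT α N).1
    exact this
  rcases r with _ | r
  · simp [hc0 M]
  have hlt : ∀ e : α, e ∈ M.E → (M.E \ {e}).ncard < n := by
    intro e he
    rw [← hn]
    exact Set.ncard_sdiff_singleton_lt_of_mem he (Set.toFinite _)
  by_cases hex : ∃ T : Finset α, M.Indep (T : Set α) ∧ T.card = r ∧ out M T = 2
  · obtain ⟨T, hT, hTc, hTo⟩ := hex
    unfold out at hTo
    obtain ⟨e, f, hef, hE⟩ := Finset.card_eq_two.1 hTo
    have he : e ∈ M.E ∧ e ∉ M.closure (T : Set α) := by
      have : e ∈ (Finset.univ.filter fun x => x ∈ M.E ∧ x ∉ M.closure (T : Set α)) := by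
        rw [hE]; simp
      simpa using this
    have hf : f ∈ M.E ∧ f ∉ M.closure (T : Set α) := by
      have : f ∈ (Finset.univ.filter fun x => x ∈ M.E ∧ x ∉ M.closure (T : Set α)) := by
        rw [hE]; simp
      simpa using this
    by_cases hI : M.Indep {e, f}
    · -- series pair
      have hr1 : 1 ≤ r := by
        have h2 := hrk.2 {e, f} (by simpa using hI)
        rw [Finset.card_pair hef] at h2
        omega
      obtain ⟨r, rfl⟩ : ∃ s, r = s + 1 := ⟨r - 1, by omega⟩
      obtain ⟨a, ha0, ha, ha1, -, hbig⟩ := h_SER α M T e f hT hef hI (hE)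
      have hfn : M.IsNonloop f := hI.isNonloop_of_mem (by simp)
      have hC1 := h_CTR α M f hfn
      have hen : (M ／ {f}).IsNonloop e := by
        rw [← Matroid.indep_singleton]
        have h3 := (hC1.1 {e}).2 ⟨by simpa using fun h => hef h.symm, by
          rw [Finset.coe_insert, Finset.coe_singleton, Set.pair_comm]
          exact hI⟩
        simpa using h3
      have hC2 := h_CTR α (M ／ {f}) e hen
      have hrk2 : HasRk (M ／ {f} ／ {e}) r := hC2.2.1 r (hC1.2.1 (r + 1) hrk)
      have hext2 : Ext (M ／ {f} ／ {e}) r 2 := by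
        have h4 := hC2.2.2 r 2 (by
          have := hC1.2.2 (r + 1) 2 (hext)
          exact this)
        exact h4
      have hcard : (M ／ {f} ／ {e}).E.ncard < n := by
        refine lt_of_le_of_lt (Set.ncard_le_ncard ?_ (Set.toFinite _)) (hlt f hf.1)
        rw [Matroid.contract_ground, Matroid.contract_ground]
        exact Set.sdiff_subset
      have hind := ih _ hcard (M ／ {f} ／ {e}) r rfl hrk2 hext2
      have hsum := sum_ser a (cnt M) (cnt (M ／ {f} ／ {e})) r (hc0 M) ha0
        (ha1) (fun k => ha k) (hbig (r + 2) (by omega))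
      rw [show r + 1 + 1 + 1 = r + 2 + 1 from rfl, hsum]
      have : (-1 : ℝ) ^ (r + 1 + 1) * (1 / 4 * ∑ k ∈ Finset.range (r + 1),
          (cnt (M ／ {f} ／ {e}) k : ℝ) * (-1 / 2) ^ k) = 1 / 4 * ((-1 : ℝ) ^ r *
          ∑ k ∈ Finset.range (r + 1), (cnt (M ／ {f} ／ {e}) k : ℝ) * (-1 / 2) ^ k) := by
        ring
      rw [this]
      positivity
    · -- parallel pair
      have hz := sum_par (ain M T) (cnt M) r (hc0 M) (ain_zero M T)
        (par M T e f hef hI (hE)) (ain_big M T hT (r + 1) (by omega))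
      rw [hz]
      simp
  · -- deletion
    push Not at hex
    have hext3 : Ext M (r + 1) 3 := by
      intro T hT hTc
      have h1 := hext T hT hTc
      have h2 := hex T hT (by omega)
      omega
    obtain ⟨B, hB, hBc⟩ := hrk.1
    obtain ⟨e, heB⟩ : ∃ e, e ∈ B := by
      rw [← Finset.Nonempty, ← Finset.card_pos]
      omega
    have hen : M.IsNonloop e := hB.isNonloop_of_mem heB
    have heE : e ∈ M.E := hen.mem_ground
    obtain ⟨hD1, hD2⟩ := h_DEL α M e hen
    obtain ⟨hrkd, hextd⟩ := hD2 (r + 1) 2 (by omega) (by norm_num) hrk (hext3)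
    have hC1 := h_CTR α M e hen
    have hrkc : HasRk (M ／ {e}) r := hC1.2.1 r hrk
    have hextc : Ext (M ／ {e}) r 2 := by
      have := hC1.2.2 r 2 (hext)
      exact this
    have hi1 := ih _ (by rw [Matroid.delete_ground]; exact hlt e heE) (M ＼ {e}) (r + 1) rfl hrkd
      (hextd)
    have hi2 := ih _ (by rw [Matroid.contract_ground]; exact hlt e heE) (M ／ {e}) r rfl hrkc
      hextc
    rw [sum_del (cnt M) (cnt (M ＼ {e})) (cnt (M ／ {e})) r (hc0 M) (hc0 _)
      (fun k => hD1 k)]
    have : (-1 : ℝ) ^ (r + 1) * (∑ k ∈ Finset.range (r + 1 + 1),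
        (cnt (M ＼ {e}) k : ℝ) * (-1 / 2) ^ k - 1 / 2 * ∑ k ∈ Finset.range (r + 1),
        (cnt (M ／ {e}) k : ℝ) * (-1 / 2) ^ k) = (-1 : ℝ) ^ (r + 1) *
        ∑ k ∈ Finset.range (r + 1 + 1), (cnt (M ＼ {e}) k : ℝ) * (-1 / 2) ^ k +
        1 / 2 * ((-1 : ℝ) ^ r * ∑ k ∈ Finset.range (r + 1),
        (cnt (M ／ {e}) k : ℝ) * (-1 / 2) ^ k) := by
      ring
    rw [this]
    positivity

end K0_

/-- The Brown-Colbourn inequality at `t = -1/2`. -/
theorem p_K0 (h_OUT : T_OUT) (h_CTR : T_CTR) (h_DEL : T_DEL) (h_SER : T_SER) : T_K0 := by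
  intro α _ _ M r h1 h2
  exact K0_.mainK h_OUT h_CTR h_DEL h_SER α _ M r rfl h1 h2

end Pool.Agent.RLM
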