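import Pool.Agent.RLM.Targets3

set_option autoImplicit false

/-!
# RLM: LA, Claim A for connected cosimple matroids of rank four
-/

open scoped Classical Matroid

noncomputable section

namespace Pool.Agent.RLM

namespace LA_

theorem exPair {α : Type} [Fintype α] {N : Matroid α} (h : HasRk N 3) :
    ∃ x y : α, x ≠ y ∧ N.Indep {x, y} := by
  obtain ⟨⟨T, hT, hc⟩, _⟩ := h
  obtain ⟨x, y, z, hxy, hxz, hyz, rfl⟩ := Finset.card_eq_three.mp hc
  refine ⟨x, y, hxy, hT.subset ?_⟩
  intro u hu
  simp only [Set.mem_insert_iff, Set.mem_singleton_iff] at hu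
  simp only [Finset.coe_insert, Finset.coe_singleton, Set.mem_insert_iff, Set.mem_singleton_iff]
  rcases hu with h | h
  · exact Or.inl h
  · exact Or.inr (Or.inl h)

end LA_

/-- LA -/
theorem p_LA (h_SIX : T_SIX) (h_T33 : T_T33) (h_LC : T_LC) (h_D3 : T_D3) (h_BAD : T_BAD)
    (h_HS : T_HS) (h_CTR : T_CTR) (h_OUT : T_OUT) (h_PAR : T_PAR) : T_LA := by
  intro α _ _ M hrk hext hA hB
  obtain ⟨-, -, hn, -, -, -⟩ := h_OUT α M
  have hsum : ∑ e ∈ nl M, VV (M ／ {e})
      = 12 * (cnt M 4 : ℤ) - 12 * (cnt M 3 : ℤ) + 24 * (cnt M 1 : ℤ) := by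
    have h4 := h_HS α M 3
    have h3 := h_HS α M 2
    have h4' : (4 : ℤ) * cnt M 4 = ∑ e ∈ nl M, (cnt (M ／ {e}) 3 : ℤ) := by
      have := congrArg (Nat.cast : ℕ → ℤ) h4
      push_cast at this
      linarith
    have h3' : (3 : ℤ) * cnt M 3 = ∑ e ∈ nl M, (cnt (M ／ {e}) 2 : ℤ) := by
      have := congrArg (Nat.cast : ℕ → ℤ) h3
      push_cast at this
      linarith
    unfold VV
    rw [Finset.sum_add_distrib, Finset.sum_sub_distrib, ← Finset.mul_sum, ← Finset.mul_sum,
      ← h4', ← h3', Finset.sum_const, hn, nsmul_eq_mul]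
    ring
  have hnl : ∀ e ∈ nl M, M.IsNonloop e := fun e he => by
    simpa [nl] using he
  have hR : ∀ e ∈ nl M, HasRk (M ／ {e}) 3 := fun e he =>
    (h_CTR α M e (hnl e he)).2.1 3 hrk
  have hE : ∀ e ∈ nl M, Ext (M ／ {e}) 3 3 := fun e he =>
    (h_CTR α M e (hnl e he)).2.2 3 3 hext
  have hgood : ∀ e ∈ nl M, ¬ DiscA (M ／ {e}) 3 → 8 ≤ VV (M ／ {e}) := fun e he hg =>
    h_LC α (M ／ {e}) (LA_.exPair (hR e he)) (hE e he) hg
  have hbad : ∀ e ∈ nl M, DiscA (M ／ {e}) 3 → 0 ≤ VV (M ／ {e}) ∨ VV (M ／ {e}) = -3 := by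
    intro e he hb
    obtain ⟨a, ha, hT⟩ := hb
    rcases h_D3 α (M ／ {e}) a (hR e he) (hE e he) ha hT with h | h
    · exact Or.inl h
    · exact Or.inr h.1
  have key : (48 : ℤ) ≤ ∑ e ∈ nl M, VV (M ／ {e}) := by
    by_cases hall : ∀ e ∈ nl M, DiscA (M ／ {e}) 3 → 0 ≤ VV (M ／ {e})
    · have h6 := h_SIX α M hrk hext hA hB
      have hnn : ∀ e ∈ nl M, 0 ≤ VV (M ／ {e}) := by
        intro e he
        by_cases hd : DiscA (M ／ {e}) 3
        · exact hall e he hd
        · linarith [hgood e he hd]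
      calc (48 : ℤ) ≤ ((nl M).filter fun e => ¬ DiscA (M ／ {e}) 3).card * 8 := by
            have : (6 : ℤ) ≤ ((nl M).filter fun e => ¬ DiscA (M ／ {e}) 3).card := by
              exact_mod_cast h6
            linarith
        _ = ∑ e ∈ (nl M).filter (fun e => ¬ DiscA (M ／ {e}) 3), (8 : ℤ) := by
            rw [Finset.sum_const, nsmul_eq_mul]
        _ ≤ ∑ e ∈ (nl M).filter (fun e => ¬ DiscA (M ／ {e}) 3), VV (M ／ {e}) := by
            refine Finset.sum_le_sum fun e he => ?_
            rw [Finset.mem_filter] at he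
            exact hgood e he.1 he.2
        _ ≤ ∑ e ∈ nl M, VV (M ／ {e}) :=
            Finset.sum_le_sum_of_subset_of_nonneg (Finset.filter_subset _ _)
              fun e he _ => hnn e he
    · push Not at hall
      obtain ⟨p, hp, hpd, hpv⟩ := hall
      obtain ⟨a, hLS⟩ := (h_BAD α M p (hnl p hp)).mp hpd
      obtain ⟨h9, hf⟩ := h_T33 α M p a hrk hext hA hB hLS hpv
      have hcard := (h_PAR α M).2.2.1 p (hnl p hp)
      have hcls : (nl M).filter (fun e => e ∈ M.closure {p}) = cls M p := by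
        ext e
        simp only [nl, cls, Finset.mem_filter, Finset.mem_univ, true_and]
      have hsplit := Finset.card_filter_add_card_filter_not (s := nl M)
        (fun e => e ∈ M.closure {p})
      rw [hcls] at hsplit
      have hout : ((nl M).filter fun e => ¬ e ∈ M.closure {p}).card = 9 := by
        omega
      have hw : 1 ≤ (cls M p).card := by
        refine Finset.card_pos.mpr ⟨p, ?_⟩
        simp only [cls, Finset.mem_filter, Finset.mem_univ, true_and]
        exact ⟨hnl p hp, M.mem_closure_self p (hnl p hp).mem_ground⟩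
      have hwZ : (1 : ℤ) ≤ (cls M p).card := by exact_mod_cast hw
      have hsumsplit := Finset.sum_filter_add_sum_filter_not (nl M)
        (fun e => e ∈ M.closure {p}) (fun e => VV (M ／ {e}))
      rw [hcls] at hsumsplit
      have h1 : -3 * ((cls M p).card : ℤ) ≤ ∑ e ∈ cls M p, VV (M ／ {e}) := by
        have : ∑ e ∈ cls M p, (-3 : ℤ) ≤ ∑ e ∈ cls M p, VV (M ／ {e}) := by
          refine Finset.sum_le_sum fun e he => ?_
          have he' : e ∈ nl M := by
            rw [← hcls] at he
            exact (Finset.mem_filter.mp he).1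
          by_cases hd : DiscA (M ／ {e}) 3
          · rcases hbad e he' hd with h | h <;> linarith
          · linarith [hgood e he' hd]
        rw [Finset.sum_const, nsmul_eq_mul] at this
        linarith
      have h2 : 9 * (3 * ((cls M p).card : ℤ) + 3)
          ≤ ∑ e ∈ (nl M).filter (fun e => ¬ e ∈ M.closure {p}), VV (M ／ {e}) := by
        have : ∑ e ∈ (nl M).filter (fun e => ¬ e ∈ M.closure {p}),
            (3 * ((cls M p).card : ℤ) + 3)
            ≤ ∑ e ∈ (nl M).filter (fun e => ¬ e ∈ M.closure {p}), VV (M ／ {e}) := by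
          refine Finset.sum_le_sum fun e he => ?_
          rw [Finset.mem_filter] at he
          exact (hf e (hnl e he.1) he.2).2
        rw [Finset.sum_const, nsmul_eq_mul, hout] at this
        push_cast at this
        linarith
      rw [← hsumsplit]
      linarith
  rw [hsum] at key
  have : (cnt M 3 : ℤ) + 4 ≤ cnt M 4 + 2 * cnt M 1 := by linarith
  exact_mod_cast this

end Pool.Agent.RLM
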