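import Pool.Agent.RLM.Targets2

set_option autoImplicit false

/-!
# RLM: LC, `8 ≤ VV` for connected cosimple rank three (helper21)
-/

open scoped Classical Matroid

noncomputable section

namespace Pool.Agent.RLM

namespace LC_

variable {α : Type} [Fintype α] [DecidableEq α]

omit [DecidableEq α] in
theorem cls_subset (M : Matroid α) (p : α) : cls M p ⊆ nl M := by
  intro x hx
  rw [cls, Finset.mem_filter] at hx
  rw [nl, Finset.mem_filter]
  exact ⟨Finset.mem_univ _, hx.2.1⟩

theorem mem_O (M : Matroid α) (p f : α) :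
    f ∈ nl M \ cls M p ↔ M.IsNonloop f ∧ f ∉ M.closure {p} := by
  rw [Finset.mem_sdiff, nl, Finset.mem_filter, cls, Finset.mem_filter]
  constructor
  · rintro ⟨h1, h2⟩
    exact ⟨h1.2, fun h => h2 ⟨Finset.mem_univ _, h1.2, h⟩⟩
  · rintro ⟨h1, h2⟩
    exact ⟨⟨Finset.mem_univ _, h1⟩, fun h => h2 h.2.2⟩

theorem card_O (h_PAR : T_PAR) (h_OUT : T_OUT) (M : Matroid α) (p : α) (hp : M.IsNonloop p) :
    (nl M \ cls M p).card = out M {p} := by
  have h3 := (h_PAR α M).2.2.1 p hp
  have := Finset.card_sdiff_add_card_eq_card (cls_subset M p)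
  have h5 := (h_OUT α M).2.2.1
  omega

theorem out_eq (h_PAR : T_PAR) (M : Matroid α) (p f : α)
    (hp : M.IsNonloop p) (hf : M.IsNonloop f) (hpf : f ∈ M.closure {p}) :
    out M {f} = out M {p} := by
  have e := (h_PAR α M).1 p f hp hf hpf
  rw [out, out, Finset.coe_singleton, Finset.coe_singleton, e]

/-- The elements outside the closure of `p`. -/
def B (M : Matroid α) (X : Finset α) : Finset α :=
  Finset.univ.filter fun x => x ∈ M.E ∧ x ∉ M.closure (X : Set α)

theorem line_card (h_PAR : T_PAR) (M : Matroid α) (p f : α) (hE : Ext M 3 3)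
    (hp : M.IsNonloop p) (hf : M.IsNonloop f) (hpf : f ∉ M.closure {p}) :
    M.Indep ((({p, f} : Finset α)) : Set α) ∧ 3 ≤ (B M {p, f}).card ∧
      B M {p, f} ⊆ (B M {p}).erase f ∧ f ∈ B M {p} := by
  obtain ⟨hne, hind⟩ := ((h_PAR α M).2.1 p f hp hf).1 hpf
  have hi : M.Indep ((({p, f} : Finset α)) : Set α) := by
    rw [Finset.coe_pair]
    exact hind
  refine ⟨hi, ?_, ?_, ?_⟩
  · have h2 := hE ({p, f} : Finset α) hi (by rw [Finset.card_pair hne])
    exact h2
  · intro x hx
    rw [B, Finset.mem_filter] at hx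
    rw [Finset.mem_erase, B, Finset.mem_filter]
    refine ⟨?_, Finset.mem_univ _, hx.2.1, fun hxp => hx.2.2 (M.closure_subset_closure ?_ hxp)⟩
    · rintro rfl
      refine hx.2.2 (M.mem_closure_of_mem ?_ hi.subset_ground)
      rw [Finset.coe_pair]
      exact Set.mem_insert_of_mem _ rfl
    · rw [Finset.coe_pair, Finset.coe_singleton]
      exact Set.singleton_subset_iff.2 (Set.mem_insert _ _)
  · rw [B, Finset.mem_filter, Finset.coe_singleton]
    exact ⟨Finset.mem_univ _, hf.mem_ground, hpf⟩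

/-- If exactly four elements are outside the class of `p` then `p` and any two of them are
independent. -/
theorem tri (h_PAR : T_PAR) (M : Matroid α) (p f g : α) (hE : Ext M 3 3)
    (hp : M.IsNonloop p) (hm : out M {p} = 4) (hf : M.IsNonloop f) (hg : M.IsNonloop g)
    (hpf : f ∉ M.closure {p}) (hpg : g ∉ M.closure {p}) (hfg : f ≠ g) :
    M.Indep ({p, f, g} : Set α) := by
  obtain ⟨hi, h3, hsub, hfB⟩ := line_card h_PAR M p f hE hp hf hpf
  have hB : (B M {p}).card = 4 := hm
  have he : ((B M {p}).erase f).card = 3 := by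
    rw [Finset.card_erase_of_mem hfB, hB]
  have heq := Finset.eq_of_subset_of_card_le hsub (by rw [he]; exact h3)
  have hgB : g ∈ B M {p, f} := by
    rw [heq, Finset.mem_erase, B, Finset.mem_filter, Finset.coe_singleton]
    exact ⟨hfg.symm, Finset.mem_univ _, hg.mem_ground, hpg⟩
  rw [B, Finset.mem_filter] at hgB
  have h4 := (hi.notMem_closure_iff hgB.2.1).1 hgB.2.2
  refine h4.1.subset ?_
  rw [Finset.coe_pair]
  intro x hx
  rcases hx with hx | hx | hx
  · exact Or.inr (Or.inl hx)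
  · exact Or.inr (Or.inr hx)
  · exact Or.inl hx

theorem four_le (h_PAR : T_PAR) (M : Matroid α) (p : α) (hE : Ext M 3 3)
    (hxy : ∃ x y : α, x ≠ y ∧ M.Indep {x, y}) (hp : M.IsNonloop p) : 4 ≤ out M {p} := by
  obtain ⟨x, y, hne, hi⟩ := hxy
  have hx : M.IsNonloop x := hi.isNonloop_of_mem (Set.mem_insert _ _)
  have hy : M.IsNonloop y := hi.isNonloop_of_mem (Set.mem_insert_of_mem _ rfl)
  have : ∃ f, M.IsNonloop f ∧ f ∉ M.closure {p} := by
    by_cases h1 : x ∈ M.closure {p}
    · refine ⟨y, hy, fun h2 => ?_⟩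
      have e1 := (h_PAR α M).1 p x hp hx h1
      have e2 := ((h_PAR α M).2.1 x y hx hy).2 ⟨hne, hi⟩
      apply e2
      rw [e1]
      exact h2
    · exact ⟨x, hx, h1⟩
  obtain ⟨f, hf, hpf⟩ := this
  obtain ⟨-, h3, hsub, hfB⟩ := line_card h_PAR M p f hE hp hf hpf
  have h4 := Finset.card_le_card hsub
  rw [Finset.card_erase_of_mem hfB] at h4
  have h5 : (B M {p}).card = out M {p} := rfl
  omega

/-- (b) upper bound for the number of independent pairs. -/
theorem f2_le (h_PAR : T_PAR) (h_OUT : T_OUT) (M : Matroid α) (p : α)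
    (hp : M.IsNonloop p) (hm : out M {p} = 4) :
    cnt M 2 ≤ (cls M p).card * 4 + 6 := by
  rw [(h_PAR α M).2.2.2.1 p hp, hm]
  have hO := card_O h_PAR h_OUT M p hp
  rw [hm] at hO
  have : (Finset.univ.filter fun A : Finset α => M.Indep (A : Set α) ∧ A.card = 2 ∧
      ∀ y ∈ A, y ∉ M.closure {p}).card ≤ ((nl M \ cls M p).powersetCard 2).card := by
    refine Finset.card_le_card fun A hA => ?_
    rw [Finset.mem_filter] at hA
    rw [Finset.mem_powersetCard]
    refine ⟨fun y hy => ?_, hA.2.2.1⟩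
    rw [mem_O]
    exact ⟨hA.2.1.isNonloop_of_mem hy, hA.2.2.2 y hy⟩
  rw [Finset.card_powersetCard, hO] at this
  have h6 : Nat.choose 4 2 = 6 := rfl
  omega

/-- (b) contraction of an element of the class of `p`. -/
theorem six_le (h_PAR : T_PAR) (h_OUT : T_OUT) (h_CTR : T_CTR) (M : Matroid α) (p : α)
    (hE : Ext M 3 3) (hp : M.IsNonloop p) (hm : out M {p} = 4) :
    6 ≤ cnt (M ／ {p}) 2 := by
  have hO := card_O h_PAR h_OUT M p hp
  rw [hm] at hO
  have h6 : ((nl M \ cls M p).powersetCard 2).card = 6 := by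
    rw [Finset.card_powersetCard, hO]
    rfl
  rw [← h6]
  refine Finset.card_le_card fun A hA => ?_
  rw [Finset.mem_powersetCard] at hA
  rw [Finset.mem_filter]
  refine ⟨Finset.mem_univ _, ?_, hA.2⟩
  obtain ⟨f, g, hfg, rfl⟩ := Finset.card_eq_two.1 hA.2
  have hf := (mem_O M p f).1 (hA.1 (Finset.mem_insert_self _ _))
  have hg := (mem_O M p g).1 (hA.1 (Finset.mem_insert_of_mem (Finset.mem_singleton_self _)))
  rw [((h_CTR α M p hp).1 {f, g})]
  have hpp : p ∈ M.closure {p} := M.mem_closure_of_mem (Set.mem_singleton p)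
    (Set.singleton_subset_iff.2 hp.mem_ground)
  constructor
  · intro hpm
    rw [Finset.mem_insert, Finset.mem_singleton] at hpm
    rcases hpm with rfl | rfl
    · exact hf.2 hpp
    · exact hg.2 hpp
  · have := tri h_PAR M p f g hE hp hm hf.1 hg.1 hf.2 hg.2 hfg
    rw [Finset.coe_insert, Finset.coe_pair]
    exact this

/-- (b) contraction of an element outside the class of `p`. -/
theorem three_le (h_PAR : T_PAR) (h_OUT : T_OUT) (h_CTR : T_CTR) (M : Matroid α) (p f : α)
    (hE : Ext M 3 3) (hp : M.IsNonloop p) (hm : out M {p} = 4) (hf : M.IsNonloop f)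
    (hpf : f ∉ M.closure {p}) :
    (cls M p).card * 3 ≤ cnt (M ／ {f}) 2 := by
  have hO := card_O h_PAR h_OUT M p hp
  rw [hm] at hO
  have hfO : f ∈ nl M \ cls M p := (mem_O M p f).2 ⟨hf, hpf⟩
  have h3 : ((nl M \ cls M p).erase f).card = 3 := by
    rw [Finset.card_erase_of_mem hfO, hO]
  rw [← h3, ← Finset.card_product]
  refine Finset.card_le_card_of_injOn (fun q => ({q.1, q.2} : Finset α)) ?_ ?_
  · intro q hq
    rw [Finset.mem_coe, Finset.mem_product] at hq
    obtain ⟨hq1, hq2⟩ := hq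
    rw [Finset.mem_erase, mem_O] at hq2
    obtain ⟨hqf, hq3, hq4⟩ := hq2
    rw [cls, Finset.mem_filter] at hq1
    obtain ⟨-, hq5, hq6⟩ := hq1
    have e1 := (h_PAR α M).1 p q.1 hp hq5 hq6
    have hne : q.1 ≠ q.2 := by
      intro h
      rw [h] at hq6
      exact hq4 hq6
    rw [Finset.mem_coe, Finset.mem_filter]
    refine ⟨Finset.mem_univ _, ?_, Finset.card_pair hne⟩
    rw [(h_CTR α M f hf).1 {q.1, q.2}]
    constructor
    · intro hpm
      rw [Finset.mem_insert, Finset.mem_singleton] at hpm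
      rcases hpm with h | h
      · rw [h] at hpf
        exact hpf hq6
      · exact hqf h.symm
    · have hm1 : out M {q.1} = 4 := by rw [out_eq h_PAR M p q.1 hp hq5 hq6, hm]
      have := tri h_PAR M q.1 f q.2 hE hq5 hm1 hf hq3 (by rw [e1]; exact hpf)
        (by rw [e1]; exact hq4) hqf.symm
      rw [Finset.coe_insert, Finset.coe_pair]
      refine this.subset ?_
      intro x hx
      rcases hx with hx | hx | hx
      · exact Or.inr (Or.inl hx)
      · exact Or.inl hx
      · exact Or.inr (Or.inr hx)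
  · intro q hq q' hq' h
    rw [Finset.mem_coe, Finset.mem_product] at hq hq'
    obtain ⟨hq1, hq2⟩ := hq
    obtain ⟨hq1', hq2'⟩ := hq'
    rw [Finset.mem_erase, mem_O] at hq2 hq2'
    rw [cls, Finset.mem_filter] at hq1 hq1'
    have h : ({q.1, q.2} : Finset α) = {q'.1, q'.2} := h
    have a1 : q.1 ∈ ({q'.1, q'.2} : Finset α) := by
      rw [← h]
      exact Finset.mem_insert_self _ _
    have a2 : q.2 ∈ ({q'.1, q'.2} : Finset α) := by
      rw [← h]
      exact Finset.mem_insert_of_mem (Finset.mem_singleton_self _)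
    rw [Finset.mem_insert, Finset.mem_singleton] at a1 a2
    have b1 : q.1 = q'.1 := by
      rcases a1 with a1 | a1
      · exact a1
      · exfalso
        rw [a1] at hq1
        exact hq2'.2.2 hq1.2.2
    have b2 : q.2 = q'.2 := by
      rcases a2 with a2 | a2
      · exfalso
        rw [a2] at hq2
        exact hq2.2.2 hq1'.2.2
      · exact a2
    exact Prod.ext b1 b2

end LC_

/-- LC: `8 ≤ VV` for connected cosimple rank three. -/
theorem p_LC (h_CB : T_CB) (h_LC2 : T_LC2) (h_PAR : T_PAR) (h_OUT : T_OUT) (h_HS : T_HS)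
    (h_CTR : T_CTR) : T_LC := by
  intro α _ _ M hxy hE hD
  have hxy' := hxy
  obtain ⟨x, y, hne, hi⟩ := hxy'
  have hx : M.IsNonloop x := hi.isNonloop_of_mem (Set.mem_insert _ _)
  have hnl : (nl M).Nonempty := ⟨x, by
    rw [nl, Finset.mem_filter]
    exact ⟨Finset.mem_univ _, hx⟩⟩
  obtain ⟨p, hp1, hmax⟩ := Finset.exists_max_image (nl M) (fun p => (cls M p).card) hnl
  have hp : M.IsNonloop p := by
    rw [nl, Finset.mem_filter] at hp1
    exact hp1.2
  have h1 := h_CB α M hxy hE hD
  have h2 := h_LC2 α M p hxy hE hD hp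
  have hP := h_PAR α M
  have h3 := hP.2.2.1 p hp
  have h4 := LC_.four_le h_PAR M p hE hxy hp
  have hw : 1 ≤ (cls M p).card := by
    refine Finset.card_pos.2 ⟨p, ?_⟩
    rw [cls, Finset.mem_filter]
    exact ⟨Finset.mem_univ _, hp, M.mem_closure_of_mem (Set.mem_singleton p)
      (Set.singleton_subset_iff.2 hp.mem_ground)⟩
  have h5 := (h_OUT α M).2.2.1
  -- the general bound `2 F₂ ≥ n m`
  have h6 : cnt M 1 * out M {p} ≤ 2 * cnt M 2 := by
    rw [hP.2.2.2.2, h5, ← smul_eq_mul, ← Finset.sum_const]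
    refine Finset.sum_le_sum fun f hf => ?_
    have a := hmax f hf
    have hf' : M.IsNonloop f := by
      rw [nl, Finset.mem_filter] at hf
      exact hf.2
    have b := hP.2.2.1 f hf'
    omega
  rcases Nat.lt_or_ge 4 (out M {p}) with h7 | h7
  · rcases Nat.lt_or_ge 2 (cls M p).card with h8 | h8
    · -- (i)
      have c1 : (1 : ℤ) ≤ 2 * (out M {p} : ℤ) - 9 := by omega
      have c2 : (0 : ℤ) ≤ ((cls M p).card : ℤ) - 3 := by omega
      have c3 := mul_nonneg (le_trans (by norm_num) c1) c2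
      linarith
    · -- (ii)
      rw [VV]
      have hw2 : (cls M p).card = 1 ∨ (cls M p).card = 2 := by omega
      zify at h1 h3 h6 h7
      rcases hw2 with hw2 | hw2
      · rw [hw2] at h3
        push_cast at h3
        rw [← h3] at h6 h1
        nlinarith [sq_nonneg ((out M {p} : ℤ) - 4)]
      · rw [hw2] at h3
        push_cast at h3
        rw [← h3] at h6 h1
        nlinarith
  · -- (iii)
    have hm : out M {p} = 4 := le_antisymm h7 h4
    have hO := LC_.card_O h_PAR h_OUT M p hp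
    have d1 := LC_.f2_le h_PAR h_OUT M p hp hm
    -- `3 F₃ ≥ 18 w`
    have d2 : 18 * (cls M p).card ≤ 3 * cnt M 3 := by
      have e1 := h_HS α M 2
      have e2 : ∑ e ∈ nl M, cnt (M ／ {e}) 2 = ∑ e ∈ nl M \ cls M p, cnt (M ／ {e}) 2 +
          ∑ e ∈ cls M p, cnt (M ／ {e}) 2 := (Finset.sum_sdiff (LC_.cls_subset M p)).symm
      have e3 : (cls M p).card * 6 ≤ ∑ e ∈ cls M p, cnt (M ／ {e}) 2 := by
        rw [← smul_eq_mul, ← Finset.sum_const]
        refine Finset.sum_le_sum fun q hq => ?_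
        rw [cls, Finset.mem_filter] at hq
        exact LC_.six_le h_PAR h_OUT h_CTR M q hE hq.2.1
          (by rw [LC_.out_eq h_PAR M p q hp hq.2.1 hq.2.2, hm])
      have e4 : (nl M \ cls M p).card * ((cls M p).card * 3) ≤
          ∑ e ∈ nl M \ cls M p, cnt (M ／ {e}) 2 := by
        rw [← smul_eq_mul (nl M \ cls M p).card, ← Finset.sum_const]
        refine Finset.sum_le_sum fun q hq => ?_
        rw [LC_.mem_O] at hq
        exact LC_.three_le h_PAR h_OUT h_CTR M p q hE hp hm hq.1 hq.2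
      rw [hO, hm] at e4
      norm_num at e1
      omega
    -- `2 F₂ ≥ 8 w + 12` in the form of T_LC2
    rw [VV] at h2 ⊢
    rw [hm] at h2 h3
    push_cast at h2
    zify at d1 d2
    omega

end Pool.Agent.RLM
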