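import Pool.Agent.RLM.Targets4

set_option autoImplicit false

/-!
# RLM: the target T_M3
-/

open scoped Classical Matroid

noncomputable section

namespace Pool.Agent.RLM

namespace M3_

theorem cnt4 {α : Type} [Fintype α] (M : Matroid α) (h : HasRk M 3) : cnt M 4 = 0 := by
  unfold cnt
  rw [Finset.card_eq_zero, Finset.filter_eq_empty_iff]
  intro A _ hA
  have := h.2 A hA.1
  omega

theorem pair {α : Type} [Fintype α] [DecidableEq α] (M : Matroid α) (h : HasRk M 3) :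
    ∃ x y : α, x ≠ y ∧ M.Indep {x, y} := by
  obtain ⟨T, hT, hc⟩ := h.1
  obtain ⟨x, y, z, hxy, _, _, rfl⟩ := Finset.card_eq_three.1 hc
  refine ⟨x, y, hxy, hT.subset ?_⟩
  intro u hu
  simp only [Set.mem_insert_iff, Set.mem_singleton_iff] at hu
  rcases hu with rfl | rfl
  · simp
  · simp

theorem alg (n F2 F3 : ℤ) (hn : 5 ≤ n) (h1 : 3 * n ≤ F2 + 6) (h2 : F2 ≤ F3 + 2)
    (_h3 : 0 ≤ F3 - 2 * F2 + 4 * n - 8) :
    F3 * (F3 - 2 * F2 + 4 * n - 8) ≤ (3 * F3 - 2 * F2) * (3 * F3 - 4 * F2 + 4 * n) := by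
  have h5 : 0 ≤ (F3 - F2 + n - 1) * (F3 - F2 + 2) := mul_nonneg (by linarith) (by linarith)
  have h6 : (3 * F3 - 2 * F2) * (3 * F3 - 4 * F2 + 4 * n) - F3 * (F3 - 2 * F2 + 4 * n - 8) =
      8 * ((F3 - F2 + n - 1) * (F3 - F2 + 2) + (F2 - 2 * n + 2)) := by ring
  have h7 : 0 ≤ F2 - 2 * n + 2 := by linarith
  linarith

end M3_

theorem p_M3 (h_CRC : T_CRC) (h_C3 : T_C3) (h_H2 : T_H2) (h_K0 : T_K0) (h_HW3 : T_HW3)
    (h_OUT : T_OUT) : T_M3 := by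
  intro α _ _ M hrk hext hA
  by_cases hn : cnt M 1 ≤ 3 + 1
  · exact h_CRC α M 3 (Or.inl rfl) hrk hext hn
  intro t ht _
  have c4 := M3_.cnt4 M hrk
  have c0 := (h_OUT α M).1
  have e1 : 3 * cnt M 1 ≤ cnt M 2 + 6 := by
    refine (h_H2 α M).1 (M3_.pair M hrk) ?_
    intro x y hxy hi
    refine hext {x, y} ?_ ?_
    · rw [Finset.coe_pair]
      exact hi
    · rw [Finset.card_pair hxy]
  have e2 : cnt M 2 ≤ cnt M 3 + 2 := h_C3 α M hrk hext hA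
  have e3 := h_K0 α M 3 hrk hext
  rw [Finset.sum_range_succ, Finset.sum_range_succ, Finset.sum_range_succ,
    Finset.sum_range_succ, Finset.sum_range_zero, c0] at e3
  have z1 : (5 : ℤ) ≤ (cnt M 1 : ℤ) := by omega
  have z2 : 3 * (cnt M 1 : ℤ) ≤ (cnt M 2 : ℤ) + 6 := by exact_mod_cast e1
  have z3 : (cnt M 2 : ℤ) ≤ (cnt M 3 : ℤ) + 2 := by exact_mod_cast e2
  have z4 : 0 ≤ (cnt M 3 : ℤ) - 2 * (cnt M 2 : ℤ) + 4 * (cnt M 1 : ℤ) - 8 := by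
    have : (0 : ℝ) ≤ (cnt M 3 : ℝ) - 2 * (cnt M 2 : ℝ) + 4 * (cnt M 1 : ℝ) - 8 := by
      norm_num at e3
      linarith
    exact_mod_cast this
  have key := h_HW3.1 (cnt M 1 : ℤ) (cnt M 2 : ℤ) (cnt M 3 : ℤ) (by linarith) (by linarith)
    (by linarith) z4 (M3_.alg _ _ _ z1 z2 z3 z4) t ht
  unfold IP
  rw [c4]
  simpa using key

end Pool.Agent.RLM
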