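import Pool.Agent.RLM.Targets4

set_option autoImplicit false

/-!
# RLM, target M4: rank four, connected
-/

open scoped Classical Matroid

noncomputable section

namespace Pool.Agent.RLM

/-- The Hurwitz conditions in rank four, connected, at least six nonloops. -/
theorem M4_.hw (h_M4C : T_M4C) (h_M4S : T_M4S) {α : Type} [Fintype α] [DecidableEq α]
    (M : Matroid α) (hr : HasRk M 4) (hE : Ext M 4 2) (hA : ¬ DiscA M 4) (hB : ¬ DiscB M)
    (h6 : 6 ≤ cnt M 1) : Hw (cnt M 1) (cnt M 2) (cnt M 3) (cnt M 4) := by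
  by_cases h3 : Ext M 4 3
  · exact h_M4C α M hr h3 hA hB
  · unfold Ext at h3
    push Not at h3
    obtain ⟨T, hT, hc, ho⟩ := h3
    have h2 := hE T hT hc
    exact h_M4S α M T hr hE hA hB h6 hT (by omega) (by omega)

theorem p_M4 (h_CRC : T_CRC) (h_M4C : T_M4C) (h_M4S : T_M4S) (h_HW4 : T_HW4) : T_M4 := by
  intro α _ _ M hr hE hA hB
  by_cases h5 : cnt M 1 ≤ 5
  · exact h_CRC α M 4 (Or.inr rfl) hr hE h5
  · intro t ht _
    have h := h_HW4 _ _ _ _ (M4_.hw h_M4C h_M4S M hr hE hA hB (by omega)) t ht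
    unfold IP
    push_cast at h
    exact h

end Pool.Agent.RLM
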