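import Pool.Agent.RLM.Targets3

set_option autoImplicit false

/-!
# RLM, target M4C: the Hurwitz conditions in the cosimple case
-/

open scoped Classical Matroid

namespace Pool.Agent.RLM

/-- Rank two: twice the number of pairs is at least three times the number of points. -/
theorem M4C_two (h_PAR : T_PAR) (h_OUT : T_OUT) {α : Type} [Fintype α] [DecidableEq α]
    (M : Matroid α) (h : Ext M 2 3) : 3 * cnt M 1 ≤ 2 * cnt M 2 := by
  obtain ⟨-, -, -, -, h2⟩ := h_PAR α M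
  obtain ⟨-, -, h1, -, -, -⟩ := h_OUT α M
  rw [h2, h1, mul_comm, ← smul_eq_mul, ← Finset.sum_const]
  refine Finset.sum_le_sum fun e he => ?_
  have hn : M.IsNonloop e := (Finset.mem_filter.1 he).2
  refine h {e} ?_ (by simp)
  rw [Finset.coe_singleton]
  exact Matroid.indep_singleton.2 hn

/-- Rank three: at least as many triples as pairs. -/
theorem M4C_three (h_HS : T_HS) (h_CTR : T_CTR) (h_PAR : T_PAR) (h_OUT : T_OUT) {α : Type}
    [Fintype α] [DecidableEq α] (M : Matroid α) (h : Ext M 3 3) : cnt M 2 ≤ cnt M 3 := by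
  obtain ⟨-, -, -, -, h2⟩ := h_PAR α M
  obtain ⟨-, -, -, -, h1, -⟩ := h_OUT α M
  have h3 : 3 * cnt M 3 = ∑ e ∈ nl M, cnt (M ／ {e}) 2 := h_HS α M 2
  have key : 3 * ∑ e ∈ nl M, out M {e} ≤ 2 * ∑ e ∈ nl M, cnt (M ／ {e}) 2 := by
    rw [Finset.mul_sum, Finset.mul_sum]
    refine Finset.sum_le_sum fun e he => ?_
    have hn : M.IsNonloop e := (Finset.mem_filter.1 he).2
    rw [← h1 e hn]
    exact M4C_two h_PAR h_OUT _ ((h_CTR α M e hn).2.2 2 3 h)
  rw [← h2, ← h3] at key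
  omega

/-- M4C. -/
theorem p_M4C (h_LA : T_LA) (h_ALG : T_ALG) (h_K0 : T_K0) (h_HS : T_HS) (h_CTR : T_CTR)
    (h_H2 : T_H2) (h_OUT : T_OUT) (h_PAR : T_PAR) : T_M4C := by
  intro α _ _ M hrk hext hA hB
  obtain ⟨-, -, hc1, -, hout, -⟩ := h_OUT α M
  obtain ⟨-, -, -, -, hp⟩ := h_PAR α M
  have hs1 : 2 * cnt M 2 = ∑ e ∈ nl M, cnt (M ／ {e}) 1 := h_HS α M 1
  have hs2 : 3 * cnt M 3 = ∑ e ∈ nl M, cnt (M ／ {e}) 2 := h_HS α M 2
  have hs3 : 4 * cnt M 4 = ∑ e ∈ nl M, cnt (M ／ {e}) 3 := h_HS α M 3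
  have hext2 : ∀ {β : Type} [Fintype β] (N : Matroid β) (r : ℕ), Ext N r 3 → Ext N r 2 :=
    fun N r h T hT hc => (by norm_num : 2 ≤ 3).trans (h T hT hc)
  -- contractions
  have hrk3 : ∀ e, M.IsNonloop e → HasRk (M ／ {e}) 3 := fun e he => (h_CTR α M e he).2.1 3 hrk
  have hext3 : ∀ e, M.IsNonloop e → Ext (M ／ {e}) 3 3 := fun e he => (h_CTR α M e he).2.2 3 3 hext
  have hnl : ∀ e ∈ nl M, M.IsNonloop e := fun e he => (Finset.mem_filter.1 he).2
  -- a basis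
  obtain ⟨⟨B, hB1, hB2⟩, -⟩ := id hrk
  obtain ⟨b, hb⟩ : B.Nonempty := Finset.card_pos.1 (by omega)
  set T := B.erase b with hT
  have hTc : T.card = 3 := by rw [hT, Finset.card_erase_of_mem hb]; omega
  have hTi : M.Indep (T : Set α) := hB1.subset (by
    intro x hx
    exact Finset.mem_of_mem_erase hx)
  -- six nonloops
  have hF1 : 6 ≤ cnt M 1 := by
    have h3 := hext T hTi (by omega)
    rw [hc1]
    unfold out at h3
    have hdis : Disjoint T (Finset.univ.filter fun x => x ∈ M.E ∧ x ∉ M.closure (T : Set α)) := by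
      rw [Finset.disjoint_left]
      intro x hx hx2
      exact (Finset.mem_filter.1 hx2).2.2 (M.mem_closure_of_mem (by exact_mod_cast hx)
        hTi.subset_ground)
    have hsub : T ∪ (Finset.univ.filter fun x => x ∈ M.E ∧ x ∉ M.closure (T : Set α)) ⊆ nl M := by
      intro x hx
      rw [nl, Finset.mem_filter]
      refine ⟨Finset.mem_univ _, ?_⟩
      rcases Finset.mem_union.1 hx with hx | hx
      · exact hTi.isNonloop_of_mem (by exact_mod_cast hx)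
      · obtain ⟨-, hxE, hxc⟩ := Finset.mem_filter.1 hx
        rw [← Matroid.not_isLoop_iff]
        intro hl
        exact hxc (hl.mem_closure _)
    have := Finset.card_le_card hsub
    rw [Finset.card_union_of_disjoint hdis] at this
    omega
  have hF3 : 0 < cnt M 3 := Finset.card_pos.2 ⟨T, Finset.mem_filter.2 ⟨Finset.mem_univ _, hTi, hTc⟩⟩
  have hF4 : 0 < cnt M 4 := Finset.card_pos.2 ⟨B, Finset.mem_filter.2 ⟨Finset.mem_univ _, hB1, hB2⟩⟩
  -- 4 F4 ≥ 3 F3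
  have h43 : 3 * cnt M 3 ≤ 4 * cnt M 4 := by
    have h1 : ∑ e ∈ nl M, cnt (M ／ {e}) 2 ≤ ∑ e ∈ nl M, cnt (M ／ {e}) 3 :=
      Finset.sum_le_sum fun e he =>
        M4C_three h_HS h_CTR h_PAR h_OUT _ (hext3 e (hnl e he))
    omega
  -- k1
  have hk1 : (0 : ℤ) ≤ 4 * cnt M 4 - 6 * cnt M 3 + 8 * cnt M 2 - 8 * cnt M 1 := by
    have hterm : ∀ e ∈ nl M, (0 : ℤ) ≤ (cnt (M ／ {e}) 3 : ℤ) - 2 * cnt (M ／ {e}) 2 +
        4 * cnt (M ／ {e}) 1 - 8 := by
      intro e he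
      have h0 := h_K0 α (M ／ {e}) 3 (hrk3 e (hnl e he)) (hext2 _ _ (hext3 e (hnl e he)))
      have hz := (h_OUT α (M ／ {e})).1
      simp only [Finset.sum_range_succ, Finset.sum_range_zero, hz] at h0
      have h1 : (0 : ℝ) ≤ (cnt (M ／ {e}) 3 : ℝ) - 2 * cnt (M ／ {e}) 2 +
        4 * cnt (M ／ {e}) 1 - 8 := by
        norm_num at h0
        linarith
      exact_mod_cast h1
    have hsum := Finset.sum_nonneg hterm
    rw [Finset.sum_sub_distrib, Finset.sum_add_distrib, Finset.sum_sub_distrib, Finset.sum_const,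
      ← Finset.mul_sum, ← Finset.mul_sum, ← hc1] at hsum
    have e1 : (∑ e ∈ nl M, (cnt (M ／ {e}) 1 : ℤ)) = 2 * cnt M 2 := by
      rw [← Nat.cast_sum, ← hs1]; push_cast; ring
    have e2 : (∑ e ∈ nl M, (cnt (M ／ {e}) 2 : ℤ)) = 3 * cnt M 3 := by
      rw [← Nat.cast_sum, ← hs2]; push_cast; ring
    have e3 : (∑ e ∈ nl M, (cnt (M ／ {e}) 3 : ℤ)) = 4 * cnt M 4 := by
      rw [← Nat.cast_sum, ← hs3]; push_cast; ring
    rw [e1, e2, e3, nsmul_eq_mul] at hsum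
    linarith
  -- k0
  have hk0 : (0 : ℤ) ≤ (cnt M 4 : ℤ) - 2 * cnt M 3 + 4 * cnt M 2 - 8 * cnt M 1 + 16 := by
    have h0 := h_K0 α M 4 hrk (hext2 _ _ hext)
    have hz := (h_OUT α M).1
    simp only [Finset.sum_range_succ, Finset.sum_range_zero, hz] at h0
    have h1 : (0 : ℝ) ≤ (cnt M 4 : ℝ) - 2 * cnt M 3 + 4 * cnt M 2 - 8 * cnt M 1 + 16 := by
      norm_num at h0
      linarith
    exact_mod_cast h1
  -- c ≥ a
  have hca : (0 : ℤ) ≤ (cnt M 3 : ℤ) - 2 * cnt M 2 + 2 * cnt M 1 := by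
    have h1 : ∑ e ∈ nl M, 3 * cnt (M ／ {e}) 1 ≤ ∑ e ∈ nl M, (cnt (M ／ {e}) 2 + 6) := by
      refine Finset.sum_le_sum fun e he => ?_
      have hr := hrk3 e (hnl e he)
      have hx := hext3 e (hnl e he)
      refine (h_H2 α (M ／ {e})).1 ?_ ?_
      · obtain ⟨⟨C, hC1, hC2⟩, -⟩ := hr
        obtain ⟨x, hx, y, hy, hxy⟩ := Finset.one_lt_card.1 (by omega : 1 < C.card)
        refine ⟨x, y, hxy, hC1.subset ?_⟩
        intro z hz
        rcases hz with rfl | hz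
        · exact_mod_cast hx
        · rw [Set.mem_singleton_iff.1 hz]; exact_mod_cast hy
      · intro x y hxy hI
        have := hx {x, y} (by simpa using hI) (by rw [Finset.card_pair hxy])
        omega
    rw [← Finset.mul_sum, Finset.sum_add_distrib, Finset.sum_const, ← hs1, ← hs2, ← hc1,
      smul_eq_mul] at h1
    omega
  have hla := h_LA α M hrk hext hA hB
  have hlaZ : (cnt M 3 : ℤ) + 4 ≤ cnt M 4 + 2 * cnt M 1 := by exact_mod_cast hla
  have hF1Z : (6 : ℤ) ≤ cnt M 1 := by exact_mod_cast hF1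
  have hd : (0 : ℤ) ≤ (cnt M 4 : ℤ) - cnt M 3 + cnt M 2 - cnt M 1 := by linarith
  refine h_ALG _ _ _ _ hF1Z (by exact_mod_cast hF4) ?_ ?_ ?_ ?_ hca ?_
  · unfold k3
    have : (0 : ℤ) < cnt M 3 := by exact_mod_cast hF3
    have h43Z : 3 * (cnt M 3 : ℤ) ≤ 4 * cnt M 4 := by exact_mod_cast h43
    linarith
  · unfold k2
    linarith
  · unfold k1
    exact hk1
  · unfold k0
    exact hk0
  · have h1 : ((cnt M 4 : ℤ) - cnt M 3 + cnt M 2 - cnt M 1) *
        (cnt M 2 - 3 * cnt M 1 + 6 - (cnt M 4 - cnt M 3 + cnt M 2 - cnt M 1 + 1) - 1) ≤ 0 :=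
      mul_nonpos_of_nonneg_of_nonpos hd (by linarith)
    have h2 : (0 : ℤ) ≤ ((cnt M 1 : ℤ) - 6) * (cnt M 3 - 2 * cnt M 2 + 2 * cnt M 1) :=
      mul_nonneg (by linarith) hca
    linarith

end Pool.Agent.RLM
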