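import Pool.Agent.RLM.Targets3

set_option autoImplicit false

/-!
# RLM: proof of T_M4S, the series case in rank four
-/

open scoped Classical Matroid

noncomputable section

namespace Pool.Agent.RLM

namespace M4S_

/-- Positivity of the top count. -/
lemma cnt_pos {α : Type} [Fintype α] (M : Matroid α) (r : ℕ) (h : HasRk M r) :
    0 < cnt M r := by
  obtain ⟨⟨T, hT, hc⟩, -⟩ := h
  unfold cnt
  refine Finset.card_pos.mpr ⟨T, ?_⟩
  simp only [Finset.mem_filter, Finset.mem_univ, true_and]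
  exact ⟨hT, hc⟩

/-- T_K0 in rank three, as integers. -/
lemma k0_three (h_K0 : T_K0) {α : Type} [Fintype α] [DecidableEq α] (M : Matroid α)
    (h0 : cnt M 0 = 1) (hr : HasRk M 3) (he : Ext M 3 2) :
    (0 : ℤ) ≤ (cnt M 3 : ℤ) - 2 * cnt M 2 + 4 * cnt M 1 - 8 := by
  have h := h_K0 α M 3 hr he
  simp only [Finset.sum_range_succ, Finset.sum_range_zero, h0] at h
  have h2 : (0 : ℝ) ≤ (cnt M 3 : ℝ) - 2 * cnt M 2 + 4 * cnt M 1 - 8 := by
    norm_num at h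
    linarith
  exact_mod_cast h2

/-- T_K0 in rank four, as integers. -/
lemma k0_four (h_K0 : T_K0) {α : Type} [Fintype α] [DecidableEq α] (M : Matroid α)
    (h0 : cnt M 0 = 1) (hr : HasRk M 4) (he : Ext M 4 2) :
    (0 : ℤ) ≤ (cnt M 4 : ℤ) - 2 * cnt M 3 + 4 * cnt M 2 - 8 * cnt M 1 + 16 := by
  have h := h_K0 α M 4 hr he
  simp only [Finset.sum_range_succ, Finset.sum_range_zero, h0] at h
  have h2 : (0 : ℝ) ≤ (cnt M 4 : ℝ) - 2 * cnt M 3 + 4 * cnt M 2 - 8 * cnt M 1 + 16 := by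
    norm_num at h
    linarith
  exact_mod_cast h2

/-- T_H2, first part, for a rank three matroid with Ext 2. -/
lemma h2_three (h_H2 : T_H2) {α : Type} [Fintype α] [DecidableEq α] (M : Matroid α)
    (hr : HasRk M 3) (he : Ext M 3 2) : 3 * cnt M 1 ≤ cnt M 2 + 6 := by
  refine (h_H2 α M).1 ?_ ?_
  · obtain ⟨⟨T, hT, hc⟩, -⟩ := hr
    obtain ⟨x, y, z, hxy, hxz, hyz, rfl⟩ := Finset.card_eq_three.mp hc
    refine ⟨x, y, hxy, hT.subset ?_⟩
    intro w hw
    simp only [Finset.coe_insert, Finset.coe_singleton, Set.mem_insert_iff,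
      Set.mem_singleton_iff] at hw ⊢
    tauto
  · intro x y hxy hI
    refine he {x, y} ?_ ?_
    · simpa using hI
    · rw [Finset.card_pair hxy]

/-- An independent pair in rank two gives two nonloops. -/
lemma two_le (h_OUT : T_OUT) {α : Type} [Fintype α] [DecidableEq α] (M : Matroid α)
    (hr : HasRk M 2) : 2 ≤ cnt M 1 := by
  obtain ⟨⟨T, hT, hc⟩, -⟩ := hr
  rw [(h_OUT α M).2.2.1, ← hc]
  refine Finset.card_le_card ?_
  intro x hx
  unfold nl
  simp only [Finset.mem_filter, Finset.mem_univ, true_and]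
  exact hT.isNonloop_of_mem (by exact_mod_cast hx)

/-- The inequality of T_R3C and T_R3N in all cases. -/
lemma r3 (h_R3C : T_R3C) (h_R3N : T_R3N) {α : Type} [Fintype α] [DecidableEq α]
    (M : Matroid α) (e : α) (hr : HasRk M 3) (he : Ext M 3 2) (hd : ¬ DiscA M 3)
    (h5 : 5 ≤ cnt M 1) (hn : M.IsNonloop e) :
    0 ≤ ((cnt M 3 : ℤ) - cnt M 2 + cnt M 1 - 2) *
      ((cnt M 3 : ℤ) - 2 * cnt M 2 + 3 * cnt M 1 + out M {e} - 7) +
    ((cnt M 1 : ℤ) - 5) *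
      ((cnt M 2 : ℤ) - 3 * cnt M 1 - cnt (M ／ {e}) 2 + out M {e} + 6) := by
  by_cases h3 : Ext M 3 3
  · exact h_R3C α M e hr h3 hd hn
  · unfold Ext at h3
    push Not at h3
    obtain ⟨T, hT, hc, ho⟩ := h3
    have h2 := he T hT hc
    have hc2 : T.card = 2 := by omega
    obtain ⟨x, y, hxy, rfl⟩ := Finset.card_eq_two.mp hc2
    refine h_R3N α M e x y hr he hd h5 hxy ?_ (by omega) hn
    simpa using hT

end M4S_

open M4S_

theorem p_M4S (h_SR : T_SR) (h_R3C : T_R3C) (h_R3N : T_R3N) (h_C3 : T_C3) (h_ALG : T_ALG)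
    (h_K0 : T_K0) (h_HS : T_HS) (h_CTR : T_CTR) (h_H2 : T_H2) (h_OUT : T_OUT) : T_M4S := by
  intro α _ _ M T hR hE hA hB h6 hT hc ho
  obtain ⟨e, f, hef, hI, hf, he, hR', hE', hA', e1, e2, e3, e4⟩ :=
    h_SR α M T hR hE hA hB hT hc ho
  set N := M ／ {f} with hN
  have h5 : 5 ≤ cnt N 1 := by omega
  have hr3 := r3 h_R3C h_R3N N e hR' hE' hA' h5 he
  have hC3 := h_C3 α N hR' hE' hA'
  have hK3 := k0_three h_K0 N (h_OUT α N).1 hR' hE'
  have hK4 := k0_four h_K0 M (h_OUT α M).1 hR hE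
  have hF4 := cnt_pos M 4 hR
  have hm : 2 ≤ out N {e} := by
    rw [← (h_OUT α N).2.2.2.2.1 e he]
    exact two_le h_OUT _ ((h_CTR α N e he).2.1 2 hR')
  -- the sums over the nonloops
  have s3 := h_HS α M 3
  have s2 := h_HS α M 2
  have s1 := h_HS α M 1
  have s0 := (h_OUT α M).2.2.1
  have z3 : (4 : ℤ) * cnt M 4 = ∑ x ∈ nl M, (cnt (M ／ {x}) 3 : ℤ) := by
    have := congrArg (Nat.cast : ℕ → ℤ) s3
    push_cast at this
    linarith
  have z2 : (3 : ℤ) * cnt M 3 = ∑ x ∈ nl M, (cnt (M ／ {x}) 2 : ℤ) := by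
    have := congrArg (Nat.cast : ℕ → ℤ) s2
    push_cast at this
    linarith
  have z1 : (2 : ℤ) * cnt M 2 = ∑ x ∈ nl M, (cnt (M ／ {x}) 1 : ℤ) := by
    have := congrArg (Nat.cast : ℕ → ℤ) s1
    push_cast at this
    linarith
  have z0 : (cnt M 1 : ℤ) = ∑ _x ∈ nl M, (1 : ℤ) := by
    rw [s0]
    simp
  have hk1 : (0 : ℤ) ≤ 4 * cnt M 4 - 6 * cnt M 3 + 8 * cnt M 2 - 8 * cnt M 1 := by
    have key : (4 : ℤ) * cnt M 4 - 6 * cnt M 3 + 8 * cnt M 2 - 8 * cnt M 1 =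
        ∑ x ∈ nl M, ((cnt (M ／ {x}) 3 : ℤ) - 2 * cnt (M ／ {x}) 2 +
          4 * cnt (M ／ {x}) 1 - 8) := by
      rw [Finset.sum_sub_distrib, Finset.sum_add_distrib, Finset.sum_sub_distrib,
        ← Finset.mul_sum, ← Finset.mul_sum, ← z3, ← z2, ← z1]
      have : ∑ _x ∈ nl M, (8 : ℤ) = 8 * cnt M 1 := by
        rw [z0, Finset.mul_sum]
        simp
      rw [this]
      ring
    rw [key]
    refine Finset.sum_nonneg ?_
    intro x hx
    have hxn : M.IsNonloop x := by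
      unfold nl at hx
      simpa using hx
    exact k0_three h_K0 _ (h_OUT α _).1 ((h_CTR α M x hxn).2.1 3 hR)
      ((h_CTR α M x hxn).2.2 3 2 hE)
  have hca : (0 : ℤ) ≤ cnt M 3 - 2 * cnt M 2 + 2 * cnt M 1 := by
    have key : (3 : ℤ) * (cnt M 3 - 2 * cnt M 2 + 2 * cnt M 1) =
        ∑ x ∈ nl M, ((cnt (M ／ {x}) 2 : ℤ) - 3 * cnt (M ／ {x}) 1 + 6) := by
      rw [Finset.sum_add_distrib, Finset.sum_sub_distrib, ← Finset.mul_sum, ← z2, ← z1]
      have : ∑ _x ∈ nl M, (6 : ℤ) = 6 * cnt M 1 := by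
        rw [z0, Finset.mul_sum]
        simp
      rw [this]
      ring
    have : (0 : ℤ) ≤ 3 * (cnt M 3 - 2 * cnt M 2 + 2 * cnt M 1) := by
      rw [key]
      refine Finset.sum_nonneg ?_
      intro x hx
      have hxn : M.IsNonloop x := by
        unfold nl at hx
        simpa using hx
      have := h2_three h_H2 (M ／ {x}) ((h_CTR α M x hxn).2.1 3 hR)
        ((h_CTR α M x hxn).2.2 3 2 hE)
      have h' : (3 : ℤ) * cnt (M ／ {x}) 1 ≤ cnt (M ／ {x}) 2 + 6 := by exact_mod_cast this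
      linarith
    linarith
  -- casts of the relations
  have c1 : (cnt M 1 : ℤ) = cnt N 1 + 1 := by exact_mod_cast e1
  have c2 : (cnt M 2 : ℤ) + out N {e} + 1 = cnt N 2 + 2 * cnt N 1 := by exact_mod_cast e2
  have c3 : (cnt M 3 : ℤ) + cnt (N ／ {e}) 2 + out N {e} = cnt N 3 + 2 * cnt N 2 := by
    exact_mod_cast e3
  have c4 : (cnt M 4 : ℤ) + cnt (N ／ {e}) 2 = 2 * cnt N 3 := by exact_mod_cast e4
  have cC3 : (cnt N 2 : ℤ) ≤ cnt N 3 + 2 := by exact_mod_cast hC3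
  have cm : (2 : ℤ) ≤ out N {e} := by exact_mod_cast hm
  have c5 : (5 : ℤ) ≤ cnt N 1 := by exact_mod_cast h5
  have c6 : (6 : ℤ) ≤ cnt M 1 := by exact_mod_cast h6
  have cF4 : (0 : ℤ) < cnt M 4 := by exact_mod_cast hF4
  generalize (cnt M 1 : ℤ) = F1 at *
  generalize (cnt M 2 : ℤ) = F2 at *
  generalize (cnt M 3 : ℤ) = F3 at *
  generalize (cnt M 4 : ℤ) = F4 at *
  generalize (cnt N 1 : ℤ) = n at *
  generalize (cnt N 2 : ℤ) = N2 at *
  generalize (cnt N 3 : ℤ) = N3 at *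
  generalize (out N {e} : ℤ) = m at *
  generalize (cnt (N ／ {e}) 2 : ℤ) = g at *
  clear z3 z2 z1 z0
  have hF1 : F1 = n + 1 := c1
  have hF2 : F2 = N2 + 2 * n - m - 1 := by linarith
  have hF3 : F3 = N3 + 2 * N2 - g - m := by linarith
  have hF4' : F4 = 2 * N3 - g := by linarith
  subst hF1 hF2 hF3 hF4'
  refine h_ALG _ _ _ _ c6 cF4 ?_ ?_ ?_ ?_ ?_ ?_
  · unfold k3
    linarith
  · unfold k2
    linarith
  · unfold k1
    linarith
  · unfold k0
    linarith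
  · linarith
  · nlinarith [hr3]

end Pool.Agent.RLM
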