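import Pool.Agent.RLM.Targets2

set_option autoImplicit false

/-! # RLM target NC3 -/

open scoped Classical Matroid

noncomputable section

namespace Pool.Agent.RLM

/-- An independent set inside the closure of a finite set is not larger than this set. -/
theorem NC3_card_le {α : Type} (M : Matroid α) (T S : Finset α) (hT : M.Indep (T : Set α))
    (h : ∀ x ∈ T, x ∈ M.closure (S : Set α)) : T.card ≤ S.card := by
  have h1 : (T : Set α) ⊆ M.closure (S : Set α) := fun x hx => h x (Finset.mem_coe.1 hx)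
  have h2 : (T : Set α).encard ≤ (S : Set α).encard := by
    calc (T : Set α).encard = M.eRk (T : Set α) := hT.eRk_eq_encard.symm
      _ ≤ M.eRk (M.closure (S : Set α)) := M.eRk_mono h1
      _ = M.eRk (S : Set α) := M.eRk_closure_eq _
      _ ≤ (S : Set α).encard := M.eRk_le_encard _
  rw [Set.encard_coe_eq_coe_finsetCard, Set.encard_coe_eq_coe_finsetCard] at h2
  exact_mod_cast h2

theorem NC3_arith (u p q a2 c ox oy sU sP sQ : ℕ) (hp : 1 ≤ p) (hq : 1 ≤ q)
    (b2 : c = a2 + 2 * (u + (p + q)) + 1) (hs : 2 * c = (ox + oy) + (sU + (sP + sQ)))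
    (h1 : 1 + (u + (p + q)) ≤ ox) (h2 : 1 + (u + (p + q)) ≤ oy)
    (h3 : u * (2 + (p + q)) ≤ sU) (h4 : p * (2 + (u + q)) ≤ sP) (h5 : q * (2 + (u + p)) ≤ sQ) :
    u * (p + q) + (p + q) ≤ a2 + 1 := by
  obtain ⟨p, rfl⟩ : ∃ p', p = p' + 1 := ⟨p - 1, by omega⟩
  obtain ⟨q, rfl⟩ : ∃ q', q = q' + 1 := ⟨q - 1, by omega⟩
  nlinarith [Nat.zero_le (p * q)]

theorem p_NC3 (h_SER : T_SER) (h_OUT : T_OUT) (h_PAR : T_PAR) : T_NC3 := by
  intro α _ _ M x₀ y₀ hrk hext hdisc hne hind hout
  obtain ⟨p1, p2, p3, p4, p5⟩ := h_PAR α M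
  -- the two elements outside the line
  have hcard : (Finset.univ.filter fun z => z ∈ M.E ∧
      z ∉ M.closure ((({x₀, y₀} : Finset α)) : Set α)).card = 2 := hout
  obtain ⟨x, y, hxy, hF⟩ := Finset.card_eq_two.1 hcard
  have hmem : ∀ z, (z ∈ M.E ∧ z ∉ M.closure ((({x₀, y₀} : Finset α)) : Set α)) ↔
      z = x ∨ z = y := by
    intro z
    have : z ∈ (Finset.univ.filter fun z => z ∈ M.E ∧
      z ∉ M.closure ((({x₀, y₀} : Finset α)) : Set α)) ↔ z ∈ ({x, y} : Finset α) := by rw [hF]
    simpa using this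
  have hx := (hmem x).2 (Or.inl rfl)
  have hy := (hmem y).2 (Or.inr rfl)
  set CT : Set α := M.closure ((({x₀, y₀} : Finset α)) : Set α) with hCT
  have hnl : ∀ z, z ∈ M.E → ∀ X : Set α, z ∉ M.closure X → M.IsNonloop z := by
    intro z hz X hX
    refine ⟨?_, hz⟩
    intro h
    exact hX (M.closure_subset_closure (Set.empty_subset X) h)
  have hxn : M.IsNonloop x := hnl x hx.1 _ hx.2
  have hyn : M.IsNonloop y := hnl y hy.1 _ hy.2
  have hTind : M.Indep ((({x₀, y₀} : Finset α)) : Set α) := by simpa using hind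
  have hTc : ({x₀, y₀} : Finset α).card = 2 := Finset.card_pair hne
  -- symmetric form of parallelism
  have hsym : ∀ u v, M.IsNonloop u → M.IsNonloop v → u ∈ M.closure {v} → v ∈ M.closure {u} := by
    intro u v hu hv h
    rw [p1 v u hv hu h]
    exact M.mem_closure_of_mem' (Set.mem_singleton v) hv.mem_ground
  have hcl : ∀ u v (X : Set α), u ∈ M.closure X → v ∈ M.closure {u} → v ∈ M.closure X := by
    intro u v X hu hv
    exact M.closure_subset_closure_of_subset_closure (Set.singleton_subset_iff.2 hu) hv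
  -- independent
  have hxyi : y ∉ M.closure {x} := by
    intro hc
    apply hdisc
    refine ⟨x, hxn, ?_⟩
    intro T hT hc3
    by_contra hno
    push Not at hno
    have := NC3_card_le M T {x₀, y₀} hT (by
      intro z hz
      by_contra hz2
      have hzE : z ∈ M.E := hT.subset_ground (Finset.mem_coe.2 hz)
      rcases (hmem z).1 ⟨hzE, hz2⟩ with rfl | rfl
      · exact hno _ hz (M.mem_closure_of_mem' (Set.mem_singleton _) hzE)
      · exact hno _ hz hc)
    omega
  have hxyI : M.Indep {x, y} := ((p2 x y hxn hyn).1 hxyi).2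
  obtain ⟨a, a0, a1, a2, a3, a4⟩ := h_SER α M {x₀, y₀} x y hTind hxy hxyI hF
  have hxyc : x ∉ M.closure {y} := fun h => hxyi (hsym x y hxn hyn h)
  set CL : Set α := M.closure {x, y} with hCL
  have hxCL : x ∈ CL := M.mem_closure_of_mem' (by simp) hx.1
  have hyCL : y ∈ CL := M.mem_closure_of_mem' (by simp) hy.1
  -- R
  have hR : cnt (M ／ {y} ／ {x}) 1 = out M {x, y} := by
    have h1 := (h_OUT α (M ／ {y} ／ {x})).2.1
    have h2 := (h_OUT α (M ／ {y})).2.2.2.1 x ∅ (by
      simp only [Matroid.contract_ground, Set.mem_sdiff, Set.mem_singleton_iff]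
      exact ⟨hx.1, hxy⟩)
    have h3 := (h_OUT α M).2.2.2.1 y (insert x ∅) hy.1
    rw [h1, h2, h3]
    congr 1
    ext z
    simp only [Finset.mem_insert, Finset.notMem_empty, or_false, Finset.mem_singleton]
    tauto
  have hc0 : cnt (M ／ {y} ／ {x}) 0 = 1 := (h_OUT α (M ／ {y} ／ {x})).1
  set RS : Finset α := Finset.univ.filter fun z => z ∈ M.E ∧ z ∉ CL with hRS
  have hRc : out M {x, y} = RS.card := by
    unfold out
    rw [hRS, hCL]
    simp
  have hR2 : 2 ≤ RS.card := by
    have := hext {x, y} (by simpa using hxyI) (by rw [Finset.card_pair hxy])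
    omega
  obtain ⟨e0, he0⟩ : RS.Nonempty := Finset.card_pos.1 (by omega)
  have hRmem : ∀ z, z ∈ RS ↔ z ∈ M.E ∧ z ∉ CL := by
    intro z; rw [hRS]; simp
  have hRn : ∀ z, z ∈ RS → M.IsNonloop z := fun z hz =>
    hnl z ((hRmem z).1 hz).1 _ ((hRmem z).1 hz).2
  have hRT : ∀ z, z ∈ RS → z ∈ CT := by
    intro z hz
    by_contra hc
    rcases (hmem z).1 ⟨((hRmem z).1 hz).1, hc⟩ with rfl | rfl
    · exact ((hRmem _).1 hz).2 hxCL
    · exact ((hRmem _).1 hz).2 hyCL
  have he0n := hRn e0 he0
  set P : Finset α := RS.filter fun z => z ∈ M.closure {e0} with hP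
  set Q : Finset α := RS.filter fun z => z ∉ M.closure {e0} with hQ
  have hPQ : P.card + Q.card = RS.card := by
    rw [hP, hQ]
    exact Finset.card_filter_add_card_filter_not _
  have hPpos : 1 ≤ P.card := by
    apply Finset.card_pos.2
    refine ⟨e0, ?_⟩
    rw [hP, Finset.mem_filter]
    exact ⟨he0, M.mem_closure_of_mem' (Set.mem_singleton _) he0n.mem_ground⟩
  have hQpos : 1 ≤ Q.card := by
    by_contra hq
    have hQe : Q = ∅ := by
      rw [← Finset.card_eq_zero]; omega
    apply hdisc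
    refine ⟨e0, he0n, ?_⟩
    intro T hT hc3
    by_contra hno
    push Not at hno
    have := NC3_card_le M T {x, y} hT (by
      intro z hz
      by_contra hz2
      have hzE : z ∈ M.E := hT.subset_ground (Finset.mem_coe.2 hz)
      have hzR : z ∈ RS := (hRmem z).2 ⟨hzE, by
        rw [hCL]
        simpa using hz2⟩
      have : z ∈ Q := by
        rw [hQ, Finset.mem_filter]
        exact ⟨hzR, hno z hz⟩
      rw [hQe] at this
      simp at this)
    have h2 := Finset.card_le_two (a := x) (b := y)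
    omega
  set U : Finset α := Finset.univ.filter fun z => M.IsNonloop z ∧ z ∈ CT ∧ z ∈ CL with hU
  have hUmem : ∀ z, z ∈ U ↔ M.IsNonloop z ∧ z ∈ CT ∧ z ∈ CL := by
    intro z; rw [hU]; simp
  have hPmem : ∀ z, z ∈ P ↔ z ∈ RS ∧ z ∈ M.closure {e0} := by
    intro z; rw [hP, Finset.mem_filter]
  have hQmem : ∀ z, z ∈ Q ↔ z ∈ RS ∧ z ∉ M.closure {e0} := by
    intro z; rw [hQ, Finset.mem_filter]
  -- the partition of the nonloops
  have hnlmem : ∀ z, z ∈ nl M ↔ M.IsNonloop z := by
    intro z; unfold nl; simp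
  have hpart : nl M = ({x, y} : Finset α) ∪ (U ∪ (P ∪ Q)) := by
    ext z
    simp only [Finset.mem_union, Finset.mem_insert, Finset.mem_singleton, hnlmem, hUmem, hPmem,
      hQmem]
    constructor
    · intro hz
      by_cases h1 : z ∈ CT
      · by_cases h2 : z ∈ CL
        · exact Or.inr (Or.inl ⟨hz, h1, h2⟩)
        · have : z ∈ RS := (hRmem z).2 ⟨hz.mem_ground, h2⟩
          by_cases h3 : z ∈ M.closure {e0}
          · exact Or.inr (Or.inr (Or.inl ⟨this, h3⟩))
          · exact Or.inr (Or.inr (Or.inr ⟨this, h3⟩))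
      · exact Or.inl ((hmem z).1 ⟨hz.mem_ground, h1⟩)
    · rintro ((rfl | rfl) | h | h | h)
      · exact hxn
      · exact hyn
      · exact h.1
      · exact hRn z h.1
      · exact hRn z h.1
  have dPQ : Disjoint P Q := by
    rw [Finset.disjoint_left]
    intro z h1 h2
    exact ((hQmem z).1 h2).2 ((hPmem z).1 h1).2
  have dUPQ : Disjoint U (P ∪ Q) := by
    rw [Finset.disjoint_left]
    intro z h1 h2
    have h3 : z ∈ RS := by
      rcases Finset.mem_union.1 h2 with h | h
      · exact ((hPmem z).1 h).1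
      · exact ((hQmem z).1 h).1
    exact ((hRmem z).1 h3).2 ((hUmem z).1 h1).2.2
  have dxy : Disjoint ({x, y} : Finset α) (U ∪ (P ∪ Q)) := by
    rw [Finset.disjoint_left]
    intro z h1 h2
    have h4 : z ∈ CT := by
      rcases Finset.mem_union.1 h2 with h | h
      · exact ((hUmem z).1 h).2.1
      · rcases Finset.mem_union.1 h with h | h
        · exact hRT z ((hPmem z).1 h).1
        · exact hRT z ((hQmem z).1 h).1
    simp only [Finset.mem_insert, Finset.mem_singleton] at h1
    rcases h1 with rfl | rfl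
    · exact hx.2 h4
    · exact hy.2 h4
  have hcn : cnt M 1 = 2 + (U.card + (P.card + Q.card)) := by
    rw [(h_OUT α M).2.2.1, hpart, Finset.card_union_of_disjoint dxy,
      Finset.card_union_of_disjoint dUPQ, Finset.card_union_of_disjoint dPQ,
      Finset.card_pair hxy]
  -- lower bounds for out
  have hlow : ∀ (e : α) (S : Finset α), (∀ z ∈ S, M.IsNonloop z ∧ z ∉ M.closure {e}) →
      S.card ≤ out M {e} := by
    intro e S hS
    unfold out
    apply Finset.card_le_card
    intro z hz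
    simp only [Finset.mem_filter, Finset.mem_univ, true_and, Finset.coe_singleton]
    exact ⟨(hS z hz).1.mem_ground, (hS z hz).2⟩
  -- elements of CT are not parallel to elements outside
  have hoCT : ∀ u v, M.IsNonloop u → M.IsNonloop v → u ∈ CT → v ∉ CT →
      u ∉ M.closure {v} ∧ v ∉ M.closure {u} := by
    intro u v hu hv h1 h2
    have h3 : v ∉ M.closure {u} := fun h => h2 (hcl u v _ h1 h)
    exact ⟨fun h => h3 (hsym u v hu hv h), h3⟩
  have hoCL : ∀ u v, M.IsNonloop u → M.IsNonloop v → u ∈ CL → v ∉ CL →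
      u ∉ M.closure {v} ∧ v ∉ M.closure {u} := by
    intro u v hu hv h1 h2
    have h3 : v ∉ M.closure {u} := fun h => h2 (hcl u v _ h1 h)
    exact ⟨fun h => h3 (hsym u v hu hv h), h3⟩
  have hoP : ∀ u v, u ∈ P → v ∈ Q → u ∉ M.closure {v} ∧ v ∉ M.closure {u} := by
    intro u v hu hv
    have hun := hRn u ((hPmem u).1 hu).1
    have hvn := hRn v ((hQmem v).1 hv).1
    have h3 : v ∉ M.closure {u} := fun h => ((hQmem v).1 hv).2
      (hcl u v _ ((hPmem u).1 hu).2 h)
    exact ⟨fun h => h3 (hsym u v hun hvn h), h3⟩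
  have hUPQ : ∀ z, z ∈ U ∪ (P ∪ Q) → M.IsNonloop z ∧ z ∈ CT := by
    intro z h2
    rcases Finset.mem_union.1 h2 with h | h
    · exact ⟨((hUmem z).1 h).1, ((hUmem z).1 h).2.1⟩
    · rcases Finset.mem_union.1 h with h | h
      · exact ⟨hRn z ((hPmem z).1 h).1, hRT z ((hPmem z).1 h).1⟩
      · exact ⟨hRn z ((hQmem z).1 h).1, hRT z ((hQmem z).1 h).1⟩
  have hcU : (U ∪ (P ∪ Q)).card = U.card + (P.card + Q.card) := by
    rw [Finset.card_union_of_disjoint dUPQ, Finset.card_union_of_disjoint dPQ]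
  have ox : 1 + (U.card + (P.card + Q.card)) ≤ out M {x} := by
    have := hlow x (insert y (U ∪ (P ∪ Q))) (by
      intro z hz
      rcases Finset.mem_insert.1 hz with rfl | h
      · exact ⟨hyn, hxyi⟩
      · exact ⟨(hUPQ z h).1, (hoCT z x (hUPQ z h).1 hxn (hUPQ z h).2 hx.2).1⟩)
    rw [Finset.card_insert_of_notMem (fun h => hy.2 (hUPQ y h).2), hcU] at this
    omega
  have oy : 1 + (U.card + (P.card + Q.card)) ≤ out M {y} := by
    have := hlow y (insert x (U ∪ (P ∪ Q))) (by
      intro z hz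
      rcases Finset.mem_insert.1 hz with rfl | h
      · exact ⟨hxn, hxyc⟩
      · exact ⟨(hUPQ z h).1, (hoCT z y (hUPQ z h).1 hyn (hUPQ z h).2 hy.2).1⟩)
    rw [Finset.card_insert_of_notMem (fun h => hx.2 (hUPQ x h).2), hcU] at this
    omega
  have hlow2 : ∀ (e : α) (S : Finset α), M.IsNonloop e → e ∈ CT → S ⊆ U ∪ (P ∪ Q) →
      (∀ z ∈ S, z ∉ M.closure {e}) → 2 + S.card ≤ out M {e} := by
    intro e S he heT hS hSc
    have := hlow e ({x, y} ∪ S) (by
      intro z hz
      rcases Finset.mem_union.1 hz with h | h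
      · simp only [Finset.mem_insert, Finset.mem_singleton] at h
        rcases h with rfl | rfl
        · exact ⟨hxn, (hoCT e _ he hxn heT hx.2).2⟩
        · exact ⟨hyn, (hoCT e _ he hyn heT hy.2).2⟩
      · exact ⟨(hUPQ z (hS h)).1, hSc z h⟩)
    rw [Finset.card_union_of_disjoint (Finset.disjoint_of_subset_right hS dxy),
      Finset.card_pair hxy] at this
    exact this
  have oU : ∀ e ∈ U, 2 + (P.card + Q.card) ≤ out M {e} := by
    intro e he
    have h1 := (hUmem e).1 he
    have := hlow2 e (P ∪ Q) h1.1 h1.2.1 Finset.subset_union_right (by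
      intro z hz
      have hzR : z ∈ RS := by
        rcases Finset.mem_union.1 hz with h | h
        · exact ((hPmem z).1 h).1
        · exact ((hQmem z).1 h).1
      exact (hoCL e z h1.1 (hRn z hzR) h1.2.2 ((hRmem z).1 hzR).2).2)
    rwa [Finset.card_union_of_disjoint dPQ] at this
  have oP : ∀ e ∈ P, 2 + (U.card + Q.card) ≤ out M {e} := by
    intro e he
    have h1 := (hPmem e).1 he
    have hen := hRn e h1.1
    have := hlow2 e (U ∪ Q) hen (hRT e h1.1)
      (Finset.union_subset_union_right Finset.subset_union_right) (by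
      intro z hz
      rcases Finset.mem_union.1 hz with h | h
      · have h2 := (hUmem z).1 h
        exact (hoCL z e h2.1 hen h2.2.2 ((hRmem e).1 h1.1).2).1
      · exact (hoP e z he h).2)
    rwa [Finset.card_union_of_disjoint (Finset.disjoint_of_subset_right
      Finset.subset_union_right dUPQ)] at this
  have oQ : ∀ e ∈ Q, 2 + (U.card + P.card) ≤ out M {e} := by
    intro e he
    have h1 := (hQmem e).1 he
    have hen := hRn e h1.1
    have := hlow2 e (U ∪ P) hen (hRT e h1.1)
      (Finset.union_subset_union_right Finset.subset_union_left) (by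
      intro z hz
      rcases Finset.mem_union.1 hz with h | h
      · have h2 := (hUmem z).1 h
        exact (hoCL z e h2.1 hen h2.2.2 ((hRmem e).1 h1.1).2).1
      · exact (hoP z e h he).1)
    rwa [Finset.card_union_of_disjoint (Finset.disjoint_of_subset_right
      Finset.subset_union_left dUPQ)] at this
  -- the sum
  have hsum : 2 * cnt M 2 = (out M {x} + out M {y}) + (∑ e ∈ U, out M {e} +
      (∑ e ∈ P, out M {e} + ∑ e ∈ Q, out M {e})) := by
    rw [p5, hpart, Finset.sum_union dxy, Finset.sum_union dUPQ, Finset.sum_union dPQ,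
      Finset.sum_pair hxy]
  have sU : U.card * (2 + (P.card + Q.card)) ≤ ∑ e ∈ U, out M {e} := by
    have := Finset.card_nsmul_le_sum U (fun e => out M {e}) _ oU
    simpa using this
  have sP : P.card * (2 + (U.card + Q.card)) ≤ ∑ e ∈ P, out M {e} := by
    have := Finset.card_nsmul_le_sum P (fun e => out M {e}) _ oP
    simpa using this
  have sQ : Q.card * (2 + (U.card + P.card)) ≤ ∑ e ∈ Q, out M {e} := by
    have := Finset.card_nsmul_le_sum Q (fun e => out M {e}) _ oQ
    simpa using this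
  have b2 := a1 0
  have b3 := a1 1
  have b4 := a4 3 (by omega)
  simp only [Nat.zero_add] at b2
  have hR' : cnt (M ／ {y} ／ {x}) 1 = RS.card := by rw [hR, hRc]
  rw [hc0] at b2
  have e13 : (1 : ℕ) + 2 = 3 := rfl
  have e12 : (1 : ℕ) + 1 = 2 := rfl
  rw [hR', e13, e12, b4] at b3
  refine ⟨RS.card, U.card, a 2, hR2, by omega, by omega, by omega, ?_⟩
  have ha1 : a 1 = U.card + (P.card + Q.card) := by omega
  rw [ha1] at b2
  rw [← hPQ]
  exact NC3_arith _ _ _ _ _ _ _ _ _ _ hPpos hQpos b2 hsum ox oy sU sP sQ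

end Pool.Agent.RLM
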