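import Pool.Agent.RLM.P_ND3

set_option autoImplicit false

/-!
# RLM, target ND2

The helper lemmas about `sd M p a` (the point `p` and the elements outside the line of `p, a`) are
those of `P_ND3`.
-/

open scoped Classical Matroid

noncomputable section

namespace Pool.Agent.RLM

namespace ND2_

/-- The closure of a pair is in the closure of `X` if both points are. -/
theorem pair_sub {α : Type} {M : Matroid α} {u v : α} {X : Set α}
    (hu : u ∈ M.closure X) (hv : v ∈ M.closure X) : M.closure {u, v} ⊆ M.closure X := by
  apply M.closure_subset_closure_of_subset_closure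
  intro w hw
  rcases hw with rfl | hw
  · exact hu
  · rw [Set.mem_singleton_iff.1 hw]; exact hv

end ND2_

open ND2_ ND3_

theorem p_ND2 (h_BAD : T_BAD) : T_ND2 := by
  intro α _ _ M p a a' hr hA hB hLS ha' haL haP hD
  obtain ⟨x, hLx⟩ := (h_BAD α M a' ha').1 hD
  have hpi : M.Indep {p} := hLS.2.1.subset (by simp)
  have hpn : M.IsNonloop p := Matroid.indep_singleton.1 hpi
  have hpE : p ∈ M.E := hpn.mem_ground
  have ha'E : a' ∈ M.E := ha'.mem_ground
  have ha'i : M.Indep {a'} := Matroid.indep_singleton.2 ha'
  have hxE : x ∈ M.E := hLx.2.1.subset_ground (by simp)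
  have hxi : M.Indep {x} := hLx.2.1.subset (by simp)
  have hxn : M.IsNonloop x := Matroid.indep_singleton.1 hxi
  have hpa' : p ∉ M.closure {a'} := fun h => haP (hpn.mem_closure_singleton h)
  have hxa' : x ∉ M.closure {a'} := by
    rw [ha'i.notMem_closure_iff hxE]
    refine ⟨?_, fun h => hLx.1 h.symm⟩
    rw [Set.pair_comm]; exact hLx.2.1
  have ha'x : a' ∉ M.closure {x} := fun h => hxa' (ha'.mem_closure_singleton h)
  -- the line
  have hL : M.closure {p, a} = M.closure {p, a'} := line_eq haL haP
  have hL2 : M.closure {p, a} = M.closure {a', p} := by rw [hL, Set.pair_comm]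
  have hXE : sd M p a ⊆ M.E := sd_sub hpE
  have hX'E : sd M a' x ⊆ M.E := sd_sub ha'E
  have hpX : p ∈ M.closure (sd M p a) := M.subset_closure _ hXE (Or.inl rfl)
  have ha'X' : a' ∈ M.closure (sd M a' x) := M.subset_closure _ hX'E (Or.inl rfl)
  -- `a'` is not in the plane of `p`
  have ha'X : a' ∉ M.closure (sd M p a) := fun h =>
    not_sub hr hLS (hL ▸ pair_sub hpX h)
  by_cases hxL : x ∈ M.closure {p, a}
  · -- the two lines coincide
    have hLL : M.closure {p, a} = M.closure {a', x} := by
      rw [hL2] at hxL ⊢
      exact line_eq hxL hxa'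
    have hI2 : M.Indep {p, a'} := by
      have := (hpi.notMem_closure_iff ha'E).1 haP
      rw [Set.pair_comm]; exact this.1
    have hpne : p ≠ a' := by
      rintro rfl
      exact haP (M.mem_closure_of_mem (by simp) hpi.subset_ground)
    refine hB ⟨p, a', hpne, hI2, fun T hT hTc => ?_⟩
    by_contra hno
    push Not at hno
    rw [← hL] at hno
    have hTR : ∀ y ∈ T, y ∈ M.E \ M.closure {p, a} := fun y hy =>
      ⟨hT.subset_ground hy, hno y hy⟩
    have hTX : (T : Set α) ⊆ M.closure (sd M p a) := fun y hy =>
      M.subset_closure _ hXE (Or.inr (hTR y hy))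
    have hTX' : (T : Set α) ⊆ M.closure (sd M a' x) := fun y hy =>
      M.subset_closure _ hX'E (Or.inr (hLL ▸ hTR y hy))
    have h2 := span3 (r3_of_LS hLx) hT hTc hTX'
    exact ha'X (M.closure_subset_closure_of_subset_closure hTX (h2 ha'X'))
  · -- the two lines are different
    have hpL' : p ∉ M.closure {a', x} := by
      intro h
      apply hxL
      rw [hL2, ← line_eq h hpa']
      exact M.mem_closure_of_mem (by simp) hLx.2.1.subset_ground
    have hpX' : p ∈ M.closure (sd M a' x) := M.subset_closure _ hX'E (Or.inr ⟨hpE, hpL'⟩)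
    refine hA ⟨x, hxn, fun T hT hTc => ?_⟩
    by_contra hno
    push Not at hno
    have := r3_of_LS hLx T hT (by
      intro y hy
      have hyE := hT.subset_ground hy
      by_cases hy1 : y ∈ M.closure {a', x}
      · by_cases hy2 : y ∈ M.closure {a'}
        · exact M.closure_subset_closure (by simp [sd]) hy2
        · exfalso
          have hyL' : M.closure {a', x} = M.closure {a', y} := line_eq hy1 hy2
          have hyL : y ∉ M.closure {p, a} := by
            intro h
            apply hxL
            rw [hL2] at h ⊢
            rw [line_eq h hy2, ← hyL']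
            exact M.mem_closure_of_mem (by simp) hLx.2.1.subset_ground
          have h3 : M.closure {x, a'} = M.closure {x, y} :=
            line_eq (by rw [Set.pair_comm]; exact hy1) (hno y hy)
          apply ha'X
          have hxX : x ∈ M.closure (sd M p a) :=
            M.subset_closure _ hXE (Or.inr ⟨hxE, hxL⟩)
          have hyX : y ∈ M.closure (sd M p a) :=
            M.subset_closure _ hXE (Or.inr ⟨hyE, hyL⟩)
          apply pair_sub hxX hyX
          rw [← h3]
          exact M.mem_closure_of_mem (by simp)
            (Set.insert_subset hxE (Set.singleton_subset_iff.2 ha'E))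
      · exact M.subset_closure _ hX'E (Or.inr ⟨hyE, hy1⟩))
    omega

end Pool.Agent.RLM
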