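import Pool.Agent.RLM.Targets3

set_option autoImplicit false

/-!
# RLM, target ND3
-/

open scoped Classical Matroid

noncomputable section

namespace Pool.Agent.RLM

namespace ND3_

/-- Every independent finite subset of the closure of `X` has at most three elements. -/
def R3 {α : Type} (M : Matroid α) (X : Set α) : Prop :=
  ∀ T : Finset α, M.Indep (T : Set α) → (T : Set α) ⊆ M.closure X → T.card ≤ 3

/-- `p` and the elements outside the line through `p` and `a`. -/
def sd {α : Type} (M : Matroid α) (p a : α) : Set α := insert p (M.E \ M.closure {p, a})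

theorem nl_of {α : Type} {M : Matroid α} {p a : α} (hpE : p ∈ M.E) (h : p ∉ M.closure {a}) :
    M.IsNonloop p :=
  Matroid.isNonloop_of_not_isLoop hpE (fun hl => h (hl.mem_closure _))

theorem sd_sub {α : Type} {M : Matroid α} {p a : α} (hpE : p ∈ M.E) : sd M p a ⊆ M.E :=
  Set.insert_subset hpE Set.sdiff_subset

theorem r3_of_LS {α : Type} [Fintype α] [DecidableEq α] {M : Matroid α} {p a : α}
    (h : LS M p a) : R3 M (sd M p a) := by
  obtain ⟨hpa, hI, hT⟩ := h
  have hp : M.Indep {p} := hI.subset (by simp)
  have hpE : p ∈ M.E := hp.subset_ground rfl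
  obtain ⟨J, hJ, hpJ⟩ := hp.subset_isBasis_of_subset (X := sd M p a)
    (by simp [sd]) (sd_sub hpE)
  intro T hTI hTc
  rw [← hJ.closure_eq_closure] at hTc
  have h1 : (T : Set α).encard ≤ J.encard := by
    rw [← hTI.eRk_eq_encard, ← hJ.indep.eRk_eq_encard, ← M.eRk_closure_eq J]
    exact M.eRk_mono hTc
  by_contra hcon
  have hJf : J.Finite := Set.toFinite J
  set J' : Finset α := hJf.toFinset with hJ'
  have hJc : (J' : Set α) = J := hJf.coe_toFinset
  rw [← hJc, Set.encard_coe_eq_coe_finsetCard, Set.encard_coe_eq_coe_finsetCard,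
    Nat.cast_le] at h1
  have hpJ' : p ∈ J' := by
    rw [hJ', Set.Finite.mem_toFinset]
    exact hpJ rfl
  have h2 : 3 ≤ (J'.erase p).card := by
    rw [Finset.card_erase_of_mem hpJ']
    omega
  obtain ⟨S, hS, hSc⟩ := Finset.exists_subset_card_eq h2
  have hpS : p ∉ S := fun hm => (Finset.mem_erase.1 (hS hm)).1 rfl
  have hSi : M.Indep ((insert p S : Finset α) : Set α) := by
    refine hJ.indep.subset ?_
    rw [← hJc]
    intro y hy
    rw [Finset.mem_coe, Finset.mem_insert] at hy
    rcases hy with rfl | hy
    · exact hpJ'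
    · exact Finset.mem_of_mem_erase (hS hy)
  obtain ⟨x, hxS, hxa⟩ := hT S hpS hSi hSc
  have hx1 := Finset.mem_erase.1 (hS hxS)
  have hx2 : x ∈ sd M p a := hJ.subset (by rw [← hJc]; exact hx1.2)
  rcases hx2 with hx2 | hx2
  · exact hx1.1 hx2
  · exact hx2.2 hxa

theorem span3 {α : Type} [Fintype α] [DecidableEq α] {M : Matroid α} {X : Set α}
    (hR : R3 M X) {I : Finset α} (hI : M.Indep (I : Set α)) (hc : I.card = 3)
    (hIX : (I : Set α) ⊆ M.closure X) : M.closure X ⊆ M.closure (I : Set α) := by
  intro y hy
  by_contra hyI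
  have hyE : y ∈ M.E := M.closure_subset_ground X hy
  have h1 := (hI.notMem_closure_iff hyE).1 hyI
  have h2 := hR (insert y I) (by rw [Finset.coe_insert]; exact h1.1) (by
    rw [Finset.coe_insert]
    exact Set.insert_subset hy hIX)
  rw [Finset.card_insert_of_notMem (fun hm => h1.2 hm)] at h2
  omega

/-- The line is not contained in the plane. -/
theorem not_sub {α : Type} [Fintype α] [DecidableEq α] {M : Matroid α} {p a : α}
    (hr : HasRk M 4) (h : LS M p a) : ¬ M.closure {p, a} ⊆ M.closure (sd M p a) := by
  intro hs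
  obtain ⟨⟨T, hT, hTc⟩, -⟩ := hr
  have hpE : p ∈ M.E := (h.2.1.subset (by simp : ({p} : Set α) ⊆ {p, a})).subset_ground rfl
  have := r3_of_LS h T hT (by
    intro y hy
    have hyE := hT.subset_ground hy
    by_cases hyc : y ∈ M.closure {p, a}
    · exact hs hyc
    · exact M.subset_closure _ (sd_sub hpE) (Or.inr ⟨hyE, hyc⟩))
  omega

/-- exchange: `z` on the line through `p, a`, not parallel to `p`. -/
theorem line_eq {α : Type} {M : Matroid α} {p a z : α}
    (hz : z ∈ M.closure {p, a}) (hzp : z ∉ M.closure {p}) :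
    M.closure {p, a} = M.closure {p, z} := by
  have h1 : z ∈ M.closure (insert a {p}) \ M.closure {p} := by
    refine ⟨?_, hzp⟩
    have : (insert a {p} : Set α) = {p, a} := Set.pair_comm a p
    rw [this]; exact hz
  have h2 := Matroid.closure_insert_congr h1
  have e1 : (insert a {p} : Set α) = {p, a} := Set.pair_comm a p
  have e2 : (insert z {p} : Set α) = {p, z} := Set.pair_comm z p
  rw [e1, e2] at h2
  exact h2.symm

end ND3_

open ND3_

theorem p_ND3 (h_BAD : T_BAD) (h_ND2 : T_ND2) : T_ND3 := by
  intro α _ _ M p a b c hr hA hB hLS hb hbL hDb hc hcL hcpb hDc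
  obtain ⟨x, hLx⟩ := (h_BAD α M b hb).1 hDb
  have hpi : M.Indep {p} := hLS.2.1.subset (by simp)
  have hpn : M.IsNonloop p := Matroid.indep_singleton.1 hpi
  have hpE : p ∈ M.E := hpn.mem_ground
  have hbE : b ∈ M.E := hb.mem_ground
  have hcE : c ∈ M.E := hc.mem_ground
  have hpcl : p ∈ M.closure {p, a} :=
    M.mem_closure_of_mem (by simp) hLS.2.1.subset_ground
  have hsub1 : ∀ u v : α, M.closure {u} ⊆ M.closure {u, v} := fun u v =>
    M.closure_subset_closure (by simp)
  have hbp : b ∉ M.closure {p} := fun h => hbL (hsub1 p a h)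
  have hcb : c ∉ M.closure {b} := fun h => hcpb (M.closure_subset_closure (by simp) h)
  have hcL' : c ∉ M.closure {b, x} := fun h =>
    h_ND2 α M b x c hr hA hB hLx hc h hcb hDc
  have hpb : p ∉ M.closure {b} := fun h => hbp (hpn.mem_closure_singleton h)
  have hpL' : p ∉ M.closure {b, x} := fun h =>
    h_ND2 α M b x p hr hA hB hLx hpn h hpb ((h_BAD α M p hpn).2 ⟨a, hLS⟩)
  have hXE : sd M p a ⊆ M.E := sd_sub hpE
  have hX'E : sd M b x ⊆ M.E := sd_sub hbE
  have hpP' : p ∈ M.closure (sd M b x) := M.subset_closure _ hX'E (Or.inr ⟨hpE, hpL'⟩)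
  have haL : a ∈ M.closure {p, a} :=
    M.mem_closure_of_mem (by simp) hLS.2.1.subset_ground
  have haE : a ∈ M.E := hLS.2.1.subset_ground (by simp)
  have hap : a ∉ M.closure {p} := by
    rw [hpi.notMem_closure_iff haE]
    refine ⟨?_, fun h => hLS.1 h.symm⟩
    rw [Set.pair_comm]; exact hLS.2.1
  have han : M.IsNonloop a := nl_of haE hap
  -- `a` is in the plane of `b`
  have haP' : a ∈ M.closure (sd M b x) := by
    by_contra hcon
    have haL' : a ∈ M.closure {b, x} := by
      by_contra h
      exact hcon (M.subset_closure _ hX'E (Or.inr ⟨haE, h⟩))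
    -- choose `a₂`
    have h4 : ∃ y, y ∈ M.closure {p, a} ∧ y ∉ M.closure {p} ∧ y ∉ M.closure {a} := by
      by_contra hno
      push Not at hno
      apply hA
      refine ⟨a, han, fun T hT hTc => ?_⟩
      by_contra hne
      push Not at hne
      have := r3_of_LS hLS T hT (by
        intro y hy
        have hyE := hT.subset_ground hy
        by_cases hyc : y ∈ M.closure {p, a}
        · by_cases hyp : y ∈ M.closure {p}
          · exact M.closure_subset_closure (by simp [sd]) hyp
          · exact absurd (hno y hyc hyp) (hne y hy)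
        · exact M.subset_closure _ hXE (Or.inr ⟨hyE, hyc⟩))
      omega
    obtain ⟨y, hy1, hy2, hy3⟩ := h4
    have hyE : y ∈ M.E := M.closure_subset_ground _ hy1
    have hL1 : M.closure {p, a} = M.closure {p, y} := line_eq hy1 hy2
    have hyL' : y ∉ M.closure {b, x} := by
      intro hyL'
      -- the lines coincide
      have e1 : M.closure {a, p} = M.closure {a, y} :=
        line_eq (by rw [Set.pair_comm]; exact hy1) hy3
      have hsub : M.closure {a, y} ⊆ M.closure {b, x} := by
        apply M.closure_subset_closure_of_subset_closure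
        intro u hu
        rcases hu with rfl | hu
        · exact haL'
        · rw [Set.mem_singleton_iff.1 hu]; exact hyL'
      apply hpL'
      apply hsub
      rw [← e1, Set.pair_comm]
      exact hpcl
    have hyP' : y ∈ M.closure (sd M b x) := M.subset_closure _ hX'E (Or.inr ⟨hyE, hyL'⟩)
    apply hcon
    have hsub : M.closure {p, y} ⊆ M.closure (sd M b x) := by
      apply M.closure_subset_closure_of_subset_closure
      intro u hu
      rcases hu with rfl | hu
      · exact hpP'
      · rw [Set.mem_singleton_iff.1 hu]; exact hyP'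
    exact hsub (hL1 ▸ haL)
  have hL1P' : M.closure {p, a} ⊆ M.closure (sd M b x) := by
    apply M.closure_subset_closure_of_subset_closure
    intro u hu
    rcases hu with rfl | hu
    · exact hpP'
    · rw [Set.mem_singleton_iff.1 hu]; exact haP'
  -- the triple
  have hpbI : M.Indep {p, b} := by
    have := (hpi.notMem_closure_iff hbE).1 hbp
    rw [Set.pair_comm]; exact this.1
  have hcI := (hpbI.notMem_closure_iff hcE).1 hcpb
  have hpbne : p ≠ b := by
    rintro rfl
    exact hbL hpcl
  have hI3 : M.Indep ((({c, p, b} : Finset α)) : Set α) := by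
    simpa using hcI.1
  have hcard : ({c, p, b} : Finset α).card = 3 := by
    rw [Finset.card_insert_of_notMem, Finset.card_pair hpbne]
    intro h
    apply hcI.2
    simpa using h
  have hbX : b ∈ M.closure (sd M p a) := M.subset_closure _ hXE (Or.inr ⟨hbE, hbL⟩)
  have hcX : c ∈ M.closure (sd M p a) := M.subset_closure _ hXE (Or.inr ⟨hcE, hcL⟩)
  have hpX : p ∈ M.closure (sd M p a) := M.subset_closure _ hXE (Or.inl rfl)
  have hbX' : b ∈ M.closure (sd M b x) := M.subset_closure _ hX'E (Or.inl rfl)
  have hcX' : c ∈ M.closure (sd M b x) := M.subset_closure _ hX'E (Or.inr ⟨hcE, hcL'⟩)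
  have h1 : M.closure (sd M b x) ⊆ M.closure ((({c, p, b} : Finset α)) : Set α) := by
    apply span3 (r3_of_LS hLx) hI3 hcard
    intro u hu
    simp only [Finset.coe_insert, Finset.coe_singleton, Set.mem_insert_iff,
      Set.mem_singleton_iff] at hu
    rcases hu with rfl | rfl | rfl
    · exact hcX'
    · exact hpP'
    · exact hbX'
  have h2 : M.closure ((({c, p, b} : Finset α)) : Set α) ⊆ M.closure (sd M p a) := by
    apply M.closure_subset_closure_of_subset_closure
    intro u hu
    simp only [Finset.coe_insert, Finset.coe_singleton, Set.mem_insert_iff,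
      Set.mem_singleton_iff] at hu
    rcases hu with rfl | rfl | rfl
    · exact hcX
    · exact hpX
    · exact hbX
  exact not_sub hr hLS (hL1P'.trans (h1.trans h2))

end Pool.Agent.RLM
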