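import Pool.Agent.RLM.Targets1

set_option autoImplicit false

/-!
# RLM, target PAR: parallel classes
-/

open scoped Classical Matroid

noncomputable section

namespace Pool.Agent.RLM

namespace PAR_

lemma pair_iff {α : Type} (M : Matroid α) (x y : α) (hx : M.IsNonloop x) (hy : M.IsNonloop y) :
    y ∉ M.closure {x} ↔ x ≠ y ∧ M.Indep {x, y} := by
  have hI : M.Indep {x} := Matroid.indep_singleton.2 hx
  rw [hI.notMem_closure_iff hy.mem_ground, Set.pair_comm x y]
  constructor
  · rintro ⟨h1, h2⟩
    exact ⟨fun h => h2 (by rw [h]; rfl), h1⟩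
  · rintro ⟨h1, h2⟩
    exact ⟨h2, fun h => h1 (Set.mem_singleton_iff.1 h).symm⟩

/-- The elements outside the closure of `x`. -/
def os {α : Type} [Fintype α] (M : Matroid α) (x : α) : Finset α :=
  Finset.univ.filter fun y => y ∈ M.E ∧ y ∉ M.closure {x}

lemma card_os {α : Type} [Fintype α] (M : Matroid α) (x : α) : (os M x).card = out M {x} := by
  unfold os out
  congr 1
  ext y
  simp

lemma os_nonloop {α : Type} [Fintype α] (M : Matroid α) (x y : α) (hy : y ∈ os M x) :
    M.IsNonloop y := by
  simp only [os, Finset.mem_filter, Finset.mem_univ, true_and] at hy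
  exact Matroid.isNonloop_of_notMem_closure hy.2 hy.1

lemma nl_split {α : Type} [Fintype α] [DecidableEq α] (M : Matroid α) (x : α) :
    nl M = cls M x ∪ os M x := by
  ext y
  rw [Finset.mem_union]
  constructor
  · intro h
    simp only [nl, Finset.mem_filter, Finset.mem_univ, true_and] at h
    by_cases h1 : y ∈ M.closure {x}
    · left
      simp only [cls, Finset.mem_filter, Finset.mem_univ, true_and]
      exact ⟨h, h1⟩
    · right
      simp only [os, Finset.mem_filter, Finset.mem_univ, true_and]
      exact ⟨h.mem_ground, h1⟩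
  · rintro (h | h)
    · simp only [cls, Finset.mem_filter, Finset.mem_univ, true_and] at h
      simp only [nl, Finset.mem_filter, Finset.mem_univ, true_and]
      exact h.1
    · simp only [nl, Finset.mem_filter, Finset.mem_univ, true_and]
      exact os_nonloop M x y h

lemma disj {α : Type} [Fintype α] (M : Matroid α) (x : α) : Disjoint (cls M x) (os M x) := by
  rw [Finset.disjoint_left]
  intro y h1 h2
  simp only [cls, Finset.mem_filter, Finset.mem_univ, true_and] at h1
  simp only [os, Finset.mem_filter, Finset.mem_univ, true_and] at h2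
  exact h2.2 h1.2

/-- A pair of a class element and an element outside is independent. -/
lemma cls_os {α : Type} [Fintype α] (M : Matroid α) (x u v : α) (hu : u ∈ cls M x)
    (hv : v ∈ os M x) : u ≠ v ∧ M.Indep {u, v} := by
  have hvn := os_nonloop M x v hv
  simp only [cls, Finset.mem_filter, Finset.mem_univ, true_and] at hu
  simp only [os, Finset.mem_filter, Finset.mem_univ, true_and] at hv
  refine (pair_iff M u v hu.1 hvn).1 ?_
  rw [hu.1.closure_eq_of_mem_closure hu.2]
  exact hv.2

/-- Two elements of a class are dependent. -/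
lemma cls_cls {α : Type} [Fintype α] (M : Matroid α) (x u v : α) (hu : u ∈ cls M x)
    (hv : v ∈ cls M x) (hne : u ≠ v) : ¬ M.Indep {u, v} := by
  intro h
  simp only [cls, Finset.mem_filter, Finset.mem_univ, true_and] at hu hv
  refine (pair_iff M u v hu.1 hv.1).2 ⟨hne, h⟩ ?_
  rw [hu.1.closure_eq_of_mem_closure hu.2]
  exact hv.2

/-- The independent pairs. -/
def ip {α : Type} [Fintype α] (M : Matroid α) : Finset (Finset α) :=
  Finset.univ.filter fun A : Finset α => M.Indep (A : Set α) ∧ A.card = 2

lemma mixed {α : Type} [Fintype α] [DecidableEq α] (M : Matroid α) (x : α) :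
    ((ip M).filter fun A => ¬ ∀ y ∈ A, y ∉ M.closure {x}).card =
      (cls M x).card * (os M x).card := by
  rw [← Finset.card_product]
  symm
  refine Finset.card_bij (fun p _ => ({p.1, p.2} : Finset α)) ?_ ?_ ?_
  · rintro ⟨u, v⟩ hp
    rw [Finset.mem_product] at hp
    obtain ⟨h1, h2⟩ := cls_os M x u v hp.1 hp.2
    rw [Finset.mem_filter]
    refine ⟨?_, ?_⟩
    · simp only [ip, Finset.mem_filter, Finset.mem_univ, true_and]
      refine ⟨?_, Finset.card_pair h1⟩
      rw [Finset.coe_pair]
      exact h2
    · intro h
      have h3 := hp.1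
      simp only [cls, Finset.mem_filter, Finset.mem_univ, true_and] at h3
      exact h u (by simp) h3.2
  · rintro ⟨u, v⟩ hp ⟨u', v'⟩ hp' heq
    rw [Finset.mem_product] at hp hp'
    simp only at heq
    have hd := Finset.disjoint_left.1 (disj M x)
    have hu : u = u' := by
      have h1 : u ∈ ({u', v'} : Finset α) := by rw [← heq]; simp
      rw [Finset.mem_insert, Finset.mem_singleton] at h1
      rcases h1 with h1 | h1
      · exact h1
      · exact absurd hp'.2 (by rw [← h1]; exact hd hp.1)
    have hv : v = v' := by
      have h1 : v ∈ ({u', v'} : Finset α) := by rw [← heq]; simp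
      rw [Finset.mem_insert, Finset.mem_singleton] at h1
      rcases h1 with h1 | h1
      · exact absurd hp.2 (by rw [h1]; exact hd hp'.1)
      · exact h1
    rw [hu, hv]
  · intro A hA
    rw [Finset.mem_filter] at hA
    obtain ⟨hA1, hA2⟩ := hA
    simp only [ip, Finset.mem_filter, Finset.mem_univ, true_and] at hA1
    push Not at hA2
    obtain ⟨u, huA, hu⟩ := hA2
    obtain ⟨v, hv⟩ : ∃ v, A.erase u = {v} := by
      rw [← Finset.card_eq_one, Finset.card_erase_of_mem huA, hA1.2]
    have hA3 : A = {u, v} := by
      rw [← Finset.insert_erase huA, hv]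
    have hun : M.IsNonloop u := hA1.1.isNonloop_of_mem (by exact_mod_cast huA)
    have hvA : v ∈ A := by rw [hA3]; simp
    have hne : u ≠ v := by
      intro h
      have h1 : v ∈ A.erase u := by rw [hv]; simp
      rw [h] at h1
      simp at h1
    have hvn : M.IsNonloop v := hA1.1.isNonloop_of_mem (by exact_mod_cast hvA)
    have huc : u ∈ cls M x := by
      simp only [cls, Finset.mem_filter, Finset.mem_univ, true_and]
      exact ⟨hun, hu⟩
    have hIp : M.Indep {u, v} := by
      have h1 := hA1.1
      rw [hA3, Finset.coe_pair] at h1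
      exact h1
    have hvo : v ∈ os M x := by
      have h1 : v ∈ cls M x ∪ os M x := by
        rw [← nl_split M x]
        simp only [nl, Finset.mem_filter, Finset.mem_univ, true_and]
        exact hvn
      rcases Finset.mem_union.1 h1 with h2 | h2
      · exact absurd hIp (cls_cls M x u v huc h2 hne)
      · exact h2
    exact ⟨(u, v), Finset.mem_product.2 ⟨huc, hvo⟩, hA3.symm⟩

end PAR_

open PAR_ in
/-- The target `T_PAR`. -/
theorem p_PAR (h_OUT : T_OUT) (h_HS : T_HS) : T_PAR := by
  intro α _ _ M
  refine ⟨?_, ?_, ?_, ?_, ?_⟩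
  · intro x y _ hy h
    exact hy.closure_eq_of_mem_closure h
  · intro x y hx hy
    exact pair_iff M x y hx hy
  · intro x _
    rw [(h_OUT α M).2.2.1, nl_split M x, Finset.card_union_of_disjoint (disj M x), card_os]
  · intro x _
    rw [← card_os, ← mixed M x]
    have h1 : cnt M 2 = (ip M).card := rfl
    have h2 := Finset.card_filter_add_card_filter_not (s := ip M)
      (fun A => ∀ y ∈ A, y ∉ M.closure {x})
    rw [h1, ← h2, add_comm]
    congr 2
    unfold ip
    rw [Finset.filter_filter]
    ext A
    simp only [Finset.mem_filter, Finset.mem_univ, true_and, and_assoc]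
  · have h1 := h_HS α M 1
    rw [h1]
    refine Finset.sum_congr rfl (fun e he => ?_)
    simp only [nl, Finset.mem_filter, Finset.mem_univ, true_and] at he
    exact (h_OUT α M).2.2.2.2.1 e he

end Pool.Agent.RLM
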