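import Pool.Agent.RLM.Targets4

set_option autoImplicit false

/-!
# RLM-PRD: the independence polynomial of a direct sum
-/

open scoped Classical Matroid

noncomputable section

namespace Pool.Agent.RLM

namespace PRD_

theorem cnt_zero {α : Type} [Fintype α] (M : Matroid α) : cnt M 0 = 1 := by
  unfold cnt
  rw [Finset.card_eq_one]
  refine ⟨∅, ?_⟩
  ext I
  simp only [Finset.mem_filter, Finset.mem_univ, true_and, Finset.mem_singleton,
    Finset.card_eq_zero]
  constructor
  · exact fun h => h.2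
  · rintro rfl
    exact ⟨by simp, rfl⟩

theorem ip_eq {α : Type} [Fintype α] (M : Matroid α)
    (h : ∀ T : Finset α, M.Indep (T : Set α) → T.card ≤ 4) (t : ℂ) :
    IP M t = ∑ I ∈ Finset.univ.filter (fun I : Finset α => M.Indep (I : Set α)), t ^ I.card := by
  have h1 : ∀ I ∈ Finset.univ.filter (fun I : Finset α => M.Indep (I : Set α)),
      I.card ∈ Finset.range 5 := by
    intro I hI
    have := h I (Finset.mem_filter.1 hI).2
    exact Finset.mem_range.2 (by omega)
  rw [← Finset.sum_fiberwise_of_maps_to h1]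
  have h2 : ∀ k ∈ Finset.range 5,
      ∑ I ∈ (Finset.univ.filter (fun I : Finset α => M.Indep (I : Set α))).filter
        (fun I => I.card = k), t ^ I.card = (cnt M k : ℂ) * t ^ k := by
    intro k _
    have : ∀ I ∈ (Finset.univ.filter (fun I : Finset α => M.Indep (I : Set α))).filter
        (fun I => I.card = k), t ^ I.card = t ^ k := by
      intro I hI
      rw [(Finset.mem_filter.1 hI).2]
    rw [Finset.sum_congr rfl this, Finset.sum_const, nsmul_eq_mul]
    congr 2
    unfold cnt
    rw [Finset.filter_filter]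
  rw [Finset.sum_congr rfl h2]
  simp only [Finset.sum_range_succ, Finset.sum_range_zero, cnt_zero, IP]
  push_cast
  ring

theorem indep_union {α : Type} [Fintype α] (M : Matroid α) (A : Set α)
    (i j r : ℕ) (hA : A ⊆ M.E) (hr : HasRk M r) (hi : HasRk (M ↾ A) i)
    (hj : HasRk (M ↾ (M.E \ A)) j) (hij : i + j ≤ r) (I J : Set α)
    (hI : M.Indep I) (hIA : I ⊆ A) (hJ : M.Indep J) (hJA : J ⊆ M.E \ A) : M.Indep (I ∪ J) := by
  obtain ⟨J1, hJ1, hIJ1⟩ := hI.subset_isBasis_of_subset hIA hA
  obtain ⟨J2, hJ2, hJJ2⟩ := hJ.subset_isBasis_of_subset hJA Set.sdiff_subset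
  have hc1 : J1.encard ≤ i := by
    have h1 := hi.2 J1.toFinset (by
      rw [Set.coe_toFinset]
      exact Matroid.restrict_indep_iff.2 ⟨hJ1.indep, hJ1.subset⟩)
    rw [Set.encard_eq_coe_toFinset_card]
    exact_mod_cast h1
  have hc2 : J2.encard ≤ j := by
    have h1 := hj.2 J2.toFinset (by
      rw [Set.coe_toFinset]
      exact Matroid.restrict_indep_iff.2 ⟨hJ2.indep, hJ2.subset⟩)
    rw [Set.encard_eq_coe_toFinset_card]
    exact_mod_cast h1
  have hsp : M.Spanning (J1 ∪ J2) := by
    rw [Matroid.spanning_iff_closure_eq]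
    · apply subset_antisymm (M.closure_subset_ground _)
      intro x hx
      by_cases hxA : x ∈ A
      · exact M.closure_subset_closure Set.subset_union_left (hJ1.subset_closure hxA)
      · exact M.closure_subset_closure Set.subset_union_right (hJ2.subset_closure ⟨hx, hxA⟩)
  obtain ⟨B, hB, hBX⟩ := hsp.exists_isBase_subset
  obtain ⟨T0, hT0, hT0c⟩ := hr.1
  obtain ⟨B0, hB0, hTB0⟩ := hT0.exists_isBase_superset
  have h2 : (r : ℕ∞) ≤ B.encard := by
    rw [hB.encard_eq_encard_of_isBase hB0]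
    calc (r : ℕ∞) = (T0 : Set α).encard := by rw [Set.encard_coe_eq_coe_finsetCard, hT0c]
      _ ≤ _ := Set.encard_le_encard hTB0
  have h3 : (J1 ∪ J2).encard ≤ B.encard := by
    calc (J1 ∪ J2).encard ≤ J1.encard + J2.encard := Set.encard_union_le _ _
      _ ≤ (i : ℕ∞) + (j : ℕ∞) := add_le_add hc1 hc2
      _ ≤ (r : ℕ∞) := by exact_mod_cast hij
      _ ≤ _ := h2
  have h4 : B = J1 ∪ J2 := (Set.toFinite _).eq_of_subset_of_encard_le hBX h3
  have h5 : M.Indep (J1 ∪ J2) := h4 ▸ hB.indep
  exact h5.subset (Set.union_subset_union hIJ1 hJJ2)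

end PRD_

theorem p_PRD : T_PRD := by
  intro α _ _ M A i j r hA hr hi hj hij hr4 t
  rw [PRD_.ip_eq M (fun T hT => (hr.2 T hT).trans hr4),
    PRD_.ip_eq (M ↾ A) (fun T hT => (hi.2 T hT).trans (by omega)),
    PRD_.ip_eq (M ↾ (M.E \ A)) (fun T hT => (hj.2 T hT).trans (by omega)),
    Finset.sum_mul_sum, ← Finset.sum_product']
  symm
  refine Finset.sum_bij' (fun p _ => p.1 ∪ p.2)
    (fun I _ => (I.filter (fun x => x ∈ A), I.filter (fun x => x ∉ A))) ?_ ?_ ?_ ?_ ?_
  · rintro ⟨I, J⟩ h
    rw [Finset.mem_product, Finset.mem_filter, Finset.mem_filter] at h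
    have hI := Matroid.restrict_indep_iff.1 h.1.2
    have hJ := Matroid.restrict_indep_iff.1 h.2.2
    refine Finset.mem_filter.2 ⟨Finset.mem_univ _, ?_⟩
    rw [Finset.coe_union]
    exact PRD_.indep_union M A i j r hA hr hi hj hij _ _ hI.1 hI.2 hJ.1 hJ.2
  · intro I hI
    have hI' := (Finset.mem_filter.1 hI).2
    rw [Finset.mem_product, Finset.mem_filter, Finset.mem_filter]
    refine ⟨⟨Finset.mem_univ _, Matroid.restrict_indep_iff.2 ⟨hI'.subset ?_, ?_⟩⟩,
      ⟨Finset.mem_univ _, Matroid.restrict_indep_iff.2 ⟨hI'.subset ?_, ?_⟩⟩⟩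
    · exact fun x hx => (Finset.mem_filter.1 (Finset.mem_coe.1 hx)).1
    · exact fun x hx => (Finset.mem_filter.1 (Finset.mem_coe.1 hx)).2
    · exact fun x hx => (Finset.mem_filter.1 (Finset.mem_coe.1 hx)).1
    · intro x hx
      have h1 := Finset.mem_filter.1 (Finset.mem_coe.1 hx)
      exact ⟨hI'.subset_ground h1.1, h1.2⟩
  · rintro ⟨I, J⟩ h
    rw [Finset.mem_product, Finset.mem_filter, Finset.mem_filter] at h
    have hI := (Matroid.restrict_indep_iff.1 h.1.2).2
    have hJ := (Matroid.restrict_indep_iff.1 h.2.2).2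
    refine Prod.ext ?_ ?_
    · ext x
      simp only [Finset.mem_filter, Finset.mem_union]
      constructor
      · rintro ⟨h1 | h1, h2⟩
        · exact h1
        · exact absurd h2 (hJ h1).2
      · exact fun h1 => ⟨Or.inl h1, hI h1⟩
    · ext x
      simp only [Finset.mem_filter, Finset.mem_union]
      constructor
      · rintro ⟨h1 | h1, h2⟩
        · exact absurd (hI h1) h2
        · exact h1
      · exact fun h1 => ⟨Or.inr h1, (hJ h1).2⟩
  · intro I _
    exact Finset.filter_union_filter_not_eq _ I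
  · rintro ⟨I, J⟩ h
    rw [Finset.mem_product, Finset.mem_filter, Finset.mem_filter] at h
    have hI := (Matroid.restrict_indep_iff.1 h.1.2).2
    have hJ := (Matroid.restrict_indep_iff.1 h.2.2).2
    rw [Finset.card_union_of_disjoint, pow_add]
    rw [Finset.disjoint_left]
    exact fun x h1 h2 => (hJ h2).2 (hI h1)

end Pool.Agent.RLM
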