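import Pool.Agent.RLM.Targets1

set_option autoImplicit false

/-!
# RLM: target R2 (pairs when every class misses at least three nonloops)
-/

open scoped Classical Matroid

noncomputable section

namespace Pool.Agent.RLM

namespace R2_

/-- arithmetic for large classes -/
theorem ar1 (w j E F n : ℕ) (hw : 3 ≤ w) (hj : 3 ≤ j) (hn : w + j = n) (hF : F = w * j + E) :
    3 * n + E ≤ F + 9 := by
  obtain ⟨a, rfl⟩ := Nat.exists_eq_add_of_le hw
  obtain ⟨b, rfl⟩ := Nat.exists_eq_add_of_le hj
  subst hF
  subst hn
  nlinarith [Nat.zero_le (a * b)]

/-- arithmetic for small classes -/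
theorem ar2 (F n : ℕ) (h4 : 4 ≤ n) (h3 : n * 3 ≤ 2 * F) (h2 : n * (n - 2) ≤ 2 * F) :
    3 * n ≤ F + 7 := by
  rcases Nat.lt_or_ge n 6 with h | h
  · interval_cases n <;> omega
  · obtain ⟨a, rfl⟩ := Nat.exists_eq_add_of_le h
    have h5 : 6 + a - 2 = 4 + a := by omega
    rw [h5] at h2
    nlinarith [Nat.zero_le (a * a)]

end R2_

theorem p_R2 (h_PAR : T_PAR) (h_OUT : T_OUT) : T_R2 := by
  intro α _ _ M h3
  obtain ⟨hcl, hpar, hsum, hF, h2F⟩ := h_PAR α M
  obtain ⟨-, -, hn1, -, -, -⟩ := h_OUT α M
  by_cases hne : (nl M).Nonempty
  swap
  · rw [Finset.not_nonempty_iff_eq_empty] at hne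
    rw [hne, Finset.card_empty] at hn1
    refine ⟨by omega, fun x y z _ _ _ _ _ _ => by omega⟩
  · obtain ⟨x, hx, hmax⟩ := Finset.exists_max_image (nl M) (fun x => (cls M x).card) hne
    have hxn : M.IsNonloop x := (Finset.mem_filter.1 hx).2
    have hnl : ∀ y, y ∈ nl M ↔ M.IsNonloop y := fun y => by simp [nl]
    have hj := h3 x hxn
    have hwj := hsum x hxn
    have hFx := hF x hxn
    have hw1 : 1 ≤ (cls M x).card := by
      apply Finset.card_pos.2
      exact ⟨x, Finset.mem_filter.2 ⟨Finset.mem_univ _, hxn, M.mem_closure_self x hxn.mem_ground⟩⟩
    rcases Nat.lt_or_ge (cls M x).card 3 with hw | hw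
    · have key : 3 * cnt M 1 ≤ cnt M 2 + 7 := by
        apply R2_.ar2
        · omega
        · rw [h2F, hn1, ← smul_eq_mul]
          apply Finset.card_nsmul_le_sum
          intro f hf
          exact h3 f ((hnl f).1 hf)
        · rw [h2F]
          conv_lhs => rw [hn1, ← smul_eq_mul]
          apply Finset.card_nsmul_le_sum
          intro f hf
          have h4 := hsum f ((hnl f).1 hf)
          have h5 := hmax f hf
          rw [← hn1]
          omega
      exact ⟨by omega, fun _ _ _ _ _ _ _ _ _ => key⟩
    · have ha := R2_.ar1 _ _ _ _ _ hw hj hwj hFx
      refine ⟨by omega, ?_⟩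
      -- among pairwise independent elements two are outside the class of `x`
      have hind : ∀ a b : α, a ≠ b → M.Indep {a, b} → M.IsNonloop a ∧ M.IsNonloop b := by
        intro a b _ hab
        exact ⟨hab.isNonloop_of_mem (by simp), hab.isNonloop_of_mem (by simp)⟩
      have hout2 : ∀ a b : α, a ≠ b → M.Indep {a, b} → a ∈ M.closure {x} → b ∈ M.closure {x} →
          False := by
        intro a b hab hi hax hbx
        obtain ⟨hna, hnb⟩ := hind a b hab hi
        have h1 := hcl x a hxn hna hax
        have h2 := (hpar a b hna hnb).2 ⟨hab, hi⟩
        rw [h1] at h2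
        exact h2 hbx
      have main : ∀ y z : α, y ≠ z → M.Indep {y, z} → y ∉ M.closure {x} → z ∉ M.closure {x} →
          3 * cnt M 1 ≤ cnt M 2 + 7 := by
        intro y z hyz hi hy hz
        obtain ⟨hny, hnz⟩ := hind y z hyz hi
        -- a third element outside the class
        set J : Finset α := Finset.univ.filter fun u => M.IsNonloop u ∧ u ∉ M.closure {x} with hJ
        have hJc : (cls M x).card + J.card = cnt M 1 := by
          rw [hn1]
          have : nl M = cls M x ∪ J := by
            ext u
            simp only [nl, cls, hJ, Finset.mem_union, Finset.mem_filter, Finset.mem_univ, true_and]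
            tauto
          rw [this, Finset.card_union_of_disjoint]
          rw [Finset.disjoint_left]
          intro u hu hu2
          simp only [cls, hJ, Finset.mem_filter, Finset.mem_univ, true_and] at hu hu2
          exact hu2.2 hu.2
        have hJ3 : 3 ≤ J.card := by omega
        have hyJ : y ∈ J := by simp [hJ, hny, hy]
        have hzJ : z ∈ J := by simp [hJ, hnz, hz]
        obtain ⟨u, huJ, huy, huz⟩ : ∃ u ∈ J, u ≠ y ∧ u ≠ z := by
          by_contra hcon
          push Not at hcon
          have hsub : J ⊆ {y, z} := by
            intro u hu
            by_cases h : u = y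
            · simp [h]
            · simp [hcon u hu h]
          have h1 := Finset.card_le_card hsub
          have h2 := Finset.card_le_two (a := y) (b := z)
          omega
        have hun : M.IsNonloop u := by
          simp only [hJ, Finset.mem_filter, Finset.mem_univ, true_and] at huJ
          exact huJ.1
        have hux : u ∉ M.closure {x} := by
          simp only [hJ, Finset.mem_filter, Finset.mem_univ, true_and] at huJ
          exact huJ.2
        set S : Finset (Finset α) := Finset.univ.filter fun A : Finset α =>
          M.Indep (A : Set α) ∧ A.card = 2 ∧ ∀ y ∈ A, y ∉ M.closure {x} with hS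
        have hmem : ∀ a b : α, a ≠ b → M.Indep {a, b} → a ∉ M.closure {x} → b ∉ M.closure {x} →
            ({a, b} : Finset α) ∈ S := by
          intro a b hab hi ha hb
          simp only [hS, Finset.mem_filter, Finset.mem_univ, true_and]
          refine ⟨by simpa using hi, Finset.card_pair hab, ?_⟩
          intro c hc
          rw [Finset.mem_insert, Finset.mem_singleton] at hc
          rcases hc with rfl | rfl
          · exact ha
          · exact hb
        have hS2 : 2 ≤ S.card := by
          have h1 := hmem y z hyz hi hy hz
          by_cases hyu : u ∈ M.closure {y}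
          · -- then `u, z` are independent
            have h2 : u ∉ M.closure {z} := by
              intro h
              have e1 := hcl y u hny hun hyu
              have e2 := hcl z u hnz hun h
              have h4 := (hpar y z hny hnz).2 ⟨hyz, hi⟩
              rw [← e1, e2] at h4
              exact h4 (M.mem_closure_self z hnz.mem_ground)
            obtain ⟨h5, h6⟩ := (hpar z u hnz hun).1 h2
            have h7 := hmem z u h5 h6 hz hux
            have h8 : ({y, z} : Finset α) ≠ {z, u} := by
              intro h
              have : y ∈ ({z, u} : Finset α) := by rw [← h]; simp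
              rw [Finset.mem_insert, Finset.mem_singleton] at this
              rcases this with h | h
              · exact hyz h
              · exact huy h.symm
            exact Finset.one_lt_card.2 ⟨_, h1, _, h7, h8⟩
          · obtain ⟨h5, h6⟩ := (hpar y u hny hun).1 hyu
            have h7 := hmem y u h5 h6 hy hux
            have h8 : ({y, z} : Finset α) ≠ {y, u} := by
              intro h
              have : z ∈ ({y, u} : Finset α) := by rw [← h]; simp
              rw [Finset.mem_insert, Finset.mem_singleton] at this
              rcases this with h | h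
              · exact hyz h.symm
              · exact huz h.symm
            exact Finset.one_lt_card.2 ⟨_, h1, _, h7, h8⟩
        omega
      intro a b c hab hbc hac iab ibc iac
      by_cases ha1 : a ∈ M.closure {x}
      · have hb1 : b ∉ M.closure {x} := fun h => hout2 a b hab iab ha1 h
        have hc1 : c ∉ M.closure {x} := fun h => hout2 a c hac iac ha1 h
        exact main b c hbc ibc hb1 hc1
      · by_cases hb1 : b ∈ M.closure {x}
        · have hc1 : c ∉ M.closure {x} := fun h => hout2 b c hbc ibc hb1 h
          exact main a c hac iac ha1 hc1
        · exact main a b hab iab ha1 hb1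

end Pool.Agent.RLM
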