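import Pool.Agent.RLM.Targets2

set_option autoImplicit false

/-!
# RLM, target R3C
-/

open scoped Classical Matroid

noncomputable section

namespace Pool.Agent.RLM

/-- Every nonloop of a rank three matroid with `Ext M 3 3` has at least four elements outside its
class. -/
theorem R3C_out4 {α : Type} [Fintype α] [DecidableEq α] (M : Matroid α) (hr : HasRk M 3)
    (hE : Ext M 3 3) (f : α) (hf : M.IsNonloop f) :
    4 ≤ out M {f} ∧ ∃ y : α, f ≠ y ∧ M.Indep {f, y} := by
  obtain ⟨⟨T, hT, hTc⟩, -⟩ := hr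
  have hfi : M.Indep ((({f} : Finset α)) : Set α) := by
    rw [Finset.coe_singleton]; exact hf.indep
  obtain ⟨y, hyT, hyf, hy⟩ := hfi.augment_finset hT (by rw [hTc, Finset.card_singleton]; omega)
  have hfy : f ≠ y := by
    rintro rfl
    exact hyf (Finset.mem_singleton_self _)
  have hi : M.Indep {f, y} := by
    have := hy
    rw [Finset.coe_singleton] at this
    rwa [Set.pair_comm]
  have hi' : M.Indep ((({f, y} : Finset α)) : Set α) := by
    rw [Finset.coe_pair]; exact hi
  have h3 : 3 ≤ out M {f, y} := hE {f, y} hi' (by rw [Finset.card_pair hfy])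
  have hlt : out M {f, y} < out M {f} := by
    unfold out
    apply Finset.card_lt_card
    rw [Finset.ssubset_iff_of_subset]
    · refine ⟨y, ?_, ?_⟩
      · rw [Finset.mem_filter]
        refine ⟨Finset.mem_univ _, hi.subset_ground (by simp), ?_⟩
        have := hi.notMem_closure_diff_of_mem (show y ∈ ({f, y} : Set α) by simp)
        have h2 : ({f, y} : Set α) \ {y} = {f} := by
          ext z
          simp only [Set.mem_diff, Set.mem_insert_iff, Set.mem_singleton_iff]
          constructor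
          · rintro ⟨h | h, h'⟩
            · exact h
            · exact absurd h h'
          · rintro rfl
            exact ⟨Or.inl rfl, hfy⟩
        rw [h2] at this
        rwa [Finset.coe_singleton]
      · rw [Finset.mem_filter]
        rintro ⟨-, -, h⟩
        apply h
        rw [Finset.coe_pair]
        exact M.mem_closure_of_mem' (by simp) (hi.subset_ground (by simp))
    · intro x hx
      rw [Finset.mem_filter] at hx ⊢
      refine ⟨hx.1, hx.2.1, fun h => hx.2.2 ?_⟩
      rw [Finset.coe_singleton] at h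
      rw [Finset.coe_pair]
      exact M.closure_subset_closure (by simp) h
  exact ⟨by omega, y, hfy, hi⟩

theorem p_R3C (h_OUT : T_OUT) (h_CTR : T_CTR) (h_PAR : T_PAR) (h_R2 : T_R2) (h_CB : T_CB) :
    T_R3C := by
  intro α _ _ M e hr hE hA he
  obtain ⟨-, -, h3, -, h5, -⟩ := h_OUT α M
  obtain ⟨hc1, -, -⟩ := h_CTR α M e he
  obtain ⟨-, -, p3, p4, -⟩ := h_PAR α M
  obtain ⟨hm4, y, hey, hi⟩ := R3C_out4 M hr hE e he
  have hcb := h_CB α M ⟨e, y, hey, hi⟩ hE hA
  have hwm := p3 e he
  have hF2 := p4 e he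
  have hw : 1 ≤ (cls M e).card := by
    apply Finset.card_pos.2
    refine ⟨e, ?_⟩
    unfold cls
    rw [Finset.mem_filter]
    exact ⟨Finset.mem_univ _, he, M.mem_closure_of_mem' (by simp) he.mem_ground⟩
  have hg : cnt (M ／ {e}) 2 ≤ (Finset.univ.filter fun A : Finset α =>
      M.Indep (A : Set α) ∧ A.card = 2 ∧ ∀ y ∈ A, y ∉ M.closure {e}).card := by
    unfold cnt
    apply Finset.card_le_card
    intro A hA'
    rw [Finset.mem_filter] at hA' ⊢
    obtain ⟨-, hA1, hA2⟩ := hA'
    obtain ⟨heA, hAe⟩ := (hc1 A).1 hA1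
    refine ⟨Finset.mem_univ _, hAe.subset (by simp), hA2, fun z hz hcl => ?_⟩
    have h1 := hAe.notMem_closure_diff_of_mem (show z ∈ ((insert e A : Finset α) : Set α) by
      simp [hz])
    apply h1
    refine M.closure_subset_closure ?_ hcl
    intro u hu
    rw [Set.mem_singleton_iff] at hu
    subst hu
    refine ⟨by simp, ?_⟩
    rw [Set.mem_singleton_iff]
    rintro rfl
    exact heA hz
  have hR2 : 3 * cnt M 1 ≤ cnt M 2 + 7 := by
    obtain ⟨-, hR⟩ := h_R2 α M (fun f hf => by
      have := (R3C_out4 M hr hE f hf).1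
      omega)
    obtain ⟨⟨T, hT, hTc⟩, -⟩ := hr
    obtain ⟨a, b, c, hab, hac, hbc, rfl⟩ := Finset.card_eq_three.1 hTc
    refine hR a b c hab hbc hac (hT.subset ?_) (hT.subset ?_) (hT.subset ?_) <;>
      · intro u hu
        simp only [Set.mem_insert_iff, Set.mem_singleton_iff] at hu
        simp only [Finset.coe_insert, Finset.coe_singleton, Set.mem_insert_iff,
          Set.mem_singleton_iff]
        tauto
  generalize hW : (cls M e).card = w at *
  generalize hMm : out M {e} = m at *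
  generalize hG : cnt (M ／ {e}) 2 = g at *
  generalize hN : cnt M 1 = n at *
  generalize hFF2 : cnt M 2 = F2 at *
  generalize hFF3 : cnt M 3 = F3 at *
  have k1 : (w : ℤ) + m = n := by exact_mod_cast hwm
  have k2 : (2 : ℤ) * F2 + 4 ≤ F3 + 3 * n := by exact_mod_cast hcb
  have k3 : (3 : ℤ) * n ≤ F2 + 7 := by exact_mod_cast hR2
  have k4 : (1 : ℤ) ≤ w := by exact_mod_cast hw
  have k5 : (4 : ℤ) ≤ m := by exact_mod_cast hm4
  have k6 : (w : ℤ) * m + g ≤ F2 := by
    have : w * m + g ≤ F2 := by omega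
    exact_mod_cast this
  have y1 : ((w : ℤ) - 2) * (m - 3) ≤ (F2 : ℤ) - 3 * n - g + m + 6 := by
    nlinarith
  have f1 : (n : ℤ) - 5 ≤ (F3 : ℤ) - F2 + n - 2 := by linarith
  have f2 : (m : ℤ) - 3 ≤ (F3 : ℤ) - 2 * F2 + 3 * n + m - 7 := by linarith
  have f3 : (0 : ℤ) ≤ (n : ℤ) - 5 := by linarith
  rcases le_or_gt (2 : ℤ) w with hw2 | hw2
  · have a1 : (0 : ℤ) ≤ ((F3 : ℤ) - F2 + n - 2) * ((F3 : ℤ) - 2 * F2 + 3 * n + m - 7) :=
      mul_nonneg (by linarith) (by linarith)
    have a2 : (0 : ℤ) ≤ ((w : ℤ) - 2) * (m - 3) := mul_nonneg (by linarith) (by linarith)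
    have a3 : (0 : ℤ) ≤ ((n : ℤ) - 5) * ((F2 : ℤ) - 3 * n - g + m + 6) :=
      mul_nonneg f3 (by linarith)
    linarith
  · have hw1 : (w : ℤ) = 1 := by linarith
    rw [hw1] at y1
    have a1 : ((F3 : ℤ) - F2 + n - 2) * (m - 3) ≤
        ((F3 : ℤ) - F2 + n - 2) * ((F3 : ℤ) - 2 * F2 + 3 * n + m - 7) :=
      mul_le_mul_of_nonneg_left f2 (by linarith)
    have a2 : ((n : ℤ) - 5) * ((1 - 2) * (m - 3)) ≤
        ((n : ℤ) - 5) * ((F2 : ℤ) - 3 * n - g + m + 6) :=
      mul_le_mul_of_nonneg_left y1 f3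
    have a3 : (0 : ℤ) ≤ (((F3 : ℤ) - F2 + n - 2) - (n - 5)) * (m - 3) :=
      mul_nonneg (by linarith) (by linarith)
    nlinarith
end Pool.Agent.RLM
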