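import Pool.Agent.RLM.Targets2

set_option autoImplicit false

/-!
# RLM: the key inequality for the series extension, noncosimple case
-/

open scoped Classical Matroid

noncomputable section

namespace Pool.Agent.RLM

namespace R3N_

lemma enc_pair {α : Type} (a b : α) : ({a, b} : Set α).encard ≤ 2 := by
  refine (Set.encard_insert_le _ _).trans ?_
  rw [Set.encard_singleton]
  exact le_of_eq (by norm_num)

/-- A line is spanned by any of its independent pairs. -/
lemma line_eq {α : Type} (M : Matroid α) {a b c d : α} (hI : M.Indep {a, b})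
    (hcd : c ≠ d) (hJ : M.Indep {c, d}) (hc : c ∈ M.closure {a, b})
    (hd : d ∈ M.closure {a, b}) : M.closure {c, d} = M.closure {a, b} := by
  have hsub : ({c, d} : Set α) ⊆ M.closure {a, b} := by
    intro z hz
    rcases hz with rfl | hz
    · exact hc
    · rw [Set.mem_singleton_iff] at hz
      rw [hz]; exact hd
  have hfin : (({c, d} : Set α)).Finite := by simp
  have hle : M.eRk (M.closure {a, b}) ≤ M.eRk {c, d} := by
    rw [Matroid.eRk_closure_eq, hJ.eRk_eq_encard, Set.encard_pair hcd]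
    refine (M.eRk_le_encard _).trans ?_
    exact enc_pair a b
  have hb : M.IsBasis {c, d} (M.closure {a, b}) :=
    hJ.isBasis_of_eRk_ge hfin hsub hle (M.closure_subset_ground _)
  rw [hb.closure_eq_closure, Matroid.closure_closure]

/-- An independent triple is not contained in a line. -/
lemma no_three {α : Type} (M : Matroid α) (a b : α) (T : Finset α)
    (hT : M.Indep (T : Set α)) (hc : T.card = 3) : ∃ z ∈ T, z ∉ M.closure {a, b} := by
  by_contra hcon
  push Not at hcon
  have hsub : (T : Set α) ⊆ M.closure {a, b} := fun z hz => hcon z (by simpa using hz)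
  have h1 := hT.encard_le_eRk_of_subset hsub
  rw [Matroid.eRk_closure_eq] at h1
  have h2 : (T : Set α).encard ≤ 2 :=
    h1.trans ((M.eRk_le_encard _).trans (enc_pair a b))
  rw [Set.encard_coe_eq_coe_finsetCard, hc] at h2
  exact absurd h2 (by decide)

lemma out_add {α : Type} [Fintype α] [DecidableEq α] (M : Matroid α) (X Y S : Finset α)
    (hXY : X ⊆ Y)
    (hS : ∀ s ∈ S, s ∈ M.E ∧ s ∉ M.closure (X : Set α) ∧ s ∈ M.closure (Y : Set α)) :
    out M Y + S.card ≤ out M X := by
  unfold out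
  have hdisj : Disjoint (Finset.univ.filter fun x => x ∈ M.E ∧ x ∉ M.closure (Y : Set α)) S := by
    rw [Finset.disjoint_left]
    intro z hz hzS
    exact (Finset.mem_filter.1 hz).2.2 (hS z hzS).2.2
  rw [← Finset.card_union_of_disjoint hdisj]
  apply Finset.card_le_card
  intro z hz
  rw [Finset.mem_filter]
  refine ⟨Finset.mem_univ z, ?_⟩
  rcases Finset.mem_union.1 hz with hz | hz
  · have h := (Finset.mem_filter.1 hz).2
    exact ⟨h.1, fun hX => h.2 (M.closure_subset_closure (by exact_mod_cast hXY) hX)⟩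
  · exact ⟨(hS z hz).1, (hS z hz).2.1⟩

lemma out_ge {α : Type} [Fintype α] [DecidableEq α] (M : Matroid α) (X S : Finset α)
    (hS : ∀ s ∈ S, s ∈ M.E ∧ s ∉ M.closure (X : Set α)) : S.card ≤ out M X := by
  unfold out
  apply Finset.card_le_card
  intro z hz
  rw [Finset.mem_filter]
  exact ⟨Finset.mem_univ z, hS z hz⟩

/-- The counts from the series pair. -/
lemma core (h_SER : T_SER) (h_OUT : T_OUT) {α : Type} [Fintype α] [DecidableEq α]
    (M : Matroid α) (x₀ y₀ x y : α) (hI : M.Indep {x₀, y₀}) (h0 : x₀ ≠ y₀)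
    (hxy : x ≠ y) (hxyI : M.Indep {x, y})
    (hc : (Finset.univ.filter fun z => z ∈ M.E ∧
      z ∉ M.closure (({x₀, y₀} : Finset α) : Set α)) = {x, y}) :
    ∃ A1 A2 : ℕ, cnt M 1 = A1 + 2 ∧ cnt M 2 = A2 + 2 * A1 + 1 ∧
      cnt M 3 = 2 * A2 + out M {x, y} ∧ cnt (M ／ {y}) 2 = A2 + out M {x, y} := by
  have hT : M.Indep ((({x₀, y₀} : Finset α)) : Set α) := by
    rw [Finset.coe_insert, Finset.coe_singleton]; exact hI
  obtain ⟨a, -, ha2, ha1, hac, haz⟩ := h_SER α M {x₀, y₀} x y hT hxy hxyI hc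
  have hxE : x ∈ M.E := hxyI.subset_ground (by simp)
  have hyE : y ∈ M.E := hxyI.subset_ground (by simp)
  have hR : cnt (M ／ {y} ／ {x}) 1 = out M {x, y} := by
    rw [(h_OUT α (M ／ {y} ／ {x})).2.1,
      (h_OUT α (M ／ {y})).2.2.2.1 x ∅ (by
        rw [Matroid.contract_ground]; exact ⟨hxE, by simpa using hxy⟩),
      (h_OUT α M).2.2.2.1 y _ hyE]
    congr 1
    rw [Finset.pair_comm]
    simp
  have h00 : cnt (M ／ {y} ／ {x}) 0 = 1 := (h_OUT α (M ／ {y} ／ {x})).1
  have hcard : ({x₀, y₀} : Finset α).card = 2 := Finset.card_pair h0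
  have ha3 : a 3 = 0 := haz 3 (by rw [hcard]; norm_num)
  refine ⟨a 1, a 2, ha1, ?_, ?_, ?_⟩
  · have := ha2 0
    rw [h00] at this
    simpa using this
  · have := ha2 1
    rw [hR] at this
    simp only [Nat.reduceAdd] at this
    rw [this, ha3]; ring
  · have := hac 1
    rw [hR] at this
    simpa using this

/-- Numerical part 1. -/
lemma num1 (R uz E2 m g : ℤ) (hR : 2 ≤ R) (hu : 0 ≤ uz) (hE : uz * R + R ≤ E2 + 1)
    (hn : 5 ≤ R + uz + 2) (hm : R + uz + 1 ≤ m) (hg : g = E2 + R) :
    0 ≤ ((2 * E2 + R) - (E2 + 2 * (R + uz) + 1) + (R + uz + 2) - 2) *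
      ((2 * E2 + R) - 2 * (E2 + 2 * (R + uz) + 1) + 3 * (R + uz + 2) + m - 7) +
    ((R + uz + 2) - 5) * ((E2 + 2 * (R + uz) + 1) - 3 * (R + uz + 2) - g + m + 6) := by
  subst hg
  obtain ⟨d, hd, rfl⟩ : ∃ d : ℤ, 0 ≤ d ∧ m = R + uz + 1 + d :=
    ⟨m - (R + uz + 1), by linarith, by ring⟩
  have h1 : 0 ≤ E2 - uz - 1 := by nlinarith [mul_nonneg hu (sub_nonneg.2 hR)]
  have h2 : 0 ≤ E2 - 2 * uz - R + 2 := by nlinarith [mul_nonneg hu (sub_nonneg.2 hR)]
  have h3 : 0 ≤ (R - 2) * (E2 - 2 * uz - R + 2) := mul_nonneg (by linarith) h2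
  have h4 : 0 ≤ (E2 - uz - 1) * d := mul_nonneg h1 hd
  have h5 : 0 ≤ (R + uz + 2 - 5) * d := mul_nonneg (by linarith) hd
  nlinarith [h3, h4, h5]

/-- Numerical part 2a. -/
lemma num2a (R uz E2 m g p : ℤ) (hu : 0 ≤ uz) (hp : 1 ≤ p) (hRp : p + 1 ≤ R)
    (hE : uz * R + R ≤ E2 + 1) (hn : 5 ≤ R + uz + 2) (hm : m = R + uz + 2 - p)
    (hg : g ≤ 2 * (m - 2) + 1) :
    0 ≤ ((2 * E2 + R) - (E2 + 2 * (R + uz) + 1) + (R + uz + 2) - 2) *
      ((2 * E2 + R) - 2 * (E2 + 2 * (R + uz) + 1) + 3 * (R + uz + 2) + m - 7) +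
    ((R + uz + 2) - 5) * ((E2 + 2 * (R + uz) + 1) - 3 * (R + uz + 2) - g + m + 6) := by
  subst hm
  have hn' : 0 ≤ R + uz + 2 - 5 := by linarith
  obtain ⟨d, hd, hE2⟩ : ∃ d : ℤ, 0 ≤ d ∧ E2 = uz * R + R - 1 + d :=
    ⟨E2 - (uz * R + R - 1), by linarith, by ring⟩
  have hg' : 0 ≤ (R + uz + 2 - 5) * (2 * ((R + uz + 2 - p) - 2) + 1 - g) :=
    mul_nonneg hn' (by linarith)
  -- reduce to the case of equality in g
  suffices h : 0 ≤ (E2 - uz - 1) * (R - 1 - p) +
      (R + uz + 2 - 5) * (E2 - 2 * (R + uz) + 2 + p) by nlinarith [h, hg']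
  subst hE2
  have hd1 : 0 ≤ d * (R - 1 - p) := mul_nonneg hd (by linarith)
  have hd2 : 0 ≤ d * (R + uz + 2 - 5) := mul_nonneg hd hn'
  suffices h : 0 ≤ (uz * R + R - uz - 2) * (R - 1 - p) +
      (R + uz - 3) * ((uz - 1) * (R - 2) - 1 + p) by nlinarith [h, hd1, hd2]
  rcases hu.eq_or_lt with h0 | h0
  · rw [← h0]
    have : (0 * R + R - 0 - 2) * (R - 1 - p) + (R + 0 - 3) * ((0 - 1) * (R - 2) - 1 + p)
      = R - 1 - p := by ring
    rw [this]; linarith
  · have h1 : 1 ≤ uz := h0
    have h2 : 0 ≤ (uz - 1) * (R - 2) := mul_nonneg (by linarith) (by linarith)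
    have h3 : 0 ≤ uz * R + R - uz - 2 := by nlinarith [mul_nonneg hu (by linarith : 0 ≤ R - 2)]
    have h4 := mul_nonneg h3 (by linarith : 0 ≤ R - 1 - p)
    have h5 := mul_nonneg (by linarith : 0 ≤ R + uz - 3)
      (by linarith : 0 ≤ (uz - 1) * (R - 2) - 1 + p)
    linarith

/-- Numerical part 2b. -/
lemma num2b (R uz E2 m g p : ℤ) (hR : 2 ≤ R) (hp : 1 ≤ p) (hup : p ≤ uz)
    (hE : uz * R + R ≤ E2 + 1) (hn : 5 ≤ R + uz + 2) (hm : m = R + uz + 2 - p)
    (hg : g ≤ 2 * (m - 2)) :
    0 ≤ ((2 * E2 + R) - (E2 + 2 * (R + uz) + 1) + (R + uz + 2) - 2) *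
      ((2 * E2 + R) - 2 * (E2 + 2 * (R + uz) + 1) + 3 * (R + uz + 2) + m - 7) +
    ((R + uz + 2) - 5) * ((E2 + 2 * (R + uz) + 1) - 3 * (R + uz + 2) - g + m + 6) := by
  subst hm
  have hn' : 0 ≤ R + uz + 2 - 5 := by linarith
  obtain ⟨d, hd, hE2⟩ : ∃ d : ℤ, 0 ≤ d ∧ E2 = uz * R + R - 1 + d :=
    ⟨E2 - (uz * R + R - 1), by linarith, by ring⟩
  obtain ⟨t, ht, hpt⟩ : ∃ t : ℤ, 0 ≤ t ∧ p = uz - t := ⟨uz - p, by linarith, by ring⟩
  have hg' : 0 ≤ (R + uz + 2 - 5) * (2 * ((R + uz + 2 - p) - 2) - g) :=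
    mul_nonneg hn' (by linarith)
  suffices h : 0 ≤ (E2 - uz - 1) * (R - 1 - p) +
      (R + uz + 2 - 5) * (E2 - 2 * (R + uz) + 3 + p) by nlinarith [h, hg']
  subst hE2
  have hd1 : 0 ≤ d * (2 * R - 4 + (uz - p)) := mul_nonneg hd (by linarith)
  suffices h : 0 ≤ (uz * R + R - uz - 2) * (R - 1 - p) +
      (R + uz - 3) * ((uz - 1) * (R - 2) + p) by nlinarith [h, hd1]
  subst hpt
  have hu0 : 0 ≤ uz := by linarith
  have h1 : 0 ≤ uz * (R - 2) := mul_nonneg hu0 (by linarith)
  have h2 : 0 ≤ t * (uz * (R - 2) + 1) := mul_nonneg ht (by linarith)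
  have h3 : 0 ≤ 2 * uz * (R - 2) ^ 2 + 2 * (R - 2) := by
    have := mul_nonneg hu0 (sq_nonneg (R - 2))
    nlinarith
  nlinarith [h2, h3]

/-- The number of pairs of the contraction. -/
lemma g_bound (h_OUT : T_OUT) (h_PAR : T_PAR) {α : Type} [Fintype α] [DecidableEq α]
    (M : Matroid α) (x₀ y₀ x y e : α) (hI : M.Indep {x₀, y₀})
    (hxy : x ≠ y) (hout : out M {x₀, y₀} = 2)
    (hx : x ∈ M.E ∧ x ∉ M.closure {x₀, y₀}) (hy : y ∈ M.E ∧ y ∉ M.closure {x₀, y₀})
    (hmem : ∀ z ∈ M.E, z ∉ M.closure {x₀, y₀} → z = x ∨ z = y)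
    (he : M.IsNonloop e) (heL : e ∈ M.closure {x₀, y₀}) :
    2 ≤ out M {e} ∧ cnt (M ／ {e}) 2 ≤ 2 * (out M {e} - 2) + 1 ∧
      (e ∈ M.closure {x, y} → cnt (M ／ {e}) 2 ≤ 2 * (out M {e} - 2)) := by
  have hsub : M.closure {e} ⊆ M.closure {x₀, y₀} :=
    M.closure_subset_closure_of_subset_closure (by simpa using heL)
  have hxe : x ∉ M.closure {e} := fun h => hx.2 (hsub h)
  have hye : y ∉ M.closure {e} := fun h => hy.2 (hsub h)
  have hNL : ∀ z, z ∈ nl (M ／ {e}) ↔ z ∈ M.E ∧ z ∉ M.closure {e} := by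
    intro z
    unfold nl
    rw [Finset.mem_filter, Matroid.contract_isNonloop_iff]
    simp
  have hxN := (hNL x).2 ⟨hx.1, hxe⟩
  have hyN := (hNL y).2 ⟨hy.1, hye⟩
  have hsum := (h_PAR α (M ／ {e})).2.2.2.2
  have hcard : (nl (M ／ {e})).card = out M {e} := by
    rw [← (h_OUT α (M ／ {e})).2.2.1, (h_OUT α M).2.2.2.2.1 e he]
  have hoe : ∀ f, out (M ／ {e}) {f} = out M {e, f} := fun f =>
    (h_OUT α M).2.2.2.1 e {f} he.mem_ground
  simp only [hoe] at hsum
  have hpair : ({x, y} : Finset α) ⊆ nl (M ／ {e}) := by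
    intro z hz
    rw [Finset.mem_insert, Finset.mem_singleton] at hz
    rcases hz with rfl | rfl
    · exact hxN
    · exact hyN
  have hc2 : ({x, y} : Finset α).card = 2 := Finset.card_pair hxy
  have hm2 : 2 ≤ out M {e} := by
    rw [← hcard, ← hc2]; exact Finset.card_le_card hpair
  -- the elements of the line
  have hline : ∀ f ∈ nl (M ／ {e}) \ {x, y}, out M {e, f} = 2 := by
    intro f hf
    rw [Finset.mem_sdiff, Finset.mem_insert, Finset.mem_singleton] at hf
    have hf1 := (hNL f).1 hf.1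
    have hfL : f ∈ M.closure {x₀, y₀} := by
      by_contra h
      exact hf.2 (hmem f hf1.1 h)
    have hfn : M.IsNonloop f := Matroid.isNonloop_of_notMem_closure hf1.2 hf1.1
    have hef := ((h_PAR α M).2.1 e f he hfn).1 hf1.2
    have hcl := line_eq M hI hef.1 hef.2 heL hfL
    rw [← hout]
    unfold out
    rw [Finset.coe_insert, Finset.coe_singleton, Finset.coe_insert, Finset.coe_singleton, hcl]
  rw [← Finset.sum_sdiff hpair, Finset.sum_congr rfl hline, Finset.sum_const,
    Finset.card_sdiff_of_subset hpair, hcard, hc2, Finset.sum_pair hxy] at hsum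
  have hxm : out M {e, x} + 1 ≤ out M {e} := by
    have := out_add M {e} {e, x} {x} (by simp) (by
      intro s hs
      rw [Finset.mem_singleton] at hs
      subst hs
      refine ⟨hx.1, by simpa using hxe, ?_⟩
      exact M.mem_closure_of_mem' (by simp) hx.1)
    simpa using this
  have hym : out M {e, y} + 1 ≤ out M {e} := by
    have := out_add M {e} {e, y} {y} (by simp) (by
      intro s hs
      rw [Finset.mem_singleton] at hs
      subst hs
      refine ⟨hy.1, by simpa using hye, ?_⟩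
      exact M.mem_closure_of_mem' (by simp) hy.1)
    simpa using this
  refine ⟨hm2, ?_, ?_⟩
  · rw [smul_eq_mul] at hsum
    omega
  · intro hexy
    have hxn : M.IsNonloop x := Matroid.isNonloop_of_notMem_closure hx.2 hx.1
    have hyn : M.IsNonloop y := Matroid.isNonloop_of_notMem_closure hy.2 hy.1
    have hex : e ∉ M.closure {x} := fun h => hxe (he.mem_closure_singleton h)
    have hey : e ∉ M.closure {y} := fun h => hye (he.mem_closure_singleton h)
    have h1 : y ∈ M.closure {e, x} := by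
      rw [Set.pair_comm] at hexy
      exact Matroid.mem_closure_insert hex hexy
    have h2 : x ∈ M.closure {e, y} := Matroid.mem_closure_insert hey hexy
    have hxm2 : out M {e, x} + 2 ≤ out M {e} := by
      have := out_add M {e} {e, x} {x, y} (by simp) (by
        intro s hs
        rw [Finset.mem_insert, Finset.mem_singleton] at hs
        rcases hs with rfl | rfl
        · refine ⟨hx.1, by simpa using hxe, ?_⟩
          exact M.mem_closure_of_mem' (by simp) hx.1
        · refine ⟨hy.1, by simpa using hye, ?_⟩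
          simpa using h1)
      rwa [hc2] at this
    have hym2 : out M {e, y} + 2 ≤ out M {e} := by
      have := out_add M {e} {e, y} {x, y} (by simp) (by
        intro s hs
        rw [Finset.mem_insert, Finset.mem_singleton] at hs
        rcases hs with rfl | rfl
        · refine ⟨hx.1, by simpa using hxe, ?_⟩
          simpa using h2
        · refine ⟨hy.1, by simpa using hye, ?_⟩
          exact M.mem_closure_of_mem' (by simp) hy.1)
      rwa [hc2] at this
    rw [smul_eq_mul] at hsum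
    omega

end R3N_

/-- R3N. -/
theorem p_R3N (h_SER : T_SER) (h_OUT : T_OUT) (h_PAR : T_PAR) (h_NC3 : T_NC3) : T_R3N := by
  intro α _ _ M e x₀ y₀ hrk hext hdisc hn h0 hI hout he
  have hcoe : (({x₀, y₀} : Finset α) : Set α) = {x₀, y₀} := by simp
  obtain ⟨x, y, hxy, hc⟩ : ∃ x y, x ≠ y ∧ (Finset.univ.filter fun z => z ∈ M.E ∧
      z ∉ M.closure (({x₀, y₀} : Finset α) : Set α)) = {x, y} := by
    have := hout
    unfold out at this
    exact Finset.card_eq_two.1 this
  have hiff : ∀ z, (z ∈ M.E ∧ z ∉ M.closure {x₀, y₀}) ↔ (z = x ∨ z = y) := by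
    intro z
    have h1 : z ∈ (Finset.univ.filter fun z => z ∈ M.E ∧
      z ∉ M.closure (({x₀, y₀} : Finset α) : Set α)) ↔ z ∈ ({x, y} : Finset α) := by rw [hc]
    rw [Finset.mem_filter, Finset.mem_insert, Finset.mem_singleton, hcoe] at h1
    rw [← h1]
    simp
  have hx := (hiff x).2 (Or.inl rfl)
  have hy := (hiff y).2 (Or.inr rfl)
  have hmem : ∀ z ∈ M.E, z ∉ M.closure {x₀, y₀} → z = x ∨ z = y :=
    fun z h1 h2 => (hiff z).1 ⟨h1, h2⟩
  have hxn : M.IsNonloop x := Matroid.isNonloop_of_notMem_closure hx.2 hx.1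
  have hyn : M.IsNonloop y := Matroid.isNonloop_of_notMem_closure hy.2 hy.1
  have hPAR := h_PAR α M
  -- x and y are not parallel
  have hyx : y ∉ M.closure {x} := by
    intro h
    apply hdisc
    refine ⟨x, hxn, fun T hT hTc => ?_⟩
    obtain ⟨z, hzT, hz⟩ := R3N_.no_three M x₀ y₀ T hT hTc
    have hzE : z ∈ M.E := hT.subset_ground (by simpa using hzT)
    refine ⟨z, hzT, ?_⟩
    rcases hmem z hzE hz with rfl | rfl
    · exact M.mem_closure_self _ hx.1
    · exact h
  have hxyI : M.Indep {x, y} := ((hPAR.2.1 x y hxn hyn).1 hyx).2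
  obtain ⟨A1, A2, hA1, hA2, hA3, hAy⟩ := R3N_.core h_SER h_OUT M x₀ y₀ x y hI h0 hxy hxyI hc
  obtain ⟨B1, B2, hB1, hB2, hB3, hBx⟩ := R3N_.core h_SER h_OUT M x₀ y₀ y x hI h0 hxy.symm
    (by rw [Set.pair_comm]; exact hxyI) (by rw [hc, Finset.pair_comm])
  rw [Finset.pair_comm] at hB3 hBx
  obtain ⟨R, uz, E2, hR2, hn1, hn2, hn3, hE⟩ := h_NC3 α M x₀ y₀ hrk hext hdisc h0 hI hout
  have hRo : out M {x, y} = R := by omega
  have hA2E : A2 = E2 := by omega
  have hB2E : B2 = E2 := by omega
  have hp := hPAR.2.2.1 e he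
  have heself : e ∈ cls M e := by
    unfold cls
    rw [Finset.mem_filter]
    exact ⟨Finset.mem_univ e, he, M.mem_closure_self _ he.mem_ground⟩
  have hp1 : 1 ≤ (cls M e).card := Finset.card_pos.2 ⟨e, heself⟩
  have hE' : (uz : ℤ) * R + R ≤ E2 + 1 := by exact_mod_cast hE
  have c1 : (cnt M 1 : ℤ) = R + uz + 2 := by exact_mod_cast hn1
  have c2 : (cnt M 2 : ℤ) = E2 + 2 * (R + uz) + 1 := by exact_mod_cast hn2
  have c3 : (cnt M 3 : ℤ) = 2 * E2 + R := by exact_mod_cast hn3
  rw [c1, c2, c3]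
  by_cases heL : e ∈ M.closure {x₀, y₀}
  · obtain ⟨hm2, hg1, hg2⟩ := R3N_.g_bound h_OUT h_PAR M x₀ y₀ x y e hI hxy hout hx hy hmem
      he heL
    have hm : (out M {e} : ℤ) = R + uz + 2 - (cls M e).card := by
      have : ((cls M e).card : ℤ) + out M {e} = cnt M 1 := by exact_mod_cast hp
      rw [c1] at this
      linarith
    have hclcls : ∀ u ∈ cls M e, M.IsNonloop u ∧ M.closure {u} = M.closure {e} := by
      intro u hu
      unfold cls at hu
      have hu' := (Finset.mem_filter.1 hu).2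
      exact ⟨hu'.1, hPAR.1 e u he hu'.1 hu'.2⟩
    by_cases hexy : e ∈ M.closure {x, y}
    · -- e on both lines
      have hg := hg2 hexy
      have hsz : out M {x, y} + ((cls M e).card + 2) ≤ cnt M 1 := by
        rw [(h_OUT α M).2.1]
        have hdis : Disjoint (cls M e) {x, y} := by
          rw [Finset.disjoint_left]
          intro z hz hz'
          have hz1 := hclcls z hz
          have hzL : z ∈ M.closure {x₀, y₀} := by
            have h1 : z ∈ M.closure {e} := by
              rw [← hz1.2]; exact M.mem_closure_self _ hz1.1.mem_ground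
            exact (M.closure_subset_closure_of_subset_closure
              (by simpa using heL : ({e} : Set α) ⊆ M.closure {x₀, y₀})) h1
          rw [Finset.mem_insert, Finset.mem_singleton] at hz'
          rcases hz' with rfl | rfl
          · exact hx.2 hzL
          · exact hy.2 hzL
        rw [← Finset.card_pair hxy, ← Finset.card_union_of_disjoint hdis]
        apply R3N_.out_add M ∅ {x, y} _ (by simp)
        intro s hs
        rw [Finset.coe_empty, Finset.coe_insert, Finset.coe_singleton]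
        have hns : ∀ z, M.IsNonloop z → z ∉ M.closure ∅ := fun z hz h =>
          ((Matroid.isNonloop_iff_notMem_loops hz.mem_ground).1 hz) h
        rcases Finset.mem_union.1 hs with hs | hs
        · have hs1 := hclcls s hs
          refine ⟨hs1.1.mem_ground, hns s hs1.1, ?_⟩
          have h1 : s ∈ M.closure {e} := by
            rw [← hs1.2]; exact M.mem_closure_self _ hs1.1.mem_ground
          exact (M.closure_subset_closure_of_subset_closure
              (by simpa using hexy : ({e} : Set α) ⊆ M.closure {x, y})) h1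
        · rw [Finset.mem_insert, Finset.mem_singleton] at hs
          rcases hs with rfl | rfl
          · exact ⟨hx.1, hns _ hxn, M.mem_closure_of_mem' (by simp) hx.1⟩
          · exact ⟨hy.1, hns _ hyn, M.mem_closure_of_mem' (by simp) hy.1⟩
      refine R3N_.num2b R uz E2 (out M {e}) (cnt (M ／ {e}) 2) (cls M e).card
        (by exact_mod_cast hR2) (by exact_mod_cast hp1) ?_ hE' (by omega) hm (by omega)
      omega
    · -- e not on the line xy
      have hsz : (cls M e).card + 1 ≤ out M {x, y} := by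
        -- an element outside both
        obtain ⟨v, hvE, hv1, hv2⟩ : ∃ v, v ∈ M.E ∧ v ∉ M.closure {x, y} ∧
            v ∉ M.closure {e} := by
          by_contra hcon
          push Not at hcon
          apply hdisc
          refine ⟨e, he, fun T hT hTc => ?_⟩
          obtain ⟨z, hzT, hz⟩ := R3N_.no_three M x y T hT hTc
          have hzE : z ∈ M.E := hT.subset_ground (by simpa using hzT)
          exact ⟨z, hzT, hcon z hzE hz⟩
        have hvc : v ∉ cls M e := by
          intro hv
          unfold cls at hv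
          exact hv2 (Finset.mem_filter.1 hv).2.2
        rw [← Finset.card_insert_of_notMem hvc]
        apply R3N_.out_ge
        intro s hs
        rw [Finset.coe_insert, Finset.coe_singleton]
        rcases Finset.mem_insert.1 hs with rfl | hs
        · exact ⟨hvE, hv1⟩
        · have hs1 := hclcls s hs
          refine ⟨hs1.1.mem_ground, fun h => hexy ?_⟩
          have h1 : e ∈ M.closure {s} := by
            rw [hs1.2]; exact M.mem_closure_self _ he.mem_ground
          exact (M.closure_subset_closure_of_subset_closure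
              (by simpa using h : ({s} : Set α) ⊆ M.closure {x, y})) h1
      refine R3N_.num2a R uz E2 (out M {e}) (cnt (M ／ {e}) 2) (cls M e).card
        (by exact_mod_cast Nat.zero_le uz) (by exact_mod_cast hp1) ?_ hE' (by omega) hm
        (by omega)
      omega
  · -- e is x or y
    have hecls : (cls M e).card ≤ 1 := by
      rw [Finset.card_le_one]
      have key : ∀ z ∈ cls M e, z = e := by
        intro z hz
        unfold cls at hz
        obtain ⟨hzn, hzc⟩ := (Finset.mem_filter.1 hz).2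
        have hez : e ∈ M.closure {z} := hzn.mem_closure_singleton hzc
        have hzL : z ∉ M.closure {x₀, y₀} := fun h =>
          heL ((M.closure_subset_closure_of_subset_closure
              (by simpa using h : ({z} : Set α) ⊆ M.closure {x₀, y₀})) hez)
        have hxy' : x ∉ M.closure {y} := fun h => hyx (hxn.mem_closure_singleton h)
        rcases hmem z hzn.mem_ground hzL with hz1 | hz1 <;>
          rcases hmem e he.mem_ground heL with he1 | he1
        · rw [hz1, he1]
        · exfalso; rw [hz1, he1] at hzc; exact hxy' hzc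
        · exfalso; rw [hz1, he1] at hzc; exact hyx hzc
        · rw [hz1, he1]
      intro a ha b hb
      rw [key a ha, key b hb]
    have hgE : cnt (M ／ {e}) 2 = E2 + R := by
      rcases hmem e he.mem_ground heL with rfl | rfl
      · rw [hBx, hB2E, hRo]
      · rw [hAy, hA2E, hRo]
    refine R3N_.num1 R uz E2 (out M {e}) (cnt (M ／ {e}) 2) (by exact_mod_cast hR2)
      (by exact_mod_cast Nat.zero_le uz) hE' (by omega) (by omega) (by exact_mod_cast hgE)

end Pool.Agent.RLM
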