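import Pool.Agent.RLM.Targets4

set_option autoImplicit false

/-!
# RLM: separations (target T_SEP)
-/

open scoped Classical Matroid

noncomputable section

namespace Pool.Agent.RLM

namespace SEP_

theorem SEP_exRk {α : Type} [Fintype α] (M : Matroid α) : ∃ i, HasRk M i := by
  have hne : (Finset.univ.filter fun A : Finset α => M.Indep (A : Set α)).Nonempty :=
    ⟨∅, by simp⟩
  obtain ⟨T, hT, hmax⟩ := Finset.exists_max_image _ Finset.card hne
  rw [Finset.mem_filter] at hT
  refine ⟨T.card, ⟨T, hT.2, rfl⟩, ?_⟩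
  intro S hS
  exact hmax S (by rw [Finset.mem_filter]; exact ⟨Finset.mem_univ _, hS⟩)

theorem SEP_card_le {α : Type} (M : Matroid α) (S T : Finset α) (hT : M.Indep (T : Set α))
    (h : (T : Set α) ⊆ M.closure (S : Set α)) : T.card ≤ S.card := by
  have h1 := hT.encard_le_eRk_of_subset h
  rw [M.eRk_closure_eq] at h1
  have h2 := h1.trans (M.eRk_le_encard (S : Set α))
  rw [Set.encard_coe_eq_coe_finsetCard, Set.encard_coe_eq_coe_finsetCard] at h2
  exact_mod_cast h2

theorem SEP_rk_closure {α : Type} (M : Matroid α) (S : Finset α) (hS : M.Indep (S : Set α)) :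
    HasRk (M ↾ (M.closure (S : Set α))) S.card := by
  refine ⟨⟨S, ?_, rfl⟩, ?_⟩
  · rw [Matroid.restrict_indep_iff]
    exact ⟨hS, M.subset_closure _ hS.subset_ground⟩
  · intro T hT
    rw [Matroid.restrict_indep_iff] at hT
    exact SEP_card_le M S T hT.1 hT.2

/-- The complement of the closure of a small set is not of rank zero. -/
theorem SEP_pos {α : Type} (M : Matroid α) (S : Finset α) (r j : ℕ) (hr : HasRk M r)
    (hS : S.card < r) (hj : HasRk (M ↾ (M.E \ M.closure (S : Set α))) j) : 1 ≤ j := by
  obtain ⟨T, hT, hTc⟩ := hr.1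
  have hnot : ¬ ((T : Set α) ⊆ M.closure (S : Set α)) := by
    intro h
    have := SEP_card_le M S T hT h
    omega
  rw [Set.not_subset] at hnot
  obtain ⟨x, hxT, hx⟩ := hnot
  have h1 := hj.2 {x} (by
    rw [Matroid.restrict_indep_iff]
    refine ⟨hT.subset (by simpa using hxT), ?_⟩
    have : x ∈ M.E := hT.subset_ground hxT
    simp only [Finset.coe_singleton, Set.singleton_subset_iff]
    exact ⟨this, hx⟩)
  simpa using h1

end SEP_

open SEP_ in
theorem p_SEP : T_SEP := by
  intro α _ _ M r hr2 hr h
  rcases h with h | ⟨hr4, h⟩ | h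
  · obtain ⟨a, ha, h⟩ := h
    have hS : M.Indep (({a} : Finset α) : Set α) := by
      rw [Finset.coe_singleton]; exact ha.indep
    obtain ⟨j, hj⟩ := SEP_exRk (M ↾ (M.E \ M.closure (({a} : Finset α) : Set α)))
    have h1 : 1 ≤ j := SEP_pos M {a} r j hr (by rw [Finset.card_singleton]; omega) hj
    refine ⟨M.closure (({a} : Finset α) : Set α), 1, j, M.closure_subset_ground _, le_refl _, h1,
      ?_, ?_, hj⟩
    · obtain ⟨T, hT, hTc⟩ := hj.1
      rw [Matroid.restrict_indep_iff] at hT
      have h2 := hr.2 T hT.1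
      have h3 : T.card ≠ r := by
        intro h3
        obtain ⟨x, hxT, hx⟩ := h T hT.1 h3
        have := (hT.2 hxT).2
        rw [Finset.coe_singleton] at this
        exact this hx
      omega
    · have := SEP_rk_closure M {a} hS
      rwa [Finset.card_singleton] at this
  · obtain ⟨a, b, hab, hind, h⟩ := h
    have hcoe : ((({a, b} : Finset α)) : Set α) = {a, b} := by simp
    have hS : M.Indep (({a, b} : Finset α) : Set α) := by rw [hcoe]; exact hind
    have hc : ({a, b} : Finset α).card = 2 := Finset.card_pair hab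
    obtain ⟨j, hj⟩ := SEP_exRk (M ↾ (M.E \ M.closure (({a, b} : Finset α) : Set α)))
    have h1 : 1 ≤ j := SEP_pos M {a, b} r j hr (by rw [hc]; omega) hj
    refine ⟨M.closure (({a, b} : Finset α) : Set α), 2, j, M.closure_subset_ground _,
      by norm_num, h1, ?_, ?_, hj⟩
    · obtain ⟨T, hT, hTc⟩ := hj.1
      rw [Matroid.restrict_indep_iff] at hT
      have h3 : T.card ≤ 2 := by
        by_contra h3
        push Not at h3
        obtain ⟨U, hUT, hUc⟩ := Finset.exists_subset_card_eq (show 3 ≤ T.card by omega)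
        obtain ⟨x, hxU, hx⟩ := h U (hT.1.subset (by exact_mod_cast hUT)) hUc
        have := (hT.2 (hUT hxU)).2
        rw [hcoe] at this
        exact this hx
      omega
    · have := SEP_rk_closure M {a, b} hS
      rwa [hc] at this
  · unfold Ext at h
    push Not at h
    obtain ⟨S, hS, hSc, hout⟩ := h
    obtain ⟨j, hj⟩ := SEP_exRk (M ↾ (M.E \ M.closure (S : Set α)))
    have h1 : 1 ≤ j := SEP_pos M S r j hr (by omega) hj
    refine ⟨M.closure (S : Set α), S.card, j, M.closure_subset_ground _, by omega, h1,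
      ?_, SEP_rk_closure M S hS, hj⟩
    obtain ⟨T, hT, hTc⟩ := hj.1
    rw [Matroid.restrict_indep_iff] at hT
    have h3 : T.card ≤ out M S := by
      unfold out
      apply Finset.card_le_card
      intro x hx
      rw [Finset.mem_filter]
      exact ⟨Finset.mem_univ _, (hT.2 hx).1, (hT.2 hx).2⟩
    omega

end Pool.Agent.RLM
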