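import Pool.Agent.RLM.Targets1

set_option autoImplicit false

/-!
# RLM: a hyperplane missing exactly two elements (SER)
-/

open scoped Classical Matroid

noncomputable section

namespace Pool.Agent.RLM

/-- Number of finite sets with the property `P`. -/
def SER_n {α : Type} [Fintype α] (P : Finset α → Prop) : ℕ :=
  Set.ncard {A : Finset α | P A}

theorem SER_n_congr {α : Type} [Fintype α] (P Q : Finset α → Prop) (h : ∀ A, P A ↔ Q A) :
    SER_n P = SER_n Q := by
  have : P = Q := funext fun A => propext (h A)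
  rw [this]

theorem SER_cnt {α : Type} [Fintype α] (M : Matroid α) (k : ℕ) :
    cnt M k = SER_n fun A : Finset α => M.Indep (A : Set α) ∧ A.card = k := by
  unfold cnt SER_n
  rw [← Set.ncard_coe_finset]
  congr 1
  ext A
  simp

/-- Number of independent `k`-sets inside the closure of `T`. -/
def SER_a {α : Type} [Fintype α] (M : Matroid α) (T : Finset α) (k : ℕ) : ℕ :=
  SER_n fun A : Finset α =>
    M.Indep (A : Set α) ∧ (A : Set α) ⊆ M.closure (T : Set α) ∧ A.card = k

theorem SER_split {α : Type} [Fintype α] [DecidableEq α] (x : α) (P : Finset α → Prop) (k : ℕ) :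
    (SER_n fun A : Finset α => P A ∧ A.card = k + 1) =
      (SER_n fun A : Finset α => x ∉ A ∧ P A ∧ A.card = k + 1) +
      (SER_n fun A : Finset α => x ∉ A ∧ P (insert x A) ∧ A.card = k) := by
  unfold SER_n
  have h1 : {A : Finset α | P A ∧ A.card = k + 1} =
      {A : Finset α | x ∉ A ∧ P A ∧ A.card = k + 1} ∪
      (fun A : Finset α => insert x A) ''
        {A : Finset α | x ∉ A ∧ P (insert x A) ∧ A.card = k} := by
    ext A
    simp only [Set.mem_setOf_eq, Set.mem_union, Set.mem_image]
    constructor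
    · rintro ⟨h1, h2⟩
      by_cases hx : x ∈ A
      · right
        refine ⟨A.erase x, ⟨Finset.notMem_erase x A, ?_, ?_⟩, Finset.insert_erase hx⟩
        · rw [Finset.insert_erase hx]; exact h1
        · rw [Finset.card_erase_of_mem hx, h2]; rfl
      · left
        exact ⟨hx, h1, h2⟩
    · rintro (⟨-, h1, h2⟩ | ⟨B, ⟨h1, h2, h3⟩, rfl⟩)
      · exact ⟨h1, h2⟩
      · exact ⟨h2, by rw [Finset.card_insert_of_notMem h1, h3]⟩
  have h2 : Disjoint {A : Finset α | x ∉ A ∧ P A ∧ A.card = k + 1}
      ((fun A : Finset α => insert x A) ''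
        {A : Finset α | x ∉ A ∧ P (insert x A) ∧ A.card = k}) := by
    rw [Set.disjoint_left]
    rintro A hA ⟨B, -, rfl⟩
    exact hA.1 (Finset.mem_insert_self x B)
  rw [h1, Set.ncard_union_eq h2 (Set.toFinite _) (Set.toFinite _)]
  congr 1
  refine Set.ncard_image_of_injOn ?_
  intro A hA B hB hAB
  have h3 : (insert x A).erase x = (insert x B).erase x := by
    have : insert x A = insert x B := hAB
    rw [this]
  rwa [Finset.erase_insert hA.1, Finset.erase_insert hB.1] at h3

theorem SER_ins {α : Type} [Fintype α] [DecidableEq α] (M : Matroid α) (T A : Finset α) (x : α)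
    (hxE : x ∈ M.E) (hx : x ∉ M.closure (T : Set α)) (hA : M.Indep (A : Set α))
    (hAT : (A : Set α) ⊆ M.closure (T : Set α)) :
    M.Indep ((insert x A : Finset α) : Set α) := by
  have h1 : x ∉ M.closure (A : Set α) := fun h =>
    hx (M.closure_subset_closure_of_subset_closure hAT h)
  have h2 : x ∉ (A : Set α) := fun h => h1 (M.mem_closure_of_mem h hA.subset_ground)
  rw [Finset.coe_insert, hA.insert_indep_iff]
  left
  exact ⟨hxE, h1⟩

theorem p_SER (h_CTR : T_CTR) : T_SER := by
  intro α _ _ M T e f hT hef hI hH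
  have key : ∀ x, (x ∈ M.E ∧ x ∉ M.closure (T : Set α)) ↔ (x = e ∨ x = f) := by
    intro x
    have := congrArg (fun s : Finset α => x ∈ s) hH
    simp only [Finset.mem_filter, Finset.mem_univ, true_and, Finset.mem_insert,
      Finset.mem_singleton, eq_iff_iff] at this
    exact this
  have he := (key e).2 (Or.inl rfl)
  have hf := (key f).2 (Or.inr rfl)
  have hIf : M.IsNonloop f := by
    rw [← Matroid.indep_singleton]
    exact hI.subset (by intro x hx; simp at hx; simp [hx])
  have hCf := h_CTR α M f hIf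
  have hIe : (M ／ {f}).IsNonloop e := by
    have := (hCf.1 {e}).2 ⟨by simpa using hef.symm, by
      rw [Finset.coe_insert, Finset.coe_singleton, Set.pair_comm]; exact hI⟩
    rw [Finset.coe_singleton] at this
    exact Matroid.indep_singleton.1 this
  have hCe := h_CTR α (M ／ {f}) e hIe
  -- sets avoiding e and f
  have hsub : ∀ A : Finset α, M.Indep (A : Set α) → e ∉ A → f ∉ A →
      (A : Set α) ⊆ M.closure (T : Set α) := by
    intro A hA h1 h2 x hx
    by_contra hc
    rcases (key x).1 ⟨hA.subset_ground hx, hc⟩ with h | h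
    · subst h; exact h1 hx
    · subst h; exact h2 hx
  have hav : ∀ A : Finset α, (A : Set α) ⊆ M.closure (T : Set α) → e ∉ A ∧ f ∉ A :=
    fun A hA => ⟨fun h => he.2 (hA h), fun h => hf.2 (hA h)⟩
  -- the counts
  have c1 : ∀ k, (SER_n fun A : Finset α =>
      e ∉ A ∧ (f ∉ A ∧ M.Indep (A : Set α)) ∧ A.card = k) = SER_a M T k := by
    intro k
    refine SER_n_congr _ _ fun A => ?_
    constructor
    · rintro ⟨h1, ⟨h2, h3⟩, h4⟩
      exact ⟨h3, hsub A h3 h1 h2, h4⟩
    · rintro ⟨h1, h2, h3⟩
      exact ⟨(hav A h2).1, ⟨(hav A h2).2, h1⟩, h3⟩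
  have c2 : ∀ k, (SER_n fun A : Finset α =>
      e ∉ A ∧ (f ∉ (insert e A : Finset α) ∧ M.Indep ((insert e A : Finset α) : Set α)) ∧
        A.card = k) = SER_a M T k := by
    intro k
    refine SER_n_congr _ _ fun A => ?_
    constructor
    · rintro ⟨h1, ⟨h2, h3⟩, h4⟩
      have h5 : M.Indep (A : Set α) := h3.subset (by
        rw [Finset.coe_insert]; exact Set.subset_insert e _)
      exact ⟨h5, hsub A h5 h1 (fun h => h2 (Finset.mem_insert_of_mem h)), h4⟩
    · rintro ⟨h1, h2, h3⟩
      refine ⟨(hav A h2).1, ⟨?_, SER_ins M T A e he.1 he.2 h1 h2⟩, h3⟩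
      rw [Finset.mem_insert]
      rintro (h | h)
      · exact hef h.symm
      · exact (hav A h2).2 h
  have c3 : ∀ k, (SER_n fun A : Finset α =>
      e ∉ A ∧ (M ／ {f}).Indep (A : Set α) ∧ A.card = k) = SER_a M T k := by
    intro k
    refine SER_n_congr _ _ fun A => ?_
    constructor
    · rintro ⟨h1, h2, h4⟩
      obtain ⟨h6, h7⟩ := (hCf.1 A).1 h2
      have h5 : M.Indep (A : Set α) := h7.subset (by
        rw [Finset.coe_insert]; exact Set.subset_insert f _)
      exact ⟨h5, hsub A h5 h1 h6, h4⟩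
    · rintro ⟨h1, h2, h3⟩
      exact ⟨(hav A h2).1, (hCf.1 A).2 ⟨(hav A h2).2, SER_ins M T A f hf.1 hf.2 h1 h2⟩, h3⟩
  have c4 : ∀ k, (SER_n fun A : Finset α =>
      e ∉ A ∧ (M ／ {f}).Indep ((insert e A : Finset α) : Set α) ∧ A.card = k) =
        cnt (M ／ {f} ／ {e}) k := by
    intro k
    rw [SER_cnt]
    refine SER_n_congr _ _ fun A => ?_
    rw [hCe.1 A]
    tauto
  have c5 : ∀ k, (SER_n fun A : Finset α =>
      f ∉ A ∧ M.Indep ((insert f A : Finset α) : Set α) ∧ A.card = k) =
        cnt (M ／ {f}) k := by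
    intro k
    rw [SER_cnt]
    refine SER_n_congr _ _ fun A => ?_
    rw [hCf.1 A]
    tauto
  -- the count in `M ／ {f}`
  have m1 : ∀ k, cnt (M ／ {f}) (k + 1) = SER_a M T (k + 1) + cnt (M ／ {f} ／ {e}) k := by
    intro k
    have h := SER_split e (fun A : Finset α => (M ／ {f}).Indep (A : Set α)) k
    rw [c3 (k + 1), c4 k, ← SER_cnt] at h
    exact h
  have m2 : ∀ k, cnt M (k + 1) = SER_a M T (k + 1) + SER_a M T k + cnt (M ／ {f}) k := by
    intro k
    have h := SER_split f (fun A : Finset α => M.Indep (A : Set α)) k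
    have h' := SER_split e (fun A : Finset α => f ∉ A ∧ M.Indep (A : Set α)) k
    have h'' : (SER_n fun A : Finset α =>
        f ∉ A ∧ M.Indep (A : Set α) ∧ A.card = k + 1) =
        (SER_n fun A : Finset α =>
        (f ∉ A ∧ M.Indep (A : Set α)) ∧ A.card = k + 1) := by
      refine SER_n_congr _ _ fun A => ?_
      tauto
    rw [c1 (k + 1), c2 k] at h'
    rw [h'', h', c5 k, ← SER_cnt] at h
    exact h
  have a0 : SER_a M T 0 = 1 := by
    unfold SER_a SER_n
    rw [Set.ncard_eq_one]
    refine ⟨∅, ?_⟩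
    ext A
    simp only [Set.mem_setOf_eq, Set.mem_singleton_iff, Finset.card_eq_zero]
    constructor
    · rintro ⟨-, -, h⟩; exact h
    · rintro rfl
      simp
  have cf0 : cnt (M ／ {f}) 0 = 1 := by
    unfold cnt
    rw [Finset.card_eq_one]
    refine ⟨∅, ?_⟩
    ext A
    simp only [Finset.mem_filter, Finset.mem_univ, true_and, Finset.mem_singleton,
      Finset.card_eq_zero]
    constructor
    · rintro ⟨-, h⟩; exact h
    · rintro rfl
      simp
  refine ⟨SER_a M T, a0, ?_, ?_, m1, ?_⟩
  · intro k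
    have h1 := m2 (k + 1)
    have h2 := m1 k
    rw [h2] at h1
    rw [show k + 2 = k + 1 + 1 by ring, h1]
    ring
  · have h1 := m2 0
    rw [a0, cf0] at h1
    simpa using h1
  · intro k hk
    unfold SER_a SER_n
    rw [Set.ncard_eq_zero (Set.toFinite _), Set.eq_empty_iff_forall_notMem]
    rintro A ⟨h1, h2, h3⟩
    -- `A` independent in the closure of `T`, more elements than `T`
    have h4 : (A : Set α).encard ≤ (T : Set α).encard := by
      have h5 : M.eRk (A : Set α) ≤ M.eRk (M.closure (T : Set α)) := M.eRk_mono h2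
      rw [M.eRk_closure_eq, h1.eRk_eq_encard, hT.eRk_eq_encard] at h5
      exact h5
    rw [Set.encard_coe_eq_coe_finsetCard, Set.encard_coe_eq_coe_finsetCard] at h4
    have h5 : A.card ≤ T.card := by exact_mod_cast h4
    omega

end Pool.Agent.RLM
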