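import Pool.Agent.RLM.Targets3

/-!
# RLM: SIX, at least six good points
-/

set_option autoImplicit false

open scoped Classical Matroid

noncomputable section

namespace Pool.Agent.RLM

namespace SIX_

variable {α : Type} [Fintype α]

/-- The elements outside the closure of `X`. -/
def os (M : Matroid α) (X : Set α) : Finset α :=
  Finset.univ.filter fun x => x ∈ M.E ∧ x ∉ M.closure X

lemma mem_os {M : Matroid α} {X : Set α} {x : α} : x ∈ os M X ↔ x ∈ M.E ∧ x ∉ M.closure X := by
  simp [os]

lemma nonloop_of_os {M : Matroid α} {X : Set α} {x : α} (h : x ∈ os M X) : M.IsNonloop x := by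
  rw [mem_os] at h
  exact Matroid.isNonloop_of_notMem_closure h.2 h.1

omit [Fintype α] in
/-- Independent sets with at most three elements extend to independent triples. -/
lemma extend [DecidableEq α] {M : Matroid α} (hM : HasRk M 4) :
    ∀ (k : ℕ) (I : Finset α), M.Indep (I : Set α) → I.card + k = 3 →
      ∃ T : Finset α, I ⊆ T ∧ M.Indep (T : Set α) ∧ T.card = 3 := by
  intro k
  induction k with
  | zero => intro I hI hc; exact ⟨I, Finset.Subset.refl _, hI, by omega⟩
  | succ k ih =>
    intro I hI hc
    obtain ⟨B, hB, hBc⟩ := hM.1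
    obtain ⟨e, heB, heI, hins⟩ := hI.augment_finset hB (by omega)
    obtain ⟨T, hT1, hT2, hT3⟩ := ih (insert e I) (by rwa [Finset.coe_insert])
      (by rw [Finset.card_insert_of_notMem heI]; omega)
    exact ⟨T, fun x hx => hT1 (Finset.mem_insert_of_mem hx), hT2, hT3⟩

end SIX_

open SIX_ in
theorem p_SIX (h_ND2 : T_ND2) (h_ND3 : T_ND3) (h_BAD : T_BAD) : T_SIX := by
  intro α _ _ M hM hE hA hB
  have hext : ∀ T : Finset α, M.Indep (T : Set α) → T.card = 3 →
      3 ≤ (os M (T : Set α)).card := fun T hT hc => hE T hT (by omega)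
  by_cases hbad : ∃ p, M.IsNonloop p ∧ DiscA (M ／ {p}) 3
  · obtain ⟨p, hp, hpb⟩ := hbad
    obtain ⟨a, ha⟩ := (h_BAD α M p hp).1 hpb
    obtain ⟨hpa, hpaI, hLS⟩ := ha
    have hLSp : LS M p a := ⟨hpa, hpaI, hLS⟩
    -- the elements outside the line
    let R : Finset α := os M ({p, a} : Set α)
    have hpE : p ∈ M.E := hp.mem_ground
    -- a basis of `p` and `R`
    have hX : ({p} ∪ (R : Set α)) ⊆ M.E := by
      intro x hx
      rcases hx with hx | hx
      · rw [Set.mem_singleton_iff.1 hx]; exact hpE
      · exact (mem_os.1 (Finset.mem_coe.1 hx)).1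
    obtain ⟨J, hJ, hpJ⟩ := (Matroid.indep_singleton.2 hp).subset_isBasis_of_subset
      (X := {p} ∪ (R : Set α)) Set.subset_union_left hX
    have hpJ' : p ∈ J := hpJ (Set.mem_singleton p)
    let I : Finset α := J.toFinset
    have hIJ : (I : Set α) = J := Set.coe_toFinset J
    have hIind : M.Indep (I : Set α) := by rw [hIJ]; exact hJ.indep
    have hpI : p ∈ I := by rw [← Finset.mem_coe, hIJ]; exact hpJ'
    have hIcard : I.card ≤ 3 := by
      by_contra hlt
      have h3 : 3 ≤ (I.erase p).card := by
        rw [Finset.card_erase_of_mem hpI]; omega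
      obtain ⟨T, hTsub, hTc⟩ := Finset.exists_subset_card_eq h3
      have hpT : p ∉ T := fun h => Finset.notMem_erase p I (hTsub h)
      have hTI : T ⊆ I := hTsub.trans (Finset.erase_subset _ _)
      have hins : M.Indep ((insert p T : Finset α) : Set α) := by
        refine hIind.subset ?_
        intro x hx
        rw [Finset.mem_coe, Finset.mem_insert] at hx
        rcases hx with hx | hx
        · rw [hx]; exact hpI
        · exact hTI hx
      obtain ⟨x, hxT, hxc⟩ := hLS T hpT hins hTc
      have hxJ : x ∈ J := by rw [← hIJ]; exact hTI hxT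
      rcases hJ.subset hxJ with h | h
      · exact hpT (by rw [← Set.mem_singleton_iff.1 h]; exact hxT)
      · exact (mem_os.1 (Finset.mem_coe.1 h)).2 hxc
    obtain ⟨T3, hIT, hT3, hT3c⟩ := extend hM (3 - I.card) I hIind (by omega)
    have hclos : ∀ x, x ∉ M.closure (T3 : Set α) → x ∉ M.closure ({p} ∪ (R : Set α)) := by
      intro x hx hx'
      apply hx
      rw [← hJ.closure_eq_closure, ← hIJ] at hx'
      exact M.closure_subset_closure (Finset.coe_subset.2 hIT) hx'
    have hpRE : ({p} ∪ (R : Set α)) ⊆ M.closure ({p} ∪ (R : Set α)) :=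
      M.subset_closure _ hX
    -- the first three good elements
    have hG1 : ∀ x ∈ os M (T3 : Set α), x ∈ M.closure ({p, a} : Set α) ∧
        (M.IsNonloop x ∧ ¬ DiscA (M ／ {x}) 3) := by
      intro x hx
      have hxn := nonloop_of_os hx
      rw [mem_os] at hx
      have hx2 := hclos x hx.2
      have hxL : x ∈ M.closure ({p, a} : Set α) := by
        by_contra h
        exact hx2 (hpRE (Or.inr (Finset.mem_coe.2 (mem_os.2 ⟨hx.1, h⟩))))
      have hxp : x ∉ M.closure {p} := fun h =>
        hx2 (M.closure_subset_closure Set.subset_union_left h)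
      exact ⟨hxL, hxn, h_ND2 α M p a x hM hA hB hLSp hxn hxL hxp⟩
    -- triples through the line
    have htriple : ∀ b ∈ R, 3 ≤ (os M (({p, a, b} : Finset α) : Set α)).card := by
      intro b hb
      rw [mem_os] at hb
      have hbn : b ∉ ({p, a} : Set α) := fun h =>
        hb.2 (M.subset_closure _ hpaI.subset_ground h)
      have hind : M.Indep (insert b ({p, a} : Set α)) :=
        (hpaI.notMem_closure_iff hb.1).1 hb.2 |>.1
      have hbp : b ≠ p := fun h => hbn (by rw [h]; exact Set.mem_insert _ _)
      have hba : b ≠ a := fun h => hbn (by rw [h]; exact Set.mem_insert_of_mem _ rfl)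
      refine hext _ ?_ ?_
      · have : (({p, a, b} : Finset α) : Set α) = insert b ({p, a} : Set α) := by
          ext y; simp; tauto
        rw [this]; exact hind
      · rw [Finset.card_insert_of_notMem, Finset.card_insert_of_notMem, Finset.card_singleton]
        · simpa using Ne.symm hba
        · simp only [Finset.mem_insert, Finset.mem_singleton, not_or]
          exact ⟨hpa, Ne.symm hbp⟩
    have hG2 : ∃ G2 : Finset α, 3 ≤ G2.card ∧ ∀ x ∈ G2, x ∉ M.closure ({p, a} : Set α) ∧
        (M.IsNonloop x ∧ ¬ DiscA (M ／ {x}) 3) := by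
      -- `R` is not empty
      have hRne : R.Nonempty := by
        obtain ⟨T, hT1, hT2, hT3'⟩ := extend hM 1 ({p, a} : Finset α)
          (by rw [Finset.coe_pair]; exact hpaI) (by rw [Finset.card_pair hpa])
        have h := hext T hT2 hT3'
        obtain ⟨x, hx⟩ : (os M (T : Set α)).Nonempty := by
          rw [← Finset.card_pos]; omega
        rw [mem_os] at hx
        refine ⟨x, mem_os.2 ⟨hx.1, fun h' => hx.2 ?_⟩⟩
        refine M.closure_subset_closure ?_ h'
        rw [← Finset.coe_pair]
        exact Finset.coe_subset.2 hT1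
      have hsub : ∀ b, ∀ x ∈ os M (({p, a, b} : Finset α) : Set α),
          x ∈ M.E ∧ x ∉ M.closure ({p, a} : Set α) ∧ x ∉ M.closure ({p, b} : Set α) := by
        intro b x hx
        rw [mem_os] at hx
        refine ⟨hx.1, fun h => hx.2 (M.closure_subset_closure ?_ h),
          fun h => hx.2 (M.closure_subset_closure ?_ h)⟩
        · intro y hy
          simp only [Set.mem_insert_iff, Set.mem_singleton_iff] at hy
          simp only [Finset.coe_insert, Finset.coe_singleton, Set.mem_insert_iff,
            Set.mem_singleton_iff]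
          tauto
        · intro y hy
          simp only [Set.mem_insert_iff, Set.mem_singleton_iff] at hy
          simp only [Finset.coe_insert, Finset.coe_singleton, Set.mem_insert_iff,
            Set.mem_singleton_iff]
          tauto
      by_cases hb : ∃ b ∈ R, DiscA (M ／ {b}) 3
      · obtain ⟨b, hbR, hbb⟩ := hb
        refine ⟨os M (({p, a, b} : Finset α) : Set α), htriple b hbR, fun x hx => ?_⟩
        have hxn := nonloop_of_os hx
        obtain ⟨hx1, hx2, hx3⟩ := hsub b x hx
        exact ⟨hx2, hxn, h_ND3 α M p a b x hM hA hB hLSp (nonloop_of_os hbR)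
          (mem_os.1 hbR).2 hbb hxn hx2 hx3⟩
      · obtain ⟨b, hbR⟩ := hRne
        refine ⟨os M (({p, a, b} : Finset α) : Set α), htriple b hbR, fun x hx => ?_⟩
        have hxn := nonloop_of_os hx
        obtain ⟨hx1, hx2, hx3⟩ := hsub b x hx
        exact ⟨hx2, hxn, fun h => hb ⟨x, mem_os.2 ⟨hx1, hx2⟩, h⟩⟩
    obtain ⟨G2, hG2c, hG2⟩ := hG2
    have hdis : Disjoint (os M (T3 : Set α)) G2 := by
      rw [Finset.disjoint_left]
      intro x hx hx'
      exact (hG2 x hx').1 (hG1 x hx).1
    have hsubset : os M (T3 : Set α) ∪ G2 ⊆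
        (nl M).filter fun e => ¬ DiscA (M ／ {e}) 3 := by
      intro x hx
      rw [Finset.mem_union] at hx
      have : M.IsNonloop x ∧ ¬ DiscA (M ／ {x}) 3 := by
        rcases hx with hx | hx
        · exact (hG1 x hx).2
        · exact (hG2 x hx).2
      rw [Finset.mem_filter]
      refine ⟨?_, this.2⟩
      simp only [nl, Finset.mem_filter, Finset.mem_univ, true_and]
      exact this.1
    have hc := Finset.card_le_card hsubset
    rw [Finset.card_union_of_disjoint hdis] at hc
    have h3 := hext T3 hT3 hT3c
    omega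
  · push Not at hbad
    obtain ⟨B, hBi, hBc⟩ := hM.1
    obtain ⟨T, hTB, hTc⟩ := Finset.exists_subset_card_eq (show 3 ≤ B.card by omega)
    have hTi : M.Indep (T : Set α) := hBi.subset (Finset.coe_subset.2 hTB)
    have h3 := hext T hTi hTc
    have hdis : Disjoint T (os M (T : Set α)) := by
      rw [Finset.disjoint_left]
      intro x hx hx'
      exact (mem_os.1 hx').2 (M.subset_closure _ hTi.subset_ground hx)
    have hsubset : T ∪ os M (T : Set α) ⊆ (nl M).filter fun e => ¬ DiscA (M ／ {e}) 3 := by
      intro x hx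
      rw [Finset.mem_union] at hx
      have hxn : M.IsNonloop x := by
        rcases hx with hx | hx
        · exact hTi.isNonloop_of_mem hx
        · exact nonloop_of_os hx
      rw [Finset.mem_filter]
      refine ⟨?_, hbad x hxn⟩
      simp only [nl, Finset.mem_filter, Finset.mem_univ, true_and]
      exact hxn
    have hc := Finset.card_le_card hsubset
    rw [Finset.card_union_of_disjoint hdis] at hc
    omega

end Pool.Agent.RLM
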