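import Pool.Agent.RLM.Targets3

set_option autoImplicit false

/-!
# RLM, target SR: the series case
-/

open scoped Classical Matroid

noncomputable section

namespace Pool.Agent.RLM

namespace SR_

/-- An independent set inside the closure of a finite set is not larger than this set. -/
theorem card_le {α : Type} (M : Matroid α) (T S : Finset α) (hT : M.Indep (T : Set α))
    (h : ∀ x ∈ T, x ∈ M.closure (S : Set α)) : T.card ≤ S.card := by
  have h1 : (T : Set α) ⊆ M.closure (S : Set α) := fun x hx => h x (Finset.mem_coe.1 hx)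
  have h2 : (T : Set α).encard ≤ (S : Set α).encard := by
    calc (T : Set α).encard = M.eRk (T : Set α) := hT.eRk_eq_encard.symm
      _ ≤ M.eRk (M.closure (S : Set α)) := M.eRk_mono h1
      _ = M.eRk (S : Set α) := M.eRk_closure_eq _
      _ ≤ (S : Set α).encard := M.eRk_le_encard _
  rw [Set.encard_coe_eq_coe_finsetCard, Set.encard_coe_eq_coe_finsetCard] at h2
  exact_mod_cast h2

theorem closN {α : Type} (M : Matroid α) (p a x : α) :
    x ∈ (M ／ {p}).closure {a} ↔ x ∈ M.closure {p, a} ∧ x ≠ p := by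
  rw [Matroid.contract_closure_eq, Set.mem_sdiff, Set.mem_singleton_iff, Set.union_comm,
    ← Set.insert_eq]

theorem nlN {α : Type} (M : Matroid α) (p a : α) (hp : M.IsNonloop p) :
    (M ／ {p}).IsNonloop a ↔ p ≠ a ∧ M.Indep {p, a} := by
  rw [← Matroid.indep_singleton, hp.contractElem_indep_iff, Set.mem_singleton_iff]

/-- Closure of a subset of a flat. -/
theorem clos_sub {α : Type} (M : Matroid α) (X Y : Set α) (h : X ⊆ M.closure Y) :
    M.closure X ⊆ M.closure Y := M.closure_subset_closure_of_subset_closure h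

end SR_

open SR_

theorem p_SR (h_SER : T_SER) (h_OUT : T_OUT) (h_CTR : T_CTR) (h_PAR : T_PAR) : T_SR := by
  intro α _ _ M T hrk hext hdA hdB hT hTc hout
  obtain ⟨p1, p2, -, -, -⟩ := h_PAR α M
  have hcard : (Finset.univ.filter fun z => z ∈ M.E ∧
      z ∉ M.closure (T : Set α)).card = 2 := hout
  obtain ⟨e, f, hef, hF⟩ := Finset.card_eq_two.1 hcard
  have hmem : ∀ z, (z ∈ M.E ∧ z ∉ M.closure (T : Set α)) ↔ z = e ∨ z = f := by
    intro z
    have : z ∈ (Finset.univ.filter fun z => z ∈ M.E ∧
      z ∉ M.closure (T : Set α)) ↔ z ∈ ({e, f} : Finset α) := by rw [hF]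
    simpa using this
  have he := (hmem e).2 (Or.inl rfl)
  have hf := (hmem f).2 (Or.inr rfl)
  have hnl : ∀ z, z ∈ M.E → ∀ X : Set α, z ∉ M.closure X → M.IsNonloop z := by
    intro z hz X hX
    refine ⟨?_, hz⟩
    intro h
    exact hX (M.closure_subset_closure (Set.empty_subset X) h)
  have hen : M.IsNonloop e := hnl e he.1 _ he.2
  have hfn : M.IsNonloop f := hnl f hf.1 _ hf.2
  -- an independent set with four elements contains `e` or `f`
  have hfour : ∀ S : Finset α, M.Indep (S : Set α) → S.card = 4 → e ∈ S ∨ f ∈ S := by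
    intro S hS hS4
    by_contra hno
    push Not at hno
    have := card_le M S T hS (by
      intro z hz
      by_contra hz2
      rcases (hmem z).1 ⟨hS.subset_ground (Finset.mem_coe.2 hz), hz2⟩ with rfl | rfl
      · exact hno.1 hz
      · exact hno.2 hz)
    omega
  have hefi : M.Indep {e, f} := by
    by_contra hni
    have hfe : f ∈ M.closure {e} := by
      by_contra h
      exact hni ((p2 e f hen hfn).1 h).2
    apply hdA
    refine ⟨e, hen, fun S hS hS4 => ?_⟩
    rcases hfour S hS hS4 with h | h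
    · exact ⟨e, h, M.mem_closure_of_mem' (Set.mem_singleton e) he.1⟩
    · exact ⟨f, h, hfe⟩
  have hfei : M.Indep {f, e} := by rw [Set.pair_comm]; exact hefi
  obtain ⟨c1, c2, c3⟩ := h_CTR α M f hfn
  have henN : (M ／ {f}).IsNonloop e := (nlN M f e hfn).2 ⟨hef.symm, hfei⟩
  refine ⟨e, f, hef, hefi, hfn, henN, c2 3 hrk, c3 3 2 hext, ?_, ?_⟩
  · -- not DiscA
    rintro ⟨x, hx, hxT⟩
    obtain ⟨hfx, hfxi⟩ := (nlN M f x hfn).1 hx
    have hxE : x ∈ M.E := hfxi.subset_ground (by simp)
    have hxn : M.IsNonloop x := by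
      rw [← Matroid.indep_singleton]
      exact hfxi.subset (by simp)
    -- a subset of `closure T` which is independent stays independent in the contraction
    have hinN : ∀ S : Finset α, M.Indep (S : Set α) → (∀ y ∈ S, y ∈ M.closure (T : Set α)) →
        (M ／ {f}).Indep (S : Set α) := by
      intro S hS hST
      have hfS : f ∉ M.closure (S : Set α) := fun h =>
        hf.2 (clos_sub M S T (fun y hy => hST y (Finset.mem_coe.1 hy)) h)
      refine (c1 S).2 ⟨fun h => hf.2 (hST f h), ?_⟩
      rw [Finset.coe_insert, hS.insert_indep_iff]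
      exact Or.inl ⟨hf.1, hfS⟩
    by_cases hex : e ∈ (M ／ {f}).closure {x}
    · -- DiscB
      have h1 : e ∈ M.closure {f, x} := ((closN M f x e).1 hex).1
      have h2 : e ∉ M.closure {f} := ((p2 f e hfn hen).2 ⟨hef.symm, hfei⟩)
      have h3 : x ∈ M.closure {e, f} := by
        have h1' : e ∈ M.closure (insert x {f}) := by
          rw [Set.pair_comm] at h1
          exact h1
        exact M.mem_closure_insert h2 h1'
      have h4 : M.closure {f, x} ⊆ M.closure {e, f} := by
        apply clos_sub
        intro y hy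
        rcases hy with rfl | hy
        · exact M.mem_closure_of_mem' (by simp) hf.1
        · rw [Set.mem_singleton_iff] at hy
          rw [hy]; exact h3
      apply hdB
      refine ⟨e, f, hef, hefi, fun S hS hS3 => ?_⟩
      by_cases hST : ∀ y ∈ S, y ∈ M.closure (T : Set α)
      · obtain ⟨y, hy, hyx⟩ := hxT S (hinN S hS hST) hS3
        exact ⟨y, hy, h4 ((closN M f x y).1 hyx).1⟩
      · push Not at hST
        obtain ⟨y, hy, hyT⟩ := hST
        refine ⟨y, hy, M.mem_closure_of_mem' ?_ (hS.subset_ground (Finset.mem_coe.2 hy))⟩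
        rcases (hmem y).1 ⟨hS.subset_ground (Finset.mem_coe.2 hy), hyT⟩ with rfl | rfl
        · simp
        · simp
    · -- DiscA
      have hxe : x ≠ e := by
        rintro rfl
        exact hex ((closN M f x x).2 ⟨M.mem_closure_of_mem' (by simp) he.1, hef⟩)
      have hxT' : x ∈ M.closure (T : Set α) := by
        by_contra h
        rcases (hmem x).1 ⟨hxE, h⟩ with h' | h'
        · exact hxe h'
        · exact hfx h'.symm
      have hkey : ∀ y, y ∈ M.closure (T : Set α) → y ∈ (M ／ {f}).closure {x} →
          y ∈ M.closure {x} := by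
        intro y hyT hyx
        by_contra hno
        have h1 : y ∈ M.closure (insert f {x}) := ((closN M f x y).1 hyx).1
        have h2 : f ∈ M.closure (insert y {x}) := M.mem_closure_insert hno h1
        apply hf.2
        refine clos_sub M _ _ ?_ h2
        intro z hz
        rcases hz with rfl | hz
        · exact hyT
        · rw [Set.mem_singleton_iff] at hz
          rw [hz]; exact hxT'
      apply hdA
      refine ⟨x, hxn, fun S hS hS4 => ?_⟩
      by_cases hfS : f ∈ S
      · have hS' : (M ／ {f}).Indep ((S.erase f : Finset α) : Set α) := by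
          refine (c1 _).2 ⟨Finset.notMem_erase f S, ?_⟩
          rw [Finset.insert_erase hfS]
          exact hS
        obtain ⟨y, hy, hyx⟩ := hxT _ hS' (by rw [Finset.card_erase_of_mem hfS, hS4])
        have hyS := Finset.mem_of_mem_erase hy
        have hyf : y ≠ f := Finset.ne_of_mem_erase hy
        refine ⟨y, hyS, hkey y ?_ hyx⟩
        by_contra h
        rcases (hmem y).1 ⟨hS.subset_ground (Finset.mem_coe.2 hyS), h⟩ with h' | h'
        · exact hex (h' ▸ hyx)
        · exact hyf h'
      · have heS : e ∈ S := (hfour S hS hS4).resolve_right hfS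
        have hall : ∀ y ∈ S.erase e, y ∈ M.closure (T : Set α) := by
          intro y hy
          have hyS := Finset.mem_of_mem_erase hy
          by_contra h
          rcases (hmem y).1 ⟨hS.subset_ground (Finset.mem_coe.2 hyS), h⟩ with h' | h'
          · exact Finset.ne_of_mem_erase hy h'
          · exact hfS (h' ▸ hyS)
        have hS'' : M.Indep ((S.erase e : Finset α) : Set α) :=
          hS.subset (by intro y hy; exact Finset.mem_of_mem_erase (Finset.mem_coe.1 hy))
        obtain ⟨y, hy, hyx⟩ := hxT _ (hinN _ hS'' hall)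
          (by rw [Finset.card_erase_of_mem heS, hS4])
        exact ⟨y, Finset.mem_of_mem_erase hy, hkey y (hall y hy) hyx⟩
  · -- the counts
    obtain ⟨a, ha0, ha, ha1, haN, hab⟩ := h_SER α M T e f hT hef hefi hF
    obtain ⟨-, -, -, -, o5, -⟩ := h_OUT α (M ／ {f})
    obtain ⟨q1, -, -, -, -, -⟩ := h_OUT α (M ／ {f} ／ {e})
    have hm : cnt (M ／ {f} ／ {e}) 1 = out (M ／ {f}) {e} := o5 e henN
    have h4 := hab 4 (by omega)
    have n0 : cnt (M ／ {f}) 1 = a 1 + cnt (M ／ {f} ／ {e}) 0 := haN 0
    have n1 : cnt (M ／ {f}) 2 = a 2 + cnt (M ／ {f} ／ {e}) 1 := haN 1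
    have n2 : cnt (M ／ {f}) 3 = a 3 + cnt (M ／ {f} ／ {e}) 2 := haN 2
    have m0 : cnt M 2 = a 2 + 2 * a 1 + cnt (M ／ {f} ／ {e}) 0 := ha 0
    have m1 : cnt M 3 = a 3 + 2 * a 2 + cnt (M ／ {f} ／ {e}) 1 := ha 1
    have m2 : cnt M 4 = a 4 + 2 * a 3 + cnt (M ／ {f} ／ {e}) 2 := ha 2
    rw [hm] at n1 m1
    rw [q1] at n0 m0
    refine ⟨?_, ?_, ?_, ?_⟩ <;> omega

end Pool.Agent.RLM
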