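import Pool.Agent.RLM.Targets3
import Pool.Agent.RLM.P_BAD

set_option autoImplicit false

/-!
# RLM, target T33: the exceptional type
-/

open scoped Classical Matroid

noncomputable section

namespace Pool.Agent.RLM

namespace T33_

open BAD_

/-- Three elements of a basis are independent together with a given nonloop. -/
theorem exch {α : Type} [Fintype α] [DecidableEq α] (M : Matroid α) (hM : HasRk M 4) (p : α)
    (hp : M.IsNonloop p) (T : Finset α) (hT : M.Indep (T : Set α)) (hc : T.card = 4) :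
    ∃ T' : Finset α, T' ⊆ T ∧ p ∉ T' ∧ T'.card = 3 ∧
      M.Indep ((insert p T' : Finset α) : Set α) := by
  have hE : ((insert p T : Finset α) : Set α) ⊆ M.E := by
    rw [Finset.coe_insert, Set.insert_subset_iff]
    exact ⟨hp.mem_ground, hT.subset_ground⟩
  have hpI : M.Indep {p} := Matroid.indep_singleton.2 hp
  obtain ⟨B, hB, hpB⟩ := hpI.subset_isBasis_of_subset
    (show ({p} : Set α) ⊆ ((insert p T : Finset α) : Set α) by simp) hE
  obtain ⟨B2, hB2, hTB⟩ := hT.subset_isBasis_of_subset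
    (show (T : Set α) ⊆ ((insert p T : Finset α) : Set α) by simp) hE
  have hcard : B.encard = B2.encard := hB.encard_eq_encard hB2
  have h4 : ((4 : ℕ) : ℕ∞) ≤ B.encard := by
    rw [hcard, ← hc, ← Set.encard_coe_eq_coe_finsetCard]
    exact Set.encard_le_encard hTB
  obtain ⟨Bf, hBf⟩ : ∃ Bf : Finset α, (Bf : Set α) = B := ⟨B.toFinset, by simp⟩
  have hI : M.Indep (Bf : Set α) := by
    rw [hBf]
    exact hB.indep
  have hle := hM.2 Bf hI
  have hge : 4 ≤ Bf.card := by
    rw [← hBf, Set.encard_coe_eq_coe_finsetCard] at h4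
    exact_mod_cast h4
  have hpm : p ∈ Bf := by
    rw [← Finset.mem_coe, hBf]
    exact hpB rfl
  refine ⟨Bf.erase p, ?_, Finset.notMem_erase _ _, ?_, ?_⟩
  · intro x hx
    obtain ⟨h1, h2⟩ := Finset.mem_erase.1 hx
    have h3 : x ∈ B := by rw [← hBf]; exact h2
    have h5 : x ∈ ((insert p T : Finset α) : Set α) := hB.subset h3
    rw [Finset.mem_coe, Finset.mem_insert] at h5
    exact h5.resolve_left h1
  · rw [Finset.card_erase_of_mem hpm]
    omega
  · rw [Finset.insert_erase hpm]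
    exact hI

theorem cls_disj {α : Type} [Fintype α] [DecidableEq α] (h_PAR : T_PAR) (N : Matroid α) (x y : α)
    (hx : N.IsNonloop x) (hy : N.IsNonloop y) (h : y ∉ N.closure {x}) :
    Disjoint (cls N x) (cls N y) := by
  obtain ⟨hcl, -, -, -, -⟩ := h_PAR α N
  rw [Finset.disjoint_left]
  intro z hz hz'
  have h1 := (Finset.mem_filter.1 hz).2
  have h2 := (Finset.mem_filter.1 hz').2
  have h3 := hcl x z hx h1.1 h1.2
  have h4 := hcl y z hy h2.1 h2.2
  rw [← h3, h4] at h
  exact h (Matroid.mem_closure_of_mem' N rfl hy.mem_ground)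

end T33_

open BAD_ T33_

theorem p_T33 (h_D3 : T_D3) (h_ND2 : T_ND2) (h_LC2 : T_LC2) (h_OUT : T_OUT) (h_CTR : T_CTR)
    (h_PAR : T_PAR) : T_T33 := by
  intro α _ _ M p a hM hE hA hB hLS hV
  have hp : M.IsNonloop p := Matroid.indep_singleton.1 (hLS.2.1.subset (by simp))
  obtain ⟨-, hrk, hext⟩ := h_CTR α M p hp
  have HN : HasRk (M ／ {p}) 3 := hrk 3 hM
  have HE : Ext (M ／ {p}) 3 3 := hext 3 3 hE
  have haN : (M ／ {p}).IsNonloop a := (nlN M p a hp).2 ⟨hLS.1, hLS.2.1⟩
  have hD := h_D3 α (M ／ {p}) a HN HE haN (fun T hT hc => by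
    obtain ⟨hpT, hI⟩ := (indepN M p hp T).1 hT
    obtain ⟨x, hx, hxa⟩ := hLS.2.2 T hpT hI hc
    refine ⟨x, hx, (closN M p a x).2 ⟨hxa, ?_⟩⟩
    rintro rfl
    exact hpT hx)
  rcases hD with h0 | ⟨-, hca, hoa, hc2, -⟩
  · exact absurd hV (not_lt.2 h0)
  obtain ⟨hPcl, hPpair, hPsum, -, hP2⟩ := h_PAR α (M ／ {p})
  obtain ⟨-, hO1, hO2, -, -, -⟩ := h_OUT α (M ／ {p})
  obtain ⟨-, -, -, hOM, hOM1, -⟩ := h_OUT α M
  have hn9 : cnt (M ／ {p}) 1 = 9 := by
    have := hPsum a haN
    omega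
  have hnl9 : (nl (M ／ {p})).card = 9 := by rw [← hO2, hn9]
  have hmnl : ∀ x, x ∈ nl (M ／ {p}) ↔ (M ／ {p}).IsNonloop x := fun x => by
    simp [nl]
  -- sizes of classes
  have hle3 : ∀ f, (M ／ {p}).IsNonloop f → (cls (M ／ {p}) f).card ≤ 3 := by
    intro f hf
    by_cases hfa : f ∈ (M ／ {p}).closure {a}
    · have h1 := hPcl a f haN hf hfa
      have h2 : cls (M ／ {p}) f = cls (M ／ {p}) a := by
        unfold cls
        rw [h1]
      rw [h2, hca]
    · obtain ⟨haf, hIaf⟩ := (hPpair a f haN hf).1 hfa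
      have h1 : 3 ≤ out (M ／ {p}) {a, f} := by
        refine HE {a, f} ?_ ?_
        · rw [Finset.coe_insert, Finset.coe_singleton]
          exact hIaf
        · rw [Finset.card_pair haf]
      have hd := cls_disj h_PAR (M ／ {p}) a f haN hf hfa
      set O := Finset.univ.filter fun x => x ∈ (M ／ {p}).E ∧
        x ∉ (M ／ {p}).closure (({a, f} : Finset α) : Set α) with hO
      have hOc : O.card = out (M ／ {p}) {a, f} := rfl
      have hd2 : Disjoint (cls (M ／ {p}) a ∪ cls (M ／ {p}) f) O := by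
        rw [Finset.disjoint_left]
        intro z hz hz'
        have h2 := (Finset.mem_filter.1 hz').2.2
        apply h2
        rcases Finset.mem_union.1 hz with h3 | h3
        · exact (M ／ {p}).closure_subset_closure (by simp) (Finset.mem_filter.1 h3).2.2
        · exact (M ／ {p}).closure_subset_closure (by simp) (Finset.mem_filter.1 h3).2.2
      have hsub : (cls (M ／ {p}) a ∪ cls (M ／ {p}) f) ∪ O ⊆ nl (M ／ {p}) := by
        intro z hz
        rw [hmnl]
        rcases Finset.mem_union.1 hz with h3 | h3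
        · rcases Finset.mem_union.1 h3 with h3 | h3
          · exact (Finset.mem_filter.1 h3).2.1
          · exact (Finset.mem_filter.1 h3).2.1
        · obtain ⟨h4, h5⟩ := (Finset.mem_filter.1 h3).2
          exact Matroid.isNonloop_of_notMem_closure h5 h4
      have h6 := Finset.card_le_card hsub
      rw [Finset.card_union_of_disjoint hd2, Finset.card_union_of_disjoint hd, hnl9, hca, hOc] at h6
      omega
  have hge6 : ∀ e ∈ nl (M ／ {p}), 6 ≤ out (M ／ {p}) {e} := by
    intro e he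
    have h1 := hPsum e ((hmnl e).1 he)
    have h2 := hle3 e ((hmnl e).1 he)
    omega
  have heq6 : ∀ e ∈ nl (M ／ {p}), 6 = out (M ／ {p}) {e} := by
    refine (Finset.sum_eq_sum_iff_of_le hge6).1 ?_
    rw [← hP2, hc2, Finset.sum_const, hnl9]
    rfl
  have hc3 : ∀ f, (M ／ {p}).IsNonloop f → (cls (M ／ {p}) f).card = 3 := by
    intro f hf
    have h1 := hPsum f hf
    have h2 := heq6 f ((hmnl f).2 hf)
    omega
  refine ⟨by rw [← hOM1 p hp, hn9], fun f hf hfp => ?_⟩
  obtain ⟨hMcl, hMpair, -, -, -⟩ := h_PAR α M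
  obtain ⟨hpf, hIpf⟩ := (hMpair p f hp hf).1 hfp
  have hfN : (M ／ {p}).IsNonloop f := (nlN M p f hp).2 ⟨hpf, hIpf⟩
  have hLSf : LS M p f := by
    refine ⟨hpf, hIpf, fun T hpT hI hc => ?_⟩
    have hTN : (M ／ {p}).Indep (T : Set α) := (indepN M p hp T).2 ⟨hpT, hI⟩
    have hnlT : ∀ x ∈ T, (M ／ {p}).IsNonloop x := fun x hx =>
      Matroid.indep_singleton.1 (hTN.subset (by simpa using hx))
    have hcard : (T.biUnion (cls (M ／ {p}))).card = 9 := by
      rw [Finset.card_biUnion]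
      · rw [Finset.sum_congr rfl fun x hx => hc3 x (hnlT x hx), Finset.sum_const, hc]
        rfl
      · intro x hx y hy hxy
        refine cls_disj h_PAR (M ／ {p}) x y (hnlT x hx) (hnlT y hy) ?_
        refine (hPpair x y (hnlT x hx) (hnlT y hy)).2 ⟨hxy, hTN.subset ?_⟩
        intro z hz
        rcases hz with rfl | hz
        · exact hx
        · rw [Set.mem_singleton_iff.1 hz]
          exact hy
    have hsub : T.biUnion (cls (M ／ {p})) ⊆ nl (M ／ {p}) := by
      intro z hz
      obtain ⟨x, -, hx⟩ := Finset.mem_biUnion.1 hz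
      rw [hmnl]
      exact (Finset.mem_filter.1 hx).2.1
    have heq := Finset.eq_of_subset_of_card_le hsub (by rw [hcard, hnl9])
    have hfm : f ∈ T.biUnion (cls (M ／ {p})) := by
      rw [heq, hmnl]
      exact hfN
    obtain ⟨x, hx, hfx⟩ := Finset.mem_biUnion.1 hfm
    have h1 := (Finset.mem_filter.1 hfx).2
    have h2 := hPcl x f (hnlT x hx) h1.1 h1.2
    refine ⟨x, hx, ((closN M p f x).1 ?_).1⟩
    rw [h2]
    exact Matroid.mem_closure_of_mem' _ rfl (hnlT x hx).mem_ground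
  have hfpf : f ∈ M.closure {p, f} := Matroid.mem_closure_of_mem' _ (by simp) hf.mem_ground
  have hgood := h_ND2 α M p f f hM hA hB hLSf hf hfpf hfp
  refine ⟨hgood, ?_⟩
  obtain ⟨-, hrk', hext'⟩ := h_CTR α M f hf
  have HN' : HasRk (M ／ {f}) 3 := hrk' 3 hM
  have hout6 : out (M ／ {f}) {p} = 6 := by
    have h1 := hOM f {p} hf.mem_ground
    have h2 := hOM p {f} hp.mem_ground
    rw [h1, heq6 f ((hmnl f).2 hfN), h2, Finset.pair_comm]
  have hex : ∃ x y : α, x ≠ y ∧ (M ／ {f}).Indep {x, y} := by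
    obtain ⟨⟨T, hT, hc⟩, -⟩ := HN'
    obtain ⟨x, hx, y, hy, hxy⟩ := Finset.one_lt_card.1 (show 1 < T.card by omega)
    refine ⟨x, y, hxy, hT.subset ?_⟩
    intro z hz
    rcases hz with rfl | hz
    · exact hx
    · rw [Set.mem_singleton_iff.1 hz]
      exact hy
  have hIfp : M.Indep {f, p} := by
    rw [Set.pair_comm]
    exact hIpf
  have hpN' : (M ／ {f}).IsNonloop p := (nlN M f p hf).2 ⟨hpf.symm, hIfp⟩
  have hLC := h_LC2 α (M ／ {f}) p hex (hext' 3 3 hE) hgood hpN'
  -- one more element in the class of `p`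
  obtain ⟨f', hf'n, hf'1, hf'2, hf'3⟩ : ∃ f', M.IsNonloop f' ∧ f' ∈ M.closure {p, f} ∧
      f' ∉ M.closure {p} ∧ f' ∉ M.closure {f} := by
    by_contra hno
    push Not at hno
    refine hA ⟨f, hf, fun T hT hc => ?_⟩
    obtain ⟨T', hT'T, hpT', hc', hI'⟩ := exch M hM p hp T hT hc
    obtain ⟨x, hx, hxpf⟩ := hLSf.2.2 T' hpT' hI' hc'
    have hxn : M.IsNonloop x :=
      Matroid.indep_singleton.1 (hT.subset (by simpa using hT'T hx))
    refine ⟨x, hT'T hx, hno x hxn hxpf ?_⟩
    refine (hMpair p x hp hxn).2 ⟨?_, hI'.subset ?_⟩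
    · rintro rfl
      exact hpT' hx
    · intro z hz
      rw [Finset.coe_insert]
      rcases hz with rfl | hz
      · exact Set.mem_insert _ _
      · rw [Set.mem_singleton_iff.1 hz]
        exact Set.mem_insert_of_mem _ hx
  have hclsub : insert f' (cls M p) ⊆ cls (M ／ {f}) p := by
    intro y hy
    rcases Finset.mem_insert.1 hy with rfl | hy
    · obtain ⟨h1, h2⟩ := (hMpair f y hf hf'n).1 hf'3
      refine Finset.mem_filter.2 ⟨Finset.mem_univ _, (nlN M f y hf).2 ⟨h1, h2⟩,
        (closN M f p y).2 ⟨?_, h1.symm⟩⟩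
      rw [Set.pair_comm]
      exact hf'1
    · obtain ⟨h1, h2⟩ := (Finset.mem_filter.1 hy).2
      have h3 := hMcl p y hp h1 h2
      have h4 : f ∉ M.closure {y} := by
        rw [h3]
        exact hfp
      obtain ⟨h5, h6⟩ := (hMpair y f h1 hf).1 h4
      refine Finset.mem_filter.2 ⟨Finset.mem_univ _, (nlN M f y hf).2 ⟨h5.symm, ?_⟩,
        (closN M f p y).2 ⟨M.closure_subset_closure (by simp) h2, h5⟩⟩
      rw [Set.pair_comm]
      exact h6
  have hnot : f' ∉ cls M p := fun h => hf'2 (Finset.mem_filter.1 h).2.2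
  have hcc := Finset.card_le_card hclsub
  rw [Finset.card_insert_of_notMem hnot] at hcc
  rw [hout6] at hLC
  have hcc' : ((cls M p).card : ℤ) + 1 ≤ ((cls (M ／ {f}) p).card : ℤ) := by exact_mod_cast hcc
  push_cast at hLC
  linarith

end Pool.Agent.RLM
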