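import Pool.Agent.RLM.P_OUT
import Pool.Agent.RLM.P_CTR
import Pool.Agent.RLM.P_DEL
import Pool.Agent.RLM.P_PAR
import Pool.Agent.RLM.P_HS
import Pool.Agent.RLM.P_SER
import Pool.Agent.RLM.P_BAD
import Pool.Agent.RLM.P_R2
import Pool.Agent.RLM.P_CB
import Pool.Agent.RLM.P_H2
import Pool.Agent.RLM.P_NC3
import Pool.Agent.RLM.P_C3
import Pool.Agent.RLM.P_R3N
import Pool.Agent.RLM.P_R3C
import Pool.Agent.RLM.P_D3
import Pool.Agent.RLM.P_LC2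
import Pool.Agent.RLM.P_ND2
import Pool.Agent.RLM.P_ND3
import Pool.Agent.RLM.P_T33
import Pool.Agent.RLM.P_SIX
import Pool.Agent.RLM.P_LC
import Pool.Agent.RLM.P_LA
import Pool.Agent.RLM.P_SR
import Pool.Agent.RLM.P_ALG
import Pool.Agent.RLM.P_K0
import Pool.Agent.RLM.P_M4C
import Pool.Agent.RLM.P_M4S
import Pool.Agent.RLM.P_HW3
import Pool.Agent.RLM.P_HW4
import Pool.Agent.RLM.P_PRD
import Pool.Agent.RLM.P_SEP
import Pool.Agent.RLM.P_CRC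
import Pool.Agent.RLM.P_M3
import Pool.Agent.RLM.P_M4
import Pool.Agent.RLM.P_ALL
import Pool.Agent.RLM.P_FIN

set_option autoImplicit false

/-!
# RLM: assembly of all targets
-/

namespace Pool.Agent.RLM

theorem q_OUT : T_OUT := p_OUT

theorem q_CTR : T_CTR := p_CTR

theorem q_DEL : T_DEL := p_DEL

theorem q_HS : T_HS := p_HS q_CTR

theorem q_SER : T_SER := p_SER q_CTR

theorem q_BAD : T_BAD := p_BAD

theorem q_ND2 : T_ND2 := p_ND2 q_BAD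

theorem q_ND3 : T_ND3 := p_ND3 q_BAD q_ND2

theorem q_SIX : T_SIX := p_SIX q_ND2 q_ND3 q_BAD

theorem q_ALG : T_ALG := p_ALG

theorem q_K0 : T_K0 := p_K0 q_OUT q_CTR q_DEL q_SER

theorem q_HW3 : T_HW3 := p_HW3

theorem q_HW4 : T_HW4 := p_HW4

theorem q_PRD : T_PRD := p_PRD

theorem q_SEP : T_SEP := p_SEP

theorem q_CRC : T_CRC := p_CRC q_OUT

theorem q_PAR : T_PAR := p_PAR q_OUT q_HS

theorem q_R2 : T_R2 := p_R2 q_PAR q_OUT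

theorem q_CB : T_CB := p_CB q_OUT q_CTR q_HS q_R2 q_PAR

theorem q_H2 : T_H2 := p_H2 q_PAR q_OUT

theorem q_NC3 : T_NC3 := p_NC3 q_SER q_OUT q_PAR

theorem q_C3 : T_C3 := p_C3 q_CB q_H2 q_NC3

theorem q_R3N : T_R3N := p_R3N q_SER q_OUT q_PAR q_NC3

theorem q_R3C : T_R3C := p_R3C q_OUT q_CTR q_PAR q_R2 q_CB

theorem q_D3 : T_D3 := p_D3 q_OUT q_CTR q_R2 q_PAR

theorem q_LC2 : T_LC2 := p_LC2 q_CB q_PAR q_OUT

theorem q_T33 : T_T33 := p_T33 q_D3 q_ND2 q_LC2 q_OUT q_CTR q_PAR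

theorem q_LC : T_LC := p_LC q_CB q_LC2 q_PAR q_OUT q_HS q_CTR

theorem q_LA : T_LA := p_LA q_SIX q_T33 q_LC q_D3 q_BAD q_HS q_CTR q_OUT q_PAR

theorem q_SR : T_SR := p_SR q_SER q_OUT q_CTR q_PAR

theorem q_M4C : T_M4C := p_M4C q_LA q_ALG q_K0 q_HS q_CTR q_H2 q_OUT q_PAR

theorem q_M4S : T_M4S := p_M4S q_SR q_R3C q_R3N q_C3 q_ALG q_K0 q_HS q_CTR q_H2 q_OUT

theorem q_M3 : T_M3 := p_M3 q_CRC q_C3 q_H2 q_K0 q_HW3 q_OUT

theorem q_M4 : T_M4 := p_M4 q_CRC q_M4C q_M4S q_HW4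

theorem q_ALL : T_ALL := p_ALL q_M3 q_M4 q_SEP q_PRD q_HW3 q_K0 q_H2 q_OUT

theorem q_FIN : T_FIN := p_FIN q_ALL

end Pool.Agent.RLM
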