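import Mathlib

set_option autoImplicit false

/-!
# RLM: reliability roots of matroids of rank at most four, definitions

Project RLM (MP_a27c8d_co, lower bound `5 ≤ r_min`). All matroids are on a finite type; loops are
allowed. Paper proof: `Pool/Agent/RLM/Blueprint.md`.
-/

open scoped Classical Matroid

noncomputable section

namespace Pool.Agent.RLM

/-- The number of independent sets with `k` elements. -/
def cnt {α : Type} [Fintype α] (M : Matroid α) (k : ℕ) : ℕ :=
  (Finset.univ.filter fun A : Finset α => M.Indep (A : Set α) ∧ A.card = k).card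

/-- The number of elements of the ground set outside the closure of `X`. -/
def out {α : Type} [Fintype α] (M : Matroid α) (X : Finset α) : ℕ :=
  (Finset.univ.filter fun x => x ∈ M.E ∧ x ∉ M.closure (X : Set α)).card

/-- The nonloops. -/
def nl {α : Type} [Fintype α] (M : Matroid α) : Finset α :=
  Finset.univ.filter fun x => M.IsNonloop x

/-- The parallel class of `x` (all nonloops in the closure of `x`). -/
def cls {α : Type} [Fintype α] (M : Matroid α) (x : α) : Finset α :=
  Finset.univ.filter fun y => M.IsNonloop y ∧ y ∈ M.closure {x}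

/-- The rank is `r`. -/
def HasRk {α : Type} (M : Matroid α) (r : ℕ) : Prop :=
  (∃ T : Finset α, M.Indep (T : Set α) ∧ T.card = r) ∧
    ∀ T : Finset α, M.Indep (T : Set α) → T.card ≤ r

/-- Every independent set with `r - 1` elements has at least `s` elements outside its closure.
(`r` = rank: `s = 2` means no coloops, `s = 3` means cosimple.) -/
def Ext {α : Type} [Fintype α] (M : Matroid α) (r s : ℕ) : Prop :=
  ∀ T : Finset α, M.Indep (T : Set α) → T.card + 1 = r → s ≤ out M T

/-- Some parallel class meets every independent set with `r` elements (for rank `r`: the class is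
a separator). -/
def DiscA {α : Type} (M : Matroid α) (r : ℕ) : Prop :=
  ∃ a, M.IsNonloop a ∧ ∀ T : Finset α, M.Indep (T : Set α) → T.card = r →
    ∃ x ∈ T, x ∈ M.closure {a}

/-- Some line meets every independent triple (for rank four: the line is a separator). -/
def DiscB {α : Type} (M : Matroid α) : Prop :=
  ∃ a b, a ≠ b ∧ M.Indep {a, b} ∧ ∀ T : Finset α, M.Indep (T : Set α) → T.card = 3 →
    ∃ x ∈ T, x ∈ M.closure {a, b}

/-- The quantity `3 F₃ - 4 F₂ + 24`. -/
def VV {α : Type} [Fintype α] (M : Matroid α) : ℤ := 3 * (cnt M 3 : ℤ) - 4 * (cnt M 2 : ℤ) + 24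

/-- The independence polynomial up to degree four. -/
def IP {α : Type} [Fintype α] (M : Matroid α) (t : ℂ) : ℂ :=
  1 + (cnt M 1 : ℂ) * t + (cnt M 2 : ℂ) * t ^ 2 + (cnt M 3 : ℂ) * t ^ 3 + (cnt M 4 : ℂ) * t ^ 4

/-- No root `t ≠ -1` of the independence polynomial with `Re t < -1/2`. -/
def St {α : Type} [Fintype α] (M : Matroid α) : Prop :=
  ∀ t : ℂ, t.re < -1 / 2 → t ≠ -1 → IP M t ≠ 0

end Pool.Agent.RLM
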