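import Pool.Agent.RLM.Targets4

set_option autoImplicit false

/-!
# RLM: the circuit case (T_CRC)
-/

open scoped Classical Matroid

noncomputable section

namespace Pool.Agent.RLM

namespace CRC_

/-- A zero of `(1 + t)^m = t^m` lies on the line `Re t = -1/2`. -/
lemma re_eq (m : ℕ) (hm : m ≠ 0) (t : ℂ) (h : (1 + t) ^ m = t ^ m) : t.re = -1 / 2 := by
  have h1 : ‖1 + t‖ ^ m = ‖t‖ ^ m := by rw [← norm_pow, ← norm_pow, h]
  have h2 : ‖1 + t‖ = ‖t‖ :=
    (pow_left_inj₀ (norm_nonneg _) (norm_nonneg _) hm).1 h1
  have h3 : Complex.normSq (1 + t) = Complex.normSq t := by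
    rw [Complex.normSq_eq_norm_sq, Complex.normSq_eq_norm_sq, h2]
  rw [Complex.normSq_apply, Complex.normSq_apply] at h3
  simp only [Complex.add_re, Complex.one_re, Complex.add_im, Complex.one_im, zero_add] at h3
  nlinarith [h3]

/-- Elements of independent sets are nonloops. -/
lemma sub_nl {α : Type} [Fintype α] (M : Matroid α) (A : Finset α) (hA : M.Indep (A : Set α)) :
    A ⊆ nl M := by
  intro x hx
  simp only [nl, Finset.mem_filter, Finset.mem_univ, true_and]
  exact hA.isNonloop_of_mem (by exact_mod_cast hx)

/-- If all proper subsets of the nonloops, but not the whole, are the independent sets. -/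
lemma cnt_eq {α : Type} [Fintype α] [DecidableEq α] (M : Matroid α) (k : ℕ)
    (h : ∀ A : Finset α, A ⊆ nl M → A.card = k → M.Indep (A : Set α)) :
    cnt M k = (nl M).card.choose k := by
  rw [← Finset.card_powersetCard]
  unfold cnt
  congr 1
  ext A
  simp only [Finset.mem_filter, Finset.mem_univ, true_and, Finset.mem_powersetCard]
  constructor
  · rintro ⟨h1, h2⟩
    exact ⟨sub_nl M A h1, h2⟩
  · rintro ⟨h1, h2⟩
    exact ⟨h A h1 h2, h2⟩

/-- The structure: `r + 1` nonloops, all their proper subsets are independent. -/
lemma structure_ (h_OUT : T_OUT) {α : Type} [Fintype α] [DecidableEq α] (M : Matroid α) (r : ℕ)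
    (hr : 1 ≤ r) (hR : HasRk M r) (hE : Ext M r 2) (hn : cnt M 1 ≤ r + 1) :
    (nl M).card = r + 1 ∧
      ∀ A : Finset α, A ⊆ nl M → A.card ≤ r → M.Indep (A : Set α) := by
  obtain ⟨-, -, hc, -, -, hout⟩ := h_OUT α M
  obtain ⟨⟨B, hB, hBr⟩, hmax⟩ := hR
  have hBN : B ⊆ nl M := sub_nl M B hB
  have hN : (nl M).card ≤ r + 1 := by rw [← hc]; exact hn
  -- for every `b ∈ B`, everything outside `B.erase b` extends it
  have key : ∀ b ∈ B, (nl M).card = r + 1 ∧ ∀ x ∈ nl M, x ∉ B.erase b →
      M.Indep ((insert x (B.erase b) : Finset α) : Set α) := by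
    intro b hb
    have hT : M.Indep ((B.erase b : Finset α) : Set α) :=
      hB.subset (by exact_mod_cast Finset.erase_subset b B)
    have hTc : (B.erase b).card + 1 = r := by
      rw [Finset.card_erase_of_mem hb, hBr]; omega
    have h2 : 2 ≤ out M (B.erase b) := hE _ hT hTc
    rw [hout _ hT] at h2
    have hsub : (Finset.univ.filter fun x => x ∉ B.erase b ∧
        M.Indep ((insert x (B.erase b) : Finset α) : Set α)) ⊆ nl M \ B.erase b := by
      intro x hx
      simp only [Finset.mem_filter, Finset.mem_univ, true_and] at hx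
      rw [Finset.mem_sdiff]
      exact ⟨sub_nl M _ hx.2 (Finset.mem_insert_self _ _), hx.1⟩
    have hTN : B.erase b ⊆ nl M := (Finset.erase_subset b B).trans hBN
    have hcard : (nl M \ B.erase b).card = (nl M).card - (B.erase b).card :=
      Finset.card_sdiff_of_subset hTN
    have hle := Finset.card_le_card hsub
    have heq : (Finset.univ.filter fun x => x ∉ B.erase b ∧
        M.Indep ((insert x (B.erase b) : Finset α) : Set α)) = nl M \ B.erase b := by
      apply Finset.eq_of_subset_of_card_le hsub
      omega
    refine ⟨by omega, fun x hx hxT => ?_⟩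
    have : x ∈ nl M \ B.erase b := Finset.mem_sdiff.2 ⟨hx, hxT⟩
    rw [← heq] at this
    simp only [Finset.mem_filter, Finset.mem_univ, true_and] at this
    exact this.2
  have hBne : B.Nonempty := by
    rw [← Finset.card_pos, hBr]; omega
  obtain ⟨b0, hb0⟩ := hBne
  have hcN : (nl M).card = r + 1 := (key b0 hb0).1
  refine ⟨hcN, fun A hA hAc => ?_⟩
  -- `A` misses an element `z` of the nonloops
  obtain ⟨z, hz, hzA⟩ : ∃ z ∈ nl M, z ∉ A := by
    by_contra hcon
    push Not at hcon
    have : nl M ⊆ A := fun z hz => hcon z hz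
    have := Finset.card_le_card this
    omega
  by_cases hzB : z ∈ B
  · -- the unique element outside `B`
    have hx : ∃ x ∈ nl M, x ∉ B := by
      by_contra hcon
      push Not at hcon
      have : nl M ⊆ B := fun z hz => hcon z hz
      have := Finset.card_le_card this
      omega
    obtain ⟨x, hxN, hxB⟩ := hx
    have hxT : x ∉ B.erase z := fun h => hxB (Finset.mem_of_mem_erase h)
    have hI := (key z hzB).2 x hxN hxT
    apply hI.subset
    have hNeq : nl M = insert x B := by
      symm
      apply Finset.eq_of_subset_of_card_le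
      · intro y hy
        rcases Finset.mem_insert.1 hy with rfl | hy
        · exact hxN
        · exact hBN hy
      · rw [Finset.card_insert_of_notMem hxB]; omega
    have hsub : A ⊆ insert x (B.erase z) := by
      intro y hy
      have hyN := hA hy
      rw [hNeq, Finset.mem_insert] at hyN
      rw [Finset.mem_insert, Finset.mem_erase]
      rcases hyN with h | h
      · exact Or.inl h
      · exact Or.inr ⟨fun h' => hzA (h' ▸ hy), h⟩
    exact_mod_cast hsub
  · have hNeq : nl M = insert z B := by
      symm
      apply Finset.eq_of_subset_of_card_le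
      · intro y hy
        rcases Finset.mem_insert.1 hy with rfl | hy
        · exact hz
        · exact hBN hy
      · rw [Finset.card_insert_of_notMem hzB]; omega
    apply hB.subset
    have hsub : A ⊆ B := by
      intro y hy
      have hyN := hA hy
      rw [hNeq, Finset.mem_insert] at hyN
      rcases hyN with h | h
      · exact absurd hy (h ▸ hzA)
      · exact h
    exact_mod_cast hsub

lemma cnt_zero {α : Type} [Fintype α] (M : Matroid α) (r k : ℕ) (hR : HasRk M r) (hk : r < k) :
    cnt M k = 0 := by
  unfold cnt
  rw [Finset.card_eq_zero, Finset.filter_eq_empty_iff]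
  rintro A - ⟨h1, h2⟩
  have := hR.2 A h1
  omega

end CRC_

open CRC_

theorem p_CRC (h_OUT : T_OUT) : T_CRC := by
  intro α _ _ M r hr hR hE hn t ht _ h0
  obtain ⟨hc, hI⟩ := structure_ h_OUT M r (by omega) hR hE hn
  have hk : ∀ k, k ≤ r → cnt M k = (r + 1).choose k := by
    intro k hk
    rw [← hc]
    exact cnt_eq M k (fun A hA hAc => hI A hA (by omega))
  have hre : t.re = -1 / 2 := by
    rcases hr with rfl | rfl
    · have h1 := hk 1 (by norm_num)
      have h2 := hk 2 (by norm_num)
      have h3 := hk 3 (by norm_num)
      have h4 := cnt_zero M 3 4 hR (by norm_num)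
      have e1 : (3 + 1).choose 1 = 4 := by decide
      have e2 : (3 + 1).choose 2 = 6 := by decide
      have e3 : (3 + 1).choose 3 = 4 := by decide
      rw [e1] at h1
      rw [e2] at h2
      rw [e3] at h3
      unfold IP at h0
      rw [h1, h2, h3, h4] at h0
      push_cast at h0
      apply re_eq 4 (by norm_num) t
      linear_combination h0
    · have h1 := hk 1 (by norm_num)
      have h2 := hk 2 (by norm_num)
      have h3 := hk 3 (by norm_num)
      have h4 := hk 4 (by norm_num)
      have e1 : (4 + 1).choose 1 = 5 := by decide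
      have e2 : (4 + 1).choose 2 = 10 := by decide
      have e3 : (4 + 1).choose 3 = 10 := by decide
      have e4 : (4 + 1).choose 4 = 5 := by decide
      rw [e1] at h1
      rw [e2] at h2
      rw [e3] at h3
      rw [e4] at h4
      unfold IP at h0
      rw [h1, h2, h3, h4] at h0
      push_cast at h0
      apply re_eq 5 (by norm_num) t
      linear_combination h0
  linarith

end Pool.Agent.RLM
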