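import Pool.Agent.RLM.Targets2

set_option autoImplicit false

/-!
# RLM: LC2, a lower bound for `VV` from one class (helper21)
-/

open scoped Classical Matroid

noncomputable section

namespace Pool.Agent.RLM

namespace LC2_

variable {α : Type} [Fintype α] [DecidableEq α]

/-- A nonloop outside the class of `p` has at least `w + 3` elements outside its closure. -/
theorem out_ge (h_PAR : T_PAR) (M : Matroid α) (p f : α) (hE : Ext M 3 3)
    (hp : M.IsNonloop p) (hf : M.IsNonloop f) (hpf : f ∉ M.closure {p}) :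
    (cls M p).card + 3 ≤ out M {f} := by
  have hP := h_PAR α M
  obtain ⟨hne, hind⟩ := (hP.2.1 p f hp hf).1 hpf
  have h2 : 3 ≤ out M ({p, f} : Finset α) := by
    refine hE _ ?_ ?_
    · rw [Finset.coe_pair]
      exact hind
    · rw [Finset.card_pair hne]
  have hdis : Disjoint (cls M p)
      (Finset.univ.filter fun x => x ∈ M.E ∧ x ∉ M.closure ((({p, f} : Finset α)) : Set α)) := by
    rw [Finset.disjoint_left]
    intro x hx hx2
    rw [cls, Finset.mem_filter] at hx
    rw [Finset.mem_filter] at hx2
    refine hx2.2.2 (M.closure_subset_closure ?_ hx.2.2)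
    rw [Finset.coe_pair]
    exact Set.singleton_subset_iff.2 (Set.mem_insert _ _)
  calc (cls M p).card + 3 ≤ (cls M p).card + out M ({p, f} : Finset α) := by omega
    _ = (cls M p ∪ (Finset.univ.filter fun x =>
          x ∈ M.E ∧ x ∉ M.closure ((({p, f} : Finset α)) : Set α))).card := by
        rw [Finset.card_union_of_disjoint hdis, out]
    _ ≤ out M {f} := by
        refine Finset.card_le_card fun x hx => ?_
        rw [Finset.mem_filter]
        refine ⟨Finset.mem_univ _, ?_⟩
        rw [Finset.coe_singleton]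
        rcases Finset.mem_union.1 hx with hx | hx
        · rw [cls, Finset.mem_filter] at hx
          refine ⟨hx.2.1.mem_ground, fun hxf => ?_⟩
          have e1 := hP.1 f x hf hx.2.1 hxf
          have e2 := hP.1 p x hp hx.2.1 hx.2.2
          apply hpf
          rw [← e2, e1]
          exact M.mem_closure_of_mem (Set.mem_singleton f)
            (Set.singleton_subset_iff.2 hf.mem_ground)
        · rw [Finset.mem_filter] at hx
          refine ⟨hx.2.1, fun hxf => hx.2.2 (M.closure_subset_closure ?_ hxf)⟩
          rw [Finset.coe_pair]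
          exact Set.singleton_subset_iff.2 (Set.mem_insert_of_mem _ rfl)

theorem out_eq (h_PAR : T_PAR) (M : Matroid α) (p f : α)
    (hp : M.IsNonloop p) (hf : M.IsNonloop f) (hpf : f ∈ M.closure {p}) :
    out M {f} = out M {p} := by
  have e := (h_PAR α M).1 p f hp hf hpf
  rw [out, out, Finset.coe_singleton, Finset.coe_singleton, e]

omit [DecidableEq α] in
theorem cls_subset (M : Matroid α) (p : α) : cls M p ⊆ nl M := by
  intro x hx
  rw [cls, Finset.mem_filter] at hx
  rw [nl, Finset.mem_filter]
  exact ⟨Finset.mem_univ _, hx.2.1⟩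

/-- `2 F₂` split by the class of `p`. -/
theorem two_f2 (h_PAR : T_PAR) (h_OUT : T_OUT) (M : Matroid α) (p : α) (hp : M.IsNonloop p) :
    2 * cnt M 2 = (cls M p).card * out M {p} + ∑ f ∈ nl M \ cls M p, out M {f} ∧
      (nl M \ cls M p).card = out M {p} ∧ (cls M p).card + out M {p} = cnt M 1 := by
  have hP := h_PAR α M
  have hO := h_OUT α M
  have h3 := hP.2.2.1 p hp
  have h4 : (nl M \ cls M p).card = out M {p} := by
    have := Finset.card_sdiff_add_card_eq_card (cls_subset M p)
    have h5 := hO.2.2.1
    omega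
  refine ⟨?_, h4, h3⟩
  rw [hP.2.2.2.2, ← Finset.sum_sdiff (cls_subset M p), add_comm]
  congr 1
  rw [Finset.sum_congr rfl (g := fun _ => out M {p}), Finset.sum_const, smul_eq_mul]
  intro x hx
  rw [cls, Finset.mem_filter] at hx
  exact out_eq h_PAR M p x hp hx.2.1 hx.2.2

end LC2_

/-- LC2: a lower bound for `VV` from one class. -/
theorem p_LC2 (h_CB : T_CB) (h_PAR : T_PAR) (h_OUT : T_OUT) : T_LC2 := by
  intro α _ _ M p hxy hE hD hp
  have h1 := h_CB α M hxy hE hD
  obtain ⟨h2, h3, h4⟩ := LC2_.two_f2 h_PAR h_OUT M p hp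
  have h5 : (nl M \ cls M p).card * ((cls M p).card + 3) ≤
      ∑ f ∈ nl M \ cls M p, out M {f} := by
    rw [← smul_eq_mul, ← Finset.sum_const]
    refine Finset.sum_le_sum fun f hf => ?_
    rw [Finset.mem_sdiff, nl, Finset.mem_filter, cls, Finset.mem_filter] at hf
    refine LC2_.out_ge h_PAR M p f hE hp hf.1.2 fun h => hf.2 ⟨Finset.mem_univ _, hf.1.2, h⟩
  rw [h3] at h5
  rw [VV]
  zify at h1 h2 h4 h5
  nlinarith

end Pool.Agent.RLM
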