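import Pool.Agent.RLM.Targets1

set_option autoImplicit false

open scoped Classical Matroid

noncomputable section

namespace Pool.Agent.RLM

theorem OUT_nl_iff {α : Type} (M : Matroid α) (x : α) :
    M.IsNonloop x ↔ x ∈ M.E ∧ x ∉ M.closure (∅ : Set α) := by
  constructor
  · intro h
    refine ⟨h.mem_ground, fun hx => h.not_isLoop ?_⟩
    exact hx
  · rintro ⟨h1, h2⟩
    refine ⟨?_, h1⟩
    exact h2

theorem OUT_cnt_one {α : Type} [Fintype α] (M : Matroid α) : cnt M 1 = (nl M).card := by
  unfold cnt nl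
  symm
  refine Finset.card_bij (fun x _ => ({x} : Finset α)) ?_ ?_ ?_
  · intro x hx
    simp only [Finset.mem_filter, Finset.mem_univ, true_and] at hx ⊢
    refine ⟨?_, by simp⟩
    rw [Finset.coe_singleton]
    exact Matroid.indep_singleton.2 hx
  · intro x _ y _ h
    simpa using h
  · intro A hA
    simp only [Finset.mem_filter, Finset.mem_univ, true_and] at hA
    obtain ⟨x, rfl⟩ := Finset.card_eq_one.1 hA.2
    refine ⟨x, ?_, rfl⟩
    simp only [Finset.mem_filter, Finset.mem_univ, true_and]
    have := hA.1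
    rw [Finset.coe_singleton] at this
    exact Matroid.indep_singleton.1 this

theorem OUT_nl_card {α : Type} [Fintype α] (M : Matroid α) : (nl M).card = out M ∅ := by
  unfold nl out
  congr 1
  ext x
  simp only [Finset.mem_filter, Finset.mem_univ, true_and, Finset.coe_empty]
  exact OUT_nl_iff M x

theorem OUT_ctr {α : Type} [Fintype α] [DecidableEq α] (M : Matroid α) (e : α) (X : Finset α)
    (he : e ∈ M.E) : out (M ／ {e}) X = out M (insert e X) := by
  unfold out
  congr 1
  ext x
  simp only [Finset.mem_filter, Finset.mem_univ, true_and, Finset.coe_insert,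
    Matroid.contract_ground, Matroid.contract_closure_eq, Set.mem_sdiff, Set.mem_singleton_iff]
  have h1 : (X : Set α) ∪ {e} = insert e (X : Set α) := by
    rw [Set.union_comm]; rfl
  rw [h1]
  constructor
  · rintro ⟨⟨hx, hxe⟩, h⟩
    exact ⟨hx, fun hc => h ⟨hc, hxe⟩⟩
  · rintro ⟨hx, h⟩
    have hxe : x ≠ e := by
      rintro rfl
      exact h (Matroid.mem_closure_of_mem' M (Set.mem_insert _ _) he)
    exact ⟨⟨hx, hxe⟩, fun hc => h hc.1⟩

/-- Target `OUT`. -/
theorem p_OUT : T_OUT := by
  intro α _ _ M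
  refine ⟨?_, ?_, OUT_cnt_one M, OUT_ctr M, ?_, ?_⟩
  · unfold cnt
    rw [Finset.card_eq_one]
    refine ⟨∅, ?_⟩
    ext A
    simp only [Finset.mem_filter, Finset.mem_univ, true_and, Finset.mem_singleton,
      Finset.card_eq_zero]
    constructor
    · exact fun h => h.2
    · rintro rfl
      refine ⟨?_, rfl⟩
      rw [Finset.coe_empty]
      exact M.empty_indep
  · rw [OUT_cnt_one, OUT_nl_card]
  · intro e he
    rw [OUT_cnt_one, OUT_nl_card, OUT_ctr M e ∅ he.mem_ground]
    rfl
  · intro T hT
    unfold out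
    congr 1
    ext x
    simp only [Finset.mem_filter, Finset.mem_univ, true_and, Finset.coe_insert]
    constructor
    · rintro ⟨hx, h⟩
      have := (hT.notMem_closure_iff hx).1 h
      exact ⟨fun hc => this.2 (by exact_mod_cast hc), this.1⟩
    · rintro ⟨hx, h⟩
      have hxE : x ∈ M.E := h.subset_ground (Set.mem_insert _ _)
      exact ⟨hxE, (hT.notMem_closure_iff hxE).2 ⟨h, by exact_mod_cast hx⟩⟩

end Pool.Agent.RLM
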