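import Pool.Agent.RLM.Defs

set_option autoImplicit false

/-!
# RLM targets 1: counting toolbox

Every target has its proof in the docstring. `F_k = cnt M k`, `n = F_1`. Useful: for a nonloop `e`,
`(M ／ {e}).Indep A ↔ e ∉ A ∧ M.Indep (insert e A)` (`Matroid.IsNonloop.contractElem_indep_iff`),
`(M ／ {e}).closure X = M.closure (X ∪ {e}) \ {e}`, and for an independent `T` and `x ∈ M.E`:
`x ∉ M.closure T ↔ x ∉ T ∧ M.Indep (insert x T)`.
-/

open scoped Classical Matroid

noncomputable section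

namespace Pool.Agent.RLM

/-- OUT. Basic facts on `out` and `cnt`. PROOF. `(M ／ {e}).closure X = M.closure (X ∪ {e}) \ {e}`
and `e ∈ M.closure (insert e X)`. `cnt M 1`: the independent sets with one element are the `{x}`,
`x` nonloop, and `x ∈ M.E` is a nonloop iff `x ∉ M.closure ∅`. -/
def T_OUT : Prop := ∀ (α : Type) [Fintype α] [DecidableEq α] (M : Matroid α),
  cnt M 0 = 1 ∧ cnt M 1 = out M ∅ ∧ cnt M 1 = (nl M).card ∧
  (∀ (e : α) (X : Finset α), e ∈ M.E → out (M ／ {e}) X = out M (insert e X)) ∧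
  (∀ e : α, M.IsNonloop e → cnt (M ／ {e}) 1 = out M {e}) ∧
  (∀ T : Finset α, M.Indep (T : Set α) →
    out M T = (Finset.univ.filter fun x => x ∉ T ∧ M.Indep ((insert x T : Finset α) : Set α)).card)

/-- CTR. Contraction of a nonloop. PROOF. From the description of the independent sets of
`M ／ {e}`; an independent set of size `r + 1` extends `{e}` (augmentation, `HasRk`). -/
def T_CTR : Prop := ∀ (α : Type) [Fintype α] [DecidableEq α] (M : Matroid α) (e : α),
  M.IsNonloop e → (∀ A : Finset α, (M ／ {e}).Indep (A : Set α) ↔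
      e ∉ A ∧ M.Indep ((insert e A : Finset α) : Set α)) ∧
    (∀ r, HasRk M (r + 1) → HasRk (M ／ {e}) r) ∧
    (∀ r s, Ext M (r + 1) s → Ext (M ／ {e}) r s)

/-- HS. Handshake. PROOF. Count the pairs `(e, A)`, `e ∈ A`, `A` independent with `k + 1` elements;
for a nonloop `e` the sets `A \ {e}` are exactly the independent `k`-sets of `M ／ {e}`. -/
def T_HS : Prop := ∀ (α : Type) [Fintype α] [DecidableEq α] (M : Matroid α) (k : ℕ),
  (k + 1) * cnt M (k + 1) = ∑ e ∈ nl M, cnt (M ／ {e}) k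

/-- DEL. Deletion and contraction. PROOF. Split the independent `(k+1)`-sets by `e ∈ A`. For
`HasRk` and `Ext` of the deletion: if all independent `(r-1)`-sets have at least `s + 1 ≥ 2`
elements outside their closure then a basis avoiding `e` exists (a basis `B` containing `e`:
`B \ {e}` has a second element outside its closure), and the independent sets of `M ＼ {e}` are
the independent sets of `M` without `e`; `out` drops by at most one. -/
def T_DEL : Prop := ∀ (α : Type) [Fintype α] [DecidableEq α] (M : Matroid α) (e : α),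
  M.IsNonloop e → (∀ k, cnt M (k + 1) = cnt (M ＼ {e}) (k + 1) + cnt (M ／ {e}) k) ∧
    (∀ r s, 1 ≤ r → 1 ≤ s → HasRk M r → Ext M r (s + 1) → HasRk (M ＼ {e}) r ∧ Ext (M ＼ {e}) r s)

/-- PAR. Parallel classes. PROOF. `y ∈ cls M x` implies `M.closure {y} = M.closure {x}`. Pairs
`{u, v}` with `u ∈ cls M x`, `v ∈ nl M \ cls M x` are independent, pairs inside `cls M x` are
not. The last statement: `2 * cnt M 2` counts ordered independent pairs. -/
def T_PAR : Prop := ∀ (α : Type) [Fintype α] [DecidableEq α] (M : Matroid α),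
  (∀ x y : α, M.IsNonloop x → M.IsNonloop y → y ∈ M.closure {x} → M.closure {y} = M.closure {x}) ∧
  (∀ x y : α, M.IsNonloop x → M.IsNonloop y → (y ∉ M.closure {x} ↔ x ≠ y ∧ M.Indep {x, y})) ∧
  (∀ x : α, M.IsNonloop x → (cls M x).card + out M {x} = cnt M 1) ∧
  (∀ x : α, M.IsNonloop x → cnt M 2 = (cls M x).card * out M {x} +
    (Finset.univ.filter fun A : Finset α => M.Indep (A : Set α) ∧ A.card = 2 ∧
      ∀ y ∈ A, y ∉ M.closure {x}).card) ∧
  2 * cnt M 2 = ∑ e ∈ nl M, out M {e}

/-- R2. Pairs when every class misses at least three nonloops. PROOF. Let `x` have a class of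
maximal size `w`, `j = out M {x} ≥ 3`, `n = w + j`, `F_2 = w j + E'` (T_PAR), so
`F_2 - 3n + 9 = (w-3)(j-3) + E'`. If `w ≥ 3` this is `≥ E' ≥ 0`; with three pairwise independent
elements two of them, `y, z`, are outside the class of `x`, and inside the `j` elements outside
the class the pairs (class of `y`) x (rest) give `E' ≥ w_y (j - w_y) ≥ j - 1 ≥ 2`. If `w ≤ 2`:
`2 F_2 = ∑ out M {f}` with `out M {f} ≥ max 3 (n - 2)`, so `2 F_2 ≥ n max(3, n-2)`: `n ≥ 4`, and
`n = 4`: every class has one element (`w + 3 ≤ n`), `2 F_2 = 12`; `n = 5`: `2 F_2 ≥ 15` so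
`F_2 ≥ 8`; `n ≥ 6`: `n (n-2) ≥ 6 n - 14`. (No nonloop at all: trivial.) -/
def T_R2 : Prop := ∀ (α : Type) [Fintype α] [DecidableEq α] (M : Matroid α),
  (∀ f : α, M.IsNonloop f → 3 ≤ out M {f}) → 3 * cnt M 1 ≤ cnt M 2 + 9 ∧
    ∀ x y z : α, x ≠ y → y ≠ z → x ≠ z → M.Indep {x, y} → M.Indep {y, z} → M.Indep {x, z} →
      3 * cnt M 1 ≤ cnt M 2 + 7

/-- H2. `h_1 ≤ h_2` for rank at least three without coloops (only the statement on pairs is
used), and `F_1 ≤ F_2` for rank at least two. PROOF. First: `x` with a class of maximal size `w`,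
`j = out M {x}`. `j ≥ 3`: some `f` is outside the class, and at least two elements are outside
`M.closure {x, f}`. `F_2 = w j + E'`; every `f` of the `j` elements is independent of at least two
others of them (those outside `M.closure {x, f}`), so `E' ≥ j` and
`F_2 - 3n + 6 ≥ (w-2)(j-3) ≥ 0` if `w ≥ 2`; if `w = 1` then `F_2 = n(n-1)/2` and
`n(n-1) - 6n + 12 = (n-3)(n-4) ≥ 0`. Second: `2 F_2 = ∑ out M {e} ≥ 2 n`. -/
def T_H2 : Prop := ∀ (α : Type) [Fintype α] [DecidableEq α] (M : Matroid α),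
  ((∃ x y : α, x ≠ y ∧ M.Indep {x, y}) →
    (∀ x y : α, x ≠ y → M.Indep {x, y} → 2 ≤ out M {x, y}) → 3 * cnt M 1 ≤ cnt M 2 + 6) ∧
  ((∀ f : α, M.IsNonloop f → 2 ≤ out M {f}) → cnt M 1 ≤ cnt M 2)

/-- SER. A hyperplane missing exactly two elements `e, f`, not parallel. PROOF. `T` independent
with `r - 1` elements, `E \ closure T = {e, f}`. For an independent `A ⊆ closure T` the sets
`A ∪ {e}`, `A ∪ {f}` are independent. So the independent `(k+2)`-sets of `M` without `e, f`: call
their number `a (k+2)`; containing exactly one of `e, f`: `a (k+1)` each; containing both: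
`cnt (M ／ {f} ／ {e}) k`. And in `M ／ {f}`: the `(k+1)`-sets without `e`: `a (k+1)`, with `e`:
`cnt (M ／ {f} ／ {e}) k`. (`a k` = number of independent `k`-sets inside `M.closure T`; `e` is a
nonloop of `M ／ {f}`.) -/
def T_SER : Prop := ∀ (α : Type) [Fintype α] [DecidableEq α] (M : Matroid α) (T : Finset α)
  (e f : α), M.Indep (T : Set α) → e ≠ f → M.Indep {e, f} →
  (Finset.univ.filter fun x => x ∈ M.E ∧ x ∉ M.closure (T : Set α)) = {e, f} →
  ∃ a : ℕ → ℕ, a 0 = 1 ∧ (∀ k, cnt M (k + 2) = a (k + 2) + 2 * a (k + 1) +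
      cnt (M ／ {f} ／ {e}) k) ∧ cnt M 1 = a 1 + 2 ∧
    (∀ k, cnt (M ／ {f}) (k + 1) = a (k + 1) + cnt (M ／ {f} ／ {e}) k) ∧
    ∀ k, T.card < k → a k = 0

/-- K0. The Brown-Colbourn inequality at `t = -1/2`. Uses T_OUT, T_CTR, T_DEL, T_SER. PROOF.
Induction on `cnt M 1` (for all `r`). `r = 0`: the sum is `1`. `r ≥ 1`: if `T` is independent with
`r - 1` elements and `out M T = 2`, `E \ closure T = {e, f}`: if `{e, f}` is independent (`r ≥ 2`)
then by T_SER `I_M(t) = (1 + 2t) a(t) + t² I_{M/f/e}(t)` and at `t = -1/2` this is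
`(1/4) I_{M/f/e}(-1/2)`, and `M/f/e` has rank `r - 2` and again `Ext 2` (and fewer nonloops). If
`e, f` are parallel then no independent set contains both, `I_M = (1 + 2t) a(t)`: `0`. If all
`out M T ≥ 3`: delete a nonloop `e` (T_DEL):
`(-1)^r I_M = (-1)^r I_{M\e} + (1/2) (-1)^(r-1) I_{M/e}` at `t = -1/2`, both are `≥ 0`. -/
def T_K0 : Prop := ∀ (α : Type) [Fintype α] [DecidableEq α] (M : Matroid α) (r : ℕ),
  HasRk M r → Ext M r 2 →
  0 ≤ (-1 : ℝ) ^ r * ∑ k ∈ Finset.range (r + 1), (cnt M k : ℝ) * (-1 / 2) ^ k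

end Pool.Agent.RLM
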