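import Pool.Agent.RLM.Targets1

set_option autoImplicit false

/-!
# RLM targets 2: rank three

`F_k = cnt M k`, `n = F_1`. `h`-vector in rank three: `h_1 = n - 3`, `h_2 = F_2 - 2n + 3`,
`h_3 = F_3 - F_2 + n - 1`. Loops are allowed; `E` below means the set of nonloops.
-/

open scoped Classical Matroid

noncomputable section

namespace Pool.Agent.RLM

/-- CB. Claim B: `h_3 ≥ h_2` for connected cosimple rank three. Uses T_OUT, T_CTR, T_HS, T_R2,
T_PAR. PROOF. For a nonloop `f` the matroid `M ／ {f}` satisfies the hypothesis of T_R2 with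
`n_f = out M {f}`, so `cnt (M ／ {f}) 2 ≥ 3 n_f - 9 + ε_f`, where `ε_f = 2` if there are
`x, y, z` with `{f, x, y}, {f, y, z}, {f, x, z}` independent (three lines through `f`) and
`ε_f = 0` otherwise. Sum (T_HS, T_PAR): `3 F_3 ≥ 6 F_2 - 9 n + ∑ ε_f`. It is enough that
`∑ ε_f ≥ 10` (then `3 (F_3 - 2 F_2 + 3 n) ≥ 10`, so `≥ 4`). `n ≥ 5` (an independent pair and three
elements outside its closure). If all `f` have three lines: `∑ ε_f ≥ 2n ≥ 10`. Otherwise let `p` have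
no three lines. Take `q ∉ closure {p}`, `A₂ = E \ closure {p, q}` (at least 3 elements),
`q' ∈ A₂`; `A₂ ⊆ closure {p, q'}` (otherwise three lines), so with
`A₁ = E \ closure {p, q'}` we have `A₁ ∪ closure {p} = closure {p, q}`,
`A₂ ∪ closure {p} = closure {p, q'}`, at least three elements in each. Every `f ∈ A₁` has three
lines: `A₂` contains `y, y'` not parallel (otherwise the class of `y ∈ A₂` meets all independent
triples, since the rest is in the line `closure {p, q}`: DiscA), and `{f, p, y}, {f, p, y'}` are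
independent (`y, y' ∉ closure {p, q} = closure {p, f}`) and `{f, y, y'}` is
(`closure {y, y'} = closure {p, q'}` does not contain `f`). Same for `A₂`. So `∑ ε_f ≥ 12`. -/
def T_CB : Prop := ∀ (α : Type) [Fintype α] [DecidableEq α] (M : Matroid α),
  (∃ x y : α, x ≠ y ∧ M.Indep {x, y}) → Ext M 3 3 → ¬ DiscA M 3 →
  2 * cnt M 2 + 4 ≤ cnt M 3 + 3 * cnt M 1

/-- LC2. A lower bound for `VV` from one class. Uses T_CB, T_PAR, T_OUT. PROOF. `w = (cls M p).card`,
`m = out M {p}`, `n = w + m`. By T_CB `VV ≥ 2 F_2 - 9 n + 36`. For `f ∉ closure {p}`: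
`out M {f} ≥ w + 3` (the class of `p`, and the at least three elements outside
`closure {p, f}`). So `2 F_2 = ∑ out M {f} ≥ w m + m (w + 3)`, and
`m (2w + 3) - 9 w - 9 m + 36 = (2m - 9)(w - 3) + 9`. -/
def T_LC2 : Prop := ∀ (α : Type) [Fintype α] [DecidableEq α] (M : Matroid α) (p : α),
  (∃ x y : α, x ≠ y ∧ M.Indep {x, y}) → Ext M 3 3 → ¬ DiscA M 3 → M.IsNonloop p →
  (2 * (out M {p} : ℤ) - 9) * ((cls M p).card - 3) + 9 ≤ VV M

/-- LC. `VV ≥ 8` for connected cosimple rank three. Uses T_CB, T_LC2, T_PAR, T_OUT, T_HS, T_CTR.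
PROOF. Let `p` have a class of maximal size `w`, `m = out M {p}`, `n = w + m`; `m ≥ 4`.
(i) `m ≥ 5`, `w ≥ 3`: T_LC2. (ii) `m ≥ 5`, `w ≤ 2`: `out M {f} ≥ m` for all `f`, so
`2 F_2 ≥ n m` and by T_CB `VV ≥ 2 F_2 - 9n + 36 ≥ n (m - 9) + 36`: for `w = 1` this is
`m² - 8m + 27 ≥ 11`, for `w = 2` it is `m² - 7m + 18 ≥ 8` (`m ≥ 5`). (iii) `m = 4`: for
`f ∉ closure {p}` the line `closure {p, f}` contains only `f` and the class of `p` (it misses
three of the four elements). (a) `out M {f} ≥ w + 3` for the four `f`, `out = 4` on the class of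
`p`: `2 F_2 ≥ 4w + 4(w+3)`, so by T_CB `VV ≥ 12 - w`. (b) `F_2 ≤ 4w + 6`;
`cnt (M ／ {p'}) 2 ≥ 6` for `p'` in the class of `p` (all pairs of the four elements), and
`cnt (M ／ {f}) 2 ≥ 3w` for the four `f` (pairs of an element of the class of `p` and an element
outside `closure {p, f}`), so `3 F_3 ≥ 18 w` by T_HS and `VV ≥ 18w - 4(4w+6) + 24 = 2w`. Now
`max (12 - w) (2 w) ≥ 8`. -/
def T_LC : Prop := ∀ (α : Type) [Fintype α] [DecidableEq α] (M : Matroid α),
  (∃ x y : α, x ≠ y ∧ M.Indep {x, y}) → Ext M 3 3 → ¬ DiscA M 3 → 8 ≤ VV M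

/-- D3. Disconnected cosimple rank three. Uses T_OUT, T_CTR, T_R2, T_PAR. PROOF. `a` from the
hypothesis, `A = cls M a`, `α = A.card`, `L` = nonloops outside `closure {a}`, `ℓ = out M {a}`.
No independent triple is inside `L`, and an independent triple has exactly one element in `A`. For an
independent pair `{x, y}` in `L`: `L ⊆ closure {x, y}`, `a ∉ closure {x, y}` (otherwise the rank
is two), so `{a', x, y}` is independent for all `a' ∈ A`. With `g` = number of independent pairs in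
`L` = `cnt (M ／ {a}) 2`: `n = α + ℓ`, `F_2 = α ℓ + g`, `F_3 = α g`,
`VV = (3α - 4) g - 4 α ℓ + 24`. `α ≥ 3` (outside `closure {x, y}` there are only elements of
`A`). For `f ∈ L` at least three elements are outside `closure {a, f}`; all of them in `L`: so
`2 g ≥ 3 ℓ`, `ℓ ≥ 4`, and T_R2 for `M ／ {a}`: `g ≥ 3 ℓ - 9`. `ℓ = 4`: `g ≥ 6`, `VV ≥ 2α`.
`ℓ = 5`: `g ≥ 8`, `VV ≥ 4α - 8 ≥ 4`. `ℓ = 6`: `g ≥ 9`: `VV ≥ 3α - 12 ≥ 0` for `α ≥ 4`, and for
`α = 3`: `VV = 5 g - 48`, `≥ 2` if `g ≥ 10`, `= -3` if `g = 9`. `ℓ ≥ 7`: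
`VV ≥ (3α-4)(3ℓ-9) - 4αℓ + 24 = α (5ℓ - 27) - 12 ℓ + 60 ≥ 3ℓ - 21 ≥ 0`. -/
def T_D3 : Prop := ∀ (α : Type) [Fintype α] [DecidableEq α] (M : Matroid α) (a : α),
  HasRk M 3 → Ext M 3 3 → M.IsNonloop a →
  (∀ T : Finset α, M.Indep (T : Set α) → T.card = 3 → ∃ x ∈ T, x ∈ M.closure {a}) →
  0 ≤ VV M ∨ (VV M = -3 ∧ (cls M a).card = 3 ∧ out M {a} = 6 ∧ cnt M 2 = 27 ∧ cnt M 3 = 27)

/-- NC3. Rank three, connected, with a line missing exactly two elements. Uses T_SER, T_OUT,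
T_CTR, T_PAR. PROOF. `E \ closure {x₀, y₀} = {x, y}`. `x, y` are not parallel (otherwise their
class meets all bases: DiscA). T_SER with `T = {x₀, y₀}`: `L` = nonloops in `closure {x₀, y₀}`,
`lam = L.card = a 1`, `E2 = a 2`, `a 3 = 0`. `M ／ {y} ／ {x}` has rank one, its nonloops are the
elements outside `closure {x, y}`, all in `L`: `R = lam - uz` of them, `uz` = number of elements of
`L` in `closure {x, y}`; `R ≥ 2` by `Ext M 3 2`. So `n = lam + 2`, `F_2 = E2 + 2 lam + 1`,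
`F_3 = 2 E2 + R`. The `R` elements of `L` outside `closure {x, y}` are not all parallel (otherwise
everything else is in the line `closure {x, y}`: DiscA), so they contain at least `R - 1` independent
pairs, and the pairs (element of `L` in `closure {x, y}`, one of the `R`) are independent (`uz`
of the elements are in one class, the intersection of two lines):
`E2 ≥ uz R + R - 1`. -/
def T_NC3 : Prop := ∀ (α : Type) [Fintype α] [DecidableEq α] (M : Matroid α) (x₀ y₀ : α),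
  HasRk M 3 → Ext M 3 2 → ¬ DiscA M 3 → x₀ ≠ y₀ → M.Indep {x₀, y₀} → out M {x₀, y₀} = 2 →
  ∃ R uz E2 : ℕ, 2 ≤ R ∧ cnt M 1 = R + uz + 2 ∧ cnt M 2 = E2 + 2 * (R + uz) + 1 ∧
    cnt M 3 = 2 * E2 + R ∧ uz * R + R ≤ E2 + 1

/-- C3. `h_1 ≤ h_3` for connected rank three. Uses T_CB, T_H2, T_NC3. PROOF. If all independent
pairs have `out ≥ 3`: T_CB and T_H2: `F_3 - F_2 ≥ F_2 + 4 - 3n ≥ -2`. Otherwise T_NC3:
`F_3 + 2 - F_2 = E2 + R + 2 - 2 (R + uz) - 1 = E2 + 1 - R - 2 uz ≥ uz R + R - R - 2 uz =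
uz (R - 2) ≥ 0`. -/
def T_C3 : Prop := ∀ (α : Type) [Fintype α] [DecidableEq α] (M : Matroid α),
  HasRk M 3 → Ext M 3 2 → ¬ DiscA M 3 → cnt M 2 ≤ cnt M 3 + 2

/-- R3C. The key inequality for the series extension, cosimple case. Uses T_CB, T_R2, T_PAR,
T_OUT, T_CTR. `n, F2, F3` the counts of `M`, `m = out M {e}`, `g = cnt (M ／ {e}) 2`. PROOF.
`w = n - m = (cls M e).card ≥ 1`. `m ≥ 4` (one element and three outside its line with `e`).
`F2 ≥ w m + g` (T_PAR; pairs independent in `M ／ {e}` are pairs outside the class). So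
`Y := F2 - 3n - g + m + 6 ≥ (w - 2)(m - 3)`. T_CB: `γ := F3 - F2 + n - 1 ≥ β := F2 - 2n + 3`, T_R2:
`F2 ≥ 3n - 7` (there are three pairwise independent elements: the rank is three), so
`β ≥ n - 4`. The first factor `γ - β' - 1 = γ - β + m - 3 ≥ m - 3` (`β' = F2 - m - 2n + 5`). If
`w ≥ 2` all terms are nonnegative. If `w = 1`: `m = n - 1`,
`(γ-1)(γ-β'-1) + (n-5) Y ≥ (γ-1)(n-4) - (n-5)(n-4) = (n-4)(γ-n+4) ≥ 0`. -/
def T_R3C : Prop := ∀ (α : Type) [Fintype α] [DecidableEq α] (M : Matroid α) (e : α),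
  HasRk M 3 → Ext M 3 3 → ¬ DiscA M 3 → M.IsNonloop e →
  0 ≤ ((cnt M 3 : ℤ) - cnt M 2 + cnt M 1 - 2) *
      ((cnt M 3 : ℤ) - 2 * cnt M 2 + 3 * cnt M 1 + out M {e} - 7) +
    ((cnt M 1 : ℤ) - 5) * ((cnt M 2 : ℤ) - 3 * cnt M 1 - cnt (M ／ {e}) 2 + out M {e} + 6)

/-- R3N. The key inequality, noncosimple case. Uses T_SER, T_OUT, T_CTR, T_PAR, T_NC3 (its proof).
PROOF. Notation of T_NC3: line `L` with `lam = R + uz` nonloops, `{x, y}` outside, `a = lam - 1`,
`γ = F3 - F2 + n - 1 = E2 - uz`, `β' = F2 - m - 2n + 5`, `Y = F2 - 3n - g + m + 6`; the claim is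
`0 ≤ (γ - 1)(γ - β' - 1) + (a - 2) Y`.
(1) `e = x` (or `y`): `m = lam + 1`, `g = E2 + R` (pairs independent in `M ／ {x}`: `{y, v}` with
`v ∈ L` outside `closure {x, y}`, and the independent pairs in `L`). `γ - β' - 1 = a - 1 - uz =: s ≥ 0`,
`Y = 1 + uz - a = -s`; the expression is `s (E2 - uz - a + 1)` and
`E2 ≥ uz R + R - 1 ≥ uz + a - 1` since `a = R + uz - 1`, `R ≥ 2`.
(2) `e ∈ L`, `w = (cls M e).card` (the class is inside `L`), `δ = 1` if `e ∈ closure {x, y}`,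
otherwise `0`. `m = lam - w + 2`, `g = 2 (lam - w) + 1 - δ`, `E2 = w (lam - w) + E'` (`E'` pairs in
`L` outside the class), `Y = E2 - 2 lam + w + 2 + δ`, `γ - β' - 1 = lam - 1 - w - uz`.
(2a) `δ = 0`: `ρ = lam - w - uz ≥ 1` (the `R` elements are not in one class). The first factor is
`ρ - 1 ≥ 0`, and `Y = (w - 2)(lam - 1 - w) + E'`. If `w ≥ 2` fine. If `w = 1`: `Y = E' - (a - 1)`;
if the `a` elements of `L` outside the class of `e` are in at least two classes then `E' ≥ a - 1`;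
otherwise `E' = 0`, `uz = 0` and the expression is `(a-1)² - (a-2)(a-1) ≥ 0`.
(2b) `δ = 1`: `uz = w` (the class of `e` is the intersection of the two lines), `R = lam - w`,
`r = R - 1 ≥ 1`, `E' ≥ r`, `a = w + r`. `Y = (w-2) r + E' + 1 ≥ (w-1) r + 1 > 0`,
`γ - β' - 1 = r - w`. If `r ≥ w` fine. If `w > r` the expression is
`-(w r - 1 + E')(w - r) + (w + r - 2)((w - 2) r + E' + 1)`, increasing in `E'` (coefficient
`2r - 2`), and at `E' = r` it is `2 w (r-1)² + 2 (r-1) ≥ 0`. -/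
def T_R3N : Prop := ∀ (α : Type) [Fintype α] [DecidableEq α] (M : Matroid α) (e x₀ y₀ : α),
  HasRk M 3 → Ext M 3 2 → ¬ DiscA M 3 → 5 ≤ cnt M 1 → x₀ ≠ y₀ → M.Indep {x₀, y₀} →
  out M {x₀, y₀} = 2 → M.IsNonloop e →
  0 ≤ ((cnt M 3 : ℤ) - cnt M 2 + cnt M 1 - 2) *
      ((cnt M 3 : ℤ) - 2 * cnt M 2 + 3 * cnt M 1 + out M {e} - 7) +
    ((cnt M 1 : ℤ) - 5) * ((cnt M 2 : ℤ) - 3 * cnt M 1 - cnt (M ／ {e}) 2 + out M {e} + 6)

end Pool.Agent.RLM
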