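import Pool.Agent.RLM.Targets2

set_option autoImplicit false

/-!
# RLM targets 3: rank four

`F_k = cnt M k`. `E` = set of nonloops, `cl` = closure. `p` is called bad if `DiscA (M ／ {p}) 3`.
-/

open scoped Classical Matroid

noncomputable section

namespace Pool.Agent.RLM

/-- The line through `p` and `a` is a separator of `M ／ {p}`: it meets all triples that are
independent in `M ／ {p}`. -/
def LS {α : Type} [DecidableEq α] (M : Matroid α) (p a : α) : Prop :=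
  p ≠ a ∧ M.Indep {p, a} ∧ ∀ T : Finset α, p ∉ T → M.Indep ((insert p T : Finset α) : Set α) →
    T.card = 3 → ∃ x ∈ T, x ∈ M.closure {p, a}

/-- BAD. PROOF. Unfold: nonloops `a` of `M ／ {p}` are the `a ≠ p` with `{p, a}` independent,
closure of `{a}` in `M ／ {p}` is `M.closure {p, a} \ {p}`. -/
def T_BAD : Prop := ∀ (α : Type) [Fintype α] [DecidableEq α] (M : Matroid α) (p : α),
  M.IsNonloop p → (DiscA (M ／ {p}) 3 ↔ ∃ a, LS M p a)

/-- ND2. Uses T_BAD. PROOF. `L₁ = cl {p, a} = cl {p, a'}`, `R = E \ L₁`. LS says: `{p} ∪ R` contains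
no independent 4-set containing `p`, so `{p} ∪ R` has rank at most three (extend `{p}` to a basis of
it), `R` is not empty (rank four) and `a'` is not in `cl ({p} ∪ R)` (otherwise
`L₁ ⊆ cl ({p} ∪ R)` and the rank of `M` is three). Suppose LS `M a' x`, `L' = cl {a', x}`,
`R' = E \ L'`, `Π' = cl ({a'} ∪ R')` of rank at most three. (i) `x ∈ L₁`: `L' = L₁`, `R' = R`. If `R` has rank
three then `R` spans `{p} ∪ R` and `{a'} ∪ R`, so `p, a' ∈ cl R`, everything is in `cl R`: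
contradiction. So `R` has rank at most two, every independent triple meets `L₁`: DiscB.
(ii) `x ∉ L₁`. Then `p ∉ L'` (otherwise `L' = L₁`), so `p ∈ R'`, `L₁ ⊆ Π'`. Claim: every
nonloop `y ∉ cl {x}` is in `Π'`, which gives DiscA `M 4` (class of `x`). If `y ∉ L'` clear. If
`y ∈ cl {a'}` clear. Otherwise `y ∈ L'`, `y ∉ cl {x}`, `y ∉ cl {a'}`: `y ∉ L₁` (`L' ∩ L₁ = cl {a'}`:
a second point would give `L' = L₁`), so `x, y ∈ R`, `a' ∈ cl {x, y} ⊆ cl R`: contradiction. -/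
def T_ND2 : Prop := ∀ (α : Type) [Fintype α] [DecidableEq α] (M : Matroid α) (p a a' : α),
  HasRk M 4 → ¬ DiscA M 4 → ¬ DiscB M → LS M p a → M.IsNonloop a' → a' ∈ M.closure {p, a} →
  a' ∉ M.closure {p} → ¬ DiscA (M ／ {a'}) 3

/-- ND3. Uses T_BAD, T_ND2. PROOF. `L₁ = cl {p, a}`, `R = E \ L₁`, `Π = cl ({p} ∪ R)` has rank three and
`L₁ ∩ Π = cl {p}` (as in T_ND2). `b ∈ R` bad: LS `M b x`, `L' = cl {b, x}`, `R' = E \ L'`,
`Π' = cl ({b} ∪ R')` of rank three, `L' ∩ Π' = cl {b}`. By T_ND2 (for `b, x`) the elements of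
`L' \ cl {b}` are not bad; `p` is bad (LS `M p a`) and `p ∉ cl {b}`, so `p ∉ L'`, `p ∈ Π'`. No
element `a₁` of `L₁ \ cl {p}` is in `L'`: by `¬ DiscA M 4` there is `a₂ ∈ L₁ \ cl {p}` with
`a₂ ∉ cl {a₁}` (otherwise all nonloops outside `cl {a₁}` are in `Π`), `a₂ ∉ L'` (otherwise
`L' = L₁ ∌ b`), so `a₂ ∈ Π'`, `L₁ = cl {p, a₂} ⊆ Π'`, `a₁ ∈ L' ∩ Π' = cl {b}`: contradiction. So
`L₁ ⊆ Π'`. Let `c ∈ R`, `c ∉ cl {p, b}`. If `c ∉ L'` then `c ∈ Π'`, `{p, b, c}` is an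
independent subset of `Π` and of `Π'`, so `Π = Π' ⊇ L₁`: contradiction. So `c ∈ L' \ cl {b}` is
not bad. -/
def T_ND3 : Prop := ∀ (α : Type) [Fintype α] [DecidableEq α] (M : Matroid α) (p a b c : α),
  HasRk M 4 → ¬ DiscA M 4 → ¬ DiscB M → LS M p a → M.IsNonloop b → b ∉ M.closure {p, a} →
  DiscA (M ／ {b}) 3 → M.IsNonloop c → c ∉ M.closure {p, a} → c ∉ M.closure {p, b} →
  ¬ DiscA (M ／ {c}) 3

/-- SIX. At least six good points. Uses T_ND2, T_ND3, T_BAD, T_OUT. PROOF. If there is no bad point: a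
basis and two more elements outside the closure of three of its elements: at least six nonloops.
Let `p` be bad, LS `M p a`, `L₁, R, Π` as in T_ND3. `Π` is spanned by an independent triple; at least
three elements are outside `Π`; they are in `L₁ \ cl {p}`, good by T_ND2. For `b ∈ R` (`R` is not
empty) `{p, a, b}` is independent and at least three elements are outside its closure; they are in
`R` and outside `cl {p, b}`. If some `b ∈ R` is bad, the three elements for this `b` are good by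
T_ND3; if none is bad, they are good as well. -/
def T_SIX : Prop := ∀ (α : Type) [Fintype α] [DecidableEq α] (M : Matroid α),
  HasRk M 4 → Ext M 4 3 → ¬ DiscA M 4 → ¬ DiscB M →
  6 ≤ ((nl M).filter fun e => ¬ DiscA (M ／ {e}) 3).card

/-- T33. The exceptional type. Uses T_D3, T_ND2, T_LC2, T_BAD, T_OUT, T_CTR, T_PAR. PROOF. `p` bad, LS
`M p a`, `N = M ／ {p}`. By T_D3 (`VV N < 0`): `(cls N a).card = 3`, `out N {a} = 6`,
`cnt N 1 = 9`, `cnt N 2 = 27`. For a nonloop `f` of `N` outside `closure {a}` the elements of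
`N` outside `N.closure {a, f}` are at least three, so `(cls N f).card ≤ 3`; also
`(cls N a).card = 3`, and `2 * 27 = ∑ out N {f} = ∑ (9 - (cls N f).card)` over nine `f`, so
all classes have exactly three elements: there are three classes in `N`, and every independent triple of
`N` has one element in each class. Hence LS `M p f` for every nonloop `f ∉ cl {p}`, and by
T_ND2 (with `a = a' = f`) `f` is good. For such an `f` put `N' = M ／ {f}` (`HasRk 3`, `Ext 3 3`,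
not DiscA). `out N' {p} = out M {p, f} = 6`. The class of `p` in `N'` contains `cls M p` and at
least one more element: some nonloop `f'` of `cl {p, f} \ cl {p}` not parallel to `f` (otherwise
the class of `f` meets all independent 4-sets of `M`: the rest is in `cl ({p} ∪ (E \ cl {p, f}))` which
has rank three). So `(cls N' p).card ≥ (cls M p).card + 1` and T_LC2:
`VV N' ≥ 3 ((cls M p).card + 1 - 3) + 9`. -/
def T_T33 : Prop := ∀ (α : Type) [Fintype α] [DecidableEq α] (M : Matroid α) (p a : α),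
  HasRk M 4 → Ext M 4 3 → ¬ DiscA M 4 → ¬ DiscB M → LS M p a → VV (M ／ {p}) < 0 →
  out M {p} = 9 ∧ ∀ f : α, M.IsNonloop f → f ∉ M.closure {p} →
    ¬ DiscA (M ／ {f}) 3 ∧ 3 * ((cls M p).card : ℤ) + 3 ≤ VV (M ／ {f})

/-- LA. Claim A: `h_4 ≥ h_2 - 1` for connected cosimple rank four. Uses T_SIX, T_T33, T_LC, T_D3,
T_BAD, T_HS, T_CTR, T_OUT, T_PAR. PROOF. `∑ VV (M ／ {e}) = 12 F_4 - 12 F_3 + 24 F_1` over the
nonloops `e` (T_HS for `k = 3, 2`). It is enough that the sum is `≥ 48`. `VV (M ／ {e}) ≥ 8`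
for good `e` (T_LC; `M ／ {e}` has `HasRk 3`, `Ext 3 3`), and for bad `e` it is `≥ 0` or `= -3`
(T_D3). If it is `≥ 0` for all bad `e`: T_SIX. Otherwise let `p` be bad with `VV = -3`: T_T33: nine
good elements outside `cl {p}` with `VV ≥ 3 w + 3`, `w = (cls M p).card ≥ 1`, and the `w`
elements of `cls M p` have `VV ≥ -3`: `9 (3 w + 3) - 3 w ≥ 51`. -/
def T_LA : Prop := ∀ (α : Type) [Fintype α] [DecidableEq α] (M : Matroid α),
  HasRk M 4 → Ext M 4 3 → ¬ DiscA M 4 → ¬ DiscB M → cnt M 3 + 4 ≤ cnt M 4 + 2 * cnt M 1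

/-- SR. The series case. Uses T_SER, T_OUT, T_CTR, T_PAR. PROOF. `E \ cl T = {e, f}`; `e, f` are not
parallel (otherwise their class meets all bases: DiscA `M 4`). `N = M ／ {f}`. The counts: T_SER
(`a 4 = 0`, since `cl T` has rank three): with `g = cnt (N ／ {e}) 2`, `m = out N {e} = cnt (N ／ {e}) 1`:
`cnt N 1 = a 1 + 1`, `cnt N 2 = a 2 + m`, `cnt N 3 = a 3 + g`, `cnt M 1 = a 1 + 2`,
`cnt M 2 = a 2 + 2 a 1 + 1`, `cnt M 3 = a 3 + 2 a 2 + m`, `cnt M 4 = 2 a 3 + g`. Not DiscA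
`N 3`: suppose the class (in `N`) of `x` meets all `N`-independent triples. If `e` is parallel to
`x` in `N`: `cl {f, x} = cl {e, f}`, and every `M`-independent triple `S` inside `cl T` meets
`cl {e, f}` (`S` is `N`-independent since `f ∉ cl T`), and triples containing `e` or `f` meet it: DiscB. Otherwise
`x ∈ cl T` (nonloops outside `cl T` are `e, f`), and the class of `x` in `N` is its class in
`M` (for `y ∈ cl T`, `y ∈ cl {f, x}` implies `y ∈ cl {x}`; and `e` is not in it). Every independent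
4-set of `M` contains `e` or `f`; if it contains `f` then the rest is an `N`-independent triple; if it is
`{e} ∪ S` with `S ⊆ cl T` then `S` is `N`-independent: it meets `cl {x}`: DiscA `M 4`. -/
def T_SR : Prop := ∀ (α : Type) [Fintype α] [DecidableEq α] (M : Matroid α) (T : Finset α),
  HasRk M 4 → Ext M 4 2 → ¬ DiscA M 4 → ¬ DiscB M → M.Indep (T : Set α) → T.card = 3 →
  out M T = 2 → ∃ e f : α, e ≠ f ∧ M.Indep {e, f} ∧ M.IsNonloop f ∧ (M ／ {f}).IsNonloop e ∧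
    HasRk (M ／ {f}) 3 ∧ Ext (M ／ {f}) 3 2 ∧ ¬ DiscA (M ／ {f}) 3 ∧
    cnt M 1 = cnt (M ／ {f}) 1 + 1 ∧
    cnt M 2 + out (M ／ {f}) {e} + 1 = cnt (M ／ {f}) 2 + 2 * cnt (M ／ {f}) 1 ∧
    cnt M 3 + cnt (M ／ {f} ／ {e}) 2 + out (M ／ {f}) {e} =
      cnt (M ／ {f}) 3 + 2 * cnt (M ／ {f}) 2 ∧
    cnt M 4 + cnt (M ／ {f} ／ {e}) 2 = 2 * cnt (M ／ {f}) 3

/-- The coefficients of `I_M(-(1+v)/2) * 16` and the Hurwitz determinant. -/
def k3 (F1 F2 F3 F4 : ℤ) : ℤ := 4 * F4 - 2 * F3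

/-- see `k3` -/
def k2 (F1 F2 F3 F4 : ℤ) : ℤ := 6 * F4 - 6 * F3 + 4 * F2

/-- see `k3` -/
def k1 (F1 F2 F3 F4 : ℤ) : ℤ := 4 * F4 - 6 * F3 + 8 * F2 - 8 * F1

/-- see `k3` -/
def k0 (F1 F2 F3 F4 : ℤ) : ℤ := F4 - 2 * F3 + 4 * F2 - 8 * F1 + 16

/-- The Hurwitz conditions. -/
def Hw (F1 F2 F3 F4 : ℤ) : Prop :=
  0 < F4 ∧ 0 < k3 F1 F2 F3 F4 ∧ 0 ≤ k2 F1 F2 F3 F4 ∧ 0 ≤ k1 F1 F2 F3 F4 ∧ 0 ≤ k0 F1 F2 F3 F4 ∧
  0 ≤ k3 F1 F2 F3 F4 * k2 F1 F2 F3 F4 * k1 F1 F2 F3 F4 -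
    k3 F1 F2 F3 F4 ^ 2 * k0 F1 F2 F3 F4 - k1 F1 F2 F3 F4 ^ 2 * F4

/-- ALG. Algebra. PROOF. Put `a = F1 - 4`, `b = F2 - 3 F1 + 6`, `c = F3 - 2 F2 + 3 F1 - 4`,
`d = F4 - F3 + F2 - F1 + 1`. Then `k3 = 4 (d-1) + 2 (c-a)`, `k1 = 4 (d-1) - 2 (c-a)`,
`F4 = 1+a+b+c+d`, `k0 = 1-a+b-c+d`, `k2 = 6 + 6 d - 2 b`, and the determinant is
`64 ((d-1)² (1+d-b) + (c-a)(a d - c))`. The hypotheses: `a ≥ 2`, `c ≥ a`, `k1 ≥ 0`,
`(a-2)(c-a) ≥ (d-1)(b-d-1)`. So `d ≥ 1` and `(d-1)² (1+d-b) + (c-a)(a d - c) ≥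
-(a-2)(d-1)(c-a) + (c-a)(a d - c) = (c-a)(a + 2(d-1) - c) ≥ 0`. -/
def T_ALG : Prop := ∀ F1 F2 F3 F4 : ℤ, 6 ≤ F1 → 0 < F4 → 0 < k3 F1 F2 F3 F4 →
  0 ≤ k2 F1 F2 F3 F4 → 0 ≤ k1 F1 F2 F3 F4 → 0 ≤ k0 F1 F2 F3 F4 → 0 ≤ F3 - 2 * F2 + 2 * F1 →
  (F4 - F3 + F2 - F1) * (F2 - 3 * F1 + 6 - (F4 - F3 + F2 - F1 + 1) - 1) ≤
    (F1 - 6) * (F3 - 2 * F2 + 2 * F1) → Hw F1 F2 F3 F4

/-- M4C. Uses T_LA, T_ALG, T_K0, T_HS, T_CTR, T_H2, T_OUT, T_PAR. PROOF. Cosimple case. `F1 ≥ 6`. `F4 > 0`.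
`4 F4 = ∑ out M T` over the independent triples `T` (or: `4 F4 = ∑ cnt (M ／ {e}) 3`, three times ..),
so `4 F4 ≥ 3 F3`, `F3 > 0`, `k3 > 0`. `k1 = ∑ (F3 - 2 F2 + 4 F1 - 8)(M ／ {e}) ≥ 0` (T_K0 for `r = 3`), `k0 ≥ 0` (T_K0,
`r = 4`), `F3 - 2 F2 + 2 F1 ≥ 0`: `3 F3 = ∑ cnt (M ／ {e}) 2 ≥ ∑ (3 out M {e} - 6) = 6 F2 - 6 F1`
(T_H2). T_LA: `d ≥ b - 1` (notation of T_ALG), so `k2 = 6 + 6 d - 2 b ≥ 4 + 4 d ≥ 0`
(`d ≥ 1` from `k1 ≥ 0`, `c ≥ a`), and the last hypothesis of T_ALG has left side `≤ 0`, right side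
`≥ 0`. -/
def T_M4C : Prop := ∀ (α : Type) [Fintype α] [DecidableEq α] (M : Matroid α),
  HasRk M 4 → Ext M 4 3 → ¬ DiscA M 4 → ¬ DiscB M → Hw (cnt M 1) (cnt M 2) (cnt M 3) (cnt M 4)

/-- M4S. Uses T_SR, T_R3C, T_R3N, T_C3, T_ALG, T_K0, T_HS, T_CTR, T_H2, T_OUT, T_PAR. PROOF. Series case,
`F1 ≥ 6`. T_SR gives `e, f`, `N = M ／ {f}`, `n = cnt N 1 = F1 - 1 ≥ 5`, `m, g`. In the notation of
T_ALG and T_R3C: `a = n - 3`, `γ = h_3(N)`, `β = h_2(N)`: `d = γ`, `b = β' + a`,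
`c = γ - t + β`, `t = g - m + 1`, where `β' = β - m + 2`. The last hypothesis of T_ALG is the inequality
of T_R3C / T_R3N (identity: `(a-2)(c-a) - (d-1)(b-d-1) = (γ-1)(γ-β'-1) + (a-2) Y`). T_C3:
`d = γ ≥ a ≥ 2`. As in T_M4C: `k1 ≥ 0`, `k0 ≥ 0` (T_K0), `c ≥ a` (T_H2); `k3 = 4(d-1) + 2(c-a) > 0`.
`k2 ≥ 0`: T_K0 for `N` gives `β ≤ γ + a - 1`, `m ≥ 2`, so `b = β - m + 2 + a ≤ γ + 2a - 1 ≤ 3 γ - 1`.
`F4 > 0`: rank four. -/
def T_M4S : Prop := ∀ (α : Type) [Fintype α] [DecidableEq α] (M : Matroid α) (T : Finset α),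
  HasRk M 4 → Ext M 4 2 → ¬ DiscA M 4 → ¬ DiscB M → 6 ≤ cnt M 1 → M.Indep (T : Set α) →
  T.card = 3 → out M T = 2 → Hw (cnt M 1) (cnt M 2) (cnt M 3) (cnt M 4)

end Pool.Agent.RLM
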