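import Pool.Agent.RLM.Targets3
import Pool.Agent.MatRel.Defs

set_option autoImplicit false

/-!
# RLM targets 4: stability, separations, the final theorem
-/

open scoped Classical Matroid

noncomputable section

namespace Pool.Agent.RLM

/-- HW4. Hurwitz in degree four (closed version). PROOF. Put `v = -(2 t + 1)`, `Re v > 0`;
`16 (1 + F1 t + ..) = F4 v⁴ + k3 v³ + k2 v² + k1 v + k0 =: K`. `O = k3 v² + k1 ≠ 0` (`v²` is not a
real number `≤ 0`). `q = k2 - F4 k1 / k3`; the last condition of `Hw` says `k1 q ≥ k3 k0 ≥ 0`. If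
`q > 0`: `K = v O ((F4/k3) v + 1) + (q v² + k0)`, so
`K / (v O) = (F4/k3) v + 1 + (q v² + k0) / (v O)`, and the last term is `0` or the inverse of
`(k3/q) v + (k1 - k3 k0/q) / (q v + k0 / v)`, which has positive real part (`k1 - k3 k0/q ≥ 0`,
`Re (q v + k0/v) > 0`). So `Re (K/(v O)) ≥ 1`. If `q ≤ 0`: `k1 q = 0` and `k0 = 0`; `q < 0` would give
`k1 = 0`, `q = k2 ≥ 0`; so `q = 0`, `K / (v O) = (F4/k3) v + 1`. -/
def T_HW4 : Prop := ∀ F1 F2 F3 F4 : ℤ, Hw F1 F2 F3 F4 → ∀ t : ℂ, t.re < -1 / 2 →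
  1 + (F1 : ℂ) * t + F2 * t ^ 2 + F3 * t ^ 3 + F4 * t ^ 4 ≠ 0

/-- HW3. Degrees three, two, one. PROOF. As T_HW4: `v = -(2 t + 1)`, `-8 (1 + F1 t + F2 t² + F3 t³) =
F3 v³ + (3 F3 - 2 F2) v² + (3 F3 - 4 F2 + 4 F1) v + (F3 - 2 F2 + 4 F1 - 8)`
`= v (F3 v² + k1) + (k2 v² + k0)`, `k2 v² + k0 ≠ 0`, and the quotient of the two terms is
`(F3/k2) v + (k1 - F3 k0/k2) / (k2 v + k0 / v)`, real part `≥ 0`. Degree two:
`4 (1 + F1 t + F2 t²) = F2 v² + 2 (F2 - F1) v + (F2 - 2 F1 + 4)`, nonnegative coefficients.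
Degree one: `t = -1/F1 ≥ -1/2`. -/
def T_HW3 : Prop :=
  (∀ F1 F2 F3 : ℤ, 0 < F3 → 0 < 3 * F3 - 2 * F2 → 0 ≤ 3 * F3 - 4 * F2 + 4 * F1 →
    0 ≤ F3 - 2 * F2 + 4 * F1 - 8 →
    F3 * (F3 - 2 * F2 + 4 * F1 - 8) ≤ (3 * F3 - 2 * F2) * (3 * F3 - 4 * F2 + 4 * F1) →
    ∀ t : ℂ, t.re < -1 / 2 → 1 + (F1 : ℂ) * t + F2 * t ^ 2 + F3 * t ^ 3 ≠ 0) ∧
  (∀ F1 F2 : ℤ, 0 < F2 → F1 ≤ F2 → 0 ≤ F2 - 2 * F1 + 4 →
    ∀ t : ℂ, t.re < -1 / 2 → 1 + (F1 : ℂ) * t + F2 * t ^ 2 ≠ 0) ∧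
  (∀ F1 : ℤ, 2 ≤ F1 → ∀ t : ℂ, t.re < -1 / 2 → 1 + (F1 : ℂ) * t ≠ 0)

/-- PRD. Products. PROOF. `A ⊆ E` with `r(A) + r(E \ A) ≤ r(M)`: `I` is independent iff
`I ∩ A` and `I \ A` are: extend both to bases of `A` and `E \ A`; the union spans, has at most
`i + j ≤ r` elements, so it is a basis. So `cnt M k = ∑ cnt (M ↾ A) a * cnt (M ↾ (E \ A)) (k - a)`
(bijection `I ↦ (I ∩ A, I \ A)`), counts above the rank are zero, and `r ≤ 4`. -/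
def T_PRD : Prop := ∀ (α : Type) [Fintype α] [DecidableEq α] (M : Matroid α) (A : Set α)
  (i j r : ℕ), A ⊆ M.E → HasRk M r → HasRk (M ↾ A) i → HasRk (M ↾ (M.E \ A)) j → i + j ≤ r →
  r ≤ 4 → ∀ t : ℂ, IP M t = IP (M ↾ A) t * IP (M ↾ (M.E \ A)) t

/-- SEP. Separations. PROOF. DiscA: `A = M.closure {a}`, rank one; an independent set with `r`
elements in the rest is excluded, so the rest has rank `≤ r - 1`, and `≥ 1` since `r ≥ 2`. DiscB: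
`A = M.closure {a, b}`, ranks two and `≤ 2`. Not `Ext M r 2`: `A = M.closure T`, rank `r - 1`, and
at most one element is outside. (`HasRk (M ↾ X) i` for `i` = rank of `X`; `i` exists for every
`X` since `α` is finite.) -/
def T_SEP : Prop := ∀ (α : Type) [Fintype α] [DecidableEq α] (M : Matroid α) (r : ℕ),
  2 ≤ r → HasRk M r → (DiscA M r ∨ (r = 4 ∧ DiscB M) ∨ ¬ Ext M r 2) →
  ∃ (A : Set α) (i j : ℕ), A ⊆ M.E ∧ 1 ≤ i ∧ 1 ≤ j ∧ i + j ≤ r ∧ HasRk (M ↾ A) i ∧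
    HasRk (M ↾ (M.E \ A)) j

/-- CRC. Circuits. PROOF. `r + 1` nonloops: a basis `B` and one element `x` (with `Ext M r 2` there
are at least `r + 1`). For `b ∈ B` two elements are outside the closure of `B \ {b}`: they are
`b` and `x`, so `(B \ {b}) ∪ {x}` is independent. So all `k`-subsets, `k ≤ r`, of the nonloops are
independent: `cnt M k = (r+1).choose k`, `IP M t = (1 + t)^(r+1) - t^(r+1)`; a zero has
`|1 + t| = |t|`, `Re t = -1/2`. -/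
def T_CRC : Prop := ∀ (α : Type) [Fintype α] [DecidableEq α] (M : Matroid α) (r : ℕ),
  (r = 3 ∨ r = 4) → HasRk M r → Ext M r 2 → cnt M 1 ≤ r + 1 → St M

/-- M3. Rank three, connected. Uses T_CRC, T_C3, T_H2, T_K0, T_HW3, T_OUT. PROOF. `n = cnt M 1 ≤ 4`: T_CRC.
`n ≥ 5`: in terms of `a = n - 3 ≥ 2`, `β = F2 - 2n + 3 ≥ a` (T_H2), `γ = F3 - F2 + n - 1 ≥ a` (T_C3),
`k0 = γ - β + a - 1 ≥ 0` (T_K0): `3 F3 - 2 F2 = -3 - a + β + 3γ > 0`, `3 F3 - 4 F2 + 4 F1 =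
3 - a - β + 3γ ≥ 4 - 2a + 2γ > 0`, and the last condition of T_HW3 is
`8 (γ (γ - a) + β - 1) ≥ 0`. `cnt M 4 = 0`. -/
def T_M3 : Prop := ∀ (α : Type) [Fintype α] [DecidableEq α] (M : Matroid α),
  HasRk M 3 → Ext M 3 2 → ¬ DiscA M 3 → St M

/-- M4. Rank four, connected. PROOF. `cnt M 1 ≤ 5`: T_CRC; otherwise T_M4C or T_M4S (some
independent triple has `out = 2`), and T_HW4. -/
def T_M4 : Prop := ∀ (α : Type) [Fintype α] [DecidableEq α] (M : Matroid α),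
  HasRk M 4 → Ext M 4 2 → ¬ DiscA M 4 → ¬ DiscB M → St M

/-- ALL. Uses T_M3, T_M4, T_SEP, T_PRD, T_HW3, T_K0, T_H2, T_OUT. PROOF. Induction on the rank `r ≤ 4`.
`r = 0`: `IP = 1`. `r = 1`: `IP = 1 + n t`, `n = 1` gives `t = -1`, `n ≥ 2` T_HW3. `r ≥ 2`: if T_SEP
applies, both factors have smaller rank, T_PRD. Otherwise `Ext M r 2`, not DiscA, (not DiscB):
`r = 2`: T_HW3 with T_H2 (`F1 ≤ F2`) and T_K0; `r = 3`: T_M3; `r = 4`: T_M4. -/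
def T_ALL : Prop := ∀ (α : Type) [Fintype α] [DecidableEq α] (M : Matroid α) (r : ℕ),
  r ≤ 4 → HasRk M r → St M

/-- FIN. The final theorem. Uses T_ALL and the landed matroid `Pool.Agent.MatRel.M13` (rank ten) for
`rMin`. PROOF. `rel M z = (1 - z)^m * IP M (z / (1 - z))` for `z ≠ 1` (`indepCount M k = cnt M k`,
zero for `k > 4`). `|z| > 1`, `t = z/(1-z)`: `1 + t = 1/(1-z)`, `|t| = |z| |1 + t| > |1 + t|`, so
`Re t < -1/2`; and `t ≠ -1`. -/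
def T_FIN : Prop := (∀ (α : Type) [Finite α] (M : Matroid α), M.eRank ≤ 4 →
    ¬ MatRel.HasRootOutside M) ∧ 5 ≤ MatRel.rMin

end Pool.Agent.RLM
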